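import Pool.Agent.KPI.Long1

/-!
# A path with complete graphs attached to its vertices
-/

namespace Pool.Agent.KPI
open SimpleGraph

/-- The vertices: `m` main vertices, and `c i` cliques with `s i` vertices at the main
vertex `i`. -/
abbrev HV (m : ℕ) (c s : Fin m → ℕ) : Type := Fin m ⊕ (Σ i : Fin m, Fin (c i) × Fin (s i))

/-- The main vertices form a path; each clique at `i` is completely joined to `i`. -/
def hang (m : ℕ) (c s : Fin m → ℕ) : SimpleGraph (HV m c s) where
  Adj x y := match x, y with
    | .inl i, .inl j => i.val + 1 = j.val ∨ j.val + 1 = i.val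
    | .inl i, .inr a => i = a.1
    | .inr a, .inl i => i = a.1
    | .inr a, .inr b => a.1 = b.1 ∧ a.2.1.val = b.2.1.val ∧ a.2.2.val ≠ b.2.2.val
  symm := ⟨by
    rintro (i | a) (j | b) h
    · exact h.symm
    · exact h
    · exact h
    · exact ⟨h.1.symm, h.2.1.symm, h.2.2.symm⟩⟩
  loopless := ⟨by
    rintro (i | a) h
    · rcases h with h | h <;> omega
    · exact h.2.2 rfl⟩

variable {m : ℕ} {c s : Fin m → ℕ}

@[simp] lemma hang_ll (i j : Fin m) :
    (hang m c s).Adj (.inl i) (.inl j) ↔ i.val + 1 = j.val ∨ j.val + 1 = i.val := Iff.rfl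
@[simp] lemma hang_lr (i : Fin m) (a : Σ i : Fin m, Fin (c i) × Fin (s i)) :
    (hang m c s).Adj (.inl i) (.inr a) ↔ i = a.1 := Iff.rfl
@[simp] lemma hang_rl (i : Fin m) (a : Σ i : Fin m, Fin (c i) × Fin (s i)) :
    (hang m c s).Adj (.inr a) (.inl i) ↔ i = a.1 := Iff.rfl
@[simp] lemma hang_rr (a b : Σ i : Fin m, Fin (c i) × Fin (s i)) :
    (hang m c s).Adj (.inr a) (.inr b) ↔
      a.1 = b.1 ∧ a.2.1.val = b.2.1.val ∧ a.2.2.val ≠ b.2.2.val := Iff.rfl

/-- The main vertex to which a vertex belongs. -/
def idx : HV m c s → ℕ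
  | .inl i => i.val
  | .inr a => a.1.val

/-- The clique number `α` at the main vertex `i`. -/
def Kl (i α : ℕ) : Set (HV m c s) :=
  {x | ∃ a : Σ i : Fin m, Fin (c i) × Fin (s i), x = .inr a ∧ a.1.val = i ∧ a.2.1.val = α}

/-- The clique of a vertex. -/
def Kc : HV m c s → Set (HV m c s)
  | .inl _ => ∅
  | .inr a => Kl a.1.val a.2.1.val

lemma idx_step {x y : HV m c s} (h : (hang m c s).Adj x y) (hlt : idx x < idx y) :
    ∃ i j : Fin m, x = .inl i ∧ y = .inl j ∧ i.val + 1 = j.val := by
  rcases x with i | a <;> rcases y with j | b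
  · refine ⟨i, j, rfl, rfl, ?_⟩
    rw [hang_ll] at h
    change i.val < j.val at hlt
    omega
  · rw [hang_lr] at h
    change i.val < b.1.val at hlt
    rw [h] at hlt
    omega
  · rw [hang_rl] at h
    change a.1.val < j.val at hlt
    rw [h] at hlt
    omega
  · rw [hang_rr] at h
    change a.1.val < b.1.val at hlt
    rw [h.1] at hlt
    omega

/-- A path between two vertices of a set with only one vertex of contact stays in the set. -/
lemma stay {V : Type*} {G : SimpleGraph V} {A : Set V} {c : V}
    (hA : ∀ u v, G.Adj u v → u ∈ A → v ∉ A → u = c) {x y : V} (p : G.Walk x y) (hp : p.IsPath)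
    (hx : x ∈ A) (hy : y ∈ A) : ∀ z ∈ p.support, z ∈ A := by
  intro z hz
  by_contra hzA
  obtain ⟨p1, p2, rfl⟩ := split2 hz
  obtain ⟨d, hd, hd1, hd2⟩ := p1.exists_boundary_dart A hx hzA
  obtain ⟨e, he, he1, he2⟩ := p2.reverse.exists_boundary_dart A hy hzA
  have h1 : d.fst = c := hA _ _ d.adj hd1 hd2
  have h2 : e.fst = c := hA _ _ e.adj he1 he2
  have h3 : c ∈ p1.support := h1 ▸ p1.dart_fst_mem_support_of_mem_darts hd
  have h4 : c ∈ p2.reverse.support := h2 ▸ p2.reverse.dart_fst_mem_support_of_mem_darts he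
  rw [Walk.support_reverse, List.mem_reverse] at h4
  have h5 := meet hp h3 h4
  rw [h1, h5] at hd1
  exact hzA hd1

lemma idx_le_of_path {x y : HV m c s} (p : (hang m c s).Walk x y) (hp : p.IsPath) (k : ℕ)
    (hx : idx x ≤ k) (hy : idx y ≤ k) : ∀ z ∈ p.support, idx z ≤ k := by
  by_cases hk : k < m
  · refine stay (A := {z | idx z ≤ k}) (c := .inl ⟨k, hk⟩) ?_ p hp hx hy
    intro u v huv hu hv
    have hu' : idx u ≤ k := hu
    have hv' : k < idx v := lt_of_not_ge hv
    obtain ⟨i, j, rfl, rfl, hij⟩ := idx_step huv (by omega)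
    change i.val ≤ k at hu'
    change k < j.val at hv'
    congr 1
    apply Fin.ext
    change i.val = k
    omega
  · intro z _
    rcases z with i | a
    · change i.val ≤ k
      omega
    · change a.1.val ≤ k
      have := a.1.isLt
      omega

lemma le_idx_of_path {x y : HV m c s} (p : (hang m c s).Walk x y) (hp : p.IsPath) (k : ℕ)
    (hx : k ≤ idx x) (hy : k ≤ idx y) : ∀ z ∈ p.support, k ≤ idx z := by
  by_cases hk : k < m
  · refine stay (A := {z | k ≤ idx z}) (c := .inl ⟨k, hk⟩) ?_ p hp hx hy
    intro u v huv hu hv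
    have hu' : k ≤ idx u := hu
    have hv' : idx v < k := lt_of_not_ge hv
    obtain ⟨i, j, rfl, rfl, hij⟩ := idx_step huv.symm (by omega)
    change k ≤ j.val at hu'
    change i.val < k at hv'
    congr 1
    apply Fin.ext
    change j.val = k
    omega
  · exfalso
    rcases x with i | a
    · change k ≤ i.val at hx
      omega
    · change k ≤ a.1.val at hx
      have := a.1.isLt
      omega

lemma notmem_Kl {x y : HV m c s} (p : (hang m c s).Walk x y) (hp : p.IsPath) (i α : ℕ)
    (hi : i < m) (hx : x ∉ Kl i α) (hy : y ∉ Kl i α) : ∀ z ∈ p.support, z ∉ Kl i α := by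
  refine stay (A := {z | z ∉ Kl i α}) (c := .inl ⟨i, hi⟩) ?_ p hp hx hy
  intro u v huv hu hv
  have hv' : v ∈ Kl i α := not_not.1 hv
  obtain ⟨a, rfl, ha1, ha2⟩ := hv'
  rcases u with j | b
  · rw [hang_lr] at huv
    congr 1
    apply Fin.ext
    change j.val = i
    rw [huv, ha1]
  · exfalso
    apply hu
    rw [hang_rr] at huv
    exact ⟨b, rfl, by rw [huv.1, ha1], by rw [huv.2.1, ha2]⟩

lemma support_sub {x y : HV m c s} (p : (hang m c s).Walk x y) (hp : p.IsPath) :
    ∀ z ∈ p.support, (∃ k : Fin m, z = .inl k ∧ min (idx x) (idx y) ≤ k.val ∧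
      k.val ≤ max (idx x) (idx y)) ∨ z ∈ Kc x ∨ z ∈ Kc y := by
  intro z hz
  rcases z with k | a
  · left
    refine ⟨k, rfl, ?_, ?_⟩
    · exact le_idx_of_path p hp _ (min_le_left _ _) (min_le_right _ _) _ hz
    · exact idx_le_of_path p hp _ (le_max_left _ _) (le_max_right _ _) _ hz
  · right
    by_contra hcon
    push Not at hcon
    have hmem : (Sum.inr a : HV m c s) ∈ Kl a.1.val a.2.1.val := ⟨a, rfl, rfl, rfl⟩
    refine notmem_Kl p hp a.1.val a.2.1.val a.1.isLt ?_ ?_ _ hz hmem
    · intro h
      obtain ⟨b, rfl, hb1, hb2⟩ := h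
      apply hcon.1
      exact ⟨a, rfl, hb1.symm, hb2.symm⟩
    · intro h
      obtain ⟨b, rfl, hb1, hb2⟩ := h
      apply hcon.2
      exact ⟨a, rfl, hb1.symm, hb2.symm⟩

/-- The size of the clique of a vertex. -/
def Ks : HV m c s → ℕ
  | .inl _ => 0
  | .inr a => s a.1

lemma Kc_inr (a : Σ i : Fin m, Fin (c i) × Fin (s i)) :
    (Kc (.inr a) : Set (HV m c s)) =
      (fun e : Fin (s a.1) => (Sum.inr ⟨a.1, a.2.1, e⟩ : HV m c s)) '' Set.univ := by
  ext x
  constructor
  · rintro ⟨b, rfl, hb1, hb2⟩
    obtain ⟨i, α, e⟩ := a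
    obtain ⟨j, β, f⟩ := b
    have hij : j = i := Fin.ext hb1
    subst hij
    have hαβ : β = α := Fin.ext hb2
    subst hαβ
    exact ⟨f, trivial, rfl⟩
  · rintro ⟨e, -, rfl⟩
    exact ⟨_, rfl, rfl, rfl⟩

lemma Kc_ncard (x : HV m c s) : (Kc x).ncard = Ks x := by
  rcases x with i | a
  · exact Set.ncard_empty _
  · rw [Kc_inr, Set.ncard_image_of_injective _ ?_, Set.ncard_univ, Nat.card_eq_fintype_card,
      Fintype.card_fin]
    · rfl
    · intro e f h
      simpa using h

lemma length_le {x y : HV m c s} (p : (hang m c s).Walk x y) (hp : p.IsPath) :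
    p.length ≤ (max (idx x) (idx y) - min (idx x) (idx y)) + Ks x + Ks y := by
  classical
  have h1 : ({z | z ∈ p.support} : Set (HV m c s)) ⊆
      ((fun k : Fin m => (Sum.inl k : HV m c s)) ''
        {k : Fin m | min (idx x) (idx y) ≤ k.val ∧ k.val ≤ max (idx x) (idx y)}) ∪
      (Kc x ∪ Kc y) := by
    intro z hz
    rcases support_sub p hp z hz with ⟨k, rfl, hk⟩ | h | h
    · exact Or.inl ⟨k, hk, rfl⟩
    · exact Or.inr (Or.inl h)
    · exact Or.inr (Or.inr h)
  have h2 := Set.ncard_le_ncard h1 (Set.toFinite _)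
  rw [support_ncard hp] at h2
  have h3 := Set.ncard_union_le ((fun k : Fin m => (Sum.inl k : HV m c s)) ''
        {k : Fin m | min (idx x) (idx y) ≤ k.val ∧ k.val ≤ max (idx x) (idx y)}) (Kc x ∪ Kc y)
  have h4 := Set.ncard_union_le (Kc x) (Kc y)
  rw [Kc_ncard, Kc_ncard] at h4
  have h5 : ((fun k : Fin m => (Sum.inl k : HV m c s)) ''
        {k : Fin m | min (idx x) (idx y) ≤ k.val ∧ k.val ≤ max (idx x) (idx y)}).ncard ≤
        max (idx x) (idx y) - min (idx x) (idx y) + 1 := by
    refine (Set.ncard_image_le (Set.toFinite _)).trans ?_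
    have h6 : ({k : Fin m | min (idx x) (idx y) ≤ k.val ∧ k.val ≤ max (idx x) (idx y)}).ncard =
        (Fin.val '' {k : Fin m | min (idx x) (idx y) ≤ k.val ∧
          k.val ≤ max (idx x) (idx y)}).ncard :=
      (Set.ncard_image_of_injective _ Fin.val_injective).symm
    rw [h6]
    have h7 : (Fin.val '' {k : Fin m | min (idx x) (idx y) ≤ k.val ∧
          k.val ≤ max (idx x) (idx y)}) ⊆
        (Finset.Icc (min (idx x) (idx y)) (max (idx x) (idx y)) : Finset ℕ) := by
      rintro _ ⟨k, hk, rfl⟩
      simp only [Finset.coe_Icc, Set.mem_Icc]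
      exact hk
    refine (Set.ncard_le_ncard h7 (Set.toFinite _)).trans ?_
    rw [Set.ncard_coe_finset, Nat.card_Icc]
    have := min_le_max (a := idx x) (b := idx y)
    omega
  omega

lemma le_length {x y : HV m c s} (p : (hang m c s).Walk x y) :
    max (idx x) (idx y) - min (idx x) (idx y) ≤ p.length := by
  induction p with
  | nil => simp
  | @cons x y z h p ih =>
    rw [Walk.length_cons]
    have h1 : idx x ≤ idx y + 1 := by
      by_cases hlt : idx y < idx x
      · obtain ⟨i, j, rfl, rfl, hij⟩ := idx_step h.symm hlt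
        change j.val ≤ i.val + 1
        omega
      · omega
    have h2 : idx y ≤ idx x + 1 := by
      by_cases hlt : idx x < idx y
      · obtain ⟨i, j, rfl, rfl, hij⟩ := idx_step h hlt
        change j.val ≤ i.val + 1
        omega
      · omega
    omega

/-- The length of a path between two main vertices. -/
lemma main_length {i j : Fin m} (p : (hang m c s).Walk (.inl i) (.inl j)) (hp : p.IsPath) :
    p.length = max i.val j.val - min i.val j.val := by
  have h1 := length_le p hp
  have h2 := le_length p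
  change _ ≤ max i.val j.val - min i.val j.val + 0 + 0 at h1
  change max i.val j.val - min i.val j.val ≤ _ at h2
  omega

lemma main_up : ∀ (d : ℕ) (i j : Fin m), i.val + d = j.val →
    ∃ p : (hang m c s).Walk (.inl i) (.inl j), p.IsPath ∧ p.length = d ∧
      ∀ z ∈ p.support, i.val ≤ idx z := by
  intro d
  induction d with
  | zero =>
    intro i j hij
    have : i = j := Fin.ext (by omega)
    subst this
    refine ⟨Walk.nil, Walk.IsPath.nil, rfl, ?_⟩
    intro z hz
    rw [Walk.support_nil, List.mem_singleton] at hz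
    subst hz
    exact le_rfl
  | succ d ih =>
    intro i j hij
    have hi : i.val + 1 < m := by
      have := j.isLt
      omega
    obtain ⟨p, hp, hl, hs⟩ := ih ⟨i.val + 1, hi⟩ j (by change i.val + 1 + d = j.val; omega)
    have hadj : (hang m c s).Adj (.inl i) (.inl ⟨i.val + 1, hi⟩) := by
      rw [hang_ll]
      exact Or.inl rfl
    refine ⟨Walk.cons hadj p, ?_, ?_, ?_⟩
    · rw [Walk.cons_isPath_iff]
      refine ⟨hp, ?_⟩
      intro h
      have := hs _ h
      change i.val + 1 ≤ i.val at this
      omega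
    · rw [Walk.length_cons, hl]
    · intro z hz
      rw [Walk.support_cons, List.mem_cons] at hz
      rcases hz with rfl | hz
      · exact le_rfl
      · have := hs z hz
        change i.val + 1 ≤ idx z at this
        omega

lemma hang_connected (hm : 0 < m) : (hang m c s).Connected := by
  have : Nonempty (HV m c s) := ⟨.inl ⟨0, hm⟩⟩
  have h0 : ∀ x : HV m c s, (hang m c s).Reachable (.inl ⟨0, hm⟩) x := by
    have h1 : ∀ i : Fin m, (hang m c s).Reachable (.inl ⟨0, hm⟩) (.inl i) := by
      intro i
      obtain ⟨p, -⟩ := main_up (c := c) (s := s) i.val ⟨0, hm⟩ i (by simp)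
      exact ⟨p⟩
    rintro (i | a)
    · exact h1 i
    · refine (h1 a.1).trans ?_
      have : (hang m c s).Adj (.inl a.1) (.inr a) := by
        rw [hang_lr]
      exact this.reachable
  exact ⟨fun x y => (h0 x).symm.trans (h0 y)⟩

lemma deg_inr (a : Σ i : Fin m, Fin (c i) × Fin (s i)) :
    deg (hang m c s) (.inr a) = s a.1 := by
  classical
  unfold deg
  have h1 : (hang m c s).neighborSet (.inr a) = {Sum.inl a.1} ∪ (Kc (.inr a) \ {Sum.inr a}) := by
    ext x
    rcases x with i | b
    · constructor
      · intro h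
        left
        have h' : i = a.1 := h
        rw [h']
        exact Set.mem_singleton _
      · rintro (h | ⟨⟨b, hb, -⟩, -⟩)
        · have h' : i = a.1 := Sum.inl.inj h
          exact h'
        · exact absurd hb (by simp)
    · constructor
      · intro h
        right
        have h' : a.1 = b.1 ∧ a.2.1.val = b.2.1.val ∧ a.2.2.val ≠ b.2.2.val := h
        refine ⟨⟨b, rfl, by rw [h'.1], h'.2.1.symm⟩, ?_⟩
        intro he
        have he' : b = a := Sum.inr.inj he
        rw [he'] at h'
        exact h'.2.2 rfl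
      · rintro (h | ⟨⟨b', hb, hb1, hb2⟩, hne⟩)
        · exact absurd h (by simp)
        · have hb' : b = b' := Sum.inr.inj hb
          subst hb'
          change a.1 = b.1 ∧ a.2.1.val = b.2.1.val ∧ a.2.2.val ≠ b.2.2.val
          refine ⟨Fin.ext hb1.symm, hb2.symm, ?_⟩
          intro h3
          apply hne
          obtain ⟨i, α, e⟩ := a
          obtain ⟨j, β, f⟩ := b
          have hij : j = i := Fin.ext hb1
          subst hij
          have hαβ : β = α := Fin.ext hb2
          subst hαβ
          have hef : e = f := Fin.ext h3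
          subst hef
          rfl
  rw [h1, Set.ncard_union_eq ?_ (Set.toFinite _) (Set.toFinite _), Set.ncard_singleton]
  · have hmem : (Sum.inr a : HV m c s) ∈ Kc (.inr a) := ⟨a, rfl, rfl, rfl⟩
    have h2 := Set.ncard_sdiff_singleton_add_one hmem (Set.toFinite _)
    rw [Kc_ncard] at h2
    change _ = s a.1 at h2
    omega
  · rw [Set.disjoint_left]
    rintro x hx ⟨⟨b, hb, -⟩, -⟩
    rw [Set.mem_singleton_iff] at hx
    rw [hx] at hb
    exact absurd hb (by simp)

/-- The number of neighbours of a main vertex on the main path. -/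
noncomputable def ld (m : ℕ) (i : ℕ) : ℕ := if i = 0 ∨ i + 1 = m then 1 else 2

lemma line_ncard (hm : 2 ≤ m) (i : Fin m) :
    ({j : Fin m | i.val + 1 = j.val ∨ j.val + 1 = i.val} : Set (Fin m)).ncard = ld m i.val := by
  unfold ld
  by_cases h0 : i.val = 0
  · rw [if_pos (Or.inl h0)]
    have : ({j : Fin m | i.val + 1 = j.val ∨ j.val + 1 = i.val} : Set (Fin m)) =
        {⟨1, by omega⟩} := by
      ext j
      simp only [Set.mem_ofPred, Set.mem_singleton_iff, Fin.ext_iff]
      omega
    rw [this, Set.ncard_singleton]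
  · by_cases h1 : i.val + 1 = m
    · rw [if_pos (Or.inr h1)]
      have : ({j : Fin m | i.val + 1 = j.val ∨ j.val + 1 = i.val} : Set (Fin m)) =
          {⟨i.val - 1, by omega⟩} := by
        ext j
        have := j.isLt
        simp only [Set.mem_ofPred, Set.mem_singleton_iff, Fin.ext_iff]
        omega
      rw [this, Set.ncard_singleton]
    · rw [if_neg (by omega)]
      have hlt := i.isLt
      have : ({j : Fin m | i.val + 1 = j.val ∨ j.val + 1 = i.val} : Set (Fin m)) =
          {⟨i.val - 1, by omega⟩, ⟨i.val + 1, by omega⟩} := by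
        ext j
        simp only [Set.mem_ofPred, Set.mem_insert_iff, Set.mem_singleton_iff, Fin.ext_iff]
        omega
      rw [this, Set.ncard_pair]
      intro h
      have := Fin.ext_iff.1 h
      simp only at this
      omega

lemma deg_inl (hm : 2 ≤ m) (i : Fin m) :
    deg (hang m c s) (.inl i) = ld m i.val + c i * s i := by
  classical
  unfold deg
  have h1 : (hang m c s).neighborSet (.inl i) =
      ((fun j : Fin m => (Sum.inl j : HV m c s)) ''
        {j : Fin m | i.val + 1 = j.val ∨ j.val + 1 = i.val}) ∪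
      ((fun e : Fin (c i) × Fin (s i) => (Sum.inr ⟨i, e⟩ : HV m c s)) '' Set.univ) := by
    ext x
    rcases x with j | b
    · constructor
      · intro h
        left
        exact ⟨j, h, rfl⟩
      · rintro (⟨j', h, hj⟩ | ⟨e, -, he⟩)
        · have : j' = j := Sum.inl.inj hj
          subst this
          exact h
        · exact absurd he (by simp)
    · constructor
      · intro h
        right
        have h' : i = b.1 := h
        subst h'
        exact ⟨b.2, trivial, rfl⟩
      · rintro (⟨j', h, hj⟩ | ⟨e, -, he⟩)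
        · exact absurd hj (by simp)
        · have : (⟨i, e⟩ : Σ i : Fin m, Fin (c i) × Fin (s i)) = b := Sum.inr.inj he
          subst this
          rfl
  rw [h1, Set.ncard_union_eq ?_ (Set.toFinite _) (Set.toFinite _),
    Set.ncard_image_of_injective _ Sum.inl_injective, line_ncard hm,
    Set.ncard_image_of_injective _ ?_, Set.ncard_univ, Nat.card_eq_fintype_card,
    Fintype.card_prod, Fintype.card_fin, Fintype.card_fin]
  · intro e f h
    simpa using h
  · rw [Set.disjoint_left]
    rintro x ⟨j, -, rfl⟩ ⟨e, -, he⟩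
    exact absurd he (by simp)

lemma card_HV : Fintype.card (HV m c s) = m + ∑ i, c i * s i := by
  simp [HV, Fintype.card_sum, Fintype.card_sigma]

end Pool.Agent.KPI
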