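import Pool.Agent.KPI.Big1

/-!
# Realising all sets of bad lengths which contain a short initial interval
-/

namespace Pool.Agent.KPI
open SimpleGraph

/-- The sum of the two positions of a pair. -/
def sm (T i : ℕ) : ℕ := if i < T then 2 * (T / 2) else 2 * T + 2 * (T / 2) - 1

/-- The distance of a position from its partner. -/
def ds (T i : ℕ) : ℕ := (2 * i - sm T i) + (sm T i - 2 * i)

open Classical in
/-- Positions have the same label if and only if they form a chosen pair. -/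
noncomputable def tau (T : ℕ) (P : Set ℕ) (i : ℕ) : ℕ :=
  1 + if ds T i ∈ P then max i (sm T i - i) else i

lemma tau_pos (T : ℕ) (P : Set ℕ) (i : ℕ) : 1 ≤ tau T P i := by
  unfold tau
  omega

lemma tau_le {T L : ℕ} {P : Set ℕ} (hT : L + 3 ≤ T) (hP : ∀ q ∈ P, 1 ≤ q ∧ q ≤ L) {i : ℕ}
    (hi : i < 2 * T) : tau T P i ≤ 2 * T := by
  unfold tau
  split_ifs with h
  · have := hP _ h
    unfold ds sm at this
    unfold sm
    split_ifs at this ⊢ <;> omega
  · omega

lemma tau_eq {T L : ℕ} {P : Set ℕ} (hT : L + 3 ≤ T) (hP : ∀ q ∈ P, 1 ≤ q ∧ q ≤ L) {i j : ℕ}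
    (hij : i < j) (h : tau T P i = tau T P j) :
    1 ≤ i ∧ j + 2 ≤ 2 * T ∧ j - i ∈ P := by
  unfold tau at h
  by_cases hi : ds T i ∈ P
  · rw [if_pos hi] at h
    have hi' := hP _ hi
    by_cases hj : ds T j ∈ P
    · rw [if_pos hj] at h
      have hj' := hP _ hj
      have key : 1 ≤ i ∧ j + 2 ≤ 2 * T ∧ j - i = ds T i := by
        unfold ds sm at *
        split_ifs at * <;> omega
      refine ⟨key.1, key.2.1, ?_⟩
      rw [key.2.2]
      exact hi
    · rw [if_neg hj] at h
      exfalso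
      apply hj
      have key : ds T j = ds T i := by
        clear hj
        unfold ds sm at *
        split_ifs at * <;> omega
      rw [key]
      exact hi
  · rw [if_neg hi] at h
    exfalso
    split_ifs at h <;> omega

lemma exists_pair {T L : ℕ} {P : Set ℕ} (hT : L + 3 ≤ T) (hP : ∀ q ∈ P, 1 ≤ q ∧ q ≤ L) {q : ℕ}
    (hq : q ∈ P) : ∃ i, 1 ≤ i ∧ i + q + 2 ≤ 2 * T ∧ tau T P i = tau T P (i + q) := by
  have hq' := hP q hq
  rcases Nat.even_or_odd' q with ⟨a, ha | ha⟩
  · refine ⟨T / 2 - a, by omega, by omega, ?_⟩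
    have h1 : ds T (T / 2 - a) = q := by
      unfold ds sm
      split_ifs <;> omega
    have h2 : ds T (T / 2 - a + q) = q := by
      unfold ds sm
      split_ifs <;> omega
    unfold tau
    rw [if_pos (by rw [h1]; exact hq), if_pos (by rw [h2]; exact hq)]
    unfold sm
    split_ifs <;> omega
  · refine ⟨T + T / 2 - 1 - a, by omega, by omega, ?_⟩
    have h1 : ds T (T + T / 2 - 1 - a) = q := by
      unfold ds sm
      split_ifs <;> omega
    have h2 : ds T (T + T / 2 - 1 - a + q) = q := by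
      unfold ds sm
      split_ifs <;> omega
    unfold tau
    rw [if_pos (by rw [h1]; exact hq), if_pos (by rw [h2]; exact hq)]
    unfold sm
    split_ifs <;> omega

/-- The size of the cliques at position `i`. -/
def sz (t i : ℕ) : ℕ := i / (2 * t) + 1

lemma sz_le {t i : ℕ} (ht : 1 ≤ t) (hi : i < 2 * t ^ 2) : sz t i ≤ t := by
  unfold sz
  have : i / (2 * t) < t := by
    rw [Nat.div_lt_iff_lt_mul (by omega)]
    calc i < 2 * t ^ 2 := hi
      _ = t * (2 * t) := by ring
  omega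

lemma sz_near {t i j : ℕ} (ht : 1 ≤ t) (h : sz t i = sz t j) (hij : i ≤ j) :
    j - i + 1 ≤ 2 * t := by
  unfold sz at h
  have h1 : i / (2 * t) = j / (2 * t) := by omega
  have h2 := Nat.div_add_mod i (2 * t)
  have h3 := Nat.div_add_mod j (2 * t)
  have h4 := Nat.mod_lt j (show 0 < 2 * t by omega)
  rw [h1] at h2
  omega

/-- The number of cliques at position `i`. -/
noncomputable def cn (t C0 : ℕ) (P : Set ℕ) (i : ℕ) : ℕ :=
  if i = 0 then C0 else 2 * Nat.factorial t * tau (t ^ 2) P i / sz t i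

lemma cn_mul {t C0 : ℕ} {P : Set ℕ} (ht : 1 ≤ t) {i : ℕ} (hi : i < 2 * t ^ 2) :
    cn t C0 P i * sz t i = if i = 0 then C0 else 2 * Nat.factorial t * tau (t ^ 2) P i := by
  unfold cn
  by_cases h0 : i = 0
  · rw [if_pos h0, if_pos h0, h0]
    unfold sz
    simp
  · rw [if_neg h0, if_neg h0]
    refine Nat.div_mul_cancel ?_
    have h1 : sz t i ∣ Nat.factorial t := Nat.dvd_factorial (Nat.succ_pos _) (sz_le ht hi)
    exact Dvd.dvd.mul_right (Dvd.dvd.mul_left h1 2) _

variable {t L C0 : ℕ} {P : Set ℕ}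

/-- The graph of the construction. -/
noncomputable def big (t C0 : ℕ) (P : Set ℕ) :
    SimpleGraph (HV (2 * t ^ 2) (fun i => cn t C0 P i.val) (fun i => sz t i.val)) :=
  hang (2 * t ^ 2) (fun i => cn t C0 P i.val) (fun i => sz t i.val)

/-- The degree of the main vertex `i`. -/
noncomputable def md (t C0 : ℕ) (P : Set ℕ) (i : ℕ) : ℕ :=
  ld (2 * t ^ 2) i + if i = 0 then C0 else 2 * Nat.factorial t * tau (t ^ 2) P i

lemma deg_main (ht : 1 ≤ t) (i : Fin (2 * t ^ 2)) : deg (big t C0 P) (.inl i) = md t C0 P i := by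
  unfold big
  have h1 : 1 ≤ t ^ 2 := Nat.one_le_pow _ _ ht
  rw [deg_inl (by omega), cn_mul ht i.isLt]
  rfl

lemma md_big (hC : t ≤ C0) (i : ℕ) : t < md t C0 P i := by
  unfold md ld
  have h1 := Nat.self_le_factorial t
  have h2 := tau_pos (t ^ 2) P i
  have h3 : 2 * Nat.factorial t ≤ 2 * Nat.factorial t * tau (t ^ 2) P i :=
    Nat.le_mul_of_pos_right _ (by omega)
  split_ifs <;> omega

lemma md_eq (hT : L + 3 ≤ t ^ 2) (hP : ∀ q ∈ P, 1 ≤ q ∧ q ≤ L)
    (hC : 2 * Nat.factorial t * (2 * t ^ 2) + 2 ≤ C0) {i j : ℕ} (hij : i < j)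
    (hj : j < 2 * t ^ 2) (h : md t C0 P i = md t C0 P j) : j - i ∈ P := by
  unfold md at h
  have hf := Nat.factorial_pos t
  have hj0 : j ≠ 0 := by omega
  rw [if_neg hj0] at h
  by_cases hi0 : i = 0
  · exfalso
    rw [if_pos hi0] at h
    have h1 := tau_le hT hP hj
    have h2 : 2 * Nat.factorial t * tau (t ^ 2) P j ≤ 2 * Nat.factorial t * (2 * t ^ 2) :=
      Nat.mul_le_mul_left _ h1
    unfold ld at h
    split_ifs at h <;> omega
  · rw [if_neg hi0] at h
    have hi1 : ld (2 * t ^ 2) i = 2 := by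
      unfold ld
      rw [if_neg (by omega)]
    rw [hi1] at h
    by_cases hj1 : j + 1 = 2 * t ^ 2
    · exfalso
      have hl : ld (2 * t ^ 2) j = 1 := by
        unfold ld
        rw [if_pos (Or.inr hj1)]
      rw [hl] at h
      have h2 : (2 + 2 * Nat.factorial t * tau (t ^ 2) P i) % 2 = 0 := by
        rw [Nat.mul_assoc]
        omega
      have h3 : (1 + 2 * Nat.factorial t * tau (t ^ 2) P j) % 2 = 1 := by
        rw [Nat.mul_assoc]
        omega
      omega
    · have hl : ld (2 * t ^ 2) j = 2 := by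
        unfold ld
        rw [if_neg (by omega)]
      rw [hl] at h
      have h2 : 2 * Nat.factorial t * tau (t ^ 2) P i = 2 * Nat.factorial t * tau (t ^ 2) P j := by
        omega
      have h3 := Nat.eq_of_mul_eq_mul_left (by omega) h2
      exact (tau_eq hT hP hij h3).2.2

lemma badSet_big (ht : 1 ≤ t) (hT : L + 3 ≤ t ^ 2) (hP : ∀ q ∈ P, 1 ≤ q ∧ q ≤ L)
    (hP' : ∀ q, 1 ≤ q → q + 1 ≤ 4 * t → q ∈ P)
    (hC : 2 * Nat.factorial t * (2 * t ^ 2) + 2 ≤ C0) : badSet (big t C0 P) = P := by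
  have h1t : 1 ≤ t ^ 2 := Nat.one_le_pow _ _ ht
  have hCt : t ≤ C0 := by
    have h1 := Nat.self_le_factorial t
    have h2 : Nat.factorial t ≤ Nat.factorial t * (2 * t ^ 2) :=
      Nat.le_mul_of_pos_right _ (by omega)
    have h3 : 2 * Nat.factorial t * (2 * t ^ 2) = 2 * (Nat.factorial t * (2 * t ^ 2)) := by ring
    omega
  ext q
  constructor
  · rintro ⟨x, y, hxy, hd, hp⟩
    have hq1 := hp.pos hxy
    obtain ⟨p, hp, hl⟩ := hp
    rcases x with i | a <;> rcases y with j | b
    · rw [deg_main ht, deg_main ht] at hd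
      have h1 : q = max i.val j.val - min i.val j.val := by
        rw [← hl]
        exact main_length p hp
      rcases lt_trichotomy i.val j.val with h | h | h
      · have h2 := md_eq hT hP hC h j.isLt hd
        have h3 : q = j.val - i.val := by omega
        rw [h3]
        exact h2
      · exact absurd (congrArg Sum.inl (Fin.ext h)) hxy
      · have h2 := md_eq hT hP hC h i.isLt hd.symm
        have h3 : q = i.val - j.val := by omega
        rw [h3]
        exact h2
    · exfalso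
      rw [deg_main ht] at hd
      have h1 := md_big (P := P) hCt i.val
      have h2 : deg (big t C0 P) (Sum.inr b) = sz t b.1.val := deg_inr b
      rw [h2] at hd
      have h3 := sz_le ht b.1.isLt
      omega
    · exfalso
      rw [deg_main ht] at hd
      have h1 := md_big (P := P) hCt j.val
      have h2 : deg (big t C0 P) (Sum.inr a) = sz t a.1.val := deg_inr a
      rw [h2] at hd
      have h3 := sz_le ht a.1.isLt
      omega
    · have ha : deg (big t C0 P) (Sum.inr a) = sz t a.1.val := deg_inr a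
      have hb : deg (big t C0 P) (Sum.inr b) = sz t b.1.val := deg_inr b
      rw [ha, hb] at hd
      refine hP' q hq1 ?_
      have h1 : q ≤ max a.1.val b.1.val - min a.1.val b.1.val + sz t a.1.val +
          sz t b.1.val := by
        rw [← hl]
        exact length_le p hp
      have h2 := sz_le ht a.1.isLt
      have h3 := sz_le ht b.1.isLt
      rcases le_total a.1.val b.1.val with h | h
      · have h4 := sz_near ht hd h
        omega
      · have h4 := sz_near ht hd.symm h
        omega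
  · intro hq
    obtain ⟨i, hi1, hi2, hi3⟩ := exists_pair hT hP hq
    have hq1 := (hP q hq).1
    obtain ⟨p, hp, hl, -⟩ := main_up (m := 2 * t ^ 2) (c := fun i => cn t C0 P i.val)
      (s := fun i => sz t i.val) q ⟨i, by omega⟩ ⟨i + q, by omega⟩ rfl
    refine ⟨_, _, ?_, ?_, ⟨p, hp, hl⟩⟩
    · intro h
      have h1 := Sum.inl.inj h
      have h2 := Fin.ext_iff.1 h1
      simp only at h2
      omega
    · rw [deg_main ht, deg_main ht]
      unfold md
      simp only
      rw [if_neg (by omega), if_neg (by omega), hi3]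
      unfold ld
      rw [if_neg (by omega), if_neg (by omega)]

/-- The number of vertices without the leaves at the vertex 0. -/
noncomputable def rest (t : ℕ) (P : Set ℕ) : ℕ :=
  2 * t ^ 2 + ∑ i ∈ (Finset.range (2 * t ^ 2)).erase 0, 2 * Nat.factorial t * tau (t ^ 2) P i

lemma card_big (ht : 1 ≤ t) :
    Fintype.card (HV (2 * t ^ 2) (fun i => cn t C0 P i.val) (fun i => sz t i.val)) =
      rest t P + C0 := by
  have h1t : 1 ≤ t ^ 2 := Nat.one_le_pow _ _ ht
  rw [card_HV]
  have h1 : ∑ i : Fin (2 * t ^ 2), cn t C0 P i.val * sz t i.val =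
      ∑ i ∈ Finset.range (2 * t ^ 2), cn t C0 P i * sz t i :=
    Fin.sum_univ_eq_sum_range (fun i => cn t C0 P i * sz t i) (2 * t ^ 2)
  rw [h1, ← Finset.add_sum_erase _ _ (Finset.mem_range.2 (show 0 < 2 * t ^ 2 by omega)),
    cn_mul ht (by omega), if_pos rfl]
  have h2 : ∑ i ∈ (Finset.range (2 * t ^ 2)).erase 0, cn t C0 P i * sz t i =
      ∑ i ∈ (Finset.range (2 * t ^ 2)).erase 0, 2 * Nat.factorial t * tau (t ^ 2) P i := by
    refine Finset.sum_congr rfl ?_
    intro i hi
    rw [Finset.mem_erase, Finset.mem_range] at hi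
    rw [cn_mul ht hi.2, if_neg hi.1]
  rw [h2]
  unfold rest
  ring

lemma rest_le (hT : L + 3 ≤ t ^ 2) (hP : ∀ q ∈ P, 1 ≤ q ∧ q ≤ L) :
    rest t P + (2 * Nat.factorial t * (2 * t ^ 2) + 2) ≤ 20 * t ^ 4 * Nat.factorial t := by
  have hf := Nat.factorial_pos t
  have h1 : ∑ i ∈ (Finset.range (2 * t ^ 2)).erase 0, 2 * Nat.factorial t * tau (t ^ 2) P i ≤
      (2 * t ^ 2) * (2 * Nat.factorial t * (2 * t ^ 2)) := by
    refine (Finset.sum_le_card_nsmul _ _ (2 * Nat.factorial t * (2 * t ^ 2)) ?_).trans ?_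
    · intro i hi
      rw [Finset.mem_erase, Finset.mem_range] at hi
      exact Nat.mul_le_mul_left _ (tau_le hT hP hi.2)
    · rw [smul_eq_mul]
      refine Nat.mul_le_mul_right _ ?_
      refine (Finset.card_erase_le).trans ?_
      rw [Finset.card_range]
  unfold rest
  have h2 : 3 ≤ t ^ 2 := by omega
  have h3 : t ^ 4 = t ^ 2 * t ^ 2 := by ring
  rw [h3]
  generalize t ^ 2 = T at *
  generalize Nat.factorial t = F at *
  have h4 : T ≤ T * T := Nat.le_mul_of_pos_right _ (by omega)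
  have h5 : T * T ≤ T * T * F := Nat.le_mul_of_pos_right _ hf
  have h6 : T * F ≤ T * T * F := Nat.mul_le_mul_right _ h4
  have h7 : (2 * T) * (2 * F * (2 * T)) = 8 * (T * T * F) := by ring
  have h8 : 2 * F * (2 * T) = 4 * (T * F) := by ring
  have h9 : 20 * (T * T) * F = 20 * (T * T * F) := by ring
  rw [h7] at h1
  rw [h8, h9]
  omega

/-- All sets of bad lengths between the intervals `[1, 4 t - 1]` and `[1, L]`, where
`L + 3 ≤ t ^ 2`, occur at all large orders. -/
theorem realisable_big (ht : 1 ≤ t) (hT : L + 3 ≤ t ^ 2) (hP : ∀ q ∈ P, 1 ≤ q ∧ q ≤ L)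
    (hP' : ∀ q, 1 ≤ q → q + 1 ≤ 4 * t → q ∈ P) {n : ℕ}
    (hn : 20 * t ^ 4 * Nat.factorial t ≤ n) : Realisable n ({k | 1 ≤ k} \ P) := by
  have h1 := rest_le hT hP
  obtain ⟨C0, rfl⟩ : ∃ C0, n = rest t P + C0 := ⟨n - rest t P, by omega⟩
  have h2 := badSet_big ht hT hP hP' (C0 := C0) (by omega)
  refine realisable_of (big t C0 P) ?_ (card_big ht) h2
  have h1t : 1 ≤ t ^ 2 := Nat.one_le_pow _ _ ht
  exact hang_connected (by omega)

/-- There are graphs which are `k`-path irregular for all `k ≥ 4 t` and contain a path with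
`2 t ^ 2 - 1` edges. -/
theorem exists_long (ht : 5 ≤ t) : ∃ (n : ℕ) (G : SimpleGraph (Fin n)), G.Connected ∧
    (∀ k, 4 * t ≤ k → PathIrregular G k) ∧
    ∃ (a b : Fin n) (p : G.Walk a b), p.IsPath ∧ p.length = 2 * t ^ 2 - 1 := by
  have h25 : 5 * t ≤ t ^ 2 := by
    rw [pow_two]
    exact Nat.mul_le_mul_right _ ht
  set P : Set ℕ := {q | 1 ≤ q ∧ q + 1 ≤ 4 * t} with hPdef
  set C0 := 2 * Nat.factorial t * (2 * t ^ 2) + 2 with hC0
  have h2 : badSet (big t C0 P) = P := badSet_big (L := 4 * t) (by omega) (by omega)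
    (fun q hq => ⟨hq.1, by have := hq.2; omega⟩) (fun q h1 h2 => ⟨h1, h2⟩) le_rfl
  let e := Fintype.equivFin
    (HV (2 * t ^ 2) (fun i => cn t C0 P i.val) (fun i => sz t i.val))
  let φ : (big t C0 P).comap e.symm ≃g big t C0 P := SimpleGraph.Iso.comap e.symm (big t C0 P)
  refine ⟨_, (big t C0 P).comap e.symm, ?_, ?_, ?_⟩
  · refine φ.connected_iff.2 ?_
    exact hang_connected (by omega)
  · intro k hk u v hp hd
    have h3 : k ∈ badSet ((big t C0 P).comap e.symm) := ⟨u, v, hp.ne (by omega), hd, hp⟩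
    rw [← badSet_iso φ, h2] at h3
    have := h3.2
    omega
  · obtain ⟨p, hp, hl, -⟩ := main_up (m := 2 * t ^ 2) (c := fun i => cn t C0 P i.val)
      (s := fun i => sz t i.val) (2 * t ^ 2 - 1) ⟨0, by omega⟩ ⟨2 * t ^ 2 - 1, by omega⟩
      (by simp)
    have h4 : HasPath (big t C0 P) (2 * t ^ 2 - 1) (.inl ⟨0, by omega⟩)
      (.inl ⟨2 * t ^ 2 - 1, by omega⟩) := ⟨p, hp, hl⟩
    obtain ⟨p', hp', hl'⟩ := h4.map φ.symm.toHom φ.symm.injective
    exact ⟨_, _, p', hp', hl'⟩

end Pool.Agent.KPI
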