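import Pool.Agent.KPI.Long1

/-!
# Long paths in graphs which are k-path irregular for all large k
-/

namespace Pool.Agent.KPI
open SimpleGraph

universe u
variable {V : Type u} {G : SimpleGraph V}

lemma first_edge {c d : V} (q : G.Walk c d) (h : c ≠ d) :
    ∃ (y : V) (h : G.Adj c y) (t : G.Walk y d), q = Walk.cons h t := by
  cases q with
  | nil => exact absurd rfl h
  | @cons _ y _ h q => exact ⟨y, h, q, rfl⟩

lemma seg {a b : V} {p : G.Walk a b} (hp : p.IsPath) {i j : ℕ} (hij : i ≤ j)
    (hj : j ≤ p.length) : ∃ q : G.Walk (p.getVert i) (p.getVert j), q.IsPath ∧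
      q.length = j - i ∧ ∀ x ∈ q.support, x ∈ p.support := by
  refine ⟨((p.drop i).take (j - i)).copy rfl (by
    rw [Walk.drop_getVert]; congr 1; omega), ?_, ?_, ?_⟩
  · rw [Walk.isPath_copy]
    exact (hp.drop i).take _
  · rw [Walk.length_copy, Walk.take_length, Walk.drop_length]
    omega
  · intro x hx
    rw [Walk.support_copy] at hx
    exact (p.isSubwalk_drop i).support_subset
      (((p.drop i).isSubwalk_take (j - i)).support_subset hx)

lemma seg' {a b : V} {p : G.Walk a b} (hp : p.IsPath) {i j : ℕ} (hi : i ≤ p.length)
    (hj : j ≤ p.length) : ∃ q : G.Walk (p.getVert i) (p.getVert j), q.IsPath ∧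
      q.length = (j - i) + (i - j) ∧ ∀ x ∈ q.support, x ∈ p.support := by
  rcases le_total i j with h | h
  · obtain ⟨q, h1, h2, h3⟩ := seg hp h hj
    exact ⟨q, h1, by omega, h3⟩
  · obtain ⟨q, h1, h2, h3⟩ := seg hp h hi
    refine ⟨q.reverse, h1.reverse, by rw [Walk.length_reverse]; omega, ?_⟩
    intro x hx
    rw [Walk.support_reverse, List.mem_reverse] at hx
    exact h3 x hx

theorem no_long_path [Finite V] {L : ℕ} (hL : 1 ≤ L) (hirr : ∀ k, L < k → PathIrregular G k)
    {a b : V} (p : G.Walk a b) (hp : p.IsPath) : p.length < 12 * L ^ 2 := by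
  classical
  have := Fintype.ofFinite V
  by_contra hlen
  push Not at hlen
  set U : Set V := {x | x ∈ p.support} with hU
  -- representatives
  choose z w hw hwmax using fun u : V => exists_longest_out (G := G) U u
  have hlenL : 12 * L ^ 2 = 2 * L * (6 * L) := by ring
  have hpos : ∀ j, j ≤ 6 * L → 2 * L * j ≤ p.length := by
    intro j hj
    calc 2 * L * j ≤ 2 * L * (6 * L) := Nat.mul_le_mul_left _ hj
      _ ≤ p.length := by omega
  have hseg : ∀ i j, i ≤ 6 * L → j ≤ 6 * L → i < j →
      ∃ q : G.Walk (p.getVert (2 * L * i)) (p.getVert (2 * L * j)), q.IsPath ∧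
      2 * L ≤ q.length ∧ ∀ x ∈ q.support, x ∈ U := by
    intro i j _ hj hij
    obtain ⟨q, h1, h2, h3⟩ := seg hp (Nat.mul_le_mul_left (2 * L) hij.le) (hpos j hj)
    refine ⟨q, h1, ?_, h3⟩
    rw [h2, ← Nat.mul_sub]
    exact Nat.le_mul_of_pos_right _ (by omega)
  have hne : ∀ i j, i ≤ 6 * L → j ≤ 6 * L → i < j →
      p.getVert (2 * L * i) ≠ p.getVert (2 * L * j) := by
    intro i j hi hj hij he
    have h1 := hp.getVert_injOn (by
      rw [Set.mem_ofPred]; exact hpos i hi) (by rw [Set.mem_ofPred]; exact hpos j hj) he
    have h2 := Nat.eq_of_mul_eq_mul_left (by omega) h1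
    omega
  -- the tails of two representatives do not meet
  have hdisj : ∀ i j, i ≤ 6 * L → j ≤ 6 * L → i < j → ∀ x,
      x ∈ (w (p.getVert (2 * L * i))).support → x ∈ (w (p.getVert (2 * L * j))).support →
      False := by
    intro i j hi hj hij x hx hx'
    set u := p.getVert (2 * L * i)
    set v := p.getVert (2 * L * j)
    have huv : u ≠ v := hne i j hi hj hij
    have hu : u ∈ U := p.getVert_mem_support _
    obtain ⟨e, he, -, heU⟩ := ear_of_meet huv hu (hw u) (hw v) hx hx'
    obtain ⟨q, hq, hql, hqU⟩ := hseg i j hi hj hij
    have key : ∀ e' : G.Walk v u, e'.IsPath → (∀ x ∈ e'.support, x ∈ U → x = u ∨ x = v) →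
        False := by
      intro e' he' heU'
      obtain ⟨y, h, t, rfl⟩ := first_edge e' (Ne.symm huv)
      rw [Walk.cons_isPath_iff] at he'
      have hpath : (t.append q).IsPath := by
        refine append_path he'.1 hq ?_
        intro r hr hr'
        rcases heU' r (by rw [Walk.support_cons]; exact List.mem_cons_of_mem _ hr)
          (hqU r hr') with h1 | h1
        · exact h1
        · exact absurd (h1 ▸ hr) he'.2
      have h2 := no_long_cycle hL hirr _ hpath h.symm
      rw [Walk.length_append] at h2
      omega
    refine key e.reverse he.reverse ?_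
    intro r hr
    rw [Walk.support_reverse, List.mem_reverse] at hr
    exact heU r hr
  -- degrees of the representatives
  have hdeg : ∀ i, i ≤ 6 * L → 1 ≤ deg G (z (p.getVert (2 * L * i))) ∧
      deg G (z (p.getVert (2 * L * i))) ≤ 6 * L := by
    intro i hi
    set u := p.getVert (2 * L * i) with hu
    have huU : u ∈ U := p.getVert_mem_support _
    constructor
    · -- there is a neighbour
      by_cases hz : z u = u
      · rw [hz]
        by_cases hi0 : i = 0
        · obtain ⟨q, hq, hql, -⟩ := hseg i 1 hi (by omega) (by omega)
          have hne' := hne i 1 hi (by omega) (by omega)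
          obtain ⟨y, h, t, -⟩ := first_edge q hne'
          exact deg_pos_of_adj h
        · obtain ⟨q, hq, hql, -⟩ := hseg 0 i (by omega) hi (by omega)
          have hne' := hne 0 i (by omega) hi (by omega)
          obtain ⟨y, -, hy⟩ := exists_pen q hne'
          exact deg_pos_of_adj hy
      · obtain ⟨y, -, hy⟩ := exists_pen (w u) (Ne.symm hz)
        exact deg_pos_of_adj hy
    · -- neighbours on the outward path
      have h1 : ({y | G.Adj (z u) y ∧ y ∈ (w u).support} : Set V).ncard ≤ 2 * L - 1 := by
        by_cases hex : ∃ x ∈ (w u).support, G.Adj (z u) x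
        · obtain ⟨x, p1, p2, he, hx, hnb⟩ := last_segment (w u) hex
          have hp2 : p2.IsPath := by
            have := (hw u).1
            rw [he] at this
            exact this.of_append_right
          have h2 := no_long_cycle hL hirr p2 hp2 hx.symm
          have h3 : ({y | G.Adj (z u) y ∧ y ∈ (w u).support} : Set V) ⊆
              {y | y ∈ p2.support} \ {z u} := by
            rintro y ⟨hy1, hy2⟩
            refine ⟨hnb y hy2 hy1, ?_⟩
            rintro rfl
            exact G.loopless.irrefl _ hy1
          have h4 := Set.ncard_le_ncard h3 (Set.toFinite _)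
          have h5 := Set.ncard_sdiff_singleton_add_one
            (s := {y | y ∈ p2.support}) (a := z u) p2.end_mem_support (Set.toFinite _)
          rw [support_ncard hp2] at h5
          omega
        · have h2 : ({y | G.Adj (z u) y ∧ y ∈ (w u).support} : Set V) = ∅ := by
            ext y
            constructor
            · rintro ⟨hy1, hy2⟩
              exact (hex ⟨y, hy2, hy1⟩).elim
            · intro h
              exact h.elim
          rw [h2, Set.ncard_empty]
          omega
      have h2 : ({y | G.Adj (z u) y ∧ y ∈ U} : Set V).ncard ≤ 4 * L := by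
        have h3 : ({y | G.Adj (z u) y ∧ y ∈ U} : Set V) ⊆
            ((Finset.Ico (2 * L * i + 1 - 2 * L) (2 * L * i + 2 * L)).image p.getVert :
              Finset V) := by
          rintro y ⟨hy1, hy2⟩
          obtain ⟨m, hm, hm'⟩ := Walk.mem_support_iff_exists_getVert.1 hy2
          rw [Finset.coe_image]
          refine ⟨m, ?_, hm⟩
          obtain ⟨q, hq1, hq2, hq3⟩ := seg' hp (hpos i hi) hm'
          have hpath : ((w u).reverse.append q).IsPath := by
            refine append_path (hw u).1.reverse hq1 ?_
            intro x hx hx'
            rw [Walk.support_reverse, List.mem_reverse] at hx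
            by_contra hne
            exact (hw u).2 x hx hne (hq3 x hx')
          have h4 := no_long_cycle hL hirr _ hpath (by rw [hm]; exact hy1)
          rw [Walk.length_append, Walk.length_reverse] at h4
          simp only [Finset.coe_Ico, Set.mem_Ico]
          omega
        have h4 := Set.ncard_le_ncard h3 (Set.toFinite _)
        rw [Set.ncard_coe_finset] at h4
        refine h4.trans (Finset.card_image_le.trans ?_)
        rw [Nat.card_Ico]
        omega
      unfold deg
      have h3 : G.neighborSet (z u) ⊆ {y | G.Adj (z u) y ∧ y ∈ (w u).support} ∪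
          {y | G.Adj (z u) y ∧ y ∈ U} := by
        intro y hy
        rcases out_nbr (hw u) (hwmax u) hy with h | h
        · exact Or.inl ⟨hy, h⟩
        · exact Or.inr ⟨hy, h⟩
      have h4 := Set.ncard_le_ncard h3 (Set.toFinite _)
      have h5 := Set.ncard_union_le {y | G.Adj (z u) y ∧ y ∈ (w u).support}
        {y | G.Adj (z u) y ∧ y ∈ U}
      omega
  -- they are pairwise different
  have hdiff : ∀ i j, i ≤ 6 * L → j ≤ 6 * L → i < j →
      deg G (z (p.getVert (2 * L * i))) ≠ deg G (z (p.getVert (2 * L * j))) := by
    intro i j hi hj hij
    obtain ⟨q, hq, hql, hqU⟩ := hseg i j hi hj hij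
    have h1 : (q.append (w (p.getVert (2 * L * j)))).IsPath := by
      refine append_path hq (hw _).1 ?_
      intro x hx hx'
      by_contra hne
      exact (hw _).2 x hx' hne (hqU x hx)
    have h2 : ((w (p.getVert (2 * L * i))).reverse.append
        (q.append (w (p.getVert (2 * L * j))))).IsPath := by
      refine append_path (hw _).1.reverse h1 ?_
      intro x hx hx'
      rw [Walk.support_reverse, List.mem_reverse] at hx
      rcases mem_append.1 hx' with h | h
      · by_contra hne
        exact (hw _).2 x hx hne (hqU x h)
      · exact (hdisj i j hi hj hij x hx h).elim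
    refine hirr _ ?_ _ _ ⟨_, h2, rfl⟩
    rw [Walk.length_append, Walk.length_append]
    omega
  have hcard : (Finset.range (6 * L + 1)).card ≤ (Finset.Icc 1 (6 * L)).card := by
    refine Finset.card_le_card_of_injOn (fun i => deg G (z (p.getVert (2 * L * i)))) ?_ ?_
    · intro i hi
      have hi' : i ≤ 6 * L := by
        have := Finset.mem_range.1 (Finset.mem_coe.1 hi)
        omega
      have := hdeg i hi'
      simp only [Finset.coe_Icc, Set.mem_Icc]
      exact this
    · intro i hi j hj h
      have hi' : i ≤ 6 * L := by
        have := Finset.mem_range.1 (Finset.mem_coe.1 hi)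
        omega
      have hj' : j ≤ 6 * L := by
        have := Finset.mem_range.1 (Finset.mem_coe.1 hj)
        omega
      rcases lt_trichotomy i j with h1 | h1 | h1
      · exact absurd h (hdiff i j hi' hj' h1)
      · exact h1
      · exact absurd h.symm (hdiff j i hj' hi' h1)
  rw [Finset.card_range, Nat.card_Icc] at hcard
  omega

/-- A connected graph in which all degrees are less than `D` and all paths have less than `l`
edges has at most `D ^ l` vertices. -/
theorem card_le_of_bounds [Fintype V] (hc : G.Connected) {D l : ℕ}
    (hD : ∀ v, deg G v + 1 ≤ D) (hp : ∀ (a b : V) (p : G.Walk a b), p.IsPath → p.length < l) :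
    Fintype.card V ≤ D ^ l := by
  classical
  obtain ⟨r⟩ := hc.nonempty
  have key : ∀ k : ℕ, ({v | ∃ p : G.Walk r v, p.length ≤ k} : Set V).ncard ≤ D ^ k := by
    intro k
    induction k with
    | zero =>
      have : ({v | ∃ p : G.Walk r v, p.length ≤ 0} : Set V) = {r} := by
        ext v
        constructor
        · rintro ⟨p, hp⟩
          exact (Walk.eq_of_length_eq_zero (by omega : p.length = 0)).symm
        · rintro rfl
          exact ⟨Walk.nil, le_rfl⟩
      rw [this, Set.ncard_singleton, pow_zero]
    | succ k ih =>
      have hsub : ({v | ∃ p : G.Walk r v, p.length ≤ k + 1} : Set V) ⊆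
          ⋃ u ∈ (Set.toFinite ({v | ∃ p : G.Walk r v, p.length ≤ k} : Set V)).toFinset,
            (insert u (G.neighborSet u)) := by
        rintro v ⟨p, hp⟩
        simp only [Set.Finite.mem_toFinset, Set.mem_iUnion]
        by_cases hk : p.length ≤ k
        · exact ⟨v, ⟨p, hk⟩, Set.mem_insert _ _⟩
        · have hrev : ∃ (y : V) (h : G.Adj v y) (q : G.Walk y r), p.reverse = Walk.cons h q := by
            have hl : p.reverse.length = k + 1 := by
              rw [Walk.length_reverse]
              omega
            generalize p.reverse = t at hl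
            cases t with
            | nil => rw [Walk.length_nil] at hl; omega
            | @cons _ y _ h q => exact ⟨y, h, q, rfl⟩
          obtain ⟨y, h, q, he⟩ := hrev
          refine ⟨y, ⟨q.reverse, ?_⟩, Set.mem_insert_of_mem _ h.symm⟩
          have h1 : p.reverse.length = q.length + 1 := by
            rw [he, Walk.length_cons]
          rw [Walk.length_reverse] at h1 ⊢
          omega
      have h1 := Set.ncard_le_ncard hsub (Set.toFinite _)
      refine h1.trans ?_
      refine (Finset.set_ncard_biUnion_le _ _).trans ?_
      refine (Finset.sum_le_card_nsmul _ _ D ?_).trans ?_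
      · intro x _
        refine (Set.ncard_insert_le _ _).trans ?_
        exact hD x
      · rw [smul_eq_mul, pow_succ]
        refine Nat.mul_le_mul_right _ ?_
        rwa [← Set.ncard_eq_toFinset_card _ (Set.toFinite _)]
  have hall : ({v | ∃ p : G.Walk r v, p.length ≤ l} : Set V) = Set.univ := by
    rw [Set.eq_univ_iff_forall]
    intro v
    obtain ⟨p, hp'⟩ := (hc.preconnected r v).exists_isPath
    exact ⟨p, (hp _ _ p hp').le⟩
  have := key l
  rw [hall, Set.ncard_univ, Nat.card_eq_fintype_card] at this
  exact this

/-- If a graph is 2-path irregular and all its paths have less than `l` edges then all its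
degrees are less than `l ^ 2`. -/
theorem deg_lt_of_two [Finite V] {l : ℕ} (h2 : PathIrregular G 2)
    (hp : ∀ (a b : V) (p : G.Walk a b), p.IsPath → p.length < l) (v : V) :
    deg G v + 1 ≤ l ^ 2 := by
  classical
  by_contra hcon
  push Not at hcon
  have hD : l ^ 2 ≤ deg G v := by omega
  -- greedy path
  have key : ∀ k : ℕ, k ≤ l → ∃ (x : V) (p : G.Walk x v), p.IsPath ∧ p.length = k ∧
      l ^ 2 ≤ deg G x + k * l := by
    intro k
    induction k with
    | zero =>
      intro _
      exact ⟨v, Walk.nil, Walk.IsPath.nil, rfl, by omega⟩
    | succ k ih =>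
      intro hk
      obtain ⟨x, p, hp1, hp2, hp3⟩ := ih (by omega)
      -- the unvisited neighbours of `x`
      set N : Finset V := ((Set.toFinite (G.neighborSet x)).toFinset) \ p.support.toFinset
        with hN
      have hcardN : deg G x ≤ N.card + k := by
        have h3 : (p.support.toFinset.erase x).card ≤ k := by
          have h4 : (p.support.toFinset.erase x).card + 1 ≤ k + 1 := by
            rw [Finset.card_erase_add_one (List.mem_toFinset.2 p.start_mem_support)]
            refine (List.toFinset_card_le _).trans ?_
            rw [Walk.length_support, hp2]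
          omega
        have h4 : (Set.toFinite (G.neighborSet x)).toFinset ⊆
            N ∪ p.support.toFinset.erase x := by
          intro y hy
          rw [Finset.mem_union]
          by_cases hys : y ∈ p.support.toFinset
          · right
            rw [Finset.mem_erase]
            refine ⟨?_, hys⟩
            rintro rfl
            exact G.loopless.irrefl _ ((Set.Finite.mem_toFinset _).1 hy)
          · left
            rw [hN, Finset.mem_sdiff]
            exact ⟨hy, hys⟩
        have h5 := Finset.card_le_card h4
        have h6 := Finset.card_union_le N (p.support.toFinset.erase x)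
        unfold deg
        rw [Set.ncard_eq_toFinset_card _ (Set.toFinite _)]
        omega
      have hkl : (k + 1) * l ≤ l ^ 2 := by
        rw [pow_two]
        exact Nat.mul_le_mul_right _ hk
      have hNpos : 0 < N.card := by
        have h3 : (k + 1) * l = k * l + l := by ring
        omega
      obtain ⟨y, hy, hymax⟩ := Finset.exists_max_image N (fun y => deg G y)
        (Finset.card_pos.1 hNpos)
      have hyN : G.Adj x y ∧ y ∉ p.support := by
        rw [hN, Finset.mem_sdiff, Set.Finite.mem_toFinset, List.mem_toFinset] at hy
        exact hy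
      refine ⟨y, Walk.cons hyN.1.symm p, ?_, ?_, ?_⟩
      · rw [Walk.cons_isPath_iff]
        exact ⟨hp1, hyN.2⟩
      · rw [Walk.length_cons, hp2]
      · -- the degrees of the unvisited neighbours are different positive integers
        have h4 : N.card ≤ (Finset.Icc 1 (deg G y)).card := by
          refine Finset.card_le_card_of_injOn (fun t => deg G t) ?_ ?_
          · intro t ht
            have ht' : t ∈ N := ht
            have h5 := hymax t ht'
            rw [hN, Finset.mem_sdiff, Set.Finite.mem_toFinset] at ht'
            simp only [Finset.coe_Icc, Set.mem_Icc]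
            exact ⟨deg_pos_of_adj ht'.1.symm, h5⟩
          · intro s hs t ht hst
            by_contra hne
            have hs' : s ∈ N := hs
            have ht' : t ∈ N := ht
            rw [hN, Finset.mem_sdiff, Set.Finite.mem_toFinset] at hs' ht'
            refine h2 s t ⟨Walk.cons hs'.1.symm (Walk.cons ht'.1 Walk.nil), ?_, rfl⟩ hst
            rw [Walk.cons_isPath_iff, Walk.cons_isPath_iff]
            refine ⟨⟨Walk.IsPath.nil, ?_⟩, ?_⟩
            · rw [Walk.support_nil, List.mem_singleton]
              exact ht'.1.ne
            · rw [Walk.support_cons, Walk.support_nil, List.mem_cons, List.mem_singleton]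
              rintro (h | h)
              · exact hs'.1.ne h.symm
              · exact hne h
        rw [Nat.card_Icc] at h4
        have h5 : (k + 1) * l = k * l + l := by ring
        omega
  obtain ⟨x, p, h1, h3, -⟩ := key l le_rfl
  have := hp _ _ p h1
  omega

/-- A connected graph which is k-path irregular for `k = 2` and for all `k > L` is small. -/
theorem two_bound [Fintype V] {L : ℕ} (hL : 1 ≤ L) (hc : G.Connected)
    (hirr : ∀ k, L < k → PathIrregular G k) (h2 : PathIrregular G 2) :
    Fintype.card V ≤ (12 * L ^ 2) ^ (24 * L ^ 2) := by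
  have hp : ∀ (a b : V) (p : G.Walk a b), p.IsPath → p.length < 12 * L ^ 2 :=
    fun a b p hp => no_long_path hL hirr p hp
  have h1 := card_le_of_bounds hc (D := (12 * L ^ 2) ^ 2) (l := 12 * L ^ 2)
    (fun v => deg_lt_of_two h2 hp v) hp
  rw [← pow_mul] at h1
  refine h1.trans (le_of_eq ?_)
  congr 1
  ring

end Pool.Agent.KPI
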