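import Pool.Agent.KPI.Big2
import Pool.Agent.KPI.Long2

/-!
# Large orders: counting the realisable sets which contain all integers greater than L
-/

namespace Pool.Agent.KPI
open SimpleGraph

lemma threshold {L t : ℕ} (hL : 1 ≤ L) (ht : t ≤ L) :
    20 * t ^ 4 * Nat.factorial t ≤ (12 * L ^ 2) ^ (24 * L ^ 2) := by
  have hB : 12 ≤ 12 * L ^ 2 := by
    have : 1 ≤ L ^ 2 := Nat.one_le_pow _ _ hL
    omega
  have hLB : L ≤ 12 * L ^ 2 := by
    have h1 : L ≤ L ^ 2 := Nat.le_self_pow (by omega) L
    omega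
  set B := 12 * L ^ 2 with hBdef
  have h1 : 20 ≤ B ^ 2 := by
    have : 12 * 12 ≤ B * B := Nat.mul_le_mul hB hB
    rw [pow_two]
    omega
  have h2 : t ^ 4 ≤ B ^ 4 := Nat.pow_le_pow_left (by omega) 4
  have h3 : Nat.factorial t ≤ B ^ L := by
    refine (Nat.factorial_le_pow t).trans ?_
    exact (Nat.pow_le_pow_left (by omega : t ≤ B) t).trans (Nat.pow_le_pow_right (by omega) ht)
  calc 20 * t ^ 4 * Nat.factorial t ≤ B ^ 2 * B ^ 4 * B ^ L :=
        Nat.mul_le_mul (Nat.mul_le_mul h1 h2) h3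
    _ = B ^ (2 + 4 + L) := by rw [pow_add, pow_add]
    _ ≤ B ^ (24 * L ^ 2) := by
        refine Nat.pow_le_pow_right (by omega) ?_
        have h1 : L ≤ L ^ 2 := Nat.le_self_pow (by omega) L
        omega

/-- The lower bound for the number of realisable sets. -/
theorem count_lower {L t n : ℕ} (hT : L + 3 ≤ t ^ 2) (ht4 : 4 * t ≤ L + 1)
    (hn : (12 * L ^ 2) ^ (24 * L ^ 2) ≤ n) : (2 : ℕ∞) ^ (L + 1 - 4 * t) ≤
      Set.encard {S : Set ℕ | Realisable n S ∧ ∀ k, L < k → k ∈ S} := by
  classical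
  have ht : 1 ≤ t := by
    by_contra h
    have : t = 0 := by omega
    rw [this] at hT
    omega
  have hthr := (threshold (L := L) (t := t) (by omega) (by omega)).trans hn
  set F : Finset ℕ → Set ℕ := fun Q => {k | 1 ≤ k} \ ({k | 1 ≤ k ∧ k + 1 ≤ 4 * t} ∪ (Q : Set ℕ))
    with hF
  set P := (Finset.Icc (4 * t) L).powerset with hP
  have hsub : F '' (P : Set (Finset ℕ)) ⊆
      {S : Set ℕ | Realisable n S ∧ ∀ k, L < k → k ∈ S} := by
    rintro S ⟨Q, hQ, rfl⟩
    rw [Finset.mem_coe, hP, Finset.mem_powerset] at hQ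
    refine ⟨realisable_big (L := L) ht hT ?_ ?_ hthr, ?_⟩
    · rintro q (hq | hq)
      · exact ⟨hq.1, by have := hq.2; omega⟩
      · have := Finset.mem_Icc.1 (hQ hq)
        omega
    · intro q h1 h2
      exact Or.inl ⟨h1, h2⟩
    · intro k hk
      refine ⟨by change 1 ≤ k; omega, ?_⟩
      rintro (hq | hq)
      · have := hq.2
        omega
      · have := Finset.mem_Icc.1 (hQ hq)
        omega
  have hinj : Set.InjOn F (P : Set (Finset ℕ)) := by
    intro A hA B hB hAB
    rw [Finset.mem_coe, hP, Finset.mem_powerset] at hA hB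
    have key : ∀ A B : Finset ℕ, A ⊆ Finset.Icc (4 * t) L → F A = F B → A ⊆ B := by
      intro A B hA hAB x hx
      by_contra hxB
      have hx' := Finset.mem_Icc.1 (hA hx)
      have h1 : x ∈ F B := by
        refine ⟨by change 1 ≤ x; omega, ?_⟩
        rintro (h | h)
        · have := h.2
          omega
        · exact hxB h
      rw [← hAB] at h1
      exact h1.2 (Or.inr hx)
    exact Finset.Subset.antisymm (key A B hA hAB) (key B A hB hAB.symm)
  have h1 := Set.encard_le_encard hsub
  rw [hinj.encard_image, Set.encard_coe_eq_coe_finsetCard, hP, Finset.card_powerset,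
    Nat.card_Icc] at h1
  refine le_trans ?_ h1
  exact le_of_eq (by push_cast; rfl)

/-- For orders which are large with respect to `L`, no realisable set which contains all
`k > L` contains 2. -/
theorem two_notmem {L n : ℕ} (hL : 1 ≤ L) (hn : (12 * L ^ 2) ^ (24 * L ^ 2) < n) {S : Set ℕ}
    (hS : ∀ k, L < k → k ∈ S) (hr : Realisable n S) : 2 ∉ S := by
  intro h2
  obtain ⟨G, hc, rfl⟩ := hr
  have h1 := two_bound hL hc (fun k hk => (hS k hk).2) h2.2
  rw [Fintype.card_fin] at h1
  omega

/-- The upper bound for the number of realisable sets. -/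
theorem count_upper {L n : ℕ} (hL : 1 ≤ L) (hn : (12 * L ^ 2) ^ (24 * L ^ 2) < n) :
    Set.encard {S : Set ℕ | Realisable n S ∧ ∀ k, L < k → k ∈ S} ≤ (2 : ℕ∞) ^ (L - 1) := by
  classical
  have hpos : ∀ S : Set ℕ, Realisable n S → ∀ k ∈ S, 1 ≤ k := by
    rintro S ⟨G, -, rfl⟩ k hk
    exact hk.1
  by_cases hL1 : L = 1
  · have h1 : {S : Set ℕ | Realisable n S ∧ ∀ k, L < k → k ∈ S} = ∅ := by
      ext S
      constructor
      · rintro ⟨h1, h2⟩
        exact two_notmem hL hn h2 h1 (h2 2 (by omega))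
      · intro h
        exact h.elim
    rw [h1, Set.encard_empty]
    exact zero_le
  set P := ((Finset.Icc 1 L).erase 2).powerset with hP
  set F : Finset ℕ → Set ℕ := fun Q => (Q : Set ℕ) ∪ {k | L < k} with hF
  have hsub : {S : Set ℕ | Realisable n S ∧ ∀ k, L < k → k ∈ S} ⊆
      F '' (P : Set (Finset ℕ)) := by
    rintro S ⟨h1, h2⟩
    refine ⟨(Finset.Icc 1 L).filter fun k => k ∈ S, ?_, ?_⟩
    · rw [Finset.mem_coe, hP, Finset.mem_powerset]
      intro k hk
      rw [Finset.mem_filter] at hk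
      rw [Finset.mem_erase]
      refine ⟨?_, hk.1⟩
      rintro rfl
      exact two_notmem hL hn h2 h1 hk.2
    · ext k
      simp only [hF, Finset.coe_filter, Set.mem_union, Set.mem_ofPred, Finset.mem_Icc]
      constructor
      · rintro (h | h)
        · exact h.2
        · exact h2 k h
      · intro h
        have := hpos S h1 k h
        by_cases hk : L < k
        · exact Or.inr hk
        · exact Or.inl ⟨⟨this, by omega⟩, h⟩
  refine (Set.encard_le_encard hsub).trans ?_
  refine (Set.encard_image_le _ _).trans ?_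
  rw [Set.encard_coe_eq_coe_finsetCard, hP, Finset.card_powerset, Finset.card_erase_of_mem
    (Finset.mem_Icc.2 (by omega)), Nat.card_Icc]
  exact le_of_eq (by push_cast; rfl)

end Pool.Agent.KPI
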