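import Pool.Agent.KPI.Leafy

namespace Pool.Agent.KPI
open SimpleGraph

/-- All lengths of paths from `u` to `v` avoiding the vertices in `vis`, by exhaustive search. -/
def plens {m : ℕ} (adj : Fin m → Fin m → Bool) : ℕ → List (Fin m) → Fin m → Fin m → List ℕ
  | 0, _, u, v => if u = v then [0] else []
  | f + 1, vis, u, v => if u = v then [0] else
      ((List.finRange m).filter (fun w => adj u w && !((u :: vis).elem w))).flatMap
        (fun w => (plens adj f (u :: vis) w v).map (· + 1))

/-- The graph on `Fin m` given by a Boolean matrix. -/
def coreOf {m : ℕ} (adj : Fin m → Fin m → Bool) (hs : ∀ i j, adj i j = adj j i)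
    (hi : ∀ i, adj i i = false) : SimpleGraph (Fin m) where
  Adj i j := adj i j = true
  symm := ⟨fun i j h => by rw [hs]; exact h⟩
  loopless := ⟨fun i h => by rw [hi] at h; exact absurd h (by simp)⟩

section
variable {m : ℕ} (adj : Fin m → Fin m → Bool) (hs : ∀ i j, adj i j = adj j i)
    (hi : ∀ i, adj i i = false)

lemma plens_sound (f : ℕ) : ∀ (vis : List (Fin m)) (u v : Fin m) (k : ℕ),
    k ∈ plens adj f vis u v → u ∉ vis →
      ∃ p : (coreOf adj hs hi).Walk u v, p.IsPath ∧ p.length = k ∧ ∀ x ∈ p.support, x ∉ vis := by
  induction f with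
  | zero =>
    intro vis u v k hk hu
    unfold plens at hk
    split_ifs at hk with h
    · subst h
      simp only [List.mem_singleton] at hk
      subst hk
      exact ⟨Walk.nil, Walk.IsPath.nil, rfl, by simpa using hu⟩
    · simp at hk
  | succ f ih =>
    intro vis u v k hk hu
    unfold plens at hk
    split_ifs at hk with h
    · subst h
      simp only [List.mem_singleton] at hk
      subst hk
      exact ⟨Walk.nil, Walk.IsPath.nil, rfl, by simpa using hu⟩
    · rw [List.mem_flatMap] at hk
      obtain ⟨w, hw, hk⟩ := hk
      rw [List.mem_filter] at hw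
      obtain ⟨_, hw⟩ := hw
      rw [Bool.and_eq_true] at hw
      obtain ⟨hadj, hnv⟩ := hw
      have hnv' : w ∉ u :: vis := by
        intro hmem
        rw [List.elem_eq_true_of_mem hmem] at hnv
        exact absurd hnv (by simp)
      rw [List.mem_map] at hk
      obtain ⟨k', hk', rfl⟩ := hk
      obtain ⟨p, hp, hl, hsup⟩ := ih (u :: vis) w v k' hk' hnv'
      have ha : (coreOf adj hs hi).Adj u w := hadj
      refine ⟨Walk.cons ha p, ?_, by simp [hl], ?_⟩
      · rw [Walk.cons_isPath_iff]
        exact ⟨hp, fun hmem => hsup u hmem (by simp)⟩
      · intro x hx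
        rw [Walk.support_cons, List.mem_cons] at hx
        rcases hx with rfl | hx
        · exact hu
        · intro hxv
          exact hsup x hx (List.mem_cons_of_mem _ hxv)

lemma plens_complete (f : ℕ) : ∀ (vis : List (Fin m)) (u v : Fin m)
    (p : (coreOf adj hs hi).Walk u v), p.IsPath → p.length ≤ f → (∀ x ∈ p.support, x ∉ vis) →
      p.length ∈ plens adj f vis u v := by
  induction f with
  | zero =>
    intro vis u v p hp hl hsup
    have h0 : p.length = 0 := by omega
    have huv := Walk.eq_of_length_eq_zero h0
    unfold plens
    rw [if_pos huv, h0]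
    simp
  | succ f ih =>
    intro vis u v p hp hl hsup
    unfold plens
    split_ifs with h
    · subst h
      have h0 : p.length = 0 := Walk.length_eq_zero_iff.2 (Walk.isPath_iff_nil.1 hp)
      simp [h0]
    · cases p with
      | nil => exact absurd rfl h
      | @cons _ w _ ha q =>
        rw [Walk.cons_isPath_iff] at hp
        rw [List.mem_flatMap]
        refine ⟨w, ?_, ?_⟩
        · rw [List.mem_filter]
          refine ⟨List.mem_finRange w, ?_⟩
          rw [Bool.and_eq_true]
          refine ⟨ha, ?_⟩
          have hw : w ∉ u :: vis := by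
            intro hmem
            rcases List.mem_cons.1 hmem with rfl | hmem
            · exact hp.2 (Walk.start_mem_support q)
            · exact hsup w (by rw [Walk.support_cons]
                               exact List.mem_cons_of_mem _ (Walk.start_mem_support q)) hmem
          have : (u :: vis).elem w = false := by
            by_contra hne
            rw [Bool.not_eq_false] at hne
            exact hw (List.mem_of_elem_eq_true hne)
          rw [this]
          rfl
        · rw [List.mem_map]
          refine ⟨q.length, ?_, by simp⟩
          apply ih (u :: vis) w v q hp.1 (by rw [Walk.length_cons] at hl; omega)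
          intro x hx hxm
          rcases List.mem_cons.1 hxm with rfl | hxm
          · exact hp.2 hx
          · exact hsup x (by rw [Walk.support_cons]; exact List.mem_cons_of_mem _ hx) hxm

theorem hasPath_core (k : ℕ) (u v : Fin m) :
    HasPath (coreOf adj hs hi) k u v ↔ k ∈ plens adj m [] u v := by
  constructor
  · rintro ⟨p, hp, rfl⟩
    apply plens_complete adj hs hi m [] u v p hp
    · have := hp.length_lt
      rw [Fintype.card_fin] at this
      omega
    · simp
  · intro h
    obtain ⟨p, hp, hl, _⟩ := plens_sound adj hs hi m [] u v k h (by simp)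
    exact ⟨p, hp, hl⟩

/-- the number of neighbours in the core -/
def dg (i : Fin m) : ℕ := ((List.finRange m).filter (fun j => adj i j)).length

lemma deg_core (i : Fin m) : deg (coreOf adj hs hi) i = dg adj i := by
  unfold deg dg
  have h1 : (coreOf adj hs hi).neighborSet i =
      ((((List.finRange m).filter (fun j => adj i j)).toFinset : Finset (Fin m)) : Set (Fin m)) := by
    ext j
    rw [SimpleGraph.mem_neighborSet, Finset.mem_coe, List.mem_toFinset, List.mem_filter]
    exact ⟨fun h => ⟨List.mem_finRange j, h⟩, fun h => h.2⟩
  rw [h1, Set.ncard_coe_finset, List.toFinset_card_of_nodup]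
  exact (List.nodup_finRange m).filter _

/-- all bad lengths, by exhaustive search -/
def badList (c : Fin m → ℕ) (i0 : Fin m) : List ℕ :=
  2 :: (List.finRange m).flatMap fun i => (List.finRange m).flatMap fun j =>
    if i = j then [] else
      (if i ≠ i0 ∧ j ≠ i0 ∧ dg adj i + c i = dg adj j + c j then plens adj m [] i j else []) ++
      (if (i = i0 ∨ 1 ≤ c i) ∧ (j = i0 ∨ 1 ≤ c j) then (plens adj m [] i j).map (· + 2) else [])

theorem badSet_core (c : Fin m → ℕ) (i0 : Fin m) (a : ℕ) (ha : 2 ≤ a)
    (hbig : ∀ i, i ≠ i0 → dg adj i + c i < dg adj i0 + a)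
    (h2 : ∀ i, i ≠ i0 → 2 ≤ dg adj i + c i) :
    badSet (leafy (coreOf adj hs hi) (fun i => if i = i0 then a else c i)) =
      {k | k ∈ badList adj c i0} := by
  ext k
  have h2' : ∀ i, 2 ≤ deg (coreOf adj hs hi) i + (if i = i0 then a else c i) := by
    intro i
    rw [deg_core]
    split_ifs with h
    · omega
    · exact h2 i h
  rw [badSet_leafy _ _ h2']
  simp only [Set.mem_ofPred_eq, badList, List.mem_cons, List.mem_flatMap, deg_core, hasPath_core]
  constructor
  · rintro (⟨i, j, hij, hd, hp⟩ | ⟨i, j, hij, hi', hj', t, rfl, hp⟩ | ⟨rfl, _⟩)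
    · right
      have hi0 : i ≠ i0 := by
        rintro rfl
        rw [if_pos rfl, if_neg (Ne.symm hij)] at hd
        have := hbig j (Ne.symm hij)
        omega
      have hj0 : j ≠ i0 := by
        rintro rfl
        rw [if_pos rfl, if_neg hij] at hd
        have := hbig i hij
        omega
      rw [if_neg hi0, if_neg hj0] at hd
      refine ⟨i, List.mem_finRange i, j, List.mem_finRange j, ?_⟩
      rw [if_neg hij, if_pos ⟨hi0, hj0, hd⟩]
      exact List.mem_append_left _ hp
    · right
      refine ⟨i, List.mem_finRange i, j, List.mem_finRange j, ?_⟩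
      rw [if_neg hij]
      apply List.mem_append_right
      rw [if_pos]
      · exact List.mem_map.2 ⟨t, hp, rfl⟩
      · constructor
        · by_cases h : i = i0
          · exact Or.inl h
          · rw [if_neg h] at hi'
            exact Or.inr hi'
        · by_cases h : j = i0
          · exact Or.inl h
          · rw [if_neg h] at hj'
            exact Or.inr hj'
    · left; rfl
  · rintro (rfl | ⟨i, _, j, _, h⟩)
    · right; right
      exact ⟨rfl, i0, by rw [if_pos rfl]; exact ha⟩
    · split_ifs at h with hij h3 h4 h4
      · simp at h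
      · rcases List.mem_append.1 h with h | h
        · left
          refine ⟨i, j, hij, ?_, h⟩
          rw [if_neg h3.1, if_neg h3.2.1]
          exact h3.2.2
        · right; left
          obtain ⟨t, ht, rfl⟩ := List.mem_map.1 h
          refine ⟨i, j, hij, ?_, ?_, t, rfl, ht⟩
          · split_ifs with h
            · omega
            · exact h4.1.resolve_left h
          · split_ifs with h
            · omega
            · exact h4.2.resolve_left h
      · rcases List.mem_append.1 h with h | h
        · left
          refine ⟨i, j, hij, ?_, h⟩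
          rw [if_neg h3.1, if_neg h3.2.1]
          exact h3.2.2
        · simp at h
      · rcases List.mem_append.1 h with h | h
        · simp at h
        · right; left
          obtain ⟨t, ht, rfl⟩ := List.mem_map.1 h
          refine ⟨i, j, hij, ?_, ?_, t, rfl, ht⟩
          · split_ifs with h
            · omega
            · exact h4.1.resolve_left h
          · split_ifs with h
            · omega
            · exact h4.2.resolve_left h
      · simp at h

include hs hi in
/-- Realisability from a finite computation. -/
theorem realisable_core (c : Fin m → ℕ) (i0 : Fin m) (n a : ℕ) (ha : 2 ≤ a)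
    (hbig : ∀ i, i ≠ i0 → dg adj i + c i < dg adj i0 + a)
    (h2 : ∀ i, i ≠ i0 → 2 ≤ dg adj i + c i)
    (hconn : ∀ i, plens adj m [] i i0 ≠ [])
    (hn : m + ((∑ i, if i = i0 then 0 else c i) + a) = n) (T : Set ℕ)
    (hT : ∀ k, k ∈ T ↔ k ∈ badList adj c i0) :
    Realisable n ({k | 1 ≤ k} \ T) := by
  have hc : (coreOf adj hs hi).Connected := by
    have key : ∀ i, (coreOf adj hs hi).Reachable i i0 := by
      intro i
      obtain ⟨k, hk⟩ := List.exists_mem_of_ne_nil _ (hconn i)
      obtain ⟨p, _⟩ := (hasPath_core adj hs hi k i i0).2 hk
      exact ⟨p⟩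
    have : Nonempty (Fin m) := ⟨i0⟩
    exact ⟨fun x y => (key x).trans (key y).symm⟩
  have hB := badSet_core adj hs hi c i0 a ha hbig h2
  have hB' : badSet (leafy (coreOf adj hs hi) (fun i => if i = i0 then a else c i)) = T := by
    rw [hB]
    ext k
    exact (hT k).symm
  refine realisable_of _ (leafy_connected _ _ hc) ?_ hB'
  rw [card_leafy, Fintype.card_fin, ← hn]
  congr 1
  have : ∀ i : Fin m, (if i = i0 then a else c i) =
      (if i = i0 then 0 else c i) + (if i = i0 then a else 0) := by
    intro i
    split_ifs <;> simp
  rw [Finset.sum_congr rfl (fun i _ => this i), Finset.sum_add_distrib]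
  simp

end

end Pool.Agent.KPI
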