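import Mathlib

/-!
# k-path irregular graphs: definitions (MP_7616c1_co)
-/

namespace Pool.Agent.KPI

/-- The degree of a vertex: the number of its neighbours. -/
noncomputable def deg {V : Type*} (G : SimpleGraph V) (v : V) : ℕ := (G.neighborSet v).ncard

/-- There is a path with exactly `k` edges from `u` to `v`. -/
def HasPath {V : Type*} (G : SimpleGraph V) (k : ℕ) (u v : V) : Prop :=
  ∃ p : G.Walk u v, p.IsPath ∧ p.length = k

/-- `G` is `k`-path irregular: the two ends of every path with exactly `k` edges
have different degrees. -/
def PathIrregular {V : Type*} (G : SimpleGraph V) (k : ℕ) : Prop :=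
  ∀ u v : V, HasPath G k u v → deg G u ≠ deg G v

/-- The set `S(G)` of all positive `k` such that `G` is `k`-path irregular. -/
def irrSet {V : Type*} (G : SimpleGraph V) : Set ℕ := {k | 1 ≤ k ∧ PathIrregular G k}

/-- `S` is realisable at order `n`: it is the set `S(G)` of a connected graph `G` with
`n` vertices. -/
def Realisable (n : ℕ) (S : Set ℕ) : Prop :=
  ∃ G : SimpleGraph (Fin n), G.Connected ∧ irrSet G = S

end Pool.Agent.KPI
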