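import Pool.Agent.KPI.Core

namespace Pool.Agent.KPI
open SimpleGraph

/-- matrix of a list of edges -/
def ofEdges {m : ℕ} (E : List (Fin m × Fin m)) (i j : Fin m) : Bool :=
  E.elem (i, j) || E.elem (j, i)

theorem fam_fffff (n : ℕ) (hn : 13 ≤ n) :
    Realisable n ({k | 1 ≤ k} \ {k | k ∈ ([2] : List ℕ)}) := by
  have e1 : ∀ i j, (ofEdges (m := 1) []) i j = (ofEdges (m := 1) []) j i := by decide
  have e2 : ∀ i, (ofEdges (m := 1) []) i i = false := by decide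
  have e3 : ∀ i : Fin 1, i ≠ 0 → dg (ofEdges (m := 1) []) i + ![0] i <
      dg (ofEdges (m := 1) []) (0 : Fin 1) + 12 := by decide
  have e4 : ∀ i : Fin 1, i ≠ 0 → 2 ≤ dg (ofEdges (m := 1) []) i + ![0] i := by decide
  have e5 : ∀ i : Fin 1, plens (ofEdges (m := 1) []) 1 [] i 0 ≠ [] := by decide
  have e6 : (∑ i : Fin 1, if i = 0 then 0 else ![0] i) = 0 := by decide
  have e7 : ∀ x ∈ badList (ofEdges (m := 1) []) ![0] 0, x ∈ ([2] : List ℕ) := by decide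
  have e8 : ∀ x ∈ ([2] : List ℕ), x ∈ badList (ofEdges (m := 1) []) ![0] 0 := by decide
  refine realisable_core (ofEdges (m := 1) []) e1 e2 ![0] 0 n (n - 1) (by omega)
    (fun i hi => lt_of_lt_of_le (e3 i hi) (by omega)) e4 e5 (by rw [e6]; omega) _
    (fun x => ⟨e8 x, e7 x⟩)

theorem fam_tffff (n : ℕ) (hn : 13 ≤ n) :
    Realisable n ({k | 1 ≤ k} \ {k | k ∈ ([1, 2] : List ℕ)}) := by
  have e1 : ∀ i j, (ofEdges (m := 3) [(0,1),(0,2),(1,2)]) i j = (ofEdges (m := 3) [(0,1),(0,2),(1,2)]) j i := by decide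
  have e2 : ∀ i, (ofEdges (m := 3) [(0,1),(0,2),(1,2)]) i i = false := by decide
  have e3 : ∀ i : Fin 3, i ≠ 0 → dg (ofEdges (m := 3) [(0,1),(0,2),(1,2)]) i + ![0, 0, 0] i <
      dg (ofEdges (m := 3) [(0,1),(0,2),(1,2)]) (0 : Fin 3) + 10 := by decide
  have e4 : ∀ i : Fin 3, i ≠ 0 → 2 ≤ dg (ofEdges (m := 3) [(0,1),(0,2),(1,2)]) i + ![0, 0, 0] i := by decide
  have e5 : ∀ i : Fin 3, plens (ofEdges (m := 3) [(0,1),(0,2),(1,2)]) 3 [] i 0 ≠ [] := by decide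
  have e6 : (∑ i : Fin 3, if i = 0 then 0 else ![0, 0, 0] i) = 0 := by decide
  have e7 : ∀ x ∈ badList (ofEdges (m := 3) [(0,1),(0,2),(1,2)]) ![0, 0, 0] 0, x ∈ ([1, 2] : List ℕ) := by decide
  have e8 : ∀ x ∈ ([1, 2] : List ℕ), x ∈ badList (ofEdges (m := 3) [(0,1),(0,2),(1,2)]) ![0, 0, 0] 0 := by decide
  refine realisable_core (ofEdges (m := 3) [(0,1),(0,2),(1,2)]) e1 e2 ![0, 0, 0] 0 n (n - 3) (by omega)
    (fun i hi => lt_of_lt_of_le (e3 i hi) (by omega)) e4 e5 (by rw [e6]; omega) _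
    (fun x => ⟨e8 x, e7 x⟩)

theorem fam_ftfff (n : ℕ) (hn : 13 ≤ n) :
    Realisable n ({k | 1 ≤ k} \ {k | k ∈ ([2, 3] : List ℕ)}) := by
  have e1 : ∀ i j, (ofEdges (m := 2) [(0,1)]) i j = (ofEdges (m := 2) [(0,1)]) j i := by decide
  have e2 : ∀ i, (ofEdges (m := 2) [(0,1)]) i i = false := by decide
  have e3 : ∀ i : Fin 2, i ≠ 0 → dg (ofEdges (m := 2) [(0,1)]) i + ![0, 1] i <
      dg (ofEdges (m := 2) [(0,1)]) (0 : Fin 2) + 10 := by decide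
  have e4 : ∀ i : Fin 2, i ≠ 0 → 2 ≤ dg (ofEdges (m := 2) [(0,1)]) i + ![0, 1] i := by decide
  have e5 : ∀ i : Fin 2, plens (ofEdges (m := 2) [(0,1)]) 2 [] i 0 ≠ [] := by decide
  have e6 : (∑ i : Fin 2, if i = 0 then 0 else ![0, 1] i) = 1 := by decide
  have e7 : ∀ x ∈ badList (ofEdges (m := 2) [(0,1)]) ![0, 1] 0, x ∈ ([2, 3] : List ℕ) := by decide
  have e8 : ∀ x ∈ ([2, 3] : List ℕ), x ∈ badList (ofEdges (m := 2) [(0,1)]) ![0, 1] 0 := by decide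
  refine realisable_core (ofEdges (m := 2) [(0,1)]) e1 e2 ![0, 1] 0 n (n - 3) (by omega)
    (fun i hi => lt_of_lt_of_le (e3 i hi) (by omega)) e4 e5 (by rw [e6]; omega) _
    (fun x => ⟨e8 x, e7 x⟩)

theorem fam_ttfff (n : ℕ) (hn : 13 ≤ n) :
    Realisable n ({k | 1 ≤ k} \ {k | k ∈ ([1, 2, 3] : List ℕ)}) := by
  have e1 : ∀ i j, (ofEdges (m := 4) [(0,2),(0,3),(1,2),(1,3)]) i j = (ofEdges (m := 4) [(0,2),(0,3),(1,2),(1,3)]) j i := by decide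
  have e2 : ∀ i, (ofEdges (m := 4) [(0,2),(0,3),(1,2),(1,3)]) i i = false := by decide
  have e3 : ∀ i : Fin 4, i ≠ 0 → dg (ofEdges (m := 4) [(0,2),(0,3),(1,2),(1,3)]) i + ![0, 0, 0, 0] i <
      dg (ofEdges (m := 4) [(0,2),(0,3),(1,2),(1,3)]) (0 : Fin 4) + 9 := by decide
  have e4 : ∀ i : Fin 4, i ≠ 0 → 2 ≤ dg (ofEdges (m := 4) [(0,2),(0,3),(1,2),(1,3)]) i + ![0, 0, 0, 0] i := by decide
  have e5 : ∀ i : Fin 4, plens (ofEdges (m := 4) [(0,2),(0,3),(1,2),(1,3)]) 4 [] i 0 ≠ [] := by decide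
  have e6 : (∑ i : Fin 4, if i = 0 then 0 else ![0, 0, 0, 0] i) = 0 := by decide
  have e7 : ∀ x ∈ badList (ofEdges (m := 4) [(0,2),(0,3),(1,2),(1,3)]) ![0, 0, 0, 0] 0, x ∈ ([1, 2, 3] : List ℕ) := by decide
  have e8 : ∀ x ∈ ([1, 2, 3] : List ℕ), x ∈ badList (ofEdges (m := 4) [(0,2),(0,3),(1,2),(1,3)]) ![0, 0, 0, 0] 0 := by decide
  refine realisable_core (ofEdges (m := 4) [(0,2),(0,3),(1,2),(1,3)]) e1 e2 ![0, 0, 0, 0] 0 n (n - 4) (by omega)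
    (fun i hi => lt_of_lt_of_le (e3 i hi) (by omega)) e4 e5 (by rw [e6]; omega) _
    (fun x => ⟨e8 x, e7 x⟩)

theorem fam_fftff (n : ℕ) (hn : 13 ≤ n) :
    Realisable n ({k | 1 ≤ k} \ {k | k ∈ ([2, 4] : List ℕ)}) := by
  have e1 : ∀ i j, (ofEdges (m := 3) [(0,2),(1,2)]) i j = (ofEdges (m := 3) [(0,2),(1,2)]) j i := by decide
  have e2 : ∀ i, (ofEdges (m := 3) [(0,2),(1,2)]) i i = false := by decide
  have e3 : ∀ i : Fin 3, i ≠ 0 → dg (ofEdges (m := 3) [(0,2),(1,2)]) i + ![0, 2, 0] i <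
      dg (ofEdges (m := 3) [(0,2),(1,2)]) (0 : Fin 3) + 8 := by decide
  have e4 : ∀ i : Fin 3, i ≠ 0 → 2 ≤ dg (ofEdges (m := 3) [(0,2),(1,2)]) i + ![0, 2, 0] i := by decide
  have e5 : ∀ i : Fin 3, plens (ofEdges (m := 3) [(0,2),(1,2)]) 3 [] i 0 ≠ [] := by decide
  have e6 : (∑ i : Fin 3, if i = 0 then 0 else ![0, 2, 0] i) = 2 := by decide
  have e7 : ∀ x ∈ badList (ofEdges (m := 3) [(0,2),(1,2)]) ![0, 2, 0] 0, x ∈ ([2, 4] : List ℕ) := by decide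
  have e8 : ∀ x ∈ ([2, 4] : List ℕ), x ∈ badList (ofEdges (m := 3) [(0,2),(1,2)]) ![0, 2, 0] 0 := by decide
  refine realisable_core (ofEdges (m := 3) [(0,2),(1,2)]) e1 e2 ![0, 2, 0] 0 n (n - 5) (by omega)
    (fun i hi => lt_of_lt_of_le (e3 i hi) (by omega)) e4 e5 (by rw [e6]; omega) _
    (fun x => ⟨e8 x, e7 x⟩)

theorem fam_tftff (n : ℕ) (hn : 13 ≤ n) :
    Realisable n ({k | 1 ≤ k} \ {k | k ∈ ([1, 2, 4] : List ℕ)}) := by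
  have e1 : ∀ i j, (ofEdges (m := 3) [(0,2),(1,2)]) i j = (ofEdges (m := 3) [(0,2),(1,2)]) j i := by decide
  have e2 : ∀ i, (ofEdges (m := 3) [(0,2),(1,2)]) i i = false := by decide
  have e3 : ∀ i : Fin 3, i ≠ 0 → dg (ofEdges (m := 3) [(0,2),(1,2)]) i + ![0, 1, 0] i <
      dg (ofEdges (m := 3) [(0,2),(1,2)]) (0 : Fin 3) + 9 := by decide
  have e4 : ∀ i : Fin 3, i ≠ 0 → 2 ≤ dg (ofEdges (m := 3) [(0,2),(1,2)]) i + ![0, 1, 0] i := by decide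
  have e5 : ∀ i : Fin 3, plens (ofEdges (m := 3) [(0,2),(1,2)]) 3 [] i 0 ≠ [] := by decide
  have e6 : (∑ i : Fin 3, if i = 0 then 0 else ![0, 1, 0] i) = 1 := by decide
  have e7 : ∀ x ∈ badList (ofEdges (m := 3) [(0,2),(1,2)]) ![0, 1, 0] 0, x ∈ ([1, 2, 4] : List ℕ) := by decide
  have e8 : ∀ x ∈ ([1, 2, 4] : List ℕ), x ∈ badList (ofEdges (m := 3) [(0,2),(1,2)]) ![0, 1, 0] 0 := by decide
  refine realisable_core (ofEdges (m := 3) [(0,2),(1,2)]) e1 e2 ![0, 1, 0] 0 n (n - 4) (by omega)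
    (fun i hi => lt_of_lt_of_le (e3 i hi) (by omega)) e4 e5 (by rw [e6]; omega) _
    (fun x => ⟨e8 x, e7 x⟩)

theorem fam_fttff (n : ℕ) (hn : 13 ≤ n) :
    Realisable n ({k | 1 ≤ k} \ {k | k ∈ ([2, 3, 4] : List ℕ)}) := by
  have e1 : ∀ i j, (ofEdges (m := 3) [(0,1),(0,2),(1,2)]) i j = (ofEdges (m := 3) [(0,1),(0,2),(1,2)]) j i := by decide
  have e2 : ∀ i, (ofEdges (m := 3) [(0,1),(0,2),(1,2)]) i i = false := by decide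
  have e3 : ∀ i : Fin 3, i ≠ 0 → dg (ofEdges (m := 3) [(0,1),(0,2),(1,2)]) i + ![0, 1, 0] i <
      dg (ofEdges (m := 3) [(0,1),(0,2),(1,2)]) (0 : Fin 3) + 9 := by decide
  have e4 : ∀ i : Fin 3, i ≠ 0 → 2 ≤ dg (ofEdges (m := 3) [(0,1),(0,2),(1,2)]) i + ![0, 1, 0] i := by decide
  have e5 : ∀ i : Fin 3, plens (ofEdges (m := 3) [(0,1),(0,2),(1,2)]) 3 [] i 0 ≠ [] := by decide
  have e6 : (∑ i : Fin 3, if i = 0 then 0 else ![0, 1, 0] i) = 1 := by decide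
  have e7 : ∀ x ∈ badList (ofEdges (m := 3) [(0,1),(0,2),(1,2)]) ![0, 1, 0] 0, x ∈ ([2, 3, 4] : List ℕ) := by decide
  have e8 : ∀ x ∈ ([2, 3, 4] : List ℕ), x ∈ badList (ofEdges (m := 3) [(0,1),(0,2),(1,2)]) ![0, 1, 0] 0 := by decide
  refine realisable_core (ofEdges (m := 3) [(0,1),(0,2),(1,2)]) e1 e2 ![0, 1, 0] 0 n (n - 4) (by omega)
    (fun i hi => lt_of_lt_of_le (e3 i hi) (by omega)) e4 e5 (by rw [e6]; omega) _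
    (fun x => ⟨e8 x, e7 x⟩)

theorem fam_tttff (n : ℕ) (hn : 13 ≤ n) :
    Realisable n ({k | 1 ≤ k} \ {k | k ∈ ([1, 2, 3, 4] : List ℕ)}) := by
  have e1 : ∀ i j, (ofEdges (m := 3) [(0,1),(0,2),(1,2)]) i j = (ofEdges (m := 3) [(0,1),(0,2),(1,2)]) j i := by decide
  have e2 : ∀ i, (ofEdges (m := 3) [(0,1),(0,2),(1,2)]) i i = false := by decide
  have e3 : ∀ i : Fin 3, i ≠ 0 → dg (ofEdges (m := 3) [(0,1),(0,2),(1,2)]) i + ![0, 1, 1] i <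
      dg (ofEdges (m := 3) [(0,1),(0,2),(1,2)]) (0 : Fin 3) + 8 := by decide
  have e4 : ∀ i : Fin 3, i ≠ 0 → 2 ≤ dg (ofEdges (m := 3) [(0,1),(0,2),(1,2)]) i + ![0, 1, 1] i := by decide
  have e5 : ∀ i : Fin 3, plens (ofEdges (m := 3) [(0,1),(0,2),(1,2)]) 3 [] i 0 ≠ [] := by decide
  have e6 : (∑ i : Fin 3, if i = 0 then 0 else ![0, 1, 1] i) = 2 := by decide
  have e7 : ∀ x ∈ badList (ofEdges (m := 3) [(0,1),(0,2),(1,2)]) ![0, 1, 1] 0, x ∈ ([1, 2, 3, 4] : List ℕ) := by decide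
  have e8 : ∀ x ∈ ([1, 2, 3, 4] : List ℕ), x ∈ badList (ofEdges (m := 3) [(0,1),(0,2),(1,2)]) ![0, 1, 1] 0 := by decide
  refine realisable_core (ofEdges (m := 3) [(0,1),(0,2),(1,2)]) e1 e2 ![0, 1, 1] 0 n (n - 5) (by omega)
    (fun i hi => lt_of_lt_of_le (e3 i hi) (by omega)) e4 e5 (by rw [e6]; omega) _
    (fun x => ⟨e8 x, e7 x⟩)

theorem fam_ffftf (n : ℕ) (hn : 13 ≤ n) :
    Realisable n ({k | 1 ≤ k} \ {k | k ∈ ([2, 5] : List ℕ)}) := by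
  have e1 : ∀ i j, (ofEdges (m := 5) [(0,4),(1,3),(1,4),(2,3),(2,4)]) i j = (ofEdges (m := 5) [(0,4),(1,3),(1,4),(2,3),(2,4)]) j i := by decide
  have e2 : ∀ i, (ofEdges (m := 5) [(0,4),(1,3),(1,4),(2,3),(2,4)]) i i = false := by decide
  have e3 : ∀ i : Fin 5, i ≠ 0 → dg (ofEdges (m := 5) [(0,4),(1,3),(1,4),(2,3),(2,4)]) i + ![0, 0, 0, 1, 0] i <
      dg (ofEdges (m := 5) [(0,4),(1,3),(1,4),(2,3),(2,4)]) (0 : Fin 5) + 7 := by decide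
  have e4 : ∀ i : Fin 5, i ≠ 0 → 2 ≤ dg (ofEdges (m := 5) [(0,4),(1,3),(1,4),(2,3),(2,4)]) i + ![0, 0, 0, 1, 0] i := by decide
  have e5 : ∀ i : Fin 5, plens (ofEdges (m := 5) [(0,4),(1,3),(1,4),(2,3),(2,4)]) 5 [] i 0 ≠ [] := by decide
  have e6 : (∑ i : Fin 5, if i = 0 then 0 else ![0, 0, 0, 1, 0] i) = 1 := by decide
  have e7 : ∀ x ∈ badList (ofEdges (m := 5) [(0,4),(1,3),(1,4),(2,3),(2,4)]) ![0, 0, 0, 1, 0] 0, x ∈ ([2, 5] : List ℕ) := by decide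
  have e8 : ∀ x ∈ ([2, 5] : List ℕ), x ∈ badList (ofEdges (m := 5) [(0,4),(1,3),(1,4),(2,3),(2,4)]) ![0, 0, 0, 1, 0] 0 := by decide
  refine realisable_core (ofEdges (m := 5) [(0,4),(1,3),(1,4),(2,3),(2,4)]) e1 e2 ![0, 0, 0, 1, 0] 0 n (n - 6) (by omega)
    (fun i hi => lt_of_lt_of_le (e3 i hi) (by omega)) e4 e5 (by rw [e6]; omega) _
    (fun x => ⟨e8 x, e7 x⟩)

theorem fam_tfftf (n : ℕ) (hn : 13 ≤ n) :
    Realisable n ({k | 1 ≤ k} \ {k | k ∈ ([1, 2, 5] : List ℕ)}) := by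
  have e1 : ∀ i j, (ofEdges (m := 4) [(0,3),(1,2),(2,3)]) i j = (ofEdges (m := 4) [(0,3),(1,2),(2,3)]) j i := by decide
  have e2 : ∀ i, (ofEdges (m := 4) [(0,3),(1,2),(2,3)]) i i = false := by decide
  have e3 : ∀ i : Fin 4, i ≠ 0 → dg (ofEdges (m := 4) [(0,3),(1,2),(2,3)]) i + ![0, 1, 0, 0] i <
      dg (ofEdges (m := 4) [(0,3),(1,2),(2,3)]) (0 : Fin 4) + 8 := by decide
  have e4 : ∀ i : Fin 4, i ≠ 0 → 2 ≤ dg (ofEdges (m := 4) [(0,3),(1,2),(2,3)]) i + ![0, 1, 0, 0] i := by decide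
  have e5 : ∀ i : Fin 4, plens (ofEdges (m := 4) [(0,3),(1,2),(2,3)]) 4 [] i 0 ≠ [] := by decide
  have e6 : (∑ i : Fin 4, if i = 0 then 0 else ![0, 1, 0, 0] i) = 1 := by decide
  have e7 : ∀ x ∈ badList (ofEdges (m := 4) [(0,3),(1,2),(2,3)]) ![0, 1, 0, 0] 0, x ∈ ([1, 2, 5] : List ℕ) := by decide
  have e8 : ∀ x ∈ ([1, 2, 5] : List ℕ), x ∈ badList (ofEdges (m := 4) [(0,3),(1,2),(2,3)]) ![0, 1, 0, 0] 0 := by decide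
  refine realisable_core (ofEdges (m := 4) [(0,3),(1,2),(2,3)]) e1 e2 ![0, 1, 0, 0] 0 n (n - 5) (by omega)
    (fun i hi => lt_of_lt_of_le (e3 i hi) (by omega)) e4 e5 (by rw [e6]; omega) _
    (fun x => ⟨e8 x, e7 x⟩)

theorem fam_ttftf (n : ℕ) (hn : 13 ≤ n) :
    Realisable n ({k | 1 ≤ k} \ {k | k ∈ ([1, 2, 3, 5] : List ℕ)}) := by
  have e1 : ∀ i j, (ofEdges (m := 4) [(0,2),(0,3),(1,2),(1,3)]) i j = (ofEdges (m := 4) [(0,2),(0,3),(1,2),(1,3)]) j i := by decide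
  have e2 : ∀ i, (ofEdges (m := 4) [(0,2),(0,3),(1,2),(1,3)]) i i = false := by decide
  have e3 : ∀ i : Fin 4, i ≠ 0 → dg (ofEdges (m := 4) [(0,2),(0,3),(1,2),(1,3)]) i + ![0, 0, 1, 0] i <
      dg (ofEdges (m := 4) [(0,2),(0,3),(1,2),(1,3)]) (0 : Fin 4) + 8 := by decide
  have e4 : ∀ i : Fin 4, i ≠ 0 → 2 ≤ dg (ofEdges (m := 4) [(0,2),(0,3),(1,2),(1,3)]) i + ![0, 0, 1, 0] i := by decide
  have e5 : ∀ i : Fin 4, plens (ofEdges (m := 4) [(0,2),(0,3),(1,2),(1,3)]) 4 [] i 0 ≠ [] := by decide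
  have e6 : (∑ i : Fin 4, if i = 0 then 0 else ![0, 0, 1, 0] i) = 1 := by decide
  have e7 : ∀ x ∈ badList (ofEdges (m := 4) [(0,2),(0,3),(1,2),(1,3)]) ![0, 0, 1, 0] 0, x ∈ ([1, 2, 3, 5] : List ℕ) := by decide
  have e8 : ∀ x ∈ ([1, 2, 3, 5] : List ℕ), x ∈ badList (ofEdges (m := 4) [(0,2),(0,3),(1,2),(1,3)]) ![0, 0, 1, 0] 0 := by decide
  refine realisable_core (ofEdges (m := 4) [(0,2),(0,3),(1,2),(1,3)]) e1 e2 ![0, 0, 1, 0] 0 n (n - 5) (by omega)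
    (fun i hi => lt_of_lt_of_le (e3 i hi) (by omega)) e4 e5 (by rw [e6]; omega) _
    (fun x => ⟨e8 x, e7 x⟩)

theorem fam_ffttf (n : ℕ) (hn : 13 ≤ n) :
    Realisable n ({k | 1 ≤ k} \ {k | k ∈ ([2, 4, 5] : List ℕ)}) := by
  have e1 : ∀ i j, (ofEdges (m := 4) [(0,3),(1,2),(1,3),(2,3)]) i j = (ofEdges (m := 4) [(0,3),(1,2),(1,3),(2,3)]) j i := by decide
  have e2 : ∀ i, (ofEdges (m := 4) [(0,3),(1,2),(1,3),(2,3)]) i i = false := by decide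
  have e3 : ∀ i : Fin 4, i ≠ 0 → dg (ofEdges (m := 4) [(0,3),(1,2),(1,3),(2,3)]) i + ![0, 2, 0, 0] i <
      dg (ofEdges (m := 4) [(0,3),(1,2),(1,3),(2,3)]) (0 : Fin 4) + 7 := by decide
  have e4 : ∀ i : Fin 4, i ≠ 0 → 2 ≤ dg (ofEdges (m := 4) [(0,3),(1,2),(1,3),(2,3)]) i + ![0, 2, 0, 0] i := by decide
  have e5 : ∀ i : Fin 4, plens (ofEdges (m := 4) [(0,3),(1,2),(1,3),(2,3)]) 4 [] i 0 ≠ [] := by decide
  have e6 : (∑ i : Fin 4, if i = 0 then 0 else ![0, 2, 0, 0] i) = 2 := by decide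
  have e7 : ∀ x ∈ badList (ofEdges (m := 4) [(0,3),(1,2),(1,3),(2,3)]) ![0, 2, 0, 0] 0, x ∈ ([2, 4, 5] : List ℕ) := by decide
  have e8 : ∀ x ∈ ([2, 4, 5] : List ℕ), x ∈ badList (ofEdges (m := 4) [(0,3),(1,2),(1,3),(2,3)]) ![0, 2, 0, 0] 0 := by decide
  refine realisable_core (ofEdges (m := 4) [(0,3),(1,2),(1,3),(2,3)]) e1 e2 ![0, 2, 0, 0] 0 n (n - 6) (by omega)
    (fun i hi => lt_of_lt_of_le (e3 i hi) (by omega)) e4 e5 (by rw [e6]; omega) _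
    (fun x => ⟨e8 x, e7 x⟩)

theorem fam_tfttf (n : ℕ) (hn : 13 ≤ n) :
    Realisable n ({k | 1 ≤ k} \ {k | k ∈ ([1, 2, 4, 5] : List ℕ)}) := by
  have e1 : ∀ i j, (ofEdges (m := 4) [(0,3),(1,2),(1,3),(2,3)]) i j = (ofEdges (m := 4) [(0,3),(1,2),(1,3),(2,3)]) j i := by decide
  have e2 : ∀ i, (ofEdges (m := 4) [(0,3),(1,2),(1,3),(2,3)]) i i = false := by decide
  have e3 : ∀ i : Fin 4, i ≠ 0 → dg (ofEdges (m := 4) [(0,3),(1,2),(1,3),(2,3)]) i + ![0, 1, 0, 0] i <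
      dg (ofEdges (m := 4) [(0,3),(1,2),(1,3),(2,3)]) (0 : Fin 4) + 8 := by decide
  have e4 : ∀ i : Fin 4, i ≠ 0 → 2 ≤ dg (ofEdges (m := 4) [(0,3),(1,2),(1,3),(2,3)]) i + ![0, 1, 0, 0] i := by decide
  have e5 : ∀ i : Fin 4, plens (ofEdges (m := 4) [(0,3),(1,2),(1,3),(2,3)]) 4 [] i 0 ≠ [] := by decide
  have e6 : (∑ i : Fin 4, if i = 0 then 0 else ![0, 1, 0, 0] i) = 1 := by decide
  have e7 : ∀ x ∈ badList (ofEdges (m := 4) [(0,3),(1,2),(1,3),(2,3)]) ![0, 1, 0, 0] 0, x ∈ ([1, 2, 4, 5] : List ℕ) := by decide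
  have e8 : ∀ x ∈ ([1, 2, 4, 5] : List ℕ), x ∈ badList (ofEdges (m := 4) [(0,3),(1,2),(1,3),(2,3)]) ![0, 1, 0, 0] 0 := by decide
  refine realisable_core (ofEdges (m := 4) [(0,3),(1,2),(1,3),(2,3)]) e1 e2 ![0, 1, 0, 0] 0 n (n - 5) (by omega)
    (fun i hi => lt_of_lt_of_le (e3 i hi) (by omega)) e4 e5 (by rw [e6]; omega) _
    (fun x => ⟨e8 x, e7 x⟩)

theorem fam_ftttf (n : ℕ) (hn : 13 ≤ n) :
    Realisable n ({k | 1 ≤ k} \ {k | k ∈ ([2, 3, 4, 5] : List ℕ)}) := by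
  have e1 : ∀ i j, (ofEdges (m := 4) [(0,3),(1,2),(1,3),(2,3)]) i j = (ofEdges (m := 4) [(0,3),(1,2),(1,3),(2,3)]) j i := by decide
  have e2 : ∀ i, (ofEdges (m := 4) [(0,3),(1,2),(1,3),(2,3)]) i i = false := by decide
  have e3 : ∀ i : Fin 4, i ≠ 1 → dg (ofEdges (m := 4) [(0,3),(1,2),(1,3),(2,3)]) i + ![1, 0, 0, 0] i <
      dg (ofEdges (m := 4) [(0,3),(1,2),(1,3),(2,3)]) (1 : Fin 4) + 8 := by decide
  have e4 : ∀ i : Fin 4, i ≠ 1 → 2 ≤ dg (ofEdges (m := 4) [(0,3),(1,2),(1,3),(2,3)]) i + ![1, 0, 0, 0] i := by decide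
  have e5 : ∀ i : Fin 4, plens (ofEdges (m := 4) [(0,3),(1,2),(1,3),(2,3)]) 4 [] i 1 ≠ [] := by decide
  have e6 : (∑ i : Fin 4, if i = 1 then 0 else ![1, 0, 0, 0] i) = 1 := by decide
  have e7 : ∀ x ∈ badList (ofEdges (m := 4) [(0,3),(1,2),(1,3),(2,3)]) ![1, 0, 0, 0] 1, x ∈ ([2, 3, 4, 5] : List ℕ) := by decide
  have e8 : ∀ x ∈ ([2, 3, 4, 5] : List ℕ), x ∈ badList (ofEdges (m := 4) [(0,3),(1,2),(1,3),(2,3)]) ![1, 0, 0, 0] 1 := by decide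
  refine realisable_core (ofEdges (m := 4) [(0,3),(1,2),(1,3),(2,3)]) e1 e2 ![1, 0, 0, 0] 1 n (n - 5) (by omega)
    (fun i hi => lt_of_lt_of_le (e3 i hi) (by omega)) e4 e5 (by rw [e6]; omega) _
    (fun x => ⟨e8 x, e7 x⟩)

theorem fam_ttttf (n : ℕ) (hn : 13 ≤ n) :
    Realisable n ({k | 1 ≤ k} \ {k | k ∈ ([1, 2, 3, 4, 5] : List ℕ)}) := by
  have e1 : ∀ i j, (ofEdges (m := 4) [(0,2),(0,3),(1,2),(1,3),(2,3)]) i j = (ofEdges (m := 4) [(0,2),(0,3),(1,2),(1,3),(2,3)]) j i := by decide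
  have e2 : ∀ i, (ofEdges (m := 4) [(0,2),(0,3),(1,2),(1,3),(2,3)]) i i = false := by decide
  have e3 : ∀ i : Fin 4, i ≠ 0 → dg (ofEdges (m := 4) [(0,2),(0,3),(1,2),(1,3),(2,3)]) i + ![0, 1, 0, 0] i <
      dg (ofEdges (m := 4) [(0,2),(0,3),(1,2),(1,3),(2,3)]) (0 : Fin 4) + 8 := by decide
  have e4 : ∀ i : Fin 4, i ≠ 0 → 2 ≤ dg (ofEdges (m := 4) [(0,2),(0,3),(1,2),(1,3),(2,3)]) i + ![0, 1, 0, 0] i := by decide
  have e5 : ∀ i : Fin 4, plens (ofEdges (m := 4) [(0,2),(0,3),(1,2),(1,3),(2,3)]) 4 [] i 0 ≠ [] := by decide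
  have e6 : (∑ i : Fin 4, if i = 0 then 0 else ![0, 1, 0, 0] i) = 1 := by decide
  have e7 : ∀ x ∈ badList (ofEdges (m := 4) [(0,2),(0,3),(1,2),(1,3),(2,3)]) ![0, 1, 0, 0] 0, x ∈ ([1, 2, 3, 4, 5] : List ℕ) := by decide
  have e8 : ∀ x ∈ ([1, 2, 3, 4, 5] : List ℕ), x ∈ badList (ofEdges (m := 4) [(0,2),(0,3),(1,2),(1,3),(2,3)]) ![0, 1, 0, 0] 0 := by decide
  refine realisable_core (ofEdges (m := 4) [(0,2),(0,3),(1,2),(1,3),(2,3)]) e1 e2 ![0, 1, 0, 0] 0 n (n - 5) (by omega)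
    (fun i hi => lt_of_lt_of_le (e3 i hi) (by omega)) e4 e5 (by rw [e6]; omega) _
    (fun x => ⟨e8 x, e7 x⟩)

theorem fam_fffft (n : ℕ) (hn : 13 ≤ n) :
    Realisable n ({k | 1 ≤ k} \ {k | k ∈ ([2, 6] : List ℕ)}) := by
  have e1 : ∀ i j, (ofEdges (m := 6) [(0,5),(1,4),(2,4),(2,5),(3,4),(3,5)]) i j = (ofEdges (m := 6) [(0,5),(1,4),(2,4),(2,5),(3,4),(3,5)]) j i := by decide
  have e2 : ∀ i, (ofEdges (m := 6) [(0,5),(1,4),(2,4),(2,5),(3,4),(3,5)]) i i = false := by decide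
  have e3 : ∀ i : Fin 6, i ≠ 0 → dg (ofEdges (m := 6) [(0,5),(1,4),(2,4),(2,5),(3,4),(3,5)]) i + ![0, 3, 0, 0, 0, 0] i <
      dg (ofEdges (m := 6) [(0,5),(1,4),(2,4),(2,5),(3,4),(3,5)]) (0 : Fin 6) + 4 := by decide
  have e4 : ∀ i : Fin 6, i ≠ 0 → 2 ≤ dg (ofEdges (m := 6) [(0,5),(1,4),(2,4),(2,5),(3,4),(3,5)]) i + ![0, 3, 0, 0, 0, 0] i := by decide
  have e5 : ∀ i : Fin 6, plens (ofEdges (m := 6) [(0,5),(1,4),(2,4),(2,5),(3,4),(3,5)]) 6 [] i 0 ≠ [] := by decide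
  have e6 : (∑ i : Fin 6, if i = 0 then 0 else ![0, 3, 0, 0, 0, 0] i) = 3 := by decide
  have e7 : ∀ x ∈ badList (ofEdges (m := 6) [(0,5),(1,4),(2,4),(2,5),(3,4),(3,5)]) ![0, 3, 0, 0, 0, 0] 0, x ∈ ([2, 6] : List ℕ) := by decide
  have e8 : ∀ x ∈ ([2, 6] : List ℕ), x ∈ badList (ofEdges (m := 6) [(0,5),(1,4),(2,4),(2,5),(3,4),(3,5)]) ![0, 3, 0, 0, 0, 0] 0 := by decide
  refine realisable_core (ofEdges (m := 6) [(0,5),(1,4),(2,4),(2,5),(3,4),(3,5)]) e1 e2 ![0, 3, 0, 0, 0, 0] 0 n (n - 9) (by omega)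
    (fun i hi => lt_of_lt_of_le (e3 i hi) (by omega)) e4 e5 (by rw [e6]; omega) _
    (fun x => ⟨e8 x, e7 x⟩)

theorem fam_tffft (n : ℕ) (hn : 13 ≤ n) :
    Realisable n ({k | 1 ≤ k} \ {k | k ∈ ([1, 2, 6] : List ℕ)}) := by
  have e1 : ∀ i j, (ofEdges (m := 5) [(0,4),(1,3),(2,3),(2,4)]) i j = (ofEdges (m := 5) [(0,4),(1,3),(2,3),(2,4)]) j i := by decide
  have e2 : ∀ i, (ofEdges (m := 5) [(0,4),(1,3),(2,3),(2,4)]) i i = false := by decide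
  have e3 : ∀ i : Fin 5, i ≠ 0 → dg (ofEdges (m := 5) [(0,4),(1,3),(2,3),(2,4)]) i + ![0, 2, 0, 0, 0] i <
      dg (ofEdges (m := 5) [(0,4),(1,3),(2,3),(2,4)]) (0 : Fin 5) + 6 := by decide
  have e4 : ∀ i : Fin 5, i ≠ 0 → 2 ≤ dg (ofEdges (m := 5) [(0,4),(1,3),(2,3),(2,4)]) i + ![0, 2, 0, 0, 0] i := by decide
  have e5 : ∀ i : Fin 5, plens (ofEdges (m := 5) [(0,4),(1,3),(2,3),(2,4)]) 5 [] i 0 ≠ [] := by decide
  have e6 : (∑ i : Fin 5, if i = 0 then 0 else ![0, 2, 0, 0, 0] i) = 2 := by decide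
  have e7 : ∀ x ∈ badList (ofEdges (m := 5) [(0,4),(1,3),(2,3),(2,4)]) ![0, 2, 0, 0, 0] 0, x ∈ ([1, 2, 6] : List ℕ) := by decide
  have e8 : ∀ x ∈ ([1, 2, 6] : List ℕ), x ∈ badList (ofEdges (m := 5) [(0,4),(1,3),(2,3),(2,4)]) ![0, 2, 0, 0, 0] 0 := by decide
  refine realisable_core (ofEdges (m := 5) [(0,4),(1,3),(2,3),(2,4)]) e1 e2 ![0, 2, 0, 0, 0] 0 n (n - 7) (by omega)
    (fun i hi => lt_of_lt_of_le (e3 i hi) (by omega)) e4 e5 (by rw [e6]; omega) _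
    (fun x => ⟨e8 x, e7 x⟩)

theorem fam_ttfft (n : ℕ) (hn : 13 ≤ n) :
    Realisable n ({k | 1 ≤ k} \ {k | k ∈ ([1, 2, 3, 6] : List ℕ)}) := by
  have e1 : ∀ i j, (ofEdges (m := 5) [(0,4),(1,3),(2,3),(2,4)]) i j = (ofEdges (m := 5) [(0,4),(1,3),(2,3),(2,4)]) j i := by decide
  have e2 : ∀ i, (ofEdges (m := 5) [(0,4),(1,3),(2,3),(2,4)]) i i = false := by decide
  have e3 : ∀ i : Fin 5, i ≠ 0 → dg (ofEdges (m := 5) [(0,4),(1,3),(2,3),(2,4)]) i + ![0, 1, 0, 0, 0] i <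
      dg (ofEdges (m := 5) [(0,4),(1,3),(2,3),(2,4)]) (0 : Fin 5) + 7 := by decide
  have e4 : ∀ i : Fin 5, i ≠ 0 → 2 ≤ dg (ofEdges (m := 5) [(0,4),(1,3),(2,3),(2,4)]) i + ![0, 1, 0, 0, 0] i := by decide
  have e5 : ∀ i : Fin 5, plens (ofEdges (m := 5) [(0,4),(1,3),(2,3),(2,4)]) 5 [] i 0 ≠ [] := by decide
  have e6 : (∑ i : Fin 5, if i = 0 then 0 else ![0, 1, 0, 0, 0] i) = 1 := by decide
  have e7 : ∀ x ∈ badList (ofEdges (m := 5) [(0,4),(1,3),(2,3),(2,4)]) ![0, 1, 0, 0, 0] 0, x ∈ ([1, 2, 3, 6] : List ℕ) := by decide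
  have e8 : ∀ x ∈ ([1, 2, 3, 6] : List ℕ), x ∈ badList (ofEdges (m := 5) [(0,4),(1,3),(2,3),(2,4)]) ![0, 1, 0, 0, 0] 0 := by decide
  refine realisable_core (ofEdges (m := 5) [(0,4),(1,3),(2,3),(2,4)]) e1 e2 ![0, 1, 0, 0, 0] 0 n (n - 6) (by omega)
    (fun i hi => lt_of_lt_of_le (e3 i hi) (by omega)) e4 e5 (by rw [e6]; omega) _
    (fun x => ⟨e8 x, e7 x⟩)

theorem fam_fftft (n : ℕ) (hn : 13 ≤ n) :
    Realisable n ({k | 1 ≤ k} \ {k | k ∈ ([2, 4, 6] : List ℕ)}) := by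
  have e1 : ∀ i j, (ofEdges (m := 5) [(0,3),(0,4),(1,3),(1,4),(2,3),(2,4)]) i j = (ofEdges (m := 5) [(0,3),(0,4),(1,3),(1,4),(2,3),(2,4)]) j i := by decide
  have e2 : ∀ i, (ofEdges (m := 5) [(0,3),(0,4),(1,3),(1,4),(2,3),(2,4)]) i i = false := by decide
  have e3 : ∀ i : Fin 5, i ≠ 0 → dg (ofEdges (m := 5) [(0,3),(0,4),(1,3),(1,4),(2,3),(2,4)]) i + ![0, 2, 0, 0, 0] i <
      dg (ofEdges (m := 5) [(0,3),(0,4),(1,3),(1,4),(2,3),(2,4)]) (0 : Fin 5) + 6 := by decide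
  have e4 : ∀ i : Fin 5, i ≠ 0 → 2 ≤ dg (ofEdges (m := 5) [(0,3),(0,4),(1,3),(1,4),(2,3),(2,4)]) i + ![0, 2, 0, 0, 0] i := by decide
  have e5 : ∀ i : Fin 5, plens (ofEdges (m := 5) [(0,3),(0,4),(1,3),(1,4),(2,3),(2,4)]) 5 [] i 0 ≠ [] := by decide
  have e6 : (∑ i : Fin 5, if i = 0 then 0 else ![0, 2, 0, 0, 0] i) = 2 := by decide
  have e7 : ∀ x ∈ badList (ofEdges (m := 5) [(0,3),(0,4),(1,3),(1,4),(2,3),(2,4)]) ![0, 2, 0, 0, 0] 0, x ∈ ([2, 4, 6] : List ℕ) := by decide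
  have e8 : ∀ x ∈ ([2, 4, 6] : List ℕ), x ∈ badList (ofEdges (m := 5) [(0,3),(0,4),(1,3),(1,4),(2,3),(2,4)]) ![0, 2, 0, 0, 0] 0 := by decide
  refine realisable_core (ofEdges (m := 5) [(0,3),(0,4),(1,3),(1,4),(2,3),(2,4)]) e1 e2 ![0, 2, 0, 0, 0] 0 n (n - 7) (by omega)
    (fun i hi => lt_of_lt_of_le (e3 i hi) (by omega)) e4 e5 (by rw [e6]; omega) _
    (fun x => ⟨e8 x, e7 x⟩)

theorem fam_tftft (n : ℕ) (hn : 13 ≤ n) :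
    Realisable n ({k | 1 ≤ k} \ {k | k ∈ ([1, 2, 4, 6] : List ℕ)}) := by
  have e1 : ∀ i j, (ofEdges (m := 5) [(0,4),(1,3),(1,4),(2,3),(2,4)]) i j = (ofEdges (m := 5) [(0,4),(1,3),(1,4),(2,3),(2,4)]) j i := by decide
  have e2 : ∀ i, (ofEdges (m := 5) [(0,4),(1,3),(1,4),(2,3),(2,4)]) i i = false := by decide
  have e3 : ∀ i : Fin 5, i ≠ 1 → dg (ofEdges (m := 5) [(0,4),(1,3),(1,4),(2,3),(2,4)]) i + ![2, 0, 2, 0, 0] i <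
      dg (ofEdges (m := 5) [(0,4),(1,3),(1,4),(2,3),(2,4)]) (1 : Fin 5) + 4 := by decide
  have e4 : ∀ i : Fin 5, i ≠ 1 → 2 ≤ dg (ofEdges (m := 5) [(0,4),(1,3),(1,4),(2,3),(2,4)]) i + ![2, 0, 2, 0, 0] i := by decide
  have e5 : ∀ i : Fin 5, plens (ofEdges (m := 5) [(0,4),(1,3),(1,4),(2,3),(2,4)]) 5 [] i 1 ≠ [] := by decide
  have e6 : (∑ i : Fin 5, if i = 1 then 0 else ![2, 0, 2, 0, 0] i) = 4 := by decide
  have e7 : ∀ x ∈ badList (ofEdges (m := 5) [(0,4),(1,3),(1,4),(2,3),(2,4)]) ![2, 0, 2, 0, 0] 1, x ∈ ([1, 2, 4, 6] : List ℕ) := by decide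
  have e8 : ∀ x ∈ ([1, 2, 4, 6] : List ℕ), x ∈ badList (ofEdges (m := 5) [(0,4),(1,3),(1,4),(2,3),(2,4)]) ![2, 0, 2, 0, 0] 1 := by decide
  refine realisable_core (ofEdges (m := 5) [(0,4),(1,3),(1,4),(2,3),(2,4)]) e1 e2 ![2, 0, 2, 0, 0] 1 n (n - 9) (by omega)
    (fun i hi => lt_of_lt_of_le (e3 i hi) (by omega)) e4 e5 (by rw [e6]; omega) _
    (fun x => ⟨e8 x, e7 x⟩)

theorem fam_fttft (n : ℕ) (hn : 13 ≤ n) :
    Realisable n ({k | 1 ≤ k} \ {k | k ∈ ([2, 3, 4, 6] : List ℕ)}) := by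
  have e1 : ∀ i j, (ofEdges (m := 5) [(0,3),(0,4),(1,2),(1,3),(1,4),(2,3),(2,4)]) i j = (ofEdges (m := 5) [(0,3),(0,4),(1,2),(1,3),(1,4),(2,3),(2,4)]) j i := by decide
  have e2 : ∀ i, (ofEdges (m := 5) [(0,3),(0,4),(1,2),(1,3),(1,4),(2,3),(2,4)]) i i = false := by decide
  have e3 : ∀ i : Fin 5, i ≠ 1 → dg (ofEdges (m := 5) [(0,3),(0,4),(1,2),(1,3),(1,4),(2,3),(2,4)]) i + ![0, 0, 1, 0, 0] i <
      dg (ofEdges (m := 5) [(0,3),(0,4),(1,2),(1,3),(1,4),(2,3),(2,4)]) (1 : Fin 5) + 7 := by decide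
  have e4 : ∀ i : Fin 5, i ≠ 1 → 2 ≤ dg (ofEdges (m := 5) [(0,3),(0,4),(1,2),(1,3),(1,4),(2,3),(2,4)]) i + ![0, 0, 1, 0, 0] i := by decide
  have e5 : ∀ i : Fin 5, plens (ofEdges (m := 5) [(0,3),(0,4),(1,2),(1,3),(1,4),(2,3),(2,4)]) 5 [] i 1 ≠ [] := by decide
  have e6 : (∑ i : Fin 5, if i = 1 then 0 else ![0, 0, 1, 0, 0] i) = 1 := by decide
  have e7 : ∀ x ∈ badList (ofEdges (m := 5) [(0,3),(0,4),(1,2),(1,3),(1,4),(2,3),(2,4)]) ![0, 0, 1, 0, 0] 1, x ∈ ([2, 3, 4, 6] : List ℕ) := by decide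
  have e8 : ∀ x ∈ ([2, 3, 4, 6] : List ℕ), x ∈ badList (ofEdges (m := 5) [(0,3),(0,4),(1,2),(1,3),(1,4),(2,3),(2,4)]) ![0, 0, 1, 0, 0] 1 := by decide
  refine realisable_core (ofEdges (m := 5) [(0,3),(0,4),(1,2),(1,3),(1,4),(2,3),(2,4)]) e1 e2 ![0, 0, 1, 0, 0] 1 n (n - 6) (by omega)
    (fun i hi => lt_of_lt_of_le (e3 i hi) (by omega)) e4 e5 (by rw [e6]; omega) _
    (fun x => ⟨e8 x, e7 x⟩)

theorem fam_tttft (n : ℕ) (hn : 13 ≤ n) :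
    Realisable n ({k | 1 ≤ k} \ {k | k ∈ ([1, 2, 3, 4, 6] : List ℕ)}) := by
  have e1 : ∀ i j, (ofEdges (m := 5) [(0,3),(0,4),(1,2),(1,4),(2,3)]) i j = (ofEdges (m := 5) [(0,3),(0,4),(1,2),(1,4),(2,3)]) j i := by decide
  have e2 : ∀ i, (ofEdges (m := 5) [(0,3),(0,4),(1,2),(1,4),(2,3)]) i i = false := by decide
  have e3 : ∀ i : Fin 5, i ≠ 0 → dg (ofEdges (m := 5) [(0,3),(0,4),(1,2),(1,4),(2,3)]) i + ![0, 0, 0, 1, 0] i <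
      dg (ofEdges (m := 5) [(0,3),(0,4),(1,2),(1,4),(2,3)]) (0 : Fin 5) + 7 := by decide
  have e4 : ∀ i : Fin 5, i ≠ 0 → 2 ≤ dg (ofEdges (m := 5) [(0,3),(0,4),(1,2),(1,4),(2,3)]) i + ![0, 0, 0, 1, 0] i := by decide
  have e5 : ∀ i : Fin 5, plens (ofEdges (m := 5) [(0,3),(0,4),(1,2),(1,4),(2,3)]) 5 [] i 0 ≠ [] := by decide
  have e6 : (∑ i : Fin 5, if i = 0 then 0 else ![0, 0, 0, 1, 0] i) = 1 := by decide
  have e7 : ∀ x ∈ badList (ofEdges (m := 5) [(0,3),(0,4),(1,2),(1,4),(2,3)]) ![0, 0, 0, 1, 0] 0, x ∈ ([1, 2, 3, 4, 6] : List ℕ) := by decide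
  have e8 : ∀ x ∈ ([1, 2, 3, 4, 6] : List ℕ), x ∈ badList (ofEdges (m := 5) [(0,3),(0,4),(1,2),(1,4),(2,3)]) ![0, 0, 0, 1, 0] 0 := by decide
  refine realisable_core (ofEdges (m := 5) [(0,3),(0,4),(1,2),(1,4),(2,3)]) e1 e2 ![0, 0, 0, 1, 0] 0 n (n - 6) (by omega)
    (fun i hi => lt_of_lt_of_le (e3 i hi) (by omega)) e4 e5 (by rw [e6]; omega) _
    (fun x => ⟨e8 x, e7 x⟩)

theorem fam_ffftt (n : ℕ) (hn : 13 ≤ n) :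
    Realisable n ({k | 1 ≤ k} \ {k | k ∈ ([2, 5, 6] : List ℕ)}) := by
  have e1 : ∀ i j, (ofEdges (m := 6) [(0,5),(1,4),(2,3),(3,5),(4,5)]) i j = (ofEdges (m := 6) [(0,5),(1,4),(2,3),(3,5),(4,5)]) j i := by decide
  have e2 : ∀ i, (ofEdges (m := 6) [(0,5),(1,4),(2,3),(3,5),(4,5)]) i i = false := by decide
  have e3 : ∀ i : Fin 6, i ≠ 1 → dg (ofEdges (m := 6) [(0,5),(1,4),(2,3),(3,5),(4,5)]) i + ![1, 0, 2, 0, 0, 0] i <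
      dg (ofEdges (m := 6) [(0,5),(1,4),(2,3),(3,5),(4,5)]) (1 : Fin 6) + 4 := by decide
  have e4 : ∀ i : Fin 6, i ≠ 1 → 2 ≤ dg (ofEdges (m := 6) [(0,5),(1,4),(2,3),(3,5),(4,5)]) i + ![1, 0, 2, 0, 0, 0] i := by decide
  have e5 : ∀ i : Fin 6, plens (ofEdges (m := 6) [(0,5),(1,4),(2,3),(3,5),(4,5)]) 6 [] i 1 ≠ [] := by decide
  have e6 : (∑ i : Fin 6, if i = 1 then 0 else ![1, 0, 2, 0, 0, 0] i) = 3 := by decide
  have e7 : ∀ x ∈ badList (ofEdges (m := 6) [(0,5),(1,4),(2,3),(3,5),(4,5)]) ![1, 0, 2, 0, 0, 0] 1, x ∈ ([2, 5, 6] : List ℕ) := by decide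
  have e8 : ∀ x ∈ ([2, 5, 6] : List ℕ), x ∈ badList (ofEdges (m := 6) [(0,5),(1,4),(2,3),(3,5),(4,5)]) ![1, 0, 2, 0, 0, 0] 1 := by decide
  refine realisable_core (ofEdges (m := 6) [(0,5),(1,4),(2,3),(3,5),(4,5)]) e1 e2 ![1, 0, 2, 0, 0, 0] 1 n (n - 9) (by omega)
    (fun i hi => lt_of_lt_of_le (e3 i hi) (by omega)) e4 e5 (by rw [e6]; omega) _
    (fun x => ⟨e8 x, e7 x⟩)

theorem fam_tfftt (n : ℕ) (hn : 13 ≤ n) :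
    Realisable n ({k | 1 ≤ k} \ {k | k ∈ ([1, 2, 5, 6] : List ℕ)}) := by
  have e1 : ∀ i j, (ofEdges (m := 5) [(0,4),(1,3),(2,3),(2,4),(3,4)]) i j = (ofEdges (m := 5) [(0,4),(1,3),(2,3),(2,4),(3,4)]) j i := by decide
  have e2 : ∀ i, (ofEdges (m := 5) [(0,4),(1,3),(2,3),(2,4),(3,4)]) i i = false := by decide
  have e3 : ∀ i : Fin 5, i ≠ 0 → dg (ofEdges (m := 5) [(0,4),(1,3),(2,3),(2,4),(3,4)]) i + ![0, 3, 0, 0, 0] i <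
      dg (ofEdges (m := 5) [(0,4),(1,3),(2,3),(2,4),(3,4)]) (0 : Fin 5) + 5 := by decide
  have e4 : ∀ i : Fin 5, i ≠ 0 → 2 ≤ dg (ofEdges (m := 5) [(0,4),(1,3),(2,3),(2,4),(3,4)]) i + ![0, 3, 0, 0, 0] i := by decide
  have e5 : ∀ i : Fin 5, plens (ofEdges (m := 5) [(0,4),(1,3),(2,3),(2,4),(3,4)]) 5 [] i 0 ≠ [] := by decide
  have e6 : (∑ i : Fin 5, if i = 0 then 0 else ![0, 3, 0, 0, 0] i) = 3 := by decide
  have e7 : ∀ x ∈ badList (ofEdges (m := 5) [(0,4),(1,3),(2,3),(2,4),(3,4)]) ![0, 3, 0, 0, 0] 0, x ∈ ([1, 2, 5, 6] : List ℕ) := by decide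
  have e8 : ∀ x ∈ ([1, 2, 5, 6] : List ℕ), x ∈ badList (ofEdges (m := 5) [(0,4),(1,3),(2,3),(2,4),(3,4)]) ![0, 3, 0, 0, 0] 0 := by decide
  refine realisable_core (ofEdges (m := 5) [(0,4),(1,3),(2,3),(2,4),(3,4)]) e1 e2 ![0, 3, 0, 0, 0] 0 n (n - 8) (by omega)
    (fun i hi => lt_of_lt_of_le (e3 i hi) (by omega)) e4 e5 (by rw [e6]; omega) _
    (fun x => ⟨e8 x, e7 x⟩)

theorem fam_ftftt (n : ℕ) (hn : 13 ≤ n) :
    Realisable n ({k | 1 ≤ k} \ {k | k ∈ ([2, 3, 5, 6] : List ℕ)}) := by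
  have e1 : ∀ i j, (ofEdges (m := 5) [(0,3),(1,2),(1,4),(2,4),(3,4)]) i j = (ofEdges (m := 5) [(0,3),(1,2),(1,4),(2,4),(3,4)]) j i := by decide
  have e2 : ∀ i, (ofEdges (m := 5) [(0,3),(1,2),(1,4),(2,4),(3,4)]) i i = false := by decide
  have e3 : ∀ i : Fin 5, i ≠ 0 → dg (ofEdges (m := 5) [(0,3),(1,2),(1,4),(2,4),(3,4)]) i + ![0, 2, 0, 0, 0] i <
      dg (ofEdges (m := 5) [(0,3),(1,2),(1,4),(2,4),(3,4)]) (0 : Fin 5) + 6 := by decide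
  have e4 : ∀ i : Fin 5, i ≠ 0 → 2 ≤ dg (ofEdges (m := 5) [(0,3),(1,2),(1,4),(2,4),(3,4)]) i + ![0, 2, 0, 0, 0] i := by decide
  have e5 : ∀ i : Fin 5, plens (ofEdges (m := 5) [(0,3),(1,2),(1,4),(2,4),(3,4)]) 5 [] i 0 ≠ [] := by decide
  have e6 : (∑ i : Fin 5, if i = 0 then 0 else ![0, 2, 0, 0, 0] i) = 2 := by decide
  have e7 : ∀ x ∈ badList (ofEdges (m := 5) [(0,3),(1,2),(1,4),(2,4),(3,4)]) ![0, 2, 0, 0, 0] 0, x ∈ ([2, 3, 5, 6] : List ℕ) := by decide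
  have e8 : ∀ x ∈ ([2, 3, 5, 6] : List ℕ), x ∈ badList (ofEdges (m := 5) [(0,3),(1,2),(1,4),(2,4),(3,4)]) ![0, 2, 0, 0, 0] 0 := by decide
  refine realisable_core (ofEdges (m := 5) [(0,3),(1,2),(1,4),(2,4),(3,4)]) e1 e2 ![0, 2, 0, 0, 0] 0 n (n - 7) (by omega)
    (fun i hi => lt_of_lt_of_le (e3 i hi) (by omega)) e4 e5 (by rw [e6]; omega) _
    (fun x => ⟨e8 x, e7 x⟩)

theorem fam_ttftt (n : ℕ) (hn : 13 ≤ n) :
    Realisable n ({k | 1 ≤ k} \ {k | k ∈ ([1, 2, 3, 5, 6] : List ℕ)}) := by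
  have e1 : ∀ i j, (ofEdges (m := 5) [(0,3),(1,2),(1,4),(2,4),(3,4)]) i j = (ofEdges (m := 5) [(0,3),(1,2),(1,4),(2,4),(3,4)]) j i := by decide
  have e2 : ∀ i, (ofEdges (m := 5) [(0,3),(1,2),(1,4),(2,4),(3,4)]) i i = false := by decide
  have e3 : ∀ i : Fin 5, i ≠ 0 → dg (ofEdges (m := 5) [(0,3),(1,2),(1,4),(2,4),(3,4)]) i + ![0, 1, 0, 0, 0] i <
      dg (ofEdges (m := 5) [(0,3),(1,2),(1,4),(2,4),(3,4)]) (0 : Fin 5) + 7 := by decide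
  have e4 : ∀ i : Fin 5, i ≠ 0 → 2 ≤ dg (ofEdges (m := 5) [(0,3),(1,2),(1,4),(2,4),(3,4)]) i + ![0, 1, 0, 0, 0] i := by decide
  have e5 : ∀ i : Fin 5, plens (ofEdges (m := 5) [(0,3),(1,2),(1,4),(2,4),(3,4)]) 5 [] i 0 ≠ [] := by decide
  have e6 : (∑ i : Fin 5, if i = 0 then 0 else ![0, 1, 0, 0, 0] i) = 1 := by decide
  have e7 : ∀ x ∈ badList (ofEdges (m := 5) [(0,3),(1,2),(1,4),(2,4),(3,4)]) ![0, 1, 0, 0, 0] 0, x ∈ ([1, 2, 3, 5, 6] : List ℕ) := by decide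
  have e8 : ∀ x ∈ ([1, 2, 3, 5, 6] : List ℕ), x ∈ badList (ofEdges (m := 5) [(0,3),(1,2),(1,4),(2,4),(3,4)]) ![0, 1, 0, 0, 0] 0 := by decide
  refine realisable_core (ofEdges (m := 5) [(0,3),(1,2),(1,4),(2,4),(3,4)]) e1 e2 ![0, 1, 0, 0, 0] 0 n (n - 6) (by omega)
    (fun i hi => lt_of_lt_of_le (e3 i hi) (by omega)) e4 e5 (by rw [e6]; omega) _
    (fun x => ⟨e8 x, e7 x⟩)

theorem fam_ffttt (n : ℕ) (hn : 13 ≤ n) :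
    Realisable n ({k | 1 ≤ k} \ {k | k ∈ ([2, 4, 5, 6] : List ℕ)}) := by
  have e1 : ∀ i j, (ofEdges (m := 5) [(0,3),(0,4),(1,2),(1,4),(2,3),(2,4),(3,4)]) i j = (ofEdges (m := 5) [(0,3),(0,4),(1,2),(1,4),(2,3),(2,4),(3,4)]) j i := by decide
  have e2 : ∀ i, (ofEdges (m := 5) [(0,3),(0,4),(1,2),(1,4),(2,3),(2,4),(3,4)]) i i = false := by decide
  have e3 : ∀ i : Fin 5, i ≠ 0 → dg (ofEdges (m := 5) [(0,3),(0,4),(1,2),(1,4),(2,3),(2,4),(3,4)]) i + ![0, 0, 2, 0, 0] i <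
      dg (ofEdges (m := 5) [(0,3),(0,4),(1,2),(1,4),(2,3),(2,4),(3,4)]) (0 : Fin 5) + 6 := by decide
  have e4 : ∀ i : Fin 5, i ≠ 0 → 2 ≤ dg (ofEdges (m := 5) [(0,3),(0,4),(1,2),(1,4),(2,3),(2,4),(3,4)]) i + ![0, 0, 2, 0, 0] i := by decide
  have e5 : ∀ i : Fin 5, plens (ofEdges (m := 5) [(0,3),(0,4),(1,2),(1,4),(2,3),(2,4),(3,4)]) 5 [] i 0 ≠ [] := by decide
  have e6 : (∑ i : Fin 5, if i = 0 then 0 else ![0, 0, 2, 0, 0] i) = 2 := by decide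
  have e7 : ∀ x ∈ badList (ofEdges (m := 5) [(0,3),(0,4),(1,2),(1,4),(2,3),(2,4),(3,4)]) ![0, 0, 2, 0, 0] 0, x ∈ ([2, 4, 5, 6] : List ℕ) := by decide
  have e8 : ∀ x ∈ ([2, 4, 5, 6] : List ℕ), x ∈ badList (ofEdges (m := 5) [(0,3),(0,4),(1,2),(1,4),(2,3),(2,4),(3,4)]) ![0, 0, 2, 0, 0] 0 := by decide
  refine realisable_core (ofEdges (m := 5) [(0,3),(0,4),(1,2),(1,4),(2,3),(2,4),(3,4)]) e1 e2 ![0, 0, 2, 0, 0] 0 n (n - 7) (by omega)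
    (fun i hi => lt_of_lt_of_le (e3 i hi) (by omega)) e4 e5 (by rw [e6]; omega) _
    (fun x => ⟨e8 x, e7 x⟩)

theorem fam_tfttt (n : ℕ) (hn : 13 ≤ n) :
    Realisable n ({k | 1 ≤ k} \ {k | k ∈ ([1, 2, 4, 5, 6] : List ℕ)}) := by
  have e1 : ∀ i j, (ofEdges (m := 5) [(0,3),(0,4),(1,3),(1,4),(2,3),(2,4),(3,4)]) i j = (ofEdges (m := 5) [(0,3),(0,4),(1,3),(1,4),(2,3),(2,4),(3,4)]) j i := by decide
  have e2 : ∀ i, (ofEdges (m := 5) [(0,3),(0,4),(1,3),(1,4),(2,3),(2,4),(3,4)]) i i = false := by decide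
  have e3 : ∀ i : Fin 5, i ≠ 0 → dg (ofEdges (m := 5) [(0,3),(0,4),(1,3),(1,4),(2,3),(2,4),(3,4)]) i + ![0, 1, 0, 0, 0] i <
      dg (ofEdges (m := 5) [(0,3),(0,4),(1,3),(1,4),(2,3),(2,4),(3,4)]) (0 : Fin 5) + 7 := by decide
  have e4 : ∀ i : Fin 5, i ≠ 0 → 2 ≤ dg (ofEdges (m := 5) [(0,3),(0,4),(1,3),(1,4),(2,3),(2,4),(3,4)]) i + ![0, 1, 0, 0, 0] i := by decide
  have e5 : ∀ i : Fin 5, plens (ofEdges (m := 5) [(0,3),(0,4),(1,3),(1,4),(2,3),(2,4),(3,4)]) 5 [] i 0 ≠ [] := by decide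
  have e6 : (∑ i : Fin 5, if i = 0 then 0 else ![0, 1, 0, 0, 0] i) = 1 := by decide
  have e7 : ∀ x ∈ badList (ofEdges (m := 5) [(0,3),(0,4),(1,3),(1,4),(2,3),(2,4),(3,4)]) ![0, 1, 0, 0, 0] 0, x ∈ ([1, 2, 4, 5, 6] : List ℕ) := by decide
  have e8 : ∀ x ∈ ([1, 2, 4, 5, 6] : List ℕ), x ∈ badList (ofEdges (m := 5) [(0,3),(0,4),(1,3),(1,4),(2,3),(2,4),(3,4)]) ![0, 1, 0, 0, 0] 0 := by decide
  refine realisable_core (ofEdges (m := 5) [(0,3),(0,4),(1,3),(1,4),(2,3),(2,4),(3,4)]) e1 e2 ![0, 1, 0, 0, 0] 0 n (n - 6) (by omega)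
    (fun i hi => lt_of_lt_of_le (e3 i hi) (by omega)) e4 e5 (by rw [e6]; omega) _
    (fun x => ⟨e8 x, e7 x⟩)

theorem fam_ftttt (n : ℕ) (hn : 13 ≤ n) :
    Realisable n ({k | 1 ≤ k} \ {k | k ∈ ([2, 3, 4, 5, 6] : List ℕ)}) := by
  have e1 : ∀ i j, (ofEdges (m := 5) [(0,3),(0,4),(1,2),(1,4),(2,3),(3,4)]) i j = (ofEdges (m := 5) [(0,3),(0,4),(1,2),(1,4),(2,3),(3,4)]) j i := by decide
  have e2 : ∀ i, (ofEdges (m := 5) [(0,3),(0,4),(1,2),(1,4),(2,3),(3,4)]) i i = false := by decide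
  have e3 : ∀ i : Fin 5, i ≠ 1 → dg (ofEdges (m := 5) [(0,3),(0,4),(1,2),(1,4),(2,3),(3,4)]) i + ![0, 0, 0, 0, 1] i <
      dg (ofEdges (m := 5) [(0,3),(0,4),(1,2),(1,4),(2,3),(3,4)]) (1 : Fin 5) + 7 := by decide
  have e4 : ∀ i : Fin 5, i ≠ 1 → 2 ≤ dg (ofEdges (m := 5) [(0,3),(0,4),(1,2),(1,4),(2,3),(3,4)]) i + ![0, 0, 0, 0, 1] i := by decide
  have e5 : ∀ i : Fin 5, plens (ofEdges (m := 5) [(0,3),(0,4),(1,2),(1,4),(2,3),(3,4)]) 5 [] i 1 ≠ [] := by decide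
  have e6 : (∑ i : Fin 5, if i = 1 then 0 else ![0, 0, 0, 0, 1] i) = 1 := by decide
  have e7 : ∀ x ∈ badList (ofEdges (m := 5) [(0,3),(0,4),(1,2),(1,4),(2,3),(3,4)]) ![0, 0, 0, 0, 1] 1, x ∈ ([2, 3, 4, 5, 6] : List ℕ) := by decide
  have e8 : ∀ x ∈ ([2, 3, 4, 5, 6] : List ℕ), x ∈ badList (ofEdges (m := 5) [(0,3),(0,4),(1,2),(1,4),(2,3),(3,4)]) ![0, 0, 0, 0, 1] 1 := by decide
  refine realisable_core (ofEdges (m := 5) [(0,3),(0,4),(1,2),(1,4),(2,3),(3,4)]) e1 e2 ![0, 0, 0, 0, 1] 1 n (n - 6) (by omega)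
    (fun i hi => lt_of_lt_of_le (e3 i hi) (by omega)) e4 e5 (by rw [e6]; omega) _
    (fun x => ⟨e8 x, e7 x⟩)

theorem fam_ttttt (n : ℕ) (hn : 13 ≤ n) :
    Realisable n ({k | 1 ≤ k} \ {k | k ∈ ([1, 2, 3, 4, 5, 6] : List ℕ)}) := by
  have e1 : ∀ i j, (ofEdges (m := 5) [(0,3),(1,2),(1,4),(2,4),(3,4)]) i j = (ofEdges (m := 5) [(0,3),(1,2),(1,4),(2,4),(3,4)]) j i := by decide
  have e2 : ∀ i, (ofEdges (m := 5) [(0,3),(1,2),(1,4),(2,4),(3,4)]) i i = false := by decide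
  have e3 : ∀ i : Fin 5, i ≠ 1 → dg (ofEdges (m := 5) [(0,3),(1,2),(1,4),(2,4),(3,4)]) i + ![1, 0, 0, 0, 0] i <
      dg (ofEdges (m := 5) [(0,3),(1,2),(1,4),(2,4),(3,4)]) (1 : Fin 5) + 7 := by decide
  have e4 : ∀ i : Fin 5, i ≠ 1 → 2 ≤ dg (ofEdges (m := 5) [(0,3),(1,2),(1,4),(2,4),(3,4)]) i + ![1, 0, 0, 0, 0] i := by decide
  have e5 : ∀ i : Fin 5, plens (ofEdges (m := 5) [(0,3),(1,2),(1,4),(2,4),(3,4)]) 5 [] i 1 ≠ [] := by decide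
  have e6 : (∑ i : Fin 5, if i = 1 then 0 else ![1, 0, 0, 0, 0] i) = 1 := by decide
  have e7 : ∀ x ∈ badList (ofEdges (m := 5) [(0,3),(1,2),(1,4),(2,4),(3,4)]) ![1, 0, 0, 0, 0] 1, x ∈ ([1, 2, 3, 4, 5, 6] : List ℕ) := by decide
  have e8 : ∀ x ∈ ([1, 2, 3, 4, 5, 6] : List ℕ), x ∈ badList (ofEdges (m := 5) [(0,3),(1,2),(1,4),(2,4),(3,4)]) ![1, 0, 0, 0, 0] 1 := by decide
  refine realisable_core (ofEdges (m := 5) [(0,3),(1,2),(1,4),(2,4),(3,4)]) e1 e2 ![1, 0, 0, 0, 0] 1 n (n - 6) (by omega)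
    (fun i hi => lt_of_lt_of_le (e3 i hi) (by omega)) e4 e5 (by rw [e6]; omega) _
    (fun x => ⟨e8 x, e7 x⟩)

/-- the list of elements described by five Booleans -/
def lst (b1 b3 b4 b5 b6 : Bool) : List ℕ :=
  (if b1 then [1] else []) ++ [2] ++ (if b3 then [3] else []) ++ (if b4 then [4] else []) ++
    (if b5 then [5] else []) ++ (if b6 then [6] else [])

theorem fam_all (n : ℕ) (hn : 13 ≤ n) (b1 b3 b4 b5 b6 : Bool)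
    (h1 : lst b1 b3 b4 b5 b6 ≠ [2, 3, 5]) (h2 : lst b1 b3 b4 b5 b6 ≠ [2, 3, 6]) :
    Realisable n ({k | 1 ≤ k} \ {k | k ∈ lst b1 b3 b4 b5 b6}) := by
  cases b1 <;> cases b3 <;> cases b4 <;> cases b5 <;> cases b6
  · exact fam_fffff n hn
  · exact fam_fffft n hn
  · exact fam_ffftf n hn
  · exact fam_ffftt n hn
  · exact fam_fftff n hn
  · exact fam_fftft n hn
  · exact fam_ffttf n hn
  · exact fam_ffttt n hn
  · exact fam_ftfff n hn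
  · exact absurd rfl h2
  · exact absurd rfl h1
  · exact fam_ftftt n hn
  · exact fam_fttff n hn
  · exact fam_fttft n hn
  · exact fam_ftttf n hn
  · exact fam_ftttt n hn
  · exact fam_tffff n hn
  · exact fam_tffft n hn
  · exact fam_tfftf n hn
  · exact fam_tfftt n hn
  · exact fam_tftff n hn
  · exact fam_tftft n hn
  · exact fam_tfttf n hn
  · exact fam_tfttt n hn
  · exact fam_ttfff n hn
  · exact fam_ttfft n hn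
  · exact fam_ttftf n hn
  · exact fam_ttftt n hn
  · exact fam_tttff n hn
  · exact fam_tttft n hn
  · exact fam_ttttf n hn
  · exact fam_ttttt n hn

end Pool.Agent.KPI
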