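import Pool.Agent.KPI.Two3

/-!
# Graphs which are 2-path irregular and k-path irregular: the number of vertices
-/

namespace Pool.Agent.KPI
open SimpleGraph

universe u
variable {V : Type u} {G : SimpleGraph V}

/-- a path through a sequence of different vertices -/
lemma seqpath {x : ℕ → V} {a b : ℕ} (hadj : ∀ i, a ≤ i → i < b → G.Adj (x i) (x (i + 1)))
    (hinj : ∀ i j, a ≤ i → i ≤ b → a ≤ j → j ≤ b → x i = x j → i = j) :
    ∀ d, a + d ≤ b → ∃ p : G.Walk (x a) (x (a + d)), p.IsPath ∧ p.length = d ∧
      ∀ z ∈ p.support, ∃ i, a ≤ i ∧ i ≤ a + d ∧ z = x i := by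
  intro d
  induction d with
  | zero =>
    intro _
    refine ⟨Walk.nil, Walk.IsPath.nil, rfl, ?_⟩
    intro z hz
    rw [Walk.support_nil, List.mem_singleton] at hz
    exact ⟨a, le_rfl, le_rfl, hz⟩
  | succ d ih =>
    intro hd
    obtain ⟨p, hp, hl, hsup⟩ := ih (by omega)
    have h1 : G.Adj (x (a + d)) (x (a + d + 1)) := hadj _ (by omega) (by omega)
    refine ⟨p.concat h1, ?_, ?_, ?_⟩
    · rw [Walk.concat_isPath_iff]
      refine ⟨hp, ?_⟩
      intro h
      obtain ⟨i, hi1, hi2, he⟩ := hsup _ h
      have := hinj (a + d + 1) i (by omega) (by omega) hi1 (by omega) he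
      omega
    · rw [Walk.length_concat, hl]
    · intro z hz
      rw [Walk.support_concat, List.mem_append, List.mem_singleton] at hz
      rcases hz with hz | hz
      · obtain ⟨i, hi1, hi2, he⟩ := hsup z hz
        exact ⟨i, hi1, by omega, he⟩
      · exact ⟨a + (d + 1), by omega, le_rfl, hz⟩

lemma seqpath' {x : ℕ → V} {a b : ℕ} (hadj : ∀ i, a ≤ i → i < b → G.Adj (x i) (x (i + 1)))
    (hinj : ∀ i j, a ≤ i → i ≤ b → a ≤ j → j ≤ b → x i = x j → i = j) (e : ℕ) (h1 : a ≤ e)
    (h2 : e ≤ b) : ∃ p : G.Walk (x a) (x e), p.IsPath ∧ p.length = e - a ∧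
      ∀ z ∈ p.support, ∃ i, a ≤ i ∧ i ≤ e ∧ z = x i := by
  obtain ⟨d, rfl⟩ : ∃ d, e = a + d := ⟨e - a, by omega⟩
  obtain ⟨p, h3, h4, h5⟩ := seqpath hadj hinj d h2
  exact ⟨p, h3, by omega, h5⟩

section geo
variable [Fintype V] (k2 : PathIrregular G 2)

include k2 in
/-- There is no shortest path with `k` edges from `u` which does not start with `v`. -/
lemma geo {k : ℕ} (hk : 3 ≤ k) (kk : PathIrregular G k) {u v : V}
    (hmax : ∀ x, deg G x ≤ deg G u) (hd : 2 ≤ deg G u) (hv : deg G v = deg G u)
    (huv : G.Adj u v) (x : ℕ → V) (h0 : x 0 = u)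
    (hadj : ∀ i, i < k → G.Adj (x i) (x (i + 1))) (hdist : ∀ i, i ≤ k → G.dist u (x i) = i)
    (h1 : x 1 ≠ v) : False := by
  classical
  have hmaxv : ∀ x, deg G x ≤ deg G v := fun x => by rw [hv]; exact hmax x
  have hinj : ∀ i j, 0 ≤ i → i ≤ k → 0 ≤ j → j ≤ k → x i = x j → i = j := by
    intro i j _ hi _ hj he
    rw [← hdist i hi, ← hdist j hj, he]
  have hvx : ∀ i, i ≤ k → x i ≠ v := by
    intro i hi he
    have h2 := hdist i hi
    rw [he, SimpleGraph.dist_eq_one_iff_adj.2 huv] at h2
    exact h1 (by rw [h2]; exact he)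
  -- neighbours of `v` on the path
  have hnear : ∀ i, i ≤ k → G.Adj v (x i) → i ≤ 2 := by
    intro i hi h
    have h2 : G.dist u (x i) ≤ 2 := by
      have := SimpleGraph.dist_le (Walk.cons huv (Walk.cons h Walk.nil))
      simpa using this
    rw [hdist i hi] at h2
    exact h2
  have hone : ¬ G.Adj v (x 1) := by
    intro h
    have h2 : G.Adj u (x 1) := by
      have := hadj 0 (by omega)
      rw [h0] at this
      exact this
    exact nb_ne k2 h2.symm h.symm huv.ne hv.symm
  have hpos : ∀ i, i ≤ k → 1 ≤ deg G (x i) := by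
    intro i hi
    by_cases hik : i < k
    · exact deg_pos (hadj i hik)
    · have := hadj (i - 1) (by omega)
      have h2 : i - 1 + 1 = i := by omega
      rw [h2] at this
      exact deg_pos this.symm
  -- step two
  have two : G.Adj v (x 2) ∧ deg G (x (k - 2)) = deg G (x 2) := by
    obtain ⟨p, hp, hl, hsup⟩ := seqpath' (G := G) (x := x) (a := 0) (b := k)
      (fun i _ hi => hadj i hi) hinj (k - 2) (by omega) (by omega)
    obtain ⟨w, hw, hwd⟩ := exists_nb k2 hmaxv (hpos (k - 2) (by omega)) (hmaxv (x (k - 2)))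
    have huv' : G.Adj v (x 0) := by
      rw [h0]
      exact huv.symm
    have hq : (Walk.cons huv' p).IsPath := by
      rw [Walk.cons_isPath_iff]
      refine ⟨hp, ?_⟩
      intro h
      obtain ⟨i, _, hi, he⟩ := hsup v h
      exact hvx i (by omega) he.symm
    have hmem : w ∈ (Walk.cons huv' p).support := by
      by_contra hnm
      have hq' : (Walk.cons hw.symm (Walk.cons huv' p)).IsPath := by
        rw [Walk.cons_isPath_iff]
        exact ⟨hq, hnm⟩
      refine kk w (x (k - 2)) ⟨_, hq', ?_⟩ hwd
      rw [Walk.length_cons, Walk.length_cons, hl]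
      omega
    rw [Walk.support_cons, List.mem_cons] at hmem
    rcases hmem with hmem | hmem
    · exact absurd hmem hw.ne'
    · obtain ⟨i, _, hi, he⟩ := hsup w hmem
      have hi2 := hnear i (by omega) (he ▸ hw)
      by_cases hi0 : i = 0
      · -- two vertices of maximum degree
        exfalso
        subst hi0
        have hdk : deg G (x (k - 2)) = deg G u := by
          rw [← hwd, he, h0]
        have hmaxk : ∀ y, deg G y ≤ deg G (x (k - 2)) := fun y => by rw [hdk]; exact hmax y
        obtain ⟨l, hl1, hl2⟩ := exists_nb k2 hmax (le_refl 1) (by omega)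
        obtain ⟨m, hm1, hm2⟩ := exists_nb k2 hmaxk (le_refl 1) (by omega)
        have L1 : Leaf G l u := ⟨hl1.symm, hl2⟩
        have L2 : Leaf G m (x (k - 2)) := ⟨hm1.symm, hm2⟩
        have hlm : l ≠ m := by
          rintro rfl
          have h2 := L1.uniq L2.1
          have h3 := hinj (k - 2) 0 (by omega) (by omega) le_rfl (by omega) (by rw [h2, h0])
          omega
        have hlp : l ∉ p.support := by
          intro h
          obtain ⟨j, _, hj, hej⟩ := hsup l h
          have h2 := hdist j (by omega)
          rw [← hej, SimpleGraph.dist_eq_one_iff_adj.2 hl1] at h2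
          rw [← h2] at hej
          have h3 := hadj 1 (by omega)
          rw [← hej] at h3
          have h4 := L1.uniq h3
          have h5 := hinj 2 0 (by omega) (by omega) le_rfl (by omega) (by rw [← h0] at h4; exact h4)
          omega
        have hmp : m ∉ p.support := by
          intro h
          obtain ⟨j, _, hj, hej⟩ := hsup m h
          have h3 := hadj j (by omega)
          rw [← hej] at h3
          have h4 := L2.uniq h3
          have h5 := hinj (j + 1) (k - 2) (by omega) (by omega) (by omega) (by omega) h4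
          by_cases hj0 : j = 0
          · rw [hj0, h0] at hej
            rw [hej] at hm2
            omega
          · have h6 := hadj (j - 1) (by omega)
            have h7 : j - 1 + 1 = j := by omega
            rw [h7, ← hej] at h6
            have h8 := L2.uniq h6.symm
            have h9 := hinj (j - 1) (k - 2) (by omega) (by omega) (by omega) (by omega) h8
            omega
        have hl1' : G.Adj l (x 0) := by
          rw [h0]
          exact hl1.symm
        have hq1 : (Walk.cons hl1' p).IsPath := by
          rw [Walk.cons_isPath_iff]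
          exact ⟨hp, hlp⟩
        have hq2 : ((Walk.cons hl1' p).concat hm1).IsPath := by
          rw [Walk.concat_isPath_iff]
          refine ⟨hq1, ?_⟩
          rw [Walk.support_cons, List.mem_cons]
          rintro (h | h)
          · exact hlm h.symm
          · exact hmp h
        refine kk l m ⟨_, hq2, ?_⟩ (by rw [hl2, hm2])
        rw [Walk.length_concat, Walk.length_cons, hl]
        omega
      · have hi1 : i ≠ 1 := by
          rintro rfl
          exact hone (he ▸ hw)
        have hi3 : i = 2 := by omega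
        subst hi3
        exact ⟨he ▸ hw, by rw [← he, hwd]⟩
  obtain ⟨hv2, hdeg2⟩ := two
  -- step three
  obtain ⟨p, hp, hl, hsup⟩ := seqpath' (G := G) (x := x) (a := 2) (b := k)
    (fun i _ hi => hadj i hi) (fun i j _ h3 _ h5 h6 => hinj i j (by omega) h3 (by omega) h5 h6)
    k (by omega) le_rfl
  obtain ⟨w, hw, hwd⟩ := exists_nb k2 hmaxv (hpos k le_rfl) (hmaxv (x k))
  have hq : (Walk.cons hv2 p).IsPath := by
    rw [Walk.cons_isPath_iff]
    refine ⟨hp, ?_⟩
    intro h
    obtain ⟨i, _, hi, he⟩ := hsup v h
    exact hvx i hi he.symm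
  have hmem : w ∈ (Walk.cons hv2 p).support := by
    by_contra hnm
    have hq' : (Walk.cons hw.symm (Walk.cons hv2 p)).IsPath := by
      rw [Walk.cons_isPath_iff]
      exact ⟨hq, hnm⟩
    refine kk w (x k) ⟨_, hq', ?_⟩ hwd
    rw [Walk.length_cons, Walk.length_cons, hl]
    omega
  rw [Walk.support_cons, List.mem_cons] at hmem
  rcases hmem with hmem | hmem
  · exact absurd hmem hw.ne'
  · obtain ⟨i, hi1, hi, he⟩ := hsup w hmem
    have hi2 := hnear i hi (he ▸ hw)
    have hi3 : i = 2 := by omega
    subst hi3
    have hdk : deg G (x k) = deg G (x (k - 2)) := by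
      rw [hdeg2, ← he, hwd]
    have a1 := hadj (k - 2) (by omega)
    have a2 := hadj (k - 1) (by omega)
    have e1 : k - 2 + 1 = k - 1 := by omega
    have e2 : k - 1 + 1 = k := by omega
    rw [e1] at a1
    rw [e2] at a2
    have hne : x k ≠ x (k - 2) := by
      intro h
      have := hinj k (k - 2) (by omega) le_rfl (by omega) (by omega) h
      omega
    exact nb_ne k2 a2 a1.symm hne hdk

include k2 in
lemma ecc {k : ℕ} (hk : 3 ≤ k) (kk : PathIrregular G k) (hc : G.Connected) {u v : V}
    (hmax : ∀ x, deg G x ≤ deg G u) (hd : 2 ≤ deg G u) (hv : deg G v = deg G u)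
    (huv : G.Adj u v) (w : V) : G.dist u w ≤ k := by
  classical
  by_contra hlt
  push Not at hlt
  have hmaxv : ∀ x, deg G x ≤ deg G v := fun x => by rw [hv]; exact hmax x
  obtain ⟨p, hpl⟩ := hc.exists_walk_length_eq_dist u w
  set x : ℕ → V := fun i => p.getVert i with hx
  have hadj : ∀ i, i < p.length → G.Adj (x i) (x (i + 1)) := fun i hi => p.adj_getVert_succ hi
  have h0 : x 0 = u := p.getVert_zero
  have hdist : ∀ i, i ≤ p.length → G.dist u (x i) = i := by
    intro i hi
    have h1 : G.dist u (x i) ≤ i := by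
      have := SimpleGraph.dist_le (p.take i)
      rw [Walk.take_length] at this
      exact this.trans (min_le_left _ _)
    have h2 : G.dist (x i) w ≤ p.length - i := by
      have := SimpleGraph.dist_le (p.drop i)
      rw [Walk.drop_length] at this
      exact this
    have h3 := hc.dist_triangle (u := u) (v := x i) (w := w)
    omega
  by_cases h1 : x 1 = v
  · -- the shortest path starts with `v`
    have hdv : ∀ i, i + 1 ≤ p.length → G.dist v (x (i + 1)) = i := by
      intro i hi
      have h2 : G.dist v (x (i + 1)) ≤ i := by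
        have hw : ∀ j, j ≤ i → ∃ q : G.Walk v (x (j + 1)), q.length = j := by
          intro j
          induction j with
          | zero =>
            intro _
            exact ⟨Walk.nil.copy rfl h1.symm, by simp⟩
          | succ j ih =>
            intro hj
            obtain ⟨q, hq⟩ := ih (by omega)
            refine ⟨q.concat (hadj (j + 1) (by omega)), ?_⟩
            rw [Walk.length_concat, hq]
        obtain ⟨q, hq⟩ := hw i le_rfl
        have := SimpleGraph.dist_le q
        omega
      have h3 := hc.dist_triangle (u := u) (v := v) (w := x (i + 1))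
      rw [hdist (i + 1) hi, SimpleGraph.dist_eq_one_iff_adj.2 huv] at h3
      omega
    refine geo k2 hk kk hmaxv (by omega) hv.symm huv.symm (fun i => x (i + 1)) h1 ?_ ?_ ?_
    · intro i hi
      exact hadj (i + 1) (by omega)
    · intro i hi
      exact hdv i (by omega)
    · intro h
      have h2 : x 2 = u := h
      have h3 := hdist 2 (by omega)
      rw [h2, SimpleGraph.dist_self] at h3
      omega
  · exact geo k2 hk kk hmax hd hv huv x h0 (fun i hi => hadj i (by omega))
      (fun i hi => hdist i (by omega)) h1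

/-- the number of vertices at bounded distance -/
lemma ball_card {D : ℕ} (hD : ∀ v, deg G v + 1 ≤ D) (r : V) (k : ℕ) :
    ({v | ∃ p : G.Walk r v, p.length ≤ k} : Set V).ncard ≤ D ^ k := by
  classical
  induction k with
  | zero =>
    have : ({v | ∃ p : G.Walk r v, p.length ≤ 0} : Set V) = {r} := by
      ext v
      constructor
      · rintro ⟨p, hp⟩
        exact (Walk.eq_of_length_eq_zero (by omega : p.length = 0)).symm
      · rintro rfl
        exact ⟨Walk.nil, le_rfl⟩
    rw [this, Set.ncard_singleton, pow_zero]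
  | succ k ih =>
    have hsub : ({v | ∃ p : G.Walk r v, p.length ≤ k + 1} : Set V) ⊆
        ⋃ u ∈ (Set.toFinite ({v | ∃ p : G.Walk r v, p.length ≤ k} : Set V)).toFinset,
          (insert u (G.neighborSet u)) := by
      rintro v ⟨p, hp⟩
      simp only [Set.Finite.mem_toFinset, Set.mem_iUnion]
      by_cases hk : p.length ≤ k
      · exact ⟨v, ⟨p, hk⟩, Set.mem_insert _ _⟩
      · have hrev : ∃ (y : V) (h : G.Adj v y) (q : G.Walk y r), p.reverse = Walk.cons h q := by
          have hl : p.reverse.length = k + 1 := by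
            rw [Walk.length_reverse]
            omega
          generalize p.reverse = t at hl
          cases t with
          | nil => rw [Walk.length_nil] at hl; omega
          | @cons _ y _ h q => exact ⟨y, h, q, rfl⟩
        obtain ⟨y, h, q, he⟩ := hrev
        refine ⟨y, ⟨q.reverse, ?_⟩, Set.mem_insert_of_mem _ h.symm⟩
        have h1 : p.reverse.length = q.length + 1 := by
          rw [he, Walk.length_cons]
        rw [Walk.length_reverse] at h1 ⊢
        omega
    have h1 := Set.ncard_le_ncard hsub (Set.toFinite _)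
    refine h1.trans ?_
    refine (Finset.set_ncard_biUnion_le _ _).trans ?_
    refine (Finset.sum_le_card_nsmul _ _ D ?_).trans ?_
    · intro x _
      refine (Set.ncard_insert_le _ _).trans ?_
      exact hD x
    · rw [smul_eq_mul, pow_succ]
      refine Nat.mul_le_mul_right _ ?_
      rwa [← Set.ncard_eq_toFinset_card _ (Set.toFinite _)]

include k2 in
/-- A connected graph with more than `2 ^ (k ^ 2)` vertices which is 2-path irregular and
`k`-path irregular is a half graph. -/
theorem half_of_large {k : ℕ} (hk : 3 ≤ k) (kk : PathIrregular G k) (hc : G.Connected)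
    (hn : 2 ^ (k ^ 2) < Fintype.card V) : ∃ D a b, Half G D a b := by
  classical
  have hk2 : 2 ^ 9 ≤ 2 ^ (k ^ 2) := Nat.pow_le_pow_right (by norm_num) (by nlinarith)
  have hn5 : 5 ≤ Fintype.card V := by
    have : (2 : ℕ) ^ 9 = 512 := by norm_num
    omega
  obtain ⟨u, v, u1, v1, hmax, hd3, hv, huv, Lu, Lv⟩ := high_setup k2 hc hn5
  by_cases hD : 2 ^ k ≤ deg G u
  · rcases Nat.even_or_odd k with he | ho
    · obtain ⟨r, hr⟩ := he
      obtain ⟨s, hs⟩ : ∃ s, k = 2 * s + 4 := ⟨r - 2, by omega⟩
      refine half_of_H hc (by omega) k2 ?_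
      intro u' v' hmax' hv' huv' a b w hau hvb hbw hnd
      have hdu : deg G u' = deg G u := le_antisymm (hmax u') (hmax' u)
      refine even_H k2 (s := s) (by rw [← hs]; exact kk) hmax' hv' huv' ?_ hau hvb hbw hnd
      rw [← hs, hdu]
      exact hD
    · obtain ⟨j, hj⟩ := ho
      exact absurd (by rw [← hj]; exact kk)
        (odd_bound k2 (j := j) (by omega) hmax hv huv (by rw [← hj]; exact hD))
  · exfalso
    push Not at hD
    have h1 : ∀ x, deg G x + 1 ≤ 2 ^ k := fun x => by
      have := hmax x
      omega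
    have h2 := ball_card h1 u k
    have h3 : ({v | ∃ p : G.Walk u v, p.length ≤ k} : Set V) = Set.univ := by
      rw [Set.eq_univ_iff_forall]
      intro w
      obtain ⟨p, hp⟩ := hc.exists_walk_length_eq_dist u w
      exact ⟨p, by rw [hp]; exact ecc k2 hk kk hc hmax (by omega) hv huv w⟩
    rw [h3, Set.ncard_univ, Nat.card_eq_fintype_card, ← pow_mul] at h2
    have h4 : k * k = k ^ 2 := by ring
    rw [h4] at h2
    omega

end geo

/-- The realisable sets which contain `2`. -/
theorem with_two_strong {n : ℕ} (hn : 2 ≤ n) {S : Set ℕ} (h2 : 2 ∈ S) (h : Realisable n S) :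
    (Even n ∧ S = {k | 1 ≤ k ∧ (Even k ∨ n ≤ k)}) ∨
      ∀ k ∈ S, k = 2 ∨ (6 ≤ k ∧ n ≤ 2 ^ (k ^ 2)) := by
  rcases with_two hn h2 h with h' | h'
  · exact Or.inl h'
  by_cases hb : ∀ k ∈ S, k = 2 ∨ (6 ≤ k ∧ n ≤ 2 ^ (k ^ 2))
  · exact Or.inr hb
  · left
    push Not at hb
    obtain ⟨k, hkS, hk2, hk⟩ := hb
    have hk6 : 6 ≤ k := by
      rcases h' k hkS with h1 | h1
      · exact absurd h1 hk2
      · exact h1
    obtain ⟨G, hc, hG⟩ := h
    have hirr : ∀ k, k ∈ S → PathIrregular G k := by
      intro k hk
      rw [← hG] at hk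
      exact hk.2
    obtain ⟨D, a, b, hH⟩ := half_of_large (hirr 2 h2) (by omega) (hirr k hkS) hc
      (by rw [Fintype.card_fin]; exact hk hk6)
    have h1 := hH.card
    rw [Fintype.card_fin] at h1
    refine ⟨⟨D, by omega⟩, ?_⟩
    rw [← hG, hH.irrSet_eq, Fintype.card_fin]

end Pool.Agent.KPI
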