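import Pool.Agent.KPI.Long2
import Pool.Agent.KPI.Two4

/-!
# Graphs with few bad lengths: sets in which any two vertices are joined by paths of many lengths
-/

namespace Pool.Agent.KPI
open SimpleGraph

universe u
variable {V : Type u} {G : SimpleGraph V}

/-- There are paths of at least `m` different lengths inside `U` from `a` to `b`. -/
def MP (G : SimpleGraph V) (U : Set V) (m : ℕ) (a b : V) : Prop :=
  ∃ F : Finset ℕ, m ≤ F.card ∧ ∀ l ∈ F, ∃ p : G.Walk a b, p.IsPath ∧
    (∀ x ∈ p.support, x ∈ U) ∧ p.length = l

lemma MP.symm {U : Set V} {m : ℕ} {a b : V} (h : MP G U m a b) : MP G U m b a := by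
  obtain ⟨F, hF, h⟩ := h
  refine ⟨F, hF, fun l hl => ?_⟩
  obtain ⟨p, hp, hU, hm⟩ := h l hl
  exact ⟨p.reverse, hp.reverse, by intro x hx; rw [Walk.support_reverse, List.mem_reverse] at hx
                                   exact hU x hx, by rw [Walk.length_reverse]; exact hm⟩

lemma MP.mono {U U' : Set V} {m : ℕ} {a b : V} (h : MP G U m a b) (hU : U ⊆ U') :
    MP G U' m a b := by
  obtain ⟨F, hF, h⟩ := h
  refine ⟨F, hF, fun l hl => ?_⟩
  obtain ⟨p, hp, h1, hm⟩ := h l hl
  exact ⟨p, hp, fun x hx => hU (h1 x hx), hm⟩

lemma MP.extend {U U' : Set V} {m : ℕ} {a b c : V} (h : MP G U m a b) (hU : U ⊆ U')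
    (q : G.Walk b c) (hq : q.IsPath) (hqU : ∀ x ∈ q.support, x ∈ U → x = b)
    (hqU' : ∀ x ∈ q.support, x ∈ U') : MP G U' m a c := by
  classical
  obtain ⟨F, hF, h⟩ := h
  refine ⟨F.image (· + q.length), ?_, ?_⟩
  · rw [Finset.card_image_of_injective _ (add_left_injective _)]
    exact hF
  · intro l hl
    obtain ⟨l', hl', rfl⟩ := Finset.mem_image.1 hl
    obtain ⟨p, hp, h1, hm⟩ := h l' hl'
    refine ⟨p.append q, append_path hp hq fun x hx hx' => hqU x hx' (h1 x hx), ?_, ?_⟩
    · intro x hx
      rcases mem_append.1 hx with hx | hx
      · exact hU (h1 x hx)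
      · exact hqU' x hx
    · rw [Walk.length_append, hm]

/-- Any two vertices of `U` are joined by paths of at least `m` lengths inside `U`. -/
def GoodM (G : SimpleGraph V) (m : ℕ) (U : Set V) : Prop :=
  ∀ a ∈ U, ∀ b ∈ U, a ≠ b → MP G U m a b

/-- A good set stays good after adding an ear. -/
lemma GoodM.ear {m : ℕ} {U : Set V} (h : GoodM G m U) {u v : V} (hu : u ∈ U) (hv : v ∈ U)
    (huv : u ≠ v) (q : G.Walk u v) (hq : q.IsPath)
    (hqU : ∀ x ∈ q.support, x ∈ U → x = u ∨ x = v) : GoodM G m (U ∪ {x | x ∈ q.support}) := by
  have hsub : U ⊆ U ∪ {x | x ∈ q.support} := Set.subset_union_left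
  -- an inner vertex and a vertex of `U`
  have key1 : ∀ a ∈ q.support, a ∉ U → ∀ b ∈ U, MP G (U ∪ {x | x ∈ q.support}) m b a := by
    intro a ha haU b hb
    obtain ⟨q1, q2, rfl⟩ := split2 ha
    have hq1 : q1.IsPath := hq.of_append_left
    have hq2 : q2.IsPath := hq.of_append_right
    by_cases hbu : b = u
    · subst hbu
      refine (h b hb v hv huv).extend hsub q2.reverse hq2.reverse ?_ ?_
      · intro x hx hxU
        rw [Walk.support_reverse, List.mem_reverse] at hx
        rcases hqU x (mem_append.2 (Or.inr hx)) hxU with rfl | h1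
        · have := meet hq q1.start_mem_support hx
          exact absurd (this ▸ hu) haU
        · exact h1
      · intro x hx
        rw [Walk.support_reverse, List.mem_reverse] at hx
        exact Or.inr (mem_append.2 (Or.inr hx))
    · refine (h b hb u hu hbu).extend hsub q1 hq1 ?_ ?_
      · intro x hx hxU
        rcases hqU x (mem_append.2 (Or.inl hx)) hxU with h1 | rfl
        · exact h1
        · have := meet hq hx q2.end_mem_support
          exact absurd (this ▸ hv) haU
      · intro x hx
        exact Or.inr (mem_append.2 (Or.inl hx))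
  -- two inner vertices
  have key2 : ∀ (a b : V), a ∉ U → b ∉ U → a ≠ b →
      (∃ (p1 : G.Walk u a) (p2 : G.Walk a b) (p3 : G.Walk b v), q = p1.append (p2.append p3)) →
      MP G (U ∪ {x | x ∈ q.support}) m a b := by
    rintro a b haU hbU hab ⟨p1, p2, p3, rfl⟩
    have h1 : p1.IsPath := hq.of_append_left
    have h23 := hq.of_append_right
    have h3 : p3.IsPath := h23.of_append_right
    have hl : MP G (U ∪ {x | x ∈ p1.support}) m v a := by
      refine (h v hv u hu (Ne.symm huv)).extend Set.subset_union_left p1 h1 ?_ ?_
      · intro x hx hxU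
        rcases hqU x (mem_append.2 (Or.inl hx)) hxU with h4 | rfl
        · exact h4
        · have := meet hq hx (p2.append p3).end_mem_support
          exact absurd (this ▸ hv) haU
      · intro x hx
        exact Or.inr hx
    refine hl.symm.extend ?_ p3.reverse h3.reverse ?_ ?_
    · intro x hx
      rcases hx with hx | hx
      · exact Or.inl hx
      · exact Or.inr (mem_append.2 (Or.inl hx))
    · intro x hx hxU
      rw [Walk.support_reverse, List.mem_reverse] at hx
      rcases hxU with hxU | hxU
      · rcases hqU x (mem_append.2 (Or.inr (mem_append.2 (Or.inr hx)))) hxU with rfl | h4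
        · have := meet hq p1.start_mem_support (mem_append.2 (Or.inr hx))
          exact absurd (this ▸ hu) haU
        · exact h4
      · have h5 : x = a := meet hq hxU (mem_append.2 (Or.inr hx))
        subst h5
        have h6 := meet h23 p2.start_mem_support hx
        exact absurd h6 hab
    · intro x hx
      rw [Walk.support_reverse, List.mem_reverse] at hx
      exact Or.inr (mem_append.2 (Or.inr (mem_append.2 (Or.inr hx))))
  intro a ha b hb hab
  by_cases haU : a ∈ U
  · by_cases hbU : b ∈ U
    · exact (h a haU b hbU hab).mono hsub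
    · rcases hb with hb | hb
      · exact absurd hb hbU
      · exact key1 b hb hbU a haU
  · have ha' : a ∈ q.support := by
      rcases ha with ha | ha
      · exact absurd ha haU
      · exact ha
    by_cases hbU : b ∈ U
    · exact (key1 a ha' haU b hbU).symm
    · have hb' : b ∈ q.support := by
        rcases hb with hb | hb
        · exact absurd hb hbU
        · exact hb
      rcases split3 ha' hb' with h1 | h1
      · exact key2 a b haU hbU hab h1
      · exact (key2 b a hbU haU (Ne.symm hab) h1).symm

/-- Two disjoint paths joined by a vertex. -/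
lemma join_z {a t z t' b : V} {A : G.Walk a t} {B : G.Walk t' b} (hA : A.IsPath)
    (hB : B.IsPath) (h1 : G.Adj t z) (h2 : G.Adj z t') (hz : z ∉ A.support)
    (hz' : z ∉ B.support) (hd : ∀ y ∈ A.support, y ∉ B.support) :
    ∃ p : G.Walk a b, p.IsPath ∧ p.length = A.length + B.length + 2 ∧
      ∀ y ∈ p.support, y ∈ A.support ∨ y = z ∨ y ∈ B.support := by
  have e1 : (Walk.cons h2 B).IsPath := by
    rw [Walk.cons_isPath_iff]
    exact ⟨hB, hz'⟩
  have e2 : (Walk.cons h1 (Walk.cons h2 B)).IsPath := by
    rw [Walk.cons_isPath_iff]
    refine ⟨e1, ?_⟩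
    rw [Walk.support_cons, List.mem_cons]
    rintro (h | h)
    · exact h1.ne h
    · exact hd t A.end_mem_support h
  refine ⟨A.append (Walk.cons h1 (Walk.cons h2 B)), append_path hA e2 ?_, ?_, ?_⟩
  · intro x hx hx'
    rw [Walk.support_cons, List.mem_cons, Walk.support_cons, List.mem_cons] at hx'
    rcases hx' with h | h | h
    · exact h
    · exact absurd (h ▸ hx) hz
    · exact absurd h (hd x hx)
  · rw [Walk.length_append, Walk.length_cons, Walk.length_cons]
    omega
  · intro y hy
    rcases mem_append.1 hy with h | h
    · exact Or.inl h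
    · rw [Walk.support_cons, List.mem_cons, Walk.support_cons, List.mem_cons] at h
      rcases h with h | h | h
      · exact Or.inl (h ▸ A.end_mem_support)
      · exact Or.inr (Or.inl h)
      · exact Or.inr (Or.inr h)

/-- A path whose last vertex is adjacent to its first vertex and to many others. -/
lemma wheel [Finite V] {m : ℕ} {a z : V} {p : G.Walk a z} (hp : p.IsPath) (hza : G.Adj z a)
    (hN : 3 * m ≤ ({y | G.Adj z y ∧ y ∈ p.support} : Set V).ncard) :
    GoodM G m {x | x ∈ p.support} := by
  classical
  set l := p.length with hl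
  set x : ℕ → V := fun i => p.getVert i with hx
  have hx0 : x 0 = a := p.getVert_zero
  have hxl : x l = z := p.getVert_length
  have hadj : ∀ i, i < l → G.Adj (x i) (x (i + 1)) := fun i hi => p.adj_getVert_succ hi
  have hinj : ∀ i j, i ≤ l → j ≤ l → x i = x j → i = j := by
    intro i j hi hj he
    exact hp.getVert_injOn (by rw [Set.mem_ofPred]; exact hi)
      (by rw [Set.mem_ofPred]; exact hj) he
  have hmem : ∀ y, y ∈ p.support ↔ ∃ i, i ≤ l ∧ y = x i := by
    intro y
    rw [Walk.mem_support_iff_exists_getVert]
    constructor
    · rintro ⟨i, h1, h2⟩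
      exact ⟨i, h2, h1.symm⟩
    · rintro ⟨i, h1, h2⟩
      exact ⟨i, h2.symm, h1⟩
  have hl0 : l ≠ 0 := by
    intro h
    have h1 : x l = x 0 := by rw [h]
    rw [hxl, hx0] at h1
    exact hza.ne h1
  -- segments
  have up : ∀ i j, i ≤ j → j ≤ l → ∃ q : G.Walk (x i) (x j), q.IsPath ∧ q.length = j - i ∧
      ∀ y ∈ q.support, ∃ t, i ≤ t ∧ t ≤ j ∧ y = x t := by
    intro i j hij hj
    exact seqpath' (a := i) (b := j) (fun t _ ht => hadj t (by omega))
      (fun s t _ h1 _ h2 h3 => hinj s t (by omega) (by omega) h3) j hij le_rfl
  have down : ∀ i j, i ≤ j → j ≤ l → ∃ q : G.Walk (x j) (x i), q.IsPath ∧ q.length = j - i ∧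
      ∀ y ∈ q.support, ∃ t, i ≤ t ∧ t ≤ j ∧ y = x t := by
    intro i j hij hj
    obtain ⟨q, h1, h2, h3⟩ := up i j hij hj
    refine ⟨q.reverse, h1.reverse, by rw [Walk.length_reverse]; exact h2, ?_⟩
    intro y hy
    rw [Walk.support_reverse, List.mem_reverse] at hy
    exact h3 y hy
  set J := (Finset.range l).filter (fun i => G.Adj z (x i)) with hJ
  have hJm : ∀ i, i ∈ J ↔ i < l ∧ G.Adj z (x i) := by
    intro i
    rw [hJ, Finset.mem_filter, Finset.mem_range]
  have hJcard : 3 * m ≤ J.card := by
    refine hN.trans ?_
    have h1 : ({y | G.Adj z y ∧ y ∈ p.support} : Set V) ⊆ ((J.image x : Finset V) : Set V) := by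
      rintro y ⟨hy1, hy2⟩
      obtain ⟨i, hi, rfl⟩ := (hmem y).1 hy2
      rw [Finset.mem_coe, Finset.mem_image]
      refine ⟨i, (hJm i).2 ⟨?_, hy1⟩, rfl⟩
      rcases Nat.lt_or_ge i l with h | h
      · exact h
      · have : i = l := by omega
        subst this
        rw [hxl] at hy1
        exact absurd rfl hy1.ne
    refine (Set.ncard_le_ncard h1 (Set.toFinite _)).trans ?_
    rw [Set.ncard_coe_finset]
    exact Finset.card_image_le
  have h0J : G.Adj z (x 0) := by rw [hx0]; exact hza
  have hlJ : G.Adj z (x (l - 1)) := by
    have := hadj (l - 1) (by omega)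
    have h1 : l - 1 + 1 = l := by omega
    rw [h1, hxl] at this
    exact this.symm
  -- the joined paths
  have zn : ∀ {i j : ℕ} {a b : V} {q : G.Walk a b}, j < l →
      (∀ y ∈ q.support, ∃ t, i ≤ t ∧ t ≤ j ∧ y = x t) → z ∉ q.support := by
    intro i j a b q hj hq hz
    obtain ⟨t, _, ht, he⟩ := hq z hz
    rw [← hxl] at he
    have := hinj l t le_rfl (by omega) he
    omega
  have insup : ∀ {i j : ℕ} {a b : V} {q : G.Walk a b}, j ≤ l →
      (∀ y ∈ q.support, ∃ t, i ≤ t ∧ t ≤ j ∧ y = x t) → ∀ y ∈ q.support, y ∈ p.support := by
    intro i j a b q hj hq y hy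
    obtain ⟨t, _, ht, he⟩ := hq y hy
    exact (hmem y).2 ⟨t, by omega, he⟩
  have pair : ∀ i j, i < j → j ≤ l → MP G {x | x ∈ p.support} m (x i) (x j) := by
    intro i j hij hj
    rcases Nat.lt_or_ge j l with hjl | hjl
    · -- both different from `z`
      set A := J.filter (fun t => t ≤ i) with hA
      set B := J.filter (fun t => i < t ∧ t < j) with hB
      set C := J.filter (fun t => j ≤ t) with hC
      have hABC : J.card ≤ A.card + B.card + C.card := by
        have h1 : J ⊆ (A ∪ B) ∪ C := by
          intro t ht
          by_cases h1 : t ≤ i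
          · exact Finset.mem_union_left _ (Finset.mem_union_left _
              (Finset.mem_filter.2 ⟨ht, h1⟩))
          · by_cases h2 : t < j
            · exact Finset.mem_union_left _ (Finset.mem_union_right _
                (Finset.mem_filter.2 ⟨ht, by omega, h2⟩))
            · exact Finset.mem_union_right _ (Finset.mem_filter.2 ⟨ht, by omega⟩)
        have h2 := Finset.card_le_card h1
        have h3 := Finset.card_union_le (A ∪ B) C
        have h4 := Finset.card_union_le A B
        omega
      by_cases hAm : m ≤ A.card
      · refine ⟨A.image (fun t => (i - t) + (l - 1 - j) + 2), ?_, ?_⟩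
        · rw [Finset.card_image_of_injOn]
          · exact hAm
          · intro s hs t ht hst
            have hs' := (Finset.mem_filter.1 (Finset.mem_coe.1 hs)).2
            have ht' := (Finset.mem_filter.1 (Finset.mem_coe.1 ht)).2
            have hst' : (i - s) + (l - 1 - j) + 2 = (i - t) + (l - 1 - j) + 2 := hst
            omega
        · intro len hlen
          obtain ⟨t, ht, rfl⟩ := Finset.mem_image.1 hlen
          obtain ⟨htJ, hti⟩ := Finset.mem_filter.1 ht
          have htJ' := (hJm t).1 htJ
          obtain ⟨q1, h1, h2, h3⟩ := down t i hti (by omega)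
          obtain ⟨q2, h4, h5, h6⟩ := down j (l - 1) (by omega) (by omega)
          obtain ⟨q, hq, hql, hqs⟩ := join_z h1 h4 htJ'.2.symm hlJ (zn (by omega) h3)
            (zn (by omega) h6) (by
              intro y hy hy'
              obtain ⟨r, _, hr, hre⟩ := h3 y hy
              obtain ⟨r', hr1, hr2, hre'⟩ := h6 y hy'
              have := hinj r r' (by omega) (by omega) (hre.symm.trans hre')
              omega)
          refine ⟨q, hq, ?_, by rw [hql, h2, h5]⟩
          intro y hy
          rcases hqs y hy with h | h | h
          · exact insup (by omega) h3 y h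
          · exact h ▸ p.end_mem_support
          · exact insup (by omega) h6 y h
      by_cases hBm : m ≤ B.card
      · refine ⟨B.image (fun t => (t - i) + (l - 1 - j) + 2), ?_, ?_⟩
        · rw [Finset.card_image_of_injOn]
          · exact hBm
          · intro s hs t ht hst
            have hs' := (Finset.mem_filter.1 (Finset.mem_coe.1 hs)).2
            have ht' := (Finset.mem_filter.1 (Finset.mem_coe.1 ht)).2
            have hst' : (s - i) + (l - 1 - j) + 2 = (t - i) + (l - 1 - j) + 2 := hst
            omega
        · intro len hlen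
          obtain ⟨t, ht, rfl⟩ := Finset.mem_image.1 hlen
          obtain ⟨htJ, hti, htj⟩ := Finset.mem_filter.1 ht
          have htJ' := (hJm t).1 htJ
          obtain ⟨q1, h1, h2, h3⟩ := up i t hti.le (by omega)
          obtain ⟨q2, h4, h5, h6⟩ := down j (l - 1) (by omega) (by omega)
          obtain ⟨q, hq, hql, hqs⟩ := join_z h1 h4 htJ'.2.symm hlJ (zn (by omega) h3)
            (zn (by omega) h6) (by
              intro y hy hy'
              obtain ⟨r, _, hr, hre⟩ := h3 y hy
              obtain ⟨r', hr1, hr2, hre'⟩ := h6 y hy'
              have := hinj r r' (by omega) (by omega) (hre.symm.trans hre')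
              omega)
          refine ⟨q, hq, ?_, by rw [hql, h2, h5]⟩
          intro y hy
          rcases hqs y hy with h | h | h
          · exact insup (by omega) h3 y h
          · exact h ▸ p.end_mem_support
          · exact insup (by omega) h6 y h
      · have hCm : m ≤ C.card := by omega
        refine ⟨C.image (fun t => i + (t - j) + 2), ?_, ?_⟩
        · rw [Finset.card_image_of_injOn]
          · exact hCm
          · intro s hs t ht hst
            have hs' := (Finset.mem_filter.1 (Finset.mem_coe.1 hs)).2
            have ht' := (Finset.mem_filter.1 (Finset.mem_coe.1 ht)).2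
            have hst' : i + (s - j) + 2 = i + (t - j) + 2 := hst
            omega
        · intro len hlen
          obtain ⟨t, ht, rfl⟩ := Finset.mem_image.1 hlen
          obtain ⟨htJ, htj⟩ := Finset.mem_filter.1 ht
          have htJ' := (hJm t).1 htJ
          obtain ⟨q1, h1, h2, h3⟩ := down 0 i (by omega) (by omega)
          obtain ⟨q2, h4, h5, h6⟩ := down j t htj (by omega)
          obtain ⟨q, hq, hql, hqs⟩ := join_z h1 h4 h0J.symm htJ'.2 (zn (by omega) h3)
            (zn (by omega) h6) (by
              intro y hy hy'
              obtain ⟨r, _, hr, hre⟩ := h3 y hy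
              obtain ⟨r', hr1, hr2, hre'⟩ := h6 y hy'
              have := hinj r r' (by omega) (by omega) (hre.symm.trans hre')
              omega)
          refine ⟨q, hq, ?_, by rw [hql, h2, h5]; omega⟩
          intro y hy
          rcases hqs y hy with h | h | h
          · exact insup (by omega) h3 y h
          · exact h ▸ p.end_mem_support
          · exact insup (by omega) h6 y h
    · -- the second vertex is `z`
      have hjl' : j = l := by omega
      subst hjl'
      set A := J.filter (fun t => t ≤ i) with hA
      set C := J.filter (fun t => i < t) with hC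
      have hAC : J.card ≤ A.card + C.card := by
        have h1 : J ⊆ A ∪ C := by
          intro t ht
          by_cases h1 : t ≤ i
          · exact Finset.mem_union_left _ (Finset.mem_filter.2 ⟨ht, h1⟩)
          · exact Finset.mem_union_right _ (Finset.mem_filter.2 ⟨ht, by omega⟩)
        exact (Finset.card_le_card h1).trans (Finset.card_union_le A C)
      by_cases hAm : m ≤ A.card
      · refine ⟨A.image (fun t => (i - t) + 1), ?_, ?_⟩
        · rw [Finset.card_image_of_injOn]
          · exact hAm
          · intro s hs t ht hst
            have hs' := (Finset.mem_filter.1 (Finset.mem_coe.1 hs)).2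
            have ht' := (Finset.mem_filter.1 (Finset.mem_coe.1 ht)).2
            have hst' : (i - s) + 1 = (i - t) + 1 := hst
            omega
        · intro len hlen
          obtain ⟨t, ht, rfl⟩ := Finset.mem_image.1 hlen
          obtain ⟨htJ, hti⟩ := Finset.mem_filter.1 ht
          have htJ' := (hJm t).1 htJ
          obtain ⟨q1, h1, h2, h3⟩ := down t i hti (by omega)
          have h4 : G.Adj (x t) (x p.length) := by
            rw [hxl]
            exact htJ'.2.symm
          refine ⟨q1.concat h4, ?_, ?_, ?_⟩
          · rw [Walk.concat_isPath_iff]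
            refine ⟨h1, ?_⟩
            rw [hxl]
            exact zn (by omega) h3
          · intro y hy
            rw [Walk.support_concat, List.mem_append, List.mem_singleton] at hy
            rcases hy with hy | hy
            · exact insup (by omega) h3 y hy
            · rw [hy, hxl]
              exact p.end_mem_support
          · rw [Walk.length_concat, h2]
      · have hCm : m ≤ C.card := by omega
        refine ⟨C.image (fun t => (t - i) + 1), ?_, ?_⟩
        · rw [Finset.card_image_of_injOn]
          · exact hCm
          · intro s hs t ht hst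
            have hs' := (Finset.mem_filter.1 (Finset.mem_coe.1 hs)).2
            have ht' := (Finset.mem_filter.1 (Finset.mem_coe.1 ht)).2
            have hst' : (s - i) + 1 = (t - i) + 1 := hst
            omega
        · intro len hlen
          obtain ⟨t, ht, rfl⟩ := Finset.mem_image.1 hlen
          obtain ⟨htJ, hti⟩ := Finset.mem_filter.1 ht
          have htJ' := (hJm t).1 htJ
          obtain ⟨q1, h1, h2, h3⟩ := up i t hti.le (by omega)
          have h4 : G.Adj (x t) (x p.length) := by
            rw [hxl]
            exact htJ'.2.symm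
          refine ⟨q1.concat h4, ?_, ?_, ?_⟩
          · rw [Walk.concat_isPath_iff]
            refine ⟨h1, ?_⟩
            rw [hxl]
            exact zn (by omega) h3
          · intro y hy
            rw [Walk.support_concat, List.mem_append, List.mem_singleton] at hy
            rcases hy with hy | hy
            · exact insup (by omega) h3 y hy
            · rw [hy, hxl]
              exact p.end_mem_support
          · rw [Walk.length_concat, h2]
  intro s hs t ht hst
  obtain ⟨i, hi, rfl⟩ := (hmem s).1 hs
  obtain ⟨j, hj, rfl⟩ := (hmem t).1 ht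
  rcases lt_trichotomy i j with h | h | h
  · exact pair i j h hj
  · exact absurd (by rw [h]) hst
  · exact (pair j i h hi).symm

end Pool.Agent.KPI
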