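import Pool.Agent.KPI.Few1

/-!
# Graphs with few bad lengths: there are no large good sets
-/

namespace Pool.Agent.KPI
open SimpleGraph

universe u
variable {V : Type u} {G : SimpleGraph V}

/-- There are at most `s` lengths of paths between different vertices of equal degree. -/
def FewBad (G : SimpleGraph V) (s : ℕ) : Prop :=
  ∀ F : Finset ℕ, (∀ k ∈ F, k ∈ badSet G) → F.card ≤ s

theorem no_good [Finite V] {s : ℕ} (hP : FewBad G s) {U0 : Set V} (hU0 : GoodM G (s + 1) U0)
    (hcard : 3 * s + 4 ≤ U0.ncard) : False := by
  classical
  have := Fintype.ofFinite V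
  -- a good set with the largest number of elements
  obtain ⟨U, hU, hmax⟩ := Finset.exists_max_image
    ((Finset.univ : Finset (Finset V)).filter fun U : Finset V =>
      GoodM G (s + 1) (U : Set V) ∧ 3 * s + 4 ≤ U.card) Finset.card
    ⟨U0.toFinset, by
      rw [Finset.mem_filter]
      refine ⟨Finset.mem_univ _, by rwa [Set.coe_toFinset], ?_⟩
      rwa [← Set.ncard_eq_toFinset_card']⟩
  have hG : GoodM G (s + 1) (U : Set V) := (Finset.mem_filter.1 hU).2.1
  have hUbig : 3 * s + 4 ≤ U.card := (Finset.mem_filter.1 hU).2.2
  have hmax' : ∀ C : Set V, GoodM G (s + 1) C → 3 * s + 4 ≤ C.ncard → C.ncard ≤ U.card := by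
    intro C hC hC'
    have h1 := hmax C.toFinset (by
      rw [Finset.mem_filter]
      refine ⟨Finset.mem_univ _, by rwa [Set.coe_toFinset], ?_⟩
      rwa [← Set.ncard_eq_toFinset_card'])
    rwa [← Set.ncard_eq_toFinset_card'] at h1
  have noear : ∀ u ∈ U, ∀ v ∈ U, u ≠ v → ∀ e : G.Walk u v, e.IsPath →
      (∀ x ∈ e.support, x ∈ (U : Set V) → x = u ∨ x = v) → ∀ x ∈ e.support, x ∈ (U : Set V) := by
    intro u hu v hv huv e he heU x hx
    by_contra hxU
    have h2 : ((U : Set V)).ncard < ((U : Set V) ∪ {x | x ∈ e.support}).ncard := by
      refine Set.ncard_lt_ncard ?_ (Set.toFinite _)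
      refine ⟨Set.subset_union_left, fun h => hxU (h (Or.inr hx))⟩
    rw [Set.ncard_coe_finset] at h2
    have h1 := hmax' _ (hG.ear hu hv huv e he heU) (by omega)
    omega
  -- representatives
  choose z w hw hwmax using fun u : V => exists_longest_out (G := G) (U : Set V) u
  have hdeg : ∀ u ∈ U, 1 ≤ deg G (z u) ∧ deg G (z u) + 1 ≤ U.card := by
    intro u hu
    by_cases hz : z u = u
    · constructor
      · -- u has a neighbour
        rw [hz]
        obtain ⟨v, hv, hne⟩ : ∃ v ∈ U, v ≠ u := by
          by_contra hcon
          push Not at hcon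
          have : U ⊆ {u} := fun y hy => Finset.mem_singleton.2 (hcon y hy)
          have := Finset.card_le_card this
          rw [Finset.card_singleton] at this
          omega
        obtain ⟨F, hF, hFl⟩ := hG u hu v hv (Ne.symm hne)
        obtain ⟨l, hl⟩ := Finset.card_pos.1 (by omega : 0 < F.card)
        obtain ⟨q, hq, -, -⟩ := hFl l hl
        obtain ⟨y, h, t, -⟩ := first_edge q (Ne.symm hne)
        exact deg_pos_of_adj h
      · have hall : ∀ y, G.Adj (z u) y → y ∈ (U : Set V) := by
          intro y hy
          rcases out_nbr (hw u) (hwmax u) hy with h | h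
          · by_cases hyu : y = u
            · rw [hyu]; exact hu
            · exfalso
              have hyU := (hw u).2 y h hyu
              -- the path is trivial
              have h0 : (w u).length = 0 := by
                have h1 := (hw u).1
                generalize hwu : w u = q at h1
                clear hwu
                revert q
                rw [hz]
                intro q hq
                rw [Walk.isPath_iff_nil.1 hq |>.eq_nil]
                rfl
              have h2 : {x | x ∈ (w u).support}.ncard = 1 := by
                rw [support_ncard (hw u).1, h0]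
              obtain ⟨t, ht⟩ := Set.ncard_eq_one.1 h2
              have h3 : y ∈ ({t} : Set V) := ht ▸ h
              have h4 : u ∈ ({t} : Set V) := ht ▸ (w u).start_mem_support
              exact hyu (h3.trans h4.symm)
          · exact h
        have := deg_lt_of_subset (C := (U : Set V)) (by rw [hz]; exact hu) hall
        rwa [Set.ncard_coe_finset] at this
    · have hzU : z u ∉ (U : Set V) := (hw u).2 _ (w u).end_mem_support hz
      have hall : ∀ y, G.Adj (z u) y → y ∈ (w u).support := by
        intro y hy
        rcases out_nbr (hw u) (hwmax u) hy with h | h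
        · exact h
        · by_contra hys
          have hyu : u ≠ y := by
            rintro rfl
            exact hys (w u).start_mem_support
          have hp' : ((w u).concat hy).IsPath := by
            rw [Walk.concat_isPath_iff]
            exact ⟨(hw u).1, hys⟩
          have := noear u hu y h hyu _ hp' (by
            intro x hx hxU
            rw [Walk.support_concat, List.mem_append, List.mem_singleton] at hx
            rcases hx with hx | rfl
            · left
              by_contra hne
              exact (hw u).2 x hx hne hxU
            · right; rfl) (z u) (by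
              rw [Walk.support_concat, List.mem_append, List.mem_singleton]
              exact Or.inl (w u).end_mem_support)
          exact hzU this
      -- z has a neighbour on the path
      have hex : ∃ x ∈ (w u).support, G.Adj (z u) x := by
        exact exists_pen (w u) (Ne.symm hz)
      obtain ⟨x, p1, p2, he, hx, hnb⟩ := last_segment (w u) hex
      refine ⟨deg_pos_of_adj hx, ?_⟩
      have hp2 : p2.IsPath := by
        have := (hw u).1
        rw [he] at this
        exact this.of_append_right
      have hnb' : ∀ y, G.Adj (z u) y → y ∈ p2.support := fun y hy => hnb y (hall y hy) hy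
      have h1 := deg_lt_of_subset (G := G) (z := z u) (C := {y | y ∈ p2.support})
        p2.end_mem_support hnb'
      by_cases hbig : 3 * (s + 1) ≤ deg G (z u)
      · have h3 : 3 * (s + 1) ≤ ({y | G.Adj (z u) y ∧ y ∈ p2.support} : Set V).ncard := by
          refine hbig.trans ?_
          unfold deg
          exact Set.ncard_le_ncard (fun y hy => ⟨hy, hnb' y hy⟩) (Set.toFinite _)
        have h2 := hmax' _ (wheel hp2 hx h3) (by omega)
        omega
      · omega
  have hinj : ∀ u ∈ U, ∀ v ∈ U, deg G (z u) = deg G (z v) → u = v := by
    intro u hu v hv hd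
    by_contra huv
    obtain ⟨F, hF, hFl⟩ := hG u hu v hv huv
    have hdisj : ∀ x, x ∈ (w u).support → x ∈ (w v).support → False := by
      intro x hx hx'
      obtain ⟨e, he, ⟨t, ht, htU⟩, heU⟩ := ear_of_meet huv hu (hw u) (hw v) hx hx'
      exact htU (noear u hu v hv huv e he heU t ht)
    have hzne : z u ≠ z v := by
      intro h
      have h' : z u ∈ (w v).support := by
        rw [h]
        exact (w v).end_mem_support
      exact hdisj (z u) (w u).end_mem_support h'
    have hb := hP (F.image (· + ((w u).length + (w v).length))) (by
      intro k hk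
      obtain ⟨l, hl, rfl⟩ := Finset.mem_image.1 hk
      obtain ⟨q, hq, hqU, hql⟩ := hFl l hl
      have h1 : (q.append (w v)).IsPath := by
        refine append_path hq (hw v).1 ?_
        intro x hx hx'
        by_contra hne
        exact (hw v).2 x hx' hne (hqU x hx)
      have h2 : ((w u).reverse.append (q.append (w v))).IsPath := by
        refine append_path (hw u).1.reverse h1 ?_
        intro x hx hx'
        rw [Walk.support_reverse, List.mem_reverse] at hx
        rcases mem_append.1 hx' with h | h
        · by_contra hne
          exact (hw u).2 x hx hne (hqU x h)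
        · exact (hdisj x hx h).elim
      refine ⟨z u, z v, hzne, hd, _, h2, ?_⟩
      rw [Walk.length_append, Walk.length_append, Walk.length_reverse, hql]
      change (w u).length + (l + (w v).length) = l + ((w u).length + (w v).length)
      ring)
    rw [Finset.card_image_of_injective _ (add_left_injective _)] at hb
    omega
  have hcard' : U.card ≤ (Finset.Icc 1 (U.card - 1)).card := by
    refine Finset.card_le_card_of_injOn (fun u => deg G (z u)) ?_ ?_
    · intro u hu
      have := hdeg u hu
      simp only [Finset.coe_Icc, Set.mem_Icc]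
      omega
    · intro u hu v hv h
      exact hinj u hu v hv h
  rw [Nat.card_Icc] at hcard'
  omega

/-- The end of a path has few neighbours on the path. -/
theorem nbrs_lt [Finite V] {s : ℕ} (hP : FewBad G s) {a z : V} {p : G.Walk a z}
    (hp : p.IsPath) : ({y | G.Adj z y ∧ y ∈ p.support} : Set V).ncard < 3 * (s + 1) := by
  classical
  by_contra hcon
  push Not at hcon
  have hne : ({y | G.Adj z y ∧ y ∈ p.support} : Set V).Nonempty := by
    rw [← Set.ncard_pos (Set.toFinite _)]
    omega
  obtain ⟨y, hy1, hy2⟩ := hne
  obtain ⟨x, p1, p2, he, hx, hnb⟩ := last_segment p ⟨y, hy2, hy1⟩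
  have hp2 : p2.IsPath := by
    rw [he] at hp
    exact hp.of_append_right
  have h1 : ({y | G.Adj z y ∧ y ∈ p.support} : Set V) ⊆ {y | G.Adj z y ∧ y ∈ p2.support} :=
    fun t ht => ⟨ht.1, hnb t ht.2 ht.1⟩
  have h2 := hcon.trans (Set.ncard_le_ncard h1 (Set.toFinite _))
  have h3 : ({y | G.Adj z y ∧ y ∈ p2.support} : Set V) ⊆ {y | y ∈ p2.support} \ {z} := by
    rintro t ⟨ht1, ht2⟩
    refine ⟨ht2, ?_⟩
    rintro rfl
    exact G.loopless.irrefl _ ht1
  have h4 := Set.ncard_le_ncard h3 (Set.toFinite _)
  have h5 := Set.ncard_sdiff_singleton_add_one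
    (s := {y | y ∈ p2.support}) (a := z) p2.end_mem_support (Set.toFinite _)
  exact no_good hP (wheel hp2 hx h2) (by omega)

lemma take_mem {a b : V} (p : G.Walk a b) {i m : ℕ} (hmi : m ≤ i) (hi : i ≤ p.length) :
    p.getVert m ∈ (p.take i).support := by
  rw [Walk.mem_support_iff_exists_getVert]
  refine ⟨m, ?_, ?_⟩
  · rw [Walk.take_getVert, min_eq_right hmi]
  · rw [Walk.take_length]
    exact le_min hmi (hmi.trans hi)

lemma drop_mem {a b : V} (p : G.Walk a b) {i m : ℕ} (hmi : i ≤ m) (hm : m ≤ p.length) :
    p.getVert m ∈ (p.drop i).support := by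
  rw [Walk.mem_support_iff_exists_getVert]
  refine ⟨m - i, ?_, ?_⟩
  · rw [Walk.drop_getVert]
    congr 1
    omega
  · rw [Walk.drop_length]
    omega

/-- The end of a longest path which leaves a path at once has small degree. -/
theorem out_deg_lt [Finite V] {s : ℕ} (hP : FewBad G s) {a b : V} {p : G.Walk a b}
    (hp : p.IsPath) {i : ℕ} (hi : i ≤ p.length) {z : V}
    {w : G.Walk (p.getVert i) z} (hw : Out {x | x ∈ p.support} w)
    (hmax : ∀ (t : V) (q : G.Walk (p.getVert i) t), Out {x | x ∈ p.support} q →
      q.length ≤ w.length) : deg G z < 6 * (s + 1) := by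
  classical
  -- the two paths which end in `z`
  have t1 : ((p.take i).append w).IsPath := by
    refine append_path (hp.take i) hw.1 ?_
    intro x hx hx'
    by_contra hne
    exact hw.2 x hx' hne ((p.isSubwalk_take i).support_subset hx)
  have t2 : ((p.drop i).reverse.append w).IsPath := by
    refine append_path (hp.drop i).reverse hw.1 ?_
    intro x hx hx'
    rw [Walk.support_reverse, List.mem_reverse] at hx
    by_contra hne
    exact hw.2 x hx' hne ((p.isSubwalk_drop i).support_subset hx)
  have b1 := nbrs_lt hP t1
  have b2 := nbrs_lt hP t2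
  have hcover : G.neighborSet z ⊆ {y | G.Adj z y ∧ y ∈ ((p.take i).append w).support} ∪
      {y | G.Adj z y ∧ y ∈ ((p.drop i).reverse.append w).support} := by
    intro y hy
    rcases out_nbr hw hmax hy with h | h
    · exact Or.inl ⟨hy, mem_append.2 (Or.inr h)⟩
    · -- `y` is on the path
      obtain ⟨m, hm, hm'⟩ := Walk.mem_support_iff_exists_getVert.1 h
      by_cases hmi : m ≤ i
      · left
        refine ⟨hy, mem_append.2 (Or.inl ?_)⟩
        rw [← hm]
        exact take_mem p hmi hi
      · right
        refine ⟨hy, mem_append.2 (Or.inl ?_)⟩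
        rw [Walk.support_reverse, List.mem_reverse, ← hm]
        exact drop_mem p (by omega) hm'
  have h7 := Set.ncard_le_ncard hcover (Set.toFinite _)
  have h8 := Set.ncard_union_le {y | G.Adj z y ∧ y ∈ ((p.take i).append w).support}
      {y | G.Adj z y ∧ y ∈ ((p.drop i).reverse.append w).support}
  unfold deg
  omega

end Pool.Agent.KPI
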