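import Pool.Agent.KPI.Few2

/-!
# Graphs with few bad lengths: disjoint outward paths
-/

namespace Pool.Agent.KPI
open SimpleGraph

universe u
variable {V : Type u} {G : SimpleGraph V}

section family
variable {a b : V} {p : G.Walk a b}

/-- The path which joins the ends of two disjoint outward paths. -/
lemma join_out (hp : p.IsPath) {i j : ℕ} (hij : i < j) (hj : j ≤ p.length) {z z' : V}
    {w : G.Walk (p.getVert i) z} {w' : G.Walk (p.getVert j) z'}
    (hw : Out {x | x ∈ p.support} w) (hw' : Out {x | x ∈ p.support} w')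
    (hd : ∀ x, x ∈ w.support → x ∈ w'.support → False) :
    z ≠ z' ∧ HasPath G (w.length + (j - i) + w'.length) z z' := by
  obtain ⟨q, hq, hql, hqU⟩ := seg hp hij.le hj
  have hne : z ≠ z' := by
    intro h
    have h' : z ∈ w'.support := by
      rw [h]
      exact w'.end_mem_support
    exact hd z w.end_mem_support h'
  have h1 : (q.append w').IsPath := by
    refine append_path hq hw'.1 ?_
    intro x hx hx'
    by_contra hne
    exact hw'.2 x hx' hne (hqU x hx)
  have h2 : (w.reverse.append (q.append w')).IsPath := by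
    refine append_path hw.1.reverse h1 ?_
    intro x hx hx'
    rw [Walk.support_reverse, List.mem_reverse] at hx
    rcases mem_append.1 hx' with h | h
    · by_contra hne
      exact hw.2 x hx hne (hqU x h)
    · exact (hd x hx h).elim
  refine ⟨hne, _, h2, ?_⟩
  rw [Walk.length_append, Walk.length_append, Walk.length_reverse, hql]
  ring

variable {s : ℕ} (z : V → V) (w : ∀ u, G.Walk u (z u))

/-- Outward paths whose ends have the same degree. -/
lemma same_deg_bound (hP : FewBad G s) (hp : p.IsPath)
    (hw : ∀ u, Out {x | x ∈ p.support} (w u)) {I : Finset ℕ} (hI : ∀ i ∈ I, i ≤ p.length)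
    (hd : ∀ i ∈ I, ∀ j ∈ I, i < j → ∀ x, x ∈ (w (p.getVert i)).support →
      x ∈ (w (p.getVert j)).support → False) {d : ℕ}
    (hdeg : ∀ i ∈ I, deg G (z (p.getVert i)) = d) : I.card ≤ s ^ 2 + 2 := by
  classical
  by_cases hne : I.Nonempty
  swap
  · rw [Finset.not_nonempty_iff_eq_empty] at hne
    rw [hne, Finset.card_empty]
    omega
  set i0 := I.min' hne with hi0
  set i1 := I.max' hne with hi1
  set J := (I.erase i0).erase i1 with hJ
  have hJI : ∀ i ∈ J, i ∈ I ∧ i0 < i ∧ i < i1 := by
    intro i hi
    rw [hJ, Finset.mem_erase, Finset.mem_erase] at hi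
    obtain ⟨h1, h2, h3⟩ := hi
    refine ⟨h3, lt_of_le_of_ne (I.min'_le i h3) (Ne.symm h2),
      lt_of_le_of_ne (I.le_max' i h3) h1⟩
  have hJcard : I.card ≤ J.card + 2 := by
    have h1 : I.card ≤ (I.erase i0).card + 1 := by
      have := Finset.pred_card_le_card_erase (s := I) (a := i0)
      omega
    have h2 : (I.erase i0).card ≤ J.card + 1 := by
      have := Finset.pred_card_le_card_erase (s := I.erase i0) (a := i1)
      rw [← hJ] at this
      omega
    omega
  have hi0I : i0 ∈ I := I.min'_mem hne
  have hi1I : i1 ∈ I := I.max'_mem hne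
  set f : ℕ → ℕ := fun i => (w (p.getVert i0)).length + (i - i0) + (w (p.getVert i)).length
    with hf
  set g : ℕ → ℕ := fun i => (w (p.getVert i)).length + (i1 - i) + (w (p.getVert i1)).length
    with hg
  have hF : (J.image f).card ≤ s := by
    refine hP _ ?_
    intro k hk
    obtain ⟨i, hi, rfl⟩ := Finset.mem_image.1 hk
    obtain ⟨h1, h2, h3⟩ := hJI i hi
    obtain ⟨h4, h5⟩ := join_out hp h2 (hI i h1) (hw (p.getVert i0)) (hw (p.getVert i))
      (hd i0 hi0I i h1 h2)
    exact ⟨_, _, h4, by rw [hdeg i0 hi0I, hdeg i h1], h5⟩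
  have hGc : (J.image g).card ≤ s := by
    refine hP _ ?_
    intro k hk
    obtain ⟨i, hi, rfl⟩ := Finset.mem_image.1 hk
    obtain ⟨h1, h2, h3⟩ := hJI i hi
    obtain ⟨h4, h5⟩ := join_out hp h3 (hI i1 hi1I) (hw (p.getVert i)) (hw (p.getVert i1))
      (hd i h1 i1 hi1I h3)
    exact ⟨_, _, h4, by rw [hdeg i1 hi1I, hdeg i h1], h5⟩
  have hprod : J.card ≤ (J.image f ×ˢ J.image g).card := by
    refine Finset.card_le_card_of_injOn (fun i => (f i, g i)) ?_ ?_
    · intro i hi
      have hi' : i ∈ J := hi
      rw [Finset.mem_coe, Finset.mem_product]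
      exact ⟨Finset.mem_image_of_mem f hi', Finset.mem_image_of_mem g hi'⟩
    · intro i hi j hj hij
      have hi' := hJI i hi
      have hj' := hJI j hj
      rw [Prod.mk.injEq] at hij
      obtain ⟨h1, h2⟩ := hij
      simp only [hf, hg] at h1 h2
      omega
  rw [Finset.card_product] at hprod
  have := Nat.mul_le_mul hF hGc
  rw [← pow_two] at this
  omega

/-- The bound for the number of disjoint outward paths. -/
def fb (s : ℕ) : ℕ := (s ^ 2 + 2) * (6 * (s + 1))

lemma family_bound [Finite V] (hP : FewBad G s) (hp : p.IsPath)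
    (hw : ∀ u, Out {x | x ∈ p.support} (w u))
    (hwmax : ∀ (u v : V) (q : G.Walk u v), Out {x | x ∈ p.support} q →
      q.length ≤ (w u).length) {I : Finset ℕ} (hI : ∀ i ∈ I, i ≤ p.length)
    (hd : ∀ i ∈ I, ∀ j ∈ I, i < j → ∀ x, x ∈ (w (p.getVert i)).support →
      x ∈ (w (p.getVert j)).support → False) : I.card ≤ fb s := by
  classical
  have h1 : I.card ≤ (s ^ 2 + 2) * (Finset.range (6 * (s + 1))).card := by
    refine Finset.card_le_mul_card_image_of_maps_to (f := fun i => deg G (z (p.getVert i)))
      ?_ _ ?_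
    · intro i hi
      rw [Finset.mem_range]
      exact out_deg_lt hP hp (hI i hi) (hw _) (fun t q hq => hwmax _ t q hq)
    · intro d _
      refine same_deg_bound z w hP hp hw (d := d) ?_ ?_ ?_
      · intro i hi
        exact hI i (Finset.mem_filter.1 hi).1
      · intro i hi j hj
        exact hd i (Finset.mem_filter.1 hi).1 j (Finset.mem_filter.1 hj).1
      · intro i hi
        exact (Finset.mem_filter.1 hi).2
  rw [Finset.card_range] at h1
  exact h1

end family

end Pool.Agent.KPI
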