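import Pool.Agent.KPI.Few3

/-!
# Graphs with few bad lengths: the longest cycle
-/

namespace Pool.Agent.KPI
open SimpleGraph

universe u
variable {V : Type u} {G : SimpleGraph V}

/-- `x` and `y` are joined by a walk outside `U`. -/
def Rel (G : SimpleGraph V) (U : Set V) (x y : V) : Prop :=
  ∃ q : G.Walk x y, ∀ t ∈ q.support, t ∉ U

lemma Rel.symm {U : Set V} {x y : V} (h : Rel G U x y) : Rel G U y x := by
  obtain ⟨q, hq⟩ := h
  refine ⟨q.reverse, ?_⟩
  intro t ht
  rw [Walk.support_reverse, List.mem_reverse] at ht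
  exact hq t ht

lemma Rel.trans {U : Set V} {x y z : V} (h : Rel G U x y) (h' : Rel G U y z) :
    Rel G U x z := by
  obtain ⟨q, hq⟩ := h
  obtain ⟨q', hq'⟩ := h'
  refine ⟨q.append q', ?_⟩
  intro t ht
  rcases mem_append.1 ht with h | h
  · exact hq t h
  · exact hq' t h

lemma Rel.left {U : Set V} {x y : V} (h : Rel G U x y) : x ∉ U := by
  obtain ⟨q, hq⟩ := h
  exact hq x q.start_mem_support

/-- `v` has a neighbour in the component of `x` outside `U`. -/
def Att (G : SimpleGraph V) (U : Set V) (v x : V) : Prop :=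
  ∃ x1, G.Adj v x1 ∧ Rel G U x1 x

lemma Att.trans {U : Set V} {v x y : V} (h : Att G U v x) (h' : Rel G U x y) :
    Att G U v y := by
  obtain ⟨x1, h1, h2⟩ := h
  exact ⟨x1, h1, h2.trans h'⟩

lemma rel_of_mem {U : Set V} {x y : V} {q : G.Walk x y} (hq : ∀ t ∈ q.support, t ∉ U)
    {t : V} (ht : t ∈ q.support) : Rel G U t y := by
  obtain ⟨q1, q2, rfl⟩ := split2 ht
  exact ⟨q2, fun r hr => hq r (mem_append.2 (Or.inr hr))⟩

lemma ear_of_att {U : Set V} {u v x : V} (hu : u ∈ U) (hv : v ∈ U) (huv : u ≠ v)
    (h1 : Att G U u x) (h2 : Att G U v x) : ∃ e : G.Walk u v, e.IsPath ∧ 2 ≤ e.length ∧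
      ∀ t ∈ e.support, t = u ∨ t = v ∨ Rel G U t x := by
  classical
  obtain ⟨x1, ha1, q1, hq1⟩ := h1
  obtain ⟨x2, ha2, q2, hq2⟩ := h2
  set W : G.Walk x1 x2 := q1.append q2.reverse with hW
  have hWr : ∀ t ∈ W.support, Rel G U t x := by
    intro t ht
    rcases mem_append.1 ht with h | h
    · exact rel_of_mem hq1 h
    · rw [Walk.support_reverse, List.mem_reverse] at h
      exact rel_of_mem hq2 h
  have hPr : ∀ t ∈ W.bypass.support, Rel G U t x := fun t ht =>
    hWr t (Walk.support_bypass_subset_support W ht)
  have hP1 : (W.bypass.concat ha2.symm).IsPath := by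
    rw [Walk.concat_isPath_iff]
    exact ⟨W.bypass_isPath, fun h => (hPr v h).left hv⟩
  refine ⟨Walk.cons ha1 (W.bypass.concat ha2.symm), ?_, ?_, ?_⟩
  · rw [Walk.cons_isPath_iff]
    refine ⟨hP1, ?_⟩
    rw [Walk.support_concat, List.mem_append, List.mem_singleton]
    rintro (h | h)
    · exact (hPr u h).left hu
    · exact huv h
  · rw [Walk.length_cons, Walk.length_concat]
    omega
  · intro t ht
    rw [Walk.support_cons, List.mem_cons, Walk.support_concat, List.mem_append,
      List.mem_singleton] at ht
    rcases ht with h | h | h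
    · exact Or.inl h
    · exact Or.inr (Or.inr (hPr t h))
    · exact Or.inr (Or.inl h)

lemma att_of_out {U : Set V} {u z : V} {w : G.Walk u z} (hw : Out U w) {y : V}
    (hy : y ∈ w.support) (hyu : y ≠ u) : Att G U u y ∧ Rel G U y z := by
  cases w with
  | nil =>
    rw [Walk.support_nil, List.mem_singleton] at hy
    exact absurd hy hyu
  | @cons _ x1 _ h q =>
    obtain ⟨hp, hout⟩ := hw
    rw [Walk.cons_isPath_iff] at hp
    rw [Walk.support_cons, List.mem_cons] at hy
    have hyq : y ∈ q.support := by
      rcases hy with h' | h'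
      · exact absurd h' hyu
      · exact h'
    have hqU : ∀ t ∈ q.support, t ∉ U := by
      intro t ht
      refine hout t (by rw [Walk.support_cons]; exact List.mem_cons_of_mem _ ht) ?_
      rintro rfl
      exact hp.2 ht
    refine ⟨⟨x1, h, ?_⟩, rel_of_mem hqU hyq⟩
    obtain ⟨q1, q2, rfl⟩ := split2 hyq
    exact ⟨q1, fun t ht => hqU t (mem_append.2 (Or.inl ht))⟩

section seg
variable {a b : V} {p : G.Walk a b}

lemma gv_inj (hp : p.IsPath) {i j : ℕ} (hi : i ≤ p.length) (hj : j ≤ p.length)
    (h : p.getVert i = p.getVert j) : i = j :=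
  hp.getVert_injOn (by rw [Set.mem_ofPred]; exact hi) (by rw [Set.mem_ofPred]; exact hj) h

lemma seg_up (hp : p.IsPath) {i j : ℕ} (hij : i ≤ j) (hj : j ≤ p.length) :
    ∃ q : G.Walk (p.getVert i) (p.getVert j), q.IsPath ∧ q.length = j - i ∧
      ∀ y ∈ q.support, ∃ t, i ≤ t ∧ t ≤ j ∧ y = p.getVert t :=
  seqpath' (x := fun i => p.getVert i) (a := i) (b := j)
    (fun t _ ht => p.adj_getVert_succ (by omega))
    (fun s t _ h1 _ h2 h3 => gv_inj hp (by omega) (by omega) h3) j hij le_rfl

lemma seg_down (hp : p.IsPath) {i j : ℕ} (hij : i ≤ j) (hj : j ≤ p.length) :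
    ∃ q : G.Walk (p.getVert j) (p.getVert i), q.IsPath ∧ q.length = j - i ∧
      ∀ y ∈ q.support, ∃ t, i ≤ t ∧ t ≤ j ∧ y = p.getVert t := by
  obtain ⟨q, h1, h2, h3⟩ := seg_up hp hij hj
  refine ⟨q.reverse, h1.reverse, by rw [Walk.length_reverse]; exact h2, ?_⟩
  intro y hy
  rw [Walk.support_reverse, List.mem_reverse] at hy
  exact h3 y hy

/-- Neighbouring vertices of a longest path have no common component. -/
lemma att_succ (hp : p.IsPath)
    (hmax : ∀ (a' b' : V) (q : G.Walk a' b'), q.IsPath → q.length ≤ p.length)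
    {i : ℕ} (hi : i + 1 ≤ p.length) {x : V} (h1 : Att G {x | x ∈ p.support} (p.getVert i) x)
    (h2 : Att G {x | x ∈ p.support} (p.getVert (i + 1)) x) : False := by
  have hne : p.getVert i ≠ p.getVert (i + 1) := by
    intro h
    have := gv_inj hp (by omega) hi h
    omega
  have hU : ∀ t, p.getVert t ∈ {x | x ∈ p.support} := fun t => p.getVert_mem_support t
  obtain ⟨e, he, hel, hes⟩ := ear_of_att (hU i) (hU (i + 1)) hne h1 h2
  obtain ⟨A, hA, hAl, hAs⟩ := seg_up hp (Nat.zero_le i) (by omega)
  obtain ⟨B, hB, hBl, hBs⟩ := seg_up hp hi le_rfl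
  have e1 : (e.append B).IsPath := by
    refine append_path he hB ?_
    intro t ht ht'
    obtain ⟨r, hr1, hr2, rfl⟩ := hBs t ht'
    rcases hes _ ht with h | h | h
    · have := gv_inj hp (by omega) (by omega) h
      omega
    · exact h
    · exact absurd (hU r) h.left
  have e2 : (A.append (e.append B)).IsPath := by
    refine append_path hA e1 ?_
    intro t ht ht'
    obtain ⟨r, hr1, hr2, rfl⟩ := hAs t ht
    rcases mem_append.1 ht' with h' | h'
    · rcases hes _ h' with h | h | h
      · exact h
      · have := gv_inj hp (by omega) (by omega) h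
        omega
      · exact absurd (hU r) h.left
    · obtain ⟨r', hr1', hr2', h⟩ := hBs _ h'
      have := gv_inj hp (by omega) (by omega) h
      omega
  have h3 := hmax _ _ _ e2
  rw [Walk.length_append, Walk.length_append, hAl, hBl] at h3
  omega

/-- The successors of two attachments of a component have no common component. -/
lemma att_cross (hp : p.IsPath)
    (hmax : ∀ (a' b' : V) (q : G.Walk a' b'), q.IsPath → q.length ≤ p.length)
    {i j : ℕ} (hij : i < j) (hj : j + 1 ≤ p.length) {x y : V}
    (h1 : Att G {x | x ∈ p.support} (p.getVert i) x)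
    (h2 : Att G {x | x ∈ p.support} (p.getVert j) x)
    (h3 : Att G {x | x ∈ p.support} (p.getVert (i + 1)) y)
    (h4 : Att G {x | x ∈ p.support} (p.getVert (j + 1)) y) : False := by
  by_cases hxy : Rel G {x | x ∈ p.support} x y
  · exact att_succ hp hmax (by omega) h1 (h3.trans hxy.symm)
  have hU : ∀ t, p.getVert t ∈ {x | x ∈ p.support} := fun t => p.getVert_mem_support t
  have hne1 : p.getVert i ≠ p.getVert j := by
    intro h
    have := gv_inj hp (by omega) (by omega) h
    omega
  have hne2 : p.getVert (i + 1) ≠ p.getVert (j + 1) := by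
    intro h
    have := gv_inj hp (by omega) (by omega) h
    omega
  obtain ⟨e, he, hel, hes⟩ := ear_of_att (hU i) (hU j) hne1 h1 h2
  obtain ⟨f, hf, hfl, hfs⟩ := ear_of_att (hU (i + 1)) (hU (j + 1)) hne2 h3 h4
  obtain ⟨A, hA, hAl, hAs⟩ := seg_up hp (Nat.zero_le i) (by omega)
  obtain ⟨D, hD, hDl, hDs⟩ := seg_down hp (show i + 1 ≤ j by omega) (by omega)
  obtain ⟨B, hB, hBl, hBs⟩ := seg_up hp hj le_rfl
  have e1 : (f.append B).IsPath := by
    refine append_path hf hB ?_
    intro t ht ht'
    obtain ⟨r, hr1, hr2, rfl⟩ := hBs t ht'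
    rcases hfs _ ht with h | h | h
    · have := gv_inj hp (by omega) (by omega) h
      omega
    · exact h
    · exact absurd (hU r) h.left
  have e2 : (D.append (f.append B)).IsPath := by
    refine append_path hD e1 ?_
    intro t ht ht'
    obtain ⟨r, hr1, hr2, rfl⟩ := hDs t ht
    rcases mem_append.1 ht' with h' | h'
    · rcases hfs _ h' with h | h | h
      · exact h
      · have := gv_inj hp (by omega) (by omega) h
        omega
      · exact absurd (hU r) h.left
    · obtain ⟨r', hr1', hr2', h⟩ := hBs _ h'
      have := gv_inj hp (by omega) (by omega) h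
      omega
  have e3 : (e.append (D.append (f.append B))).IsPath := by
    refine append_path he e2 ?_
    intro t ht ht'
    rcases mem_append.1 ht' with h' | h'
    · obtain ⟨r, hr1, hr2, rfl⟩ := hDs t h'
      rcases hes _ ht with h | h | h
      · have := gv_inj hp (by omega) (by omega) h
        omega
      · exact h
      · exact absurd (hU r) h.left
    · rcases mem_append.1 h' with h'' | h''
      · rcases hes _ ht with h | h | h
        · rcases hfs _ h'' with g | g | g
          · rw [h] at g
            have := gv_inj hp (by omega) (by omega) g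
            omega
          · rw [h] at g
            have := gv_inj hp (by omega) (by omega) g
            omega
          · rw [h] at g
            exact absurd (hU i) g.left
        · exact h
        · rcases hfs _ h'' with g | g | g
          · rw [g] at h
            exact absurd (hU _) h.left
          · rw [g] at h
            exact absurd (hU _) h.left
          · exact absurd (h.symm.trans g) hxy
      · obtain ⟨r, hr1, hr2, rfl⟩ := hBs t h''
        rcases hes _ ht with h | h | h
        · have := gv_inj hp (by omega) (by omega) h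
          omega
        · exact h
        · exact absurd (hU r) h.left
  have e4 : (A.append (e.append (D.append (f.append B)))).IsPath := by
    refine append_path hA e3 ?_
    intro t ht ht'
    obtain ⟨r, hr1, hr2, rfl⟩ := hAs t ht
    rcases mem_append.1 ht' with h' | h'
    · rcases hes _ h' with h | h | h
      · exact h
      · have := gv_inj hp (by omega) (by omega) h
        omega
      · exact absurd (hU r) h.left
    · rcases mem_append.1 h' with h'' | h''
      · obtain ⟨r', hr1', hr2', h⟩ := hDs _ h''
        have := gv_inj hp (by omega) (by omega) h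
        omega
      · rcases mem_append.1 h'' with h3 | h3
        · rcases hfs _ h3 with h | h | h
          · have := gv_inj hp (by omega) (by omega) h
            omega
          · have := gv_inj hp (by omega) (by omega) h
            omega
          · exact absurd (hU r) h.left
        · obtain ⟨r', hr1', hr2', h⟩ := hBs _ h3
          have := gv_inj hp (by omega) (by omega) h
          omega
  have h5 := hmax _ _ _ e4
  rw [Walk.length_append, Walk.length_append, Walk.length_append, Walk.length_append, hAl, hBl,
    hDl] at h5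
  omega

end seg

section cyc
variable {a b : V} {p : G.Walk a b} {s : ℕ}

/-- two outward paths which meet -/
lemma meet_att (hp : p.IsPath) {z z' : V} {i j : ℕ} (hi : i ≤ p.length) (hj : j ≤ p.length)
    (hij : i ≠ j) {w : G.Walk (p.getVert i) z} {w' : G.Walk (p.getVert j) z'}
    (hw : Out {x | x ∈ p.support} w) (hw' : Out {x | x ∈ p.support} w') {y : V}
    (hy : y ∈ w.support) (hy' : y ∈ w'.support) :
    Att G {x | x ∈ p.support} (p.getVert i) y ∧ Att G {x | x ∈ p.support} (p.getVert j) y ∧
      Rel G {x | x ∈ p.support} y z := by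
  have hne : p.getVert i ≠ p.getVert j := fun h => hij (gv_inj hp hi hj h)
  have h1 : y ≠ p.getVert i := by
    rintro rfl
    exact hw'.2 _ hy' hne (p.getVert_mem_support i)
  have h2 : y ≠ p.getVert j := by
    rintro rfl
    exact hw.2 _ hy (Ne.symm hne) (p.getVert_mem_support j)
  exact ⟨(att_of_out hw hy h1).1, (att_of_out hw' hy' h2).1, (att_of_out hw hy h1).2⟩

lemma att_count [Finite V] (hP : FewBad G s) (hp : p.IsPath)
    (hmax : ∀ (a' b' : V) (q : G.Walk a' b'), q.IsPath → q.length ≤ p.length)
    (x : V) {I : Finset ℕ}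
    (hI : ∀ i ∈ I, i < p.length ∧ Att G {x | x ∈ p.support} (p.getVert i) x) :
    I.card ≤ fb s := by
  classical
  choose z w hw hwmax using fun u : V => exists_longest_out (G := G) {x | x ∈ p.support} u
  have h1 : (I.image (· + 1)).card ≤ fb s := by
    refine family_bound z w hP hp hw hwmax ?_ ?_
    · intro i hi
      obtain ⟨i', hi', rfl⟩ := Finset.mem_image.1 hi
      exact (hI i' hi').1
    · intro i hi j hj hij y hy hy'
      obtain ⟨i', hi', rfl⟩ := Finset.mem_image.1 hi
      obtain ⟨j', hj', rfl⟩ := Finset.mem_image.1 hj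
      have hi1 := hI i' hi'
      have hj1 := hI j' hj'
      have hij' : i' + 1 < j' + 1 := hij
      obtain ⟨h2, h3, -⟩ := meet_att (i := i' + 1) (j := j' + 1) hp (by omega) (by omega)
        (by omega) (hw _) (hw _) hy hy'
      exact att_cross hp hmax (i := i') (j := j') (by omega) (by omega) hi1.2 hj1.2 h2 h3
  rwa [Finset.card_image_of_injective _ (add_left_injective 1)] at h1

theorem longest_bound [Finite V] (hP : FewBad G s) (hp : p.IsPath)
    (hmax : ∀ (a' b' : V) (q : G.Walk a' b'), q.IsPath → q.length ≤ p.length) :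
    p.length + 1 ≤ fb s * (fb s + 2) := by
  classical
  choose z w hw hwmax using fun u : V => exists_longest_out (G := G) {x | x ∈ p.support} u
  set Pr : Finset ℕ → Prop := fun I => ∀ i ∈ I, ∀ j ∈ I, i < j → ∀ x,
    x ∈ (w (p.getVert i)).support → x ∈ (w (p.getVert j)).support → False with hPr
  obtain ⟨I, hI, hImax⟩ := Finset.exists_max_image
    ((Finset.range (p.length + 1)).powerset.filter fun I => Pr I) Finset.card
    ⟨∅, by
      rw [Finset.mem_filter]
      exact ⟨Finset.empty_mem_powerset _, fun i hi => absurd hi (Finset.notMem_empty i)⟩⟩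
  rw [Finset.mem_filter, Finset.mem_powerset] at hI
  obtain ⟨hIsub, hIp⟩ := hI
  have hIlen : ∀ i ∈ I, i ≤ p.length := by
    intro i hi
    have := Finset.mem_range.1 (hIsub hi)
    omega
  have hIcard : I.card ≤ fb s := family_bound z w hP hp hw hwmax hIlen hIp
  set N : ℕ → Finset ℕ := fun i => insert i (insert p.length
    ((Finset.range p.length).filter fun j =>
      Att G {x | x ∈ p.support} (p.getVert j) (z (p.getVert i)))) with hN
  have hNcard : ∀ i, (N i).card ≤ fb s + 2 := by
    intro i
    have h1 : ((Finset.range p.length).filter fun j =>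
      Att G {x | x ∈ p.support} (p.getVert j) (z (p.getVert i))).card ≤ fb s := by
      refine att_count hP hp hmax (z (p.getVert i)) ?_
      intro j hj
      rw [Finset.mem_filter, Finset.mem_range] at hj
      exact hj
    refine (Finset.card_insert_le _ _).trans ?_
    have h2 := Finset.card_insert_le p.length ((Finset.range p.length).filter fun j =>
      Att G {x | x ∈ p.support} (p.getVert j) (z (p.getVert i)))
    omega
  have hcover : Finset.range (p.length + 1) ⊆ I.biUnion N := by
    intro j hj
    have hjl : j ≤ p.length := by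
      have := Finset.mem_range.1 hj
      omega
    rw [Finset.mem_biUnion]
    by_cases hjI : j ∈ I
    · exact ⟨j, hjI, Finset.mem_insert_self _ _⟩
    · -- the family with `j` is not disjoint
      have hnot : ¬ Pr (insert j I) := by
        intro h
        have h1 := hImax (insert j I) (by
          rw [Finset.mem_filter, Finset.mem_powerset]
          exact ⟨Finset.insert_subset hj hIsub, h⟩)
        rw [Finset.card_insert_of_notMem hjI] at h1
        omega
      simp only [hPr] at hnot
      push Not at hnot
      obtain ⟨i1, hi1, i2, hi2, hlt, y, hy1, hy2⟩ := hnot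
      have hfin : ∀ i ∈ I, ∀ y, y ∈ (w (p.getVert i)).support →
          y ∈ (w (p.getVert j)).support → ∃ i ∈ I, j ∈ N i := by
        intro i hi y hy hy'
        have hij : i ≠ j := by
          rintro rfl
          exact hjI hi
        obtain ⟨h2, h3, h4⟩ := meet_att hp (hIlen i hi) hjl hij (hw _) (hw _) hy hy'
        refine ⟨i, hi, ?_⟩
        rw [hN]
        by_cases hjl' : j = p.length
        · rw [hjl']
          exact Finset.mem_insert_of_mem (Finset.mem_insert_self _ _)
        · refine Finset.mem_insert_of_mem (Finset.mem_insert_of_mem ?_)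
          rw [Finset.mem_filter, Finset.mem_range]
          exact ⟨by omega, h3.trans h4⟩
      rw [Finset.mem_insert] at hi1 hi2
      rcases hi1 with rfl | hi1
      · rcases hi2 with rfl | hi2
        · omega
        · exact hfin i2 hi2 y hy2.1 hy1
      · rcases hi2 with rfl | hi2
        · exact hfin i1 hi1 y hy1 hy2.1
        · exact (hIp i1 hi1 i2 hi2 hlt y hy1 hy2.1).elim
  have h1 := Finset.card_le_card hcover
  rw [Finset.card_range] at h1
  have h2 : (I.biUnion N).card ≤ I.card * (fb s + 2) :=
    Finset.card_biUnion_le_card_mul _ _ _ fun i _ => hNcard i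
  have h3 := Nat.mul_le_mul_right (fb s + 2) hIcard
  omega

end cyc

/-- Paths are short. -/
theorem few_path [Finite V] {s : ℕ} (hP : FewBad G s) {a b : V} (q : G.Walk a b)
    (hq : q.IsPath) : q.length + 1 ≤ fb s * (fb s + 2) := by
  classical
  have := Fintype.ofFinite V
  set S : Set ℕ := {m | ∃ (a b : V) (q : G.Walk a b), q.IsPath ∧ q.length = m} with hS
  have hne : S.Nonempty := ⟨q.length, a, b, q, hq, rfl⟩
  have hbdd : BddAbove S := by
    refine ⟨Fintype.card V, ?_⟩
    rintro m ⟨a, b, q, hq, rfl⟩
    exact hq.length_lt.le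
  obtain ⟨a', b', p, hp, hm⟩ := Nat.sSup_mem hne hbdd
  have hmax : ∀ (a' b' : V) (q : G.Walk a' b'), q.IsPath → q.length ≤ p.length := by
    intro a b q hq
    rw [hm]
    exact le_csSup hbdd ⟨a, b, q, hq, rfl⟩
  have h1 := longest_bound hP hp hmax
  have h2 := hmax a b q hq
  omega

lemma fb_le {s : ℕ} (hs : 1 ≤ s) : fb s * (fb s + 2) ≤ 38 * (s + 1) ^ 6 := by
  have h1 : fb s ≤ 6 * (s + 1) ^ 3 := by
    unfold fb
    nlinarith
  have h2 : 8 ≤ (s + 1) ^ 3 := by
    have := Nat.pow_le_pow_left (show 2 ≤ s + 1 by omega) 3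
    omega
  calc fb s * (fb s + 2) ≤ (6 * (s + 1) ^ 3) * (6 * (s + 1) ^ 3 + 2) :=
        Nat.mul_le_mul h1 (by omega)
    _ ≤ 38 * (s + 1) ^ 6 := by
        have h3 : (s + 1) ^ 6 = (s + 1) ^ 3 * (s + 1) ^ 3 := by ring
        rw [h3]
        nlinarith

/-- The missing lengths are small when there are few of them. -/
theorem few_missing {n s : ℕ} (hs : 1 ≤ s) {S : Set ℕ} (h : Realisable n S)
    (hS : ({k | 1 ≤ k} \ S).encard ≤ s) {k : ℕ} (hk : 38 * (s + 1) ^ 6 ≤ k) : k ∈ S := by
  classical
  obtain ⟨G, hc, rfl⟩ := h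
  have hk1 : 1 ≤ k := by
    have : 0 < (s + 1) ^ 6 := by positivity
    omega
  refine ⟨hk1, ?_⟩
  intro u v hp _
  have hP : FewBad G s := by
    intro F hF
    have h1 : ((F : Set ℕ)) ⊆ {k | 1 ≤ k} \ irrSet G := by
      intro j hj
      obtain ⟨x, y, hxy, hd, hpj⟩ := hF j hj
      exact ⟨hpj.pos hxy, fun h => h.2 x y hpj hd⟩
    have h2 := (Set.encard_le_encard h1).trans hS
    rw [Set.encard_coe_eq_coe_finsetCard] at h2
    exact_mod_cast h2
  obtain ⟨p, hp, hl⟩ := hp
  have h1 := few_path hP p hp
  have h2 := fb_le hs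
  omega

end Pool.Agent.KPI
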