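import Pool.Agent.KPI.High
import Pool.Agent.KPI.Fam

namespace Pool.Agent.KPI
open SimpleGraph

universe u
variable {V : Type u} {G : SimpleGraph V}

/-- `G` is a star with centre `c`. -/
def IsStar (G : SimpleGraph V) (c : V) : Prop := ∀ v, v ≠ c → G.neighborSet v = {c}

lemma star_no_path {c : V} (hs : IsStar G c) {k : ℕ} (hk : 3 ≤ k) {a b : V}
    (h : HasPath G k a b) : False := by
  obtain ⟨p, hp, hl⟩ := h
  have hadj : ∀ x y, G.Adj x y → x ≠ c → y = c := by
    intro x y hxy hx
    have : y ∈ G.neighborSet x := hxy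
    rw [hs x hx] at this
    exact this
  cases p with
  | nil => simp at hl; omega
  | @cons _ v1 _ h1 p1 =>
    rw [Walk.cons_isPath_iff] at hp
    cases p1 with
    | nil => simp at hl; omega
    | @cons _ v2 _ h2 p2 =>
      rw [Walk.cons_isPath_iff] at hp
      cases p2 with
      | nil => simp at hl; omega
      | @cons _ v3 _ h3 p3 =>
        rw [Walk.cons_isPath_iff] at hp
        obtain ⟨⟨⟨_, hp3⟩, hp2⟩, hp1⟩ := hp
        have n1 : a ≠ v2 := by
          rintro rfl
          apply hp1
          simp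
        have n2 : v1 ≠ v3 := by
          rintro rfl
          apply hp2
          simp
        by_cases ha : a = c
        · have hv1 : v1 ≠ c := by
            rw [← ha]
            exact h1.ne'
          have := hadj v1 v2 h2 hv1
          exact n1 (by rw [ha, this])
        · have hv1 := hadj a v1 h1 ha
          have hv2 : v2 ≠ c := by
            rw [← hv1]
            exact h2.ne'
          have := hadj v2 v3 h3 hv2
          exact n2 (by rw [hv1, this])

lemma star_irr {n : ℕ} (hn : 3 ≤ n) {G : SimpleGraph (Fin n)} {c : Fin n} (hs : IsStar G c) {k : ℕ}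
    (hk : k ∈ ({1, 3, 4, 5, 6} : Set ℕ)) : PathIrregular G k := by
  classical
  intro a b hp
  by_cases hk3 : 3 ≤ k
  · exact (star_no_path hs hk3 hp).elim
  · have hk1 : k = 1 := by
      simp only [Set.mem_insert_iff, Set.mem_singleton_iff] at hk
      omega
    subst hk1
    have hab : G.Adj a b := by
      obtain ⟨p, _, hl⟩ := hp
      cases p with
      | nil => simp at hl
      | cons h q =>
        have : q.length = 0 := by simpa using hl
        have := Walk.eq_of_length_eq_zero this
        subst this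
        exact h
    have hdc : 2 ≤ deg G c := by
      unfold deg
      have hsub : ((Finset.univ.erase c : Finset (Fin n)) : Set (Fin n)) ⊆ G.neighborSet c := by
        intro v hv
        have hv' : v ≠ c := by simpa using hv
        have h1 : c ∈ G.neighborSet v := by rw [hs v hv']; rfl
        exact SimpleGraph.Adj.symm h1
      have h1 := Set.ncard_le_ncard hsub (Set.toFinite _)
      rw [Set.ncard_coe_finset, Finset.card_erase_of_mem (Finset.mem_univ c), Finset.card_univ,
        Fintype.card_fin] at h1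
      omega
    have hdo : ∀ v, v ≠ c → deg G v = 1 := by
      intro v hv
      unfold deg
      rw [hs v hv, Set.ncard_singleton]
    by_cases ha : a = c
    · subst ha
      rw [hdo b hab.ne']
      omega
    · have hb : b = c := by
        have : b ∈ G.neighborSet a := hab
        rw [hs a ha] at this
        exact this
      rw [hdo a ha, hb]
      omega

theorem star_iff {n : ℕ} (hn : 3 ≤ n) {G : SimpleGraph (Fin n)} (hc : G.Connected) :
    (∀ k ∈ ({1, 3, 4, 5, 6} : Set ℕ), PathIrregular G k) ↔ ∃ c, IsStar G c := by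
  constructor
  · intro h
    exact star_of_irr (h 1 (by simp)) (h 3 (by simp)) (h 4 (by simp)) (h 5 (by simp))
      (h 6 (by simp)) hc
  · rintro ⟨c, hs⟩ k hk
    exact star_irr hn hs hk

/-- The positive integers. -/
abbrev Pos : Set ℕ := {k | 1 ≤ k}

lemma compl_compl_pos {S : Set ℕ} (h : S ⊆ Pos) : Pos \ (Pos \ S) = S := by
  ext k
  constructor
  · rintro ⟨h1, h2⟩
    by_contra h3
    exact h2 ⟨h1, h3⟩
  · intro hk
    exact ⟨h hk, fun h2 => h2.2 hk⟩

theorem seven {n : ℕ} (hn : 13 ≤ n) {S : Set ℕ} (hS : S ⊆ Pos) (h7 : ∀ k, 7 ≤ k → k ∈ S)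
    (h2 : 2 ∉ S) (h235 : Pos \ S ≠ {2, 3, 5}) (h236 : Pos \ S ≠ {2, 3, 6}) : Realisable n S := by
  classical
  have hL : ∀ k, k ∈ lst (decide (1 ∉ S)) (decide (3 ∉ S)) (decide (4 ∉ S)) (decide (5 ∉ S))
      (decide (6 ∉ S)) ↔ k ∈ Pos \ S := by
    intro k
    have e : k ∈ lst (decide (1 ∉ S)) (decide (3 ∉ S)) (decide (4 ∉ S)) (decide (5 ∉ S))
      (decide (6 ∉ S)) ↔ (k = 1 ∧ 1 ∉ S) ∨ k = 2 ∨ (k = 3 ∧ 3 ∉ S) ∨ (k = 4 ∧ 4 ∉ S) ∨
        (k = 5 ∧ 5 ∉ S) ∨ (k = 6 ∧ 6 ∉ S) := by
      unfold lst
      simp only [List.mem_append, List.mem_singleton]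
      have aux : ∀ (j : ℕ), (k ∈ (if decide (j ∉ S) = true then [j] else [])) ↔
          (k = j ∧ j ∉ S) := by
        intro j
        by_cases hj : j ∉ S
        · simp [hj]
        · simp only [not_not] at hj
          simp [hj]
      rw [aux 1, aux 3, aux 4, aux 5, aux 6]
      tauto
    rw [e]
    constructor
    · rintro (⟨rfl, h⟩ | rfl | ⟨rfl, h⟩ | ⟨rfl, h⟩ | ⟨rfl, h⟩ | ⟨rfl, h⟩)
      · exact ⟨by simp, h⟩
      · exact ⟨by simp, h2⟩
      · exact ⟨by simp, h⟩
      · exact ⟨by simp, h⟩
      · exact ⟨by simp, h⟩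
      · exact ⟨by simp, h⟩
    · rintro ⟨hk1, hk⟩
      have hk1' : 1 ≤ k := hk1
      have hk7 : k < 7 := by
        by_contra h
        exact hk (h7 k (by omega))
      interval_cases k
      · exact Or.inl ⟨rfl, hk⟩
      · exact Or.inr (Or.inl rfl)
      · exact Or.inr (Or.inr (Or.inl ⟨rfl, hk⟩))
      · exact Or.inr (Or.inr (Or.inr (Or.inl ⟨rfl, hk⟩)))
      · exact Or.inr (Or.inr (Or.inr (Or.inr (Or.inl ⟨rfl, hk⟩))))
      · exact Or.inr (Or.inr (Or.inr (Or.inr (Or.inr ⟨rfl, hk⟩))))
  have hset : {k | k ∈ lst (decide (1 ∉ S)) (decide (3 ∉ S)) (decide (4 ∉ S)) (decide (5 ∉ S))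
      (decide (6 ∉ S))} = Pos \ S := Set.ext hL
  have hne : ∀ L : List ℕ, Pos \ S ≠ {k | k ∈ L} → lst (decide (1 ∉ S)) (decide (3 ∉ S))
      (decide (4 ∉ S)) (decide (5 ∉ S)) (decide (6 ∉ S)) ≠ L := by
    intro L hL' he
    rw [he] at hset
    exact hL' hset.symm
  have := fam_all n hn (decide (1 ∉ S)) (decide (3 ∉ S)) (decide (4 ∉ S)) (decide (5 ∉ S))
    (decide (6 ∉ S)) (hne _ (by
      intro h
      apply h235
      rw [h]
      ext k
      simp)) (hne _ (by
      intro h
      apply h236
      rw [h]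
      ext k
      simp))
  rw [hset] at this
  change Realisable n (Pos \ (Pos \ S)) at this
  rwa [compl_compl_pos hS] at this

theorem pair {n : ℕ} (hn : 13 ≤ n) (k : ℕ) (hk : k ∈ ({2, 1, 3, 4, 5, 6} : Set ℕ)) :
    Realisable n (Pos \ {2, k}) := by
  have key : ∀ (L : List ℕ), (∀ x, x ∈ ({2, k} : Set ℕ) ↔ x ∈ L) →
      Realisable n (Pos \ {x | x ∈ L}) → Realisable n (Pos \ {2, k}) := by
    intro L hL h
    have : ({2, k} : Set ℕ) = {x | x ∈ L} := Set.ext hL
    rw [this]
    exact h
  simp only [Set.mem_insert_iff, Set.mem_singleton_iff] at hk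
  rcases hk with rfl | rfl | rfl | rfl | rfl | rfl
  · exact key _ (by intro x; simp) (fam_fffff n hn)
  · exact key _ (by intro x; simp [or_comm]) (fam_tffff n hn)
  · exact key _ (by intro x; simp) (fam_ftfff n hn)
  · exact key _ (by intro x; simp) (fam_fftff n hn)
  · exact key _ (by intro x; simp) (fam_ffftf n hn)
  · exact key _ (by intro x; simp) (fam_fffft n hn)

/-- realisable sets missing at most two positive integers -/
theorem two_missing {n : ℕ} (hn : 13 ≤ n) {S : Set ℕ} (hS : S ⊆ Pos)
    (hcard : (Pos \ S).encard ≤ 2) :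
    Realisable n S ↔ ∃ k ∈ ({2, 1, 3, 4, 5, 6} : Set ℕ), Pos \ S = {2, k} := by
  classical
  constructor
  · rintro ⟨G, hc, hG⟩
    have hirr : ∀ k, 1 ≤ k → (k ∈ S ↔ PathIrregular G k) := by
      intro k hk
      rw [← hG]
      exact ⟨fun h => h.2, fun h => ⟨hk, h⟩⟩
    have three : ∀ a b c : ℕ, a ∈ Pos \ S → b ∈ Pos \ S → c ∈ Pos \ S → a ≠ b → a ≠ c → b ≠ c →
        False := by
      intro a b c ha hb hc' hab hac hbc
      have hsub : ({a, b, c} : Set ℕ) ⊆ Pos \ S := by
        intro x hx
        simp only [Set.mem_insert_iff, Set.mem_singleton_iff] at hx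
        rcases hx with rfl | rfl | rfl <;> assumption
      have h1 := Set.encard_le_encard hsub
      have h2 : ({a, b, c} : Set ℕ).encard = 3 := by
        rw [Set.encard_eq_three]
        exact ⟨a, b, c, hab, hac, hbc, rfl⟩
      rw [h2] at h1
      have := h1.trans hcard
      exact absurd this (by decide)
    by_cases h2 : 2 ∈ S
    · have hk2 := (hirr 2 (by norm_num)).1 h2
      obtain ⟨n1, n3, n56⟩ := high hk2 hc (by rw [Fintype.card_fin]; omega)
      have m1 : 1 ∈ Pos \ S := ⟨by simp, fun h => n1 ((hirr 1 (by norm_num)).1 h)⟩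
      have m3 : 3 ∈ Pos \ S := ⟨by simp, fun h => n3 ((hirr 3 (by norm_num)).1 h)⟩
      by_cases h5 : PathIrregular G 5
      · have h6 : ¬ PathIrregular G 6 := fun h => n56 ⟨h5, h⟩
        have m6 : 6 ∈ Pos \ S := ⟨by simp, fun h => h6 ((hirr 6 (by norm_num)).1 h)⟩
        exact (three 1 3 6 m1 m3 m6 (by norm_num) (by norm_num) (by norm_num)).elim
      · have m5 : 5 ∈ Pos \ S := ⟨by simp, fun h => h5 ((hirr 5 (by norm_num)).1 h)⟩
        exact (three 1 3 5 m1 m3 m5 (by norm_num) (by norm_num) (by norm_num)).elim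
    · have m2 : 2 ∈ Pos \ S := ⟨by simp, h2⟩
      by_cases hall : ∀ k ∈ ({1, 3, 4, 5, 6} : Set ℕ), PathIrregular G k
      · obtain ⟨c, hs⟩ := (star_iff (by omega) hc).1 hall
        refine ⟨2, by simp, ?_⟩
        ext k
        simp only [Set.mem_insert_iff, Set.mem_singleton_iff, or_self]
        constructor
        · rintro ⟨hk1, hk⟩
          by_contra hne
          apply hk
          rw [hirr k hk1]
          by_cases hk3 : 3 ≤ k
          · intro a b hp
            exact (star_no_path hs hk3 hp).elim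
          · have hk1' : 1 ≤ k := hk1
            have : k = 1 := by omega
            subst this
            exact hall 1 (by simp)
        · rintro rfl
          exact m2
      · push Not at hall
        obtain ⟨k, hk, hkn⟩ := hall
        have hk1 : 1 ≤ k := by
          simp only [Set.mem_insert_iff, Set.mem_singleton_iff] at hk
          omega
        have hk2 : 2 ≠ k := by
          simp only [Set.mem_insert_iff, Set.mem_singleton_iff] at hk
          omega
        have mk : k ∈ Pos \ S := ⟨hk1, fun h => hkn ((hirr k hk1).1 h)⟩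
        refine ⟨k, Or.inr hk, ?_⟩
        ext x
        simp only [Set.mem_insert_iff, Set.mem_singleton_iff]
        constructor
        · intro hx
          by_contra hno
          push Not at hno
          exact three 2 k x m2 mk hx hk2 (Ne.symm hno.1) (Ne.symm hno.2)
        · rintro (rfl | rfl)
          · exact m2
          · exact mk
  · rintro ⟨k, hk, he⟩
    have := pair hn k hk
    rw [← he] at this
    rwa [compl_compl_pos hS] at this

/-- realisable sets containing all integers from five on -/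
theorem from_five {n : ℕ} (hn : 13 ≤ n) {S : Set ℕ} (hS : S ⊆ Pos) (h5 : ∀ k, 5 ≤ k → k ∈ S) :
    Realisable n S ↔ 2 ∉ S := by
  constructor
  · rintro ⟨G, hc, hG⟩ h2
    have hirr : ∀ k, k ∈ S → PathIrregular G k := by
      intro k hk
      rw [← hG] at hk
      exact hk.2
    obtain ⟨_, _, n56⟩ := high (hirr 2 h2) hc (by rw [Fintype.card_fin]; omega)
    exact n56 ⟨hirr 5 (h5 5 (by norm_num)), hirr 6 (h5 6 (by norm_num))⟩
  · intro h2
    refine seven hn hS (fun k hk => h5 k (by omega)) h2 ?_ ?_
    · intro h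
      have : 5 ∈ Pos \ S := by rw [h]; simp
      exact this.2 (h5 5 (by norm_num))
    · intro h
      have : 6 ∈ Pos \ S := by rw [h]; simp
      exact this.2 (h5 6 (by norm_num))

end Pool.Agent.KPI
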