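import Pool.Agent.KPI.Pump5
import Pool.Agent.KPI.Long2

/-!
# Eventual periodicity
-/

namespace Pool.Agent.KPI
open SimpleGraph Filter

lemma realisable_pos {n : ℕ} {S : Set ℕ} (h : Realisable n S) : ∀ k ∈ S, 1 ≤ k := by
  obtain ⟨G, -, rfl⟩ := h
  intro k hk
  exact hk.1

/-- If `S` is realisable at a large order, then it is realisable at all large orders of a
residue class. -/
theorem eventually_pump {L : ℕ} {S : Set ℕ} (hS : ∀ k, L < k → k ∈ S) :
    ∃ K, 1 ≤ K ∧ ∃ N, ∀ n, N ≤ n → Realisable n S →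
      ∀ᶠ j in (atTop : Filter ℕ), Realisable (n + j * K) S := by
  classical
  by_contra hcon
  push Not at hcon
  have h1 : ∀ i : ℕ, ∃ m, i ≤ m ∧ Realisable m S ∧
      ¬ ∀ᶠ j in (atTop : Filter ℕ), Realisable (m + j * Nat.factorial i) S := by
    intro i
    obtain ⟨m, hm1, hm2, hm3⟩ := hcon (Nat.factorial i) (Nat.factorial_pos i) i
    exact ⟨m, hm1, hm2, by
      rw [Filter.not_eventually]
      exact hm3⟩
  choose n hni hreal hnot using h1
  have hreal' : ∀ i, ∃ G : SimpleGraph (Fin (n i)), G.Connected ∧ irrSet G = S := fun i => hreal i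
  choose G hGc hGS using hreal'
  set Pf : Finset ℕ := (Finset.Icc 1 L).filter fun k => k ∉ S with hPf
  set p := Pf.card with hp
  let kk : Fin p → ℕ := fun t => (Pf.equivFin.symm t).1
  have hkk : ∀ t, kk t ∈ Pf := fun t => (Pf.equivFin.symm t).2
  have hkk' : ∀ k ∈ Pf, ∃ t, kk t = k := by
    intro k hk
    exact ⟨Pf.equivFin ⟨k, hk⟩, by simp [kk]⟩
  have hbad : ∀ i, ∀ t, ∃ a b : Fin (n i), a ≠ b ∧ deg (G i) a = deg (G i) b ∧
      HasPath (G i) (kk t) a b := by
    intro i t
    have h2 := hkk t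
    rw [hPf, Finset.mem_filter, Finset.mem_Icc] at h2
    have h3 : kk t ∈ badSet (G i) := by
      by_contra h
      apply h2.2
      rw [← hGS i, irrSet_eq]
      exact ⟨h2.1.1, h⟩
    exact h3
  choose u v huv hdeg hpath using hbad
  let 𝒰 : Ultrafilter ℕ := Filter.hyperfilter ℕ
  have hge : ∀ N, ∀ᶠ i in (𝒰 : Filter ℕ), N ≤ i := by
    intro N
    exact Nat.hyperfilter_le_atTop (Filter.eventually_ge_atTop N)
  have hn : ∀ N, ∀ᶠ i in (𝒰 : Filter ℕ), N ≤ n i := fun N =>
    (hge N).mono fun i hi => hi.trans (hni i)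
  set l := 12 * (L + 1) ^ 2 with hl
  have hpl : ∀ i (a b : Fin (n i)) (q : (G i).Walk a b), q.IsPath → q.length < l := by
    intro i a b q hq
    refine no_long_path (L := L + 1) (by omega) ?_ q hq
    intro k hk
    have h2 : k ∈ irrSet (G i) := by
      rw [hGS i]
      exact hS k (by omega)
    exact h2.2
  obtain ⟨H, hH⟩ : ∃ H, H = 2 * p + l := ⟨_, rfl⟩
  have h0 := zero_mem G u v 𝒰 (H := H) (l := l) hH hn hpl hdeg
  obtain ⟨φ, hφ, κ, hh, W, hκ, hW1, hW2⟩ := exists_relation G u v 𝒰 h0
  set ktot := ∑ f, W f * (κ f).s with hktot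
  have hkpos : 1 ≤ ktot := by
    obtain ⟨f, hf⟩ := hW1
    have h2 : 1 ≤ W f * (κ f).s := Nat.mul_pos hf (TT_pos (hκ f))
    exact h2.trans (Finset.single_le_sum (f := fun f => W f * (κ f).s)
      (fun _ _ => Nat.zero_le _) (Finset.mem_univ f))
  set r := 2 * (Fintype.card φ * H) + 2 with hr
  have hfam : ∀ᶠ i in (𝒰 : Filter ℕ), ∀ f, HasFam G u v i (hh f) r (κ f) :=
    Filter.eventually_all.2 fun f => hκ f r
  obtain ⟨i, hi1, hi2⟩ := (hfam.and (hge ktot)).exists
  choose X hX hR 𝒟 hcard hdisj h𝒟 using hi1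
  have hF : ∀ f, ∃ F : Fam (G i), F.s = (κ f).s ∧ F.r = r ∧ F.X = {x | x ∈ X f} ∧
      ∀ k, (F.slope (u i k) : ℤ) - F.slope (v i k) = (κ f).d k := by
    intro f
    refine exists_fam (H := H) (r := r) (by have := hX f; omega) (by omega) (hcard f) (hdisj f) ?_
      (fun k => (hR f k).1) (fun k => (hR f k).2)
    intro D hD
    exact ⟨(h𝒟 f D hD).2.1, (h𝒟 f D hD).2.2⟩
  choose F hFs hFr hFX hFd using hF
  set Y : Finset (Fin (n i)) := Finset.univ.biUnion fun f => (X f).toFinset with hY
  have hYcard : Y.card ≤ Fintype.card φ * H := by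
    refine Finset.card_biUnion_le.trans ?_
    refine (Finset.sum_le_card_nsmul _ _ H ?_).trans ?_
    · intro f _
      refine (List.toFinset_card_le _).trans ?_
      have := hX f
      omega
    · rw [smul_eq_mul, Finset.card_univ]
  have hfin : ∀ j, n i ≤ j → Realisable (n i + j * ktot) S := by
    intro j hj
    have h2 := pump (hGc i) F W Y (by
      intro f x hx
      rw [hFX f] at hx
      rw [hY, Finset.mem_coe, Finset.mem_biUnion]
      exact ⟨f, Finset.mem_univ _, List.mem_toFinset.2 hx⟩) (by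
      intro f
      rw [hFr f, hr]
      omega) (by
      intro k hk
      have hk1 : 1 ≤ k := by
        obtain ⟨a, b, hab, -, hpab⟩ := hk
        exact hpab.pos hab
      have hkS : k ∉ S := by
        intro h
        rw [← hGS i, irrSet_eq] at h
        exact h.2 hk
      have hkL : k ≤ L := by
        by_contra h
        exact hkS (hS k (by omega))
      obtain ⟨t, rfl⟩ := hkk' k (by
        rw [hPf, Finset.mem_filter, Finset.mem_Icc]
        exact ⟨⟨hk1, hkL⟩, hkS⟩)
      refine ⟨u i t, v i t, huv i t, hdeg i t, hpath i t, ?_⟩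
      have h3 : ∑ f, (W f : ℤ) * ((F f).slope (u i t) : ℤ) -
          ∑ f, (W f : ℤ) * ((F f).slope (v i t) : ℤ) = 0 := by
        rw [← Finset.sum_sub_distrib, ← hW2 t]
        refine Finset.sum_congr rfl ?_
        intro f _
        rw [← hFd f t]
        ring
      have h4 : ((∑ f, W f * (F f).slope (u i t) : ℕ) : ℤ) =
          ((∑ f, W f * (F f).slope (v i t) : ℕ) : ℤ) := by
        push_cast
        linarith
      exact_mod_cast h4) (j := j) (by rw [Fintype.card_fin]; exact hj)
    have h3 : ({k | 1 ≤ k} \ badSet (G i)) = S := by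
      rw [← irrSet_eq, hGS i]
    have h4 : ∑ f, W f * (F f).s = ktot := by
      rw [hktot]
      refine Finset.sum_congr rfl ?_
      intro f _
      rw [hFs f]
    rw [h3, h4, Fintype.card_fin] at h2
    exact h2
  apply hnot i
  obtain ⟨m, hm⟩ : ktot ∣ Nat.factorial i := Nat.dvd_factorial hkpos hi2
  have hmpos : 1 ≤ m := by
    by_contra h
    have hm0 : m = 0 := by omega
    rw [hm0, mul_zero] at hm
    have := Nat.factorial_pos i
    omega
  filter_upwards [Filter.eventually_ge_atTop (n i)] with j hj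
  have h5 : j * Nat.factorial i = (j * m) * ktot := by
    rw [hm]
    ring
  rw [h5]
  exact hfin _ (hj.trans (Nat.le_mul_of_pos_right _ hmpos))

lemma periodic_of {A : ℕ → Prop} {K N : ℕ} (hK : 1 ≤ K)
    (h : ∀ n, N ≤ n → A n → ∀ᶠ j in (atTop : Filter ℕ), A (n + j * K)) :
    ∃ M, ∀ n, M ≤ n → (A n ↔ A (n + K)) := by
  classical
  have hc : ∀ c : ℕ, ∃ M, ∀ n, M ≤ n → n % K = c → (A n ↔ A (n + K)) := by
    intro c
    by_cases hex : ∃ n0, N ≤ n0 ∧ n0 % K = c ∧ A n0
    · obtain ⟨n0, h1, h2, h3⟩ := hex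
      obtain ⟨J, hJ⟩ := Filter.eventually_atTop.1 (h n0 h1 h3)
      have key : ∀ n, n0 + J * K ≤ n → n % K = c → A n := by
        intro n hn hnc
        obtain ⟨q, hq⟩ : K ∣ n - n0 := by
          refine (Nat.modEq_iff_dvd' (by omega)).1 ?_
          rw [Nat.ModEq, h2, hnc]
        have h5 : n = n0 + q * K := by
          have : n = n0 + K * q := by omega
          rw [this]
          ring
        rw [h5]
        refine hJ q ?_
        rw [h5] at hn
        have h6 : J * K ≤ q * K := by omega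
        exact Nat.le_of_mul_le_mul_right h6 (by omega)
      refine ⟨n0 + J * K, ?_⟩
      intro n hn hnc
      constructor
      · intro _
        exact key (n + K) (by omega) (by rw [Nat.add_mod_right]; exact hnc)
      · intro _
        exact key n hn hnc
    · refine ⟨N, ?_⟩
      intro n hn hnc
      constructor
      · intro hA
        exact absurd ⟨n, hn, hnc, hA⟩ hex
      · intro hA
        exact absurd ⟨n + K, by omega, by rw [Nat.add_mod_right]; exact hnc, hA⟩ hex
  choose M hM using hc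
  refine ⟨∑ c ∈ Finset.range K, M c, ?_⟩
  intro n hn
  have h1 : n % K < K := Nat.mod_lt _ (by omega)
  have h2 : M (n % K) ≤ ∑ c ∈ Finset.range K, M c :=
    Finset.single_le_sum (f := M) (fun _ _ => Nat.zero_le _) (Finset.mem_range.2 h1)
  exact hM (n % K) n (h2.trans hn) rfl

lemma periodic_mul {A : ℕ → Prop} {K M : ℕ} (h : ∀ n, M ≤ n → (A n ↔ A (n + K))) (q : ℕ) :
    ∀ n, M ≤ n → (A n ↔ A (n + q * K)) := by
  induction q with
  | zero =>
    intro n _
    rw [zero_mul, add_zero]
  | succ q ih =>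
    intro n hn
    rw [ih n hn, h (n + q * K) (by omega)]
    have : n + q * K + K = n + (q + 1) * K := by ring
    rw [this]

/-- Eventual periodicity of the realisable sets which contain all `k > L`. -/
theorem periodic (L : ℕ) : ∃ K, 1 ≤ K ∧ ∃ N, ∀ n, N ≤ n → ∀ S : Set ℕ, (∀ k, L < k → k ∈ S) →
    (Realisable n S ↔ Realisable (n + K) S) := by
  classical
  have h1 : ∀ Q : Finset ℕ, ∃ K, 1 ≤ K ∧ ∃ N, ∀ n, N ≤ n →
      (Realisable n ((Q : Set ℕ) ∪ {k | L < k}) ↔
        Realisable (n + K) ((Q : Set ℕ) ∪ {k | L < k})) := by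
    intro Q
    obtain ⟨K, hK, N, hN⟩ := eventually_pump (L := L) (S := (Q : Set ℕ) ∪ {k | L < k})
      fun k hk => Or.inr hk
    obtain ⟨M, hM⟩ := periodic_of hK hN
    exact ⟨K, hK, M, hM⟩
  choose K hK N hN using h1
  refine ⟨∏ Q ∈ (Finset.Icc 1 L).powerset, K Q, ?_, ∑ Q ∈ (Finset.Icc 1 L).powerset, N Q, ?_⟩
  · change 0 < ∏ Q ∈ (Finset.Icc 1 L).powerset, K Q
    exact Finset.prod_pos fun Q _ => hK Q
  · intro n hn S hS
    by_cases hpos : ∀ k ∈ S, 1 ≤ k
    · set Q : Finset ℕ := (Finset.Icc 1 L).filter fun k => k ∈ S with hQ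
      have hQS : S = (Q : Set ℕ) ∪ {k | L < k} := by
        ext k
        constructor
        · intro hk
          by_cases hkL : L < k
          · exact Or.inr hkL
          · left
            rw [hQ, Finset.mem_coe, Finset.mem_filter, Finset.mem_Icc]
            exact ⟨⟨hpos k hk, by omega⟩, hk⟩
        · rintro (hk | hk)
          · exact (Finset.mem_filter.1 (Finset.mem_coe.1 hk)).2
          · exact hS k hk
      have hQmem : Q ∈ (Finset.Icc 1 L).powerset :=
        Finset.mem_powerset.2 (Finset.filter_subset _ _)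
      obtain ⟨q, hq⟩ : K Q ∣ ∏ Q ∈ (Finset.Icc 1 L).powerset, K Q :=
        Finset.dvd_prod_of_mem K hQmem
      have h2 : N Q ≤ ∑ Q ∈ (Finset.Icc 1 L).powerset, N Q :=
        Finset.single_le_sum (f := N) (fun _ _ => Nat.zero_le _) hQmem
      rw [hQS, hq, mul_comm]
      exact periodic_mul (A := fun n => Realisable n ((Q : Set ℕ) ∪ {k | L < k})) (hN Q) q n
        (h2.trans hn)
    · constructor
      · intro h
        exact absurd (realisable_pos h) hpos
      · intro h
        exact absurd (realisable_pos h) hpos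

end Pool.Agent.KPI
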