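import Pool.Agent.KPI.Final1
import Pool.Agent.KPI.Few4
import Pool.Agent.KPI.Pump6
import Pool.Agent.KPI.Big3

/-!
# Final theorems
-/

namespace Pool.Agent.KPI
open SimpleGraph

/-- The classification of small complements. -/
theorem small_complements {n : ℕ} (hn : 13 ≤ n) {S : Set ℕ} (hS : S ⊆ Pos)
    (h : (Pos \ S).encard ≤ 2 ∨ ({1, 3, 4, 5, 6} : Set ℕ) ⊆ S ∨ ((∀ k, 7 ≤ k → k ∈ S) ∧
      Pos \ S ≠ {2, 3, 5} ∧ Pos \ S ≠ {2, 3, 6} ∧ Pos \ S ≠ {1, 3, 4, 5} ∧
      Pos \ S ≠ {1, 3, 4, 5, 6})) :
    Realisable n S ↔ 2 ∉ S ∧ ∀ k, 7 ≤ k → k ∈ S := by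
  rcases h with h | h | ⟨h7, h235, h236, h1345, h13456⟩
  · constructor
    · intro hr
      obtain ⟨k, hk, he⟩ := (two_missing hn hS h).1 hr
      have h2 : 2 ∈ Pos \ S := by rw [he]; simp
      refine ⟨h2.2, ?_⟩
      intro j hj
      by_contra hjS
      have h3 : j ∈ Pos \ S := ⟨by change 1 ≤ j; omega, hjS⟩
      rw [he] at h3
      simp only [Set.mem_insert_iff, Set.mem_singleton_iff] at h3 hk
      omega
    · rintro ⟨h2, h7⟩
      have hne : ∀ a b c : ℕ, a ≠ b → a ≠ c → b ≠ c → Pos \ S ≠ {a, b, c} := by
        intro a b c hab hac hbc he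
        have h3 : ({a, b, c} : Set ℕ).encard = 3 := by
          rw [Set.encard_eq_three]
          exact ⟨a, b, c, hab, hac, hbc, rfl⟩
        rw [he, h3] at h
        exact absurd h (by decide)
      exact seven hn hS h7 h2 (hne 2 3 5 (by norm_num) (by norm_num) (by norm_num))
        (hne 2 3 6 (by norm_num) (by norm_num) (by norm_num))
  · constructor
    · rintro ⟨G, hc, rfl⟩
      obtain ⟨c, hs⟩ := (star_iff (by omega) hc).1 fun k hk => (h hk).2
      refine ⟨?_, ?_⟩
      · intro h2
        obtain ⟨n1, -, -⟩ := high h2.2 hc (by rw [Fintype.card_fin]; omega)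
        exact n1 (h (by simp : (1 : ℕ) ∈ ({1, 3, 4, 5, 6} : Set ℕ))).2
      · intro k hk
        exact ⟨by omega, fun a b hp => (star_no_path hs (by omega) hp).elim⟩
    · rintro ⟨h2, h7⟩
      have hne : ∀ c : ℕ, Pos \ S ≠ {2, 3, c} := by
        intro c he
        have h3 : 3 ∈ Pos \ S := by rw [he]; simp
        exact h3.2 (h (by simp))
      exact seven hn hS h7 h2 (hne 5) (hne 6)
  · constructor
    · intro hr
      refine ⟨?_, h7⟩
      intro h2
      have hpos : ∀ k, k ∈ Pos \ S ↔ (1 ≤ k ∧ k ∉ S) := fun k => Iff.rfl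
      rcases with_two_strong (by omega) h2 hr with ⟨-, hS'⟩ | hk
      · have h3 := h7 7 le_rfl
        rw [hS'] at h3
        obtain ⟨-, h3 | h3⟩ := h3
        · exact absurd h3 (by decide)
        · omega
      · have n1 : 1 ∉ S := fun h => by have := hk 1 h; omega
        have n3 : 3 ∉ S := fun h => by have := hk 3 h; omega
        have n4 : 4 ∉ S := fun h => by have := hk 4 h; omega
        have n5 : 5 ∉ S := fun h => by have := hk 5 h; omega
        by_cases h6 : 6 ∈ S
        · apply h1345
          ext k
          rw [hpos]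
          simp only [Set.mem_insert_iff, Set.mem_singleton_iff]
          constructor
          · rintro ⟨h1, hkS⟩
            have hk7 : k < 7 := by
              by_contra hcon
              exact hkS (h7 k (by omega))
            interval_cases k
            · exact Or.inl rfl
            · exact absurd h2 hkS
            · exact Or.inr (Or.inl rfl)
            · exact Or.inr (Or.inr (Or.inl rfl))
            · exact Or.inr (Or.inr (Or.inr rfl))
            · exact absurd h6 hkS
          · rintro (rfl | rfl | rfl | rfl)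
            · exact ⟨by norm_num, n1⟩
            · exact ⟨by norm_num, n3⟩
            · exact ⟨by norm_num, n4⟩
            · exact ⟨by norm_num, n5⟩
        · apply h13456
          ext k
          rw [hpos]
          simp only [Set.mem_insert_iff, Set.mem_singleton_iff]
          constructor
          · rintro ⟨h1, hkS⟩
            have hk7 : k < 7 := by
              by_contra hcon
              exact hkS (h7 k (by omega))
            interval_cases k
            · exact Or.inl rfl
            · exact absurd h2 hkS
            · exact Or.inr (Or.inl rfl)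
            · exact Or.inr (Or.inr (Or.inl rfl))
            · exact Or.inr (Or.inr (Or.inr (Or.inl rfl)))
            · exact Or.inr (Or.inr (Or.inr (Or.inr rfl)))
          · rintro (rfl | rfl | rfl | rfl | rfl)
            · exact ⟨by norm_num, n1⟩
            · exact ⟨by norm_num, n3⟩
            · exact ⟨by norm_num, n4⟩
            · exact ⟨by norm_num, n5⟩
            · exact ⟨by norm_num, h6⟩
    · rintro ⟨h2, -⟩
      exact seven hn hS h7 h2 h235 h236

/-- The realisable sets which miss at most `s` positive integers are eventually periodic. -/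
theorem periodic_few (s : ℕ) : ∃ K, 1 ≤ K ∧ ∃ N, ∀ n, N ≤ n → ∀ S : Set ℕ,
    (Pos \ S).encard ≤ s → (Realisable n S ↔ Realisable (n + K) S) := by
  obtain ⟨K, hK, N, hN⟩ := periodic (38 * (s + 1 + 1) ^ 6)
  refine ⟨K, hK, N, ?_⟩
  intro n hn S hS
  have hS' : (Pos \ S).encard ≤ ((s + 1 : ℕ) : ℕ∞) := by
    refine hS.trans ?_
    exact_mod_cast Nat.le_succ s
  constructor
  · intro hr
    exact (hN n hn S fun k hk => few_missing (by omega) hr hS' hk.le).1 hr
  · intro hr
    exact (hN n hn S fun k hk => few_missing (by omega) hr hS' hk.le).2 hr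

end Pool.Agent.KPI
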