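import Pool.Agent.KPI.Star2

namespace Pool.Agent.KPI
open SimpleGraph

universe u
variable {V : Type u} {G : SimpleGraph V}

section
set_option linter.unusedSectionVars false
variable [Fintype V] (k2 : PathIrregular G 2)

include k2 in
lemma nb_ne {a b c : V} (h1 : G.Adj b a) (h2 : G.Adj b c) (hne : a ≠ c) :
    deg G a ≠ deg G c := by
  have a1 := h1.ne
  have a2 := h2.ne
  exact k2 a c (hp2 h1.symm h2 (by simp only [List.nodup_cons, List.mem_cons, List.not_mem_nil, or_false, not_or, List.nodup_nil, and_true, not_false_eq_true]; split_ands <;> first | assumption | exact Ne.symm (by assumption)))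

include k2 in
/-- in a highly irregular graph a vertex of maximum degree has neighbours of all degrees -/
lemma exists_nb {u : V} (hmax : ∀ x, deg G x ≤ deg G u) {i : ℕ} (h1 : 1 ≤ i)
    (h2 : i ≤ deg G u) : ∃ x, G.Adj u x ∧ deg G x = i := by
  classical
  set N := Finset.univ.filter (fun y => G.Adj u y) with hNdef
  have hNc : N.card = deg G u := (deg_eq_card u).symm
  have hmem : ∀ x, x ∈ N ↔ G.Adj u x := by intro x; simp [hNdef]
  have hinj : Set.InjOn (deg G) N := by
    intro x hx y hy hxy
    by_contra hne
    exact nb_ne k2 ((hmem x).1 hx) ((hmem y).1 hy) hne hxy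
  have himg : N.image (deg G) = Finset.Icc 1 (deg G u) := by
    apply Finset.eq_of_subset_of_card_le
    · intro v hv
      obtain ⟨x, hx, rfl⟩ := Finset.mem_image.1 hv
      rw [Finset.mem_Icc]
      exact ⟨deg_pos ((hmem x).1 hx).symm, hmax x⟩
    · rw [Finset.card_image_of_injOn hinj, hNc, Nat.card_Icc]
      omega
  have : i ∈ N.image (deg G) := by
    rw [himg, Finset.mem_Icc]
    exact ⟨h1, h2⟩
  obtain ⟨x, hx, hxi⟩ := Finset.mem_image.1 this
  exact ⟨x, (hmem x).1 hx, hxi⟩

include k2 in
lemma hi_aux (k5 : PathIrregular G 5) (k6 : PathIrregular G 6) {u v u1 v1 u2 v2 x : V}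
    (hmax : ∀ x, deg G x ≤ deg G u) (hd : 3 ≤ deg G u) (hv : deg G v = deg G u)
    (huv : G.Adj u v) (hu1 : Leaf G u1 u) (hv1 : Leaf G v1 v) (hu2 : G.Adj u u2)
    (hv2 : G.Adj v v2) (du2 : deg G u2 = 2) (dv2 : deg G v2 = 2) (hx : G.Adj u2 x)
    (hxu : x ≠ u) (hxd : 2 ≤ deg G x) : False := by
  have hmaxv : ∀ x, deg G x ≤ deg G v := fun x => by rw [hv]; exact hmax x
  have n1 := huv.ne
  have n2 := hu2.ne
  have n3 := hv2.ne
  have n4 := hx.ne
  have n5 := hu1.1.ne
  have n6 := hv1.1.ne
  have hu2v : u2 ≠ v := by
    rintro rfl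
    omega
  have hv2u : v2 ≠ u := by
    rintro rfl
    omega
  have hu2v2 : u2 ≠ v2 := by
    rintro rfl
    exact k2 u v (hp2 hu2 hv2.symm (by simp only [List.nodup_cons, List.mem_cons, List.not_mem_nil, or_false, not_or, List.nodup_nil, and_true, not_false_eq_true]; split_ands <;> first | assumption | exact Ne.symm (by assumption))) hv.symm
  have hu1v : u1 ≠ v := hu1.ne hv2 (by assumption)
  have hv1u : v1 ≠ u := hv1.ne hu2 (by assumption)
  have hu1v1 : u1 ≠ v1 := hu1.ne hv1.1 (Ne.symm n1)
  have hu1u2 : u1 ≠ u2 := hu1.ne hx hxu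
  have hxv : x ≠ v := by
    rintro rfl
    exact nb_ne k2 hx.symm hv2 hu2v2 (by rw [du2, dv2])
  have hv1u2 : v1 ≠ u2 := hv1.ne hx hxv
  have hu1x : u1 ≠ x := hu1.ne hx.symm (Ne.symm n2)
  have hv1x : v1 ≠ x := hv1.ne hx.symm hu2v
  have hleaf : deg G u1 = deg G v1 := by rw [hu1.2, hv1.2]
  have hu2nv : ¬ G.Adj v u2 := by
    intro h
    exact nb_ne k2 h hv2 hu2v2 (by rw [du2, dv2])
  have hxnv : ¬ G.Adj x v := by
    intro h
    exact k5 u1 v1 (hp5 hu1.1 hu2 hx h hv1.1.symm (by simp only [List.nodup_cons, List.mem_cons, List.not_mem_nil, or_false, not_or, List.nodup_nil, and_true, not_false_eq_true]; split_ands <;> first | assumption | exact Ne.symm (by assumption))) hleaf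
  -- the common argument
  have key : ∀ z, G.Adj x z → z ≠ u2 → z ≠ u → deg G z ≠ deg G u → False := by
    intro z hz hzu2 hzu hzd
    have m1 := hz.ne
    have hzv : z ≠ v := by
      rintro rfl
      exact hxnv hz
    have hu1z : u1 ≠ z := hu1.ne hz.symm hxu
    have hv1z : v1 ≠ z := hv1.ne hz.symm hxv
    obtain ⟨t, hvt, htd⟩ := exists_nb k2 hmaxv (deg_pos hz.symm) (hmaxv z)
    have hznv : ¬ G.Adj z v := by
      intro h
      exact k6 u1 v1 (hp6 hu1.1 hu2 hx hz h hv1.1.symm (by simp only [List.nodup_cons, List.mem_cons, List.not_mem_nil, or_false, not_or, List.nodup_nil, and_true, not_false_eq_true]; split_ands <;> first | assumption | exact Ne.symm (by assumption))) hleaf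
    have htz : z ≠ t := by
      rintro rfl
      exact hznv hvt.symm
    have htx : x ≠ t := by
      rintro rfl
      exact hxnv hvt.symm
    have htu2 : u2 ≠ t := by
      rintro rfl
      exact hu2nv hvt
    have htu : u ≠ t := by
      rintro rfl
      exact hzd htd.symm
    have m2 := hvt.ne
    exact k5 z t (hp5 hz.symm hx.symm hu2.symm huv hvt (by simp only [List.nodup_cons, List.mem_cons, List.not_mem_nil, or_false, not_or, List.nodup_nil, and_true, not_false_eq_true]; split_ands <;> first | assumption | exact Ne.symm (by assumption))) htd.symm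
  have hxnu : ¬ G.Adj x u := by
    intro hxu'
    have hdx : deg G x ≠ 2 := by
      have := nb_ne k2 hu2 hxu'.symm n4
      rw [du2] at this
      exact Ne.symm this
    obtain ⟨z, hz, hzu, hzu2⟩ := exists_other2 (G := G) (x := x) (w := u) (z := u2) (by omega)
    exact key z hz hzu2 hzu (nb_ne k2 hz hxu' hzu)
  obtain ⟨z, hz, hzu2⟩ := exists_other (x := x) (w := u2) hxd
  have hzu : z ≠ u := by
    rintro rfl
    exact hxnu hz
  have hzv : z ≠ v := by
    rintro rfl
    exact hxnv hz
  by_cases hzd : deg G z = deg G u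
  · have hmaxz : ∀ x, deg G x ≤ deg G z := fun x => by rw [hzd]; exact hmax x
    obtain ⟨z1, hz1, hz1d⟩ := exists_nb k2 hmaxz (i := 1) (le_refl 1) (by omega)
    have hL : Leaf G z1 z := ⟨hz1.symm, hz1d⟩
    have p1 : z1 ≠ x := hL.ne hx.symm (Ne.symm hzu2)
    have p2 : z1 ≠ u2 := hL.ne hu2.symm (Ne.symm hzu)
    have p3 : z1 ≠ u := hL.ne huv (Ne.symm hzv)
    have p4 : z1 ≠ u1 := hL.ne hu1.1 (Ne.symm hzu)
    have p5 : u1 ≠ z := hu1.ne hz.symm hxu
    have m1 := hz.ne
    have m2 := hz1.ne
    exact k5 z1 u1 (hp5 hz1.symm hz.symm hx.symm hu2.symm hu1.1.symm (by simp only [List.nodup_cons, List.mem_cons, List.not_mem_nil, or_false, not_or, List.nodup_nil, and_true, not_false_eq_true]; split_ands <;> first | assumption | exact Ne.symm (by assumption)))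
      (by rw [hz1d, hu1.2])
  · exact key z hz hzu2 hzu hzd

lemma not_irr {k : ℕ} (h : ¬ PathIrregular G k) : ∃ a b, HasPath G k a b ∧ deg G a = deg G b := by
  unfold PathIrregular at h
  push Not at h
  exact h

include k2 in
/-- A highly irregular connected graph with at least five vertices has two vertices of equal
degree joined by a path with one edge, by a path with three edges, and by a path with five or
six edges. -/
theorem high (hc : G.Connected) (hn : 5 ≤ Fintype.card V) :
    ¬ PathIrregular G 1 ∧ ¬ PathIrregular G 3 ∧ ¬ (PathIrregular G 5 ∧ PathIrregular G 6) := by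
  classical
  obtain ⟨v0⟩ := hc.nonempty
  obtain ⟨u, _, hmax⟩ := Finset.exists_max_image Finset.univ (deg G) ⟨v0, Finset.mem_univ v0⟩
  replace hmax : ∀ x, deg G x ≤ deg G u := fun x => hmax x (Finset.mem_univ x)
  have hnt : Nontrivial V := Fintype.one_lt_card_iff_nontrivial.1 (by omega)
  have hnb : ∀ v, ∃ x, G.Adj v x := by
    intro v
    obtain ⟨w, hw⟩ := exists_ne v
    obtain ⟨p⟩ := hc.preconnected v w
    cases p with
    | nil => exact absurd rfl hw
    | cons h _ => exact ⟨_, h⟩
  obtain ⟨x0, hx0⟩ := hnb u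
  have hd1 : 1 ≤ deg G u := deg_pos hx0
  obtain ⟨v, huv, hv⟩ := exists_nb k2 hmax hd1 (le_refl _)
  have hmaxv : ∀ x, deg G x ≤ deg G v := fun x => by rw [hv]; exact hmax x
  obtain ⟨u1, hu1, du1⟩ := exists_nb k2 hmax (le_refl 1) hd1
  obtain ⟨v1, hv1, dv1⟩ := exists_nb k2 hmaxv (le_refl 1) (by omega)
  have Lu : Leaf G u1 u := ⟨hu1.symm, du1⟩
  have Lv : Leaf G v1 v := ⟨hv1.symm, dv1⟩
  -- a set closed under adjacency is everything
  have closed : ∀ S : Finset V, u ∈ S → (∀ a ∈ S, ∀ b, G.Adj a b → b ∈ S) → 5 ≤ S.card := by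
    intro S huS hS
    have : S = Finset.univ := by
      ext w
      simp only [Finset.mem_univ, iff_true]
      have key : ∀ (x y : V) (p : G.Walk x y), x ∈ S → y ∈ S := by
        intro x y p
        induction p with
        | nil => exact id
        | @cons a b d hab _ ih =>
          intro ha
          exact ih (hS a ha b hab)
      obtain ⟨p⟩ := hc.preconnected u w
      exact key u w p huS
    rw [this, Finset.card_univ]
    exact hn
  have hd3 : 3 ≤ deg G u := by
    by_contra hlt
    by_cases hd : deg G u = 1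
    · -- the component is an edge
      have Lu' : Leaf G u v := ⟨huv, hd⟩
      have Lv' : Leaf G v u := ⟨huv.symm, by omega⟩
      have := closed {u, v} (by simp) (by
        intro a ha b hab
        rw [Finset.mem_insert, Finset.mem_singleton] at ha ⊢
        rcases ha with rfl | rfl
        · exact Or.inr (Lu'.uniq hab)
        · exact Or.inl (Lv'.uniq hab))
      have h2 := Finset.card_le_two (a := u) (b := v)
      omega
    · have hd' : deg G u = 2 := by omega
      have two : ∀ a b c : V, deg G a = 2 → G.Adj a b → G.Adj a c → b ≠ c → ∀ t, G.Adj a t →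
          t = b ∨ t = c := by
        intro a b c hda hab hac hbc t ht
        by_contra hno
        push Not at hno
        have hsub : ((({t, b, c} : Finset V)) : Set V) ⊆ G.neighborSet a := by
          intro s hs
          simp only [Finset.coe_insert, Finset.coe_singleton, Set.mem_insert_iff,
            Set.mem_singleton_iff] at hs
          rcases hs with rfl | rfl | rfl
          · exact ht
          · exact hab
          · exact hac
        have h1 := Set.ncard_le_ncard hsub (Set.toFinite _)
        rw [Set.ncard_coe_finset] at h1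
        have h2 : ({t, b, c} : Finset V).card = 3 := by
          rw [Finset.card_insert_of_notMem, Finset.card_pair hbc]
          rw [Finset.mem_insert, Finset.mem_singleton]
          push Not
          exact hno
        unfold deg at hda
        omega
      have hvu1 : v ≠ u1 := by
        rintro rfl
        omega
      have huv1 : u ≠ v1 := by
        rintro rfl
        omega
      have := closed {u, v, u1, v1} (by simp) (by
        intro a ha b hab
        simp only [Finset.mem_insert, Finset.mem_singleton] at ha ⊢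
        rcases ha with rfl | rfl | rfl | rfl
        · rcases two a v u1 hd' huv hu1 hvu1 b hab with h | h
          · exact Or.inr (Or.inl h)
          · exact Or.inr (Or.inr (Or.inl h))
        · rcases two a u v1 (by omega) huv.symm hv1 huv1 b hab with h | h
          · exact Or.inl h
          · exact Or.inr (Or.inr (Or.inr h))
        · exact Or.inl (Lu.uniq hab)
        · exact Or.inr (Or.inl (Lv.uniq hab)))
      have h2 := Finset.card_le_four (a := u) (b := v) (c := u1) (d := v1)
      omega
  have n1 := huv.ne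
  have n5 := hu1.ne
  have n6 := hv1.ne
  have hu1v : u1 ≠ v := by
    rintro rfl
    omega
  have hv1u : v1 ≠ u := by
    rintro rfl
    omega
  have hu1v1 : u1 ≠ v1 := Lu.ne hv1.symm (Ne.symm n1)
  refine ⟨?_, ?_, ?_⟩
  · intro k1
    exact k1 u v (hp1 huv) hv.symm
  · intro k3
    exact k3 u1 v1 (hp3 hu1.symm huv hv1 (by simp only [List.nodup_cons, List.mem_cons, List.not_mem_nil, or_false, not_or, List.nodup_nil, and_true, not_false_eq_true]; split_ands <;> first | assumption | exact Ne.symm (by assumption))) (by rw [du1, dv1])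
  · rintro ⟨k5, k6⟩
    obtain ⟨u2, hu2, du2⟩ := exists_nb k2 hmax (i := 2) (by omega) (by omega)
    obtain ⟨v2, hv2, dv2⟩ := exists_nb k2 hmaxv (i := 2) (by omega) (by omega)
    obtain ⟨x, hx, hxu⟩ := exists_other (G := G) (x := u2) (w := u) (by omega)
    obtain ⟨y, hy, hyv⟩ := exists_other (G := G) (x := v2) (w := v) (by omega)
    by_cases hxd : 2 ≤ deg G x
    · exact hi_aux k2 k5 k6 hmax hd3 hv huv Lu Lv hu2 hv2 du2 dv2 hx hxu hxd
    by_cases hyd : 2 ≤ deg G y
    · exact hi_aux k2 k5 k6 hmaxv (by omega) hv.symm huv.symm Lv Lu hv2 hu2 dv2 du2 hy hyv hyd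
    have hx1 : deg G x = 1 := by
      have := deg_pos hx.symm
      omega
    have hy1 : deg G y = 1 := by
      have := deg_pos hy.symm
      omega
    have Lx : Leaf G x u2 := ⟨hx.symm, hx1⟩
    have Ly : Leaf G y v2 := ⟨hy.symm, hy1⟩
    have q1 := hu2.ne
    have q2 := hv2.ne
    have q3 := hx.ne
    have q4 := hy.ne
    have hu2v : u2 ≠ v := by
      rintro rfl
      omega
    have hv2u : v2 ≠ u := by
      rintro rfl
      omega
    have hu2v2 : u2 ≠ v2 := by
      rintro rfl
      exact k2 u v (hp2 hu2 hv2.symm (by simp only [List.nodup_cons, List.mem_cons, List.not_mem_nil, or_false, not_or, List.nodup_nil, and_true, not_false_eq_true]; split_ands <;> first | assumption | exact Ne.symm (by assumption))) hv.symm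
    have hxv : x ≠ v := by
      rintro rfl
      omega
    have hyu : y ≠ u := by
      rintro rfl
      omega
    have hxv2 : x ≠ v2 := by
      rintro rfl
      omega
    have hyu2 : y ≠ u2 := by
      rintro rfl
      omega
    have hxy : x ≠ y := Lx.ne hy.symm (Ne.symm hu2v2)
    exact k5 x y (hp5 hx.symm hu2.symm huv hv2 hy (by simp only [List.nodup_cons, List.mem_cons, List.not_mem_nil, or_false, not_or, List.nodup_nil, and_true, not_false_eq_true]; split_ands <;> first | assumption | exact Ne.symm (by assumption))) (by rw [hx1, hy1])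

end

end Pool.Agent.KPI
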