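import Pool.Agent.KPI.Defs

namespace Pool.Agent.KPI
open SimpleGraph

universe u v
variable {V : Type u} {W : Type v}

/-- The lengths of the paths between two different vertices of equal degree. -/
def badSet (G : SimpleGraph V) : Set ℕ :=
  {k | ∃ u v, u ≠ v ∧ deg G u = deg G v ∧ HasPath G k u v}

lemma HasPath.symm {G : SimpleGraph V} {k : ℕ} {u v : V} (h : HasPath G k u v) :
    HasPath G k v u := by
  obtain ⟨p, hp, hk⟩ := h
  exact ⟨p.reverse, hp.reverse, by simpa using hk⟩

lemma HasPath.ne {G : SimpleGraph V} {k : ℕ} {u v : V} (h : HasPath G k u v) (hk : 1 ≤ k) :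
    u ≠ v := by
  obtain ⟨p, hp, hl⟩ := h
  rintro rfl
  have h0 : p.length = 0 := Walk.length_eq_zero_iff.2 (Walk.isPath_iff_nil.1 hp)
  omega

lemma HasPath.pos {G : SimpleGraph V} {k : ℕ} {u v : V} (h : HasPath G k u v) (huv : u ≠ v) :
    1 ≤ k := by
  obtain ⟨p, hp, hl⟩ := h
  by_contra hk
  have h0 : k = 0 := by omega
  subst h0
  exact huv (Walk.eq_of_length_eq_zero hl)

lemma irrSet_eq (G : SimpleGraph V) : irrSet G = {k | 1 ≤ k} \ badSet G := by
  ext k
  constructor
  · rintro ⟨h1, h2⟩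
    refine ⟨h1, ?_⟩
    rintro ⟨u, v, huv, hd, hp⟩
    exact h2 u v hp hd
  · rintro ⟨h1, h2⟩
    refine ⟨h1, ?_⟩
    intro u v hp hd
    exact h2 ⟨u, v, hp.ne h1, hd, hp⟩

lemma HasPath.map {G : SimpleGraph V} {G' : SimpleGraph W} (f : G →g G')
    (hf : Function.Injective f) {k : ℕ} {u v : V} (h : HasPath G k u v) :
    HasPath G' k (f u) (f v) := by
  obtain ⟨p, hp, hk⟩ := h
  exact ⟨p.map f, hp.map hf, by simpa using hk⟩

lemma deg_iso {G : SimpleGraph V} {G' : SimpleGraph W} (φ : G ≃g G') (v : V) :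
    deg G' (φ v) = deg G v := by
  unfold deg
  have : G'.neighborSet (φ v) = φ '' G.neighborSet v := by
    ext w
    constructor
    · intro hw
      refine ⟨φ.symm w, ?_, by simp⟩
      have : G'.Adj (φ v) (φ (φ.symm w)) := by simpa using hw
      exact φ.map_adj_iff.1 this
    · rintro ⟨x, hx, rfl⟩
      exact φ.map_adj_iff.2 hx
  rw [this]
  exact Set.ncard_image_of_injective _ φ.injective

lemma badSet_iso {G : SimpleGraph V} {G' : SimpleGraph W} (φ : G ≃g G') :
    badSet G' = badSet G := by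
  ext k
  constructor
  · rintro ⟨u, v, huv, hd, hp⟩
    refine ⟨φ.symm u, φ.symm v, fun h => huv (φ.symm.injective h), ?_, ?_⟩
    · rw [← deg_iso φ, ← deg_iso φ]
      simpa using hd
    · exact hp.map φ.symm.toHom φ.symm.injective
  · rintro ⟨u, v, huv, hd, hp⟩
    refine ⟨φ u, φ v, fun h => huv (φ.injective h), ?_, ?_⟩
    · rw [deg_iso φ, deg_iso φ]
      exact hd
    · exact hp.map φ.toHom φ.injective

lemma realisable_of [Fintype V] (G : SimpleGraph V) (hc : G.Connected) {n : ℕ}
    (hn : Fintype.card V = n) {B : Set ℕ} (hB : badSet G = B) :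
    Realisable n ({k | 1 ≤ k} \ B) := by
  subst hn
  let e := Fintype.equivFin V
  refine ⟨G.comap e.symm, ?_, ?_⟩
  · have φ : G.comap e.symm ≃g G := SimpleGraph.Iso.comap e.symm G
    exact φ.connected_iff.2 hc
  · have φ : G.comap e.symm ≃g G := SimpleGraph.Iso.comap e.symm G
    rw [irrSet_eq, ← hB, badSet_iso φ]

/-- Attach `l i` leaves at each vertex `i` of the graph `H`. -/
def leafy {C : Type u} (H : SimpleGraph C) (l : C → ℕ) :
    SimpleGraph (C ⊕ (Σ i, Fin (l i))) where
  Adj x y := match x, y with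
    | .inl i, .inl j => H.Adj i j
    | .inl i, .inr a => i = a.1
    | .inr a, .inl i => i = a.1
    | .inr _, .inr _ => False
  symm := ⟨by
    rintro (i | a) (j | b) h
    · exact SimpleGraph.Adj.symm h
    · exact h
    · exact h
    · exact h⟩
  loopless := ⟨by
    rintro (i | a) h
    · exact H.loopless.irrefl _ h
    · exact h⟩

section leafy
variable {C : Type u} (H : SimpleGraph C) (l : C → ℕ)

@[simp] lemma leafy_ll (i j : C) : (leafy H l).Adj (.inl i) (.inl j) ↔ H.Adj i j := Iff.rfl
@[simp] lemma leafy_lr (i : C) (a : Σ i, Fin (l i)) :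
    (leafy H l).Adj (.inl i) (.inr a) ↔ i = a.1 := Iff.rfl
@[simp] lemma leafy_rl (i : C) (a : Σ i, Fin (l i)) :
    (leafy H l).Adj (.inr a) (.inl i) ↔ i = a.1 := Iff.rfl
@[simp] lemma leafy_rr (a b : Σ i, Fin (l i)) :
    (leafy H l).Adj (.inr a) (.inr b) ↔ False := Iff.rfl

lemma deg_leafy_inr (a : Σ i, Fin (l i)) : deg (leafy H l) (.inr a) = 1 := by
  unfold deg
  have : (leafy H l).neighborSet (.inr a) = {Sum.inl a.1} := by
    ext x
    rcases x with i | b
    · simp [SimpleGraph.mem_neighborSet]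
    · simp [SimpleGraph.mem_neighborSet]
  rw [this, Set.ncard_singleton]

lemma deg_leafy_inl [Finite C] (i : C) : deg (leafy H l) (.inl i) = deg H i + l i := by
  unfold deg
  have : (leafy H l).neighborSet (.inl i) =
      (Sum.inl '' H.neighborSet i) ∪ (Set.range fun a : Fin (l i) => Sum.inr ⟨i, a⟩) := by
    ext x
    rcases x with j | b
    · simp [SimpleGraph.mem_neighborSet]
    · simp only [SimpleGraph.mem_neighborSet, leafy_lr, Set.mem_union, Set.mem_image, reduceCtorEq,
        and_false, exists_false, Set.mem_range, false_or]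
      constructor
      · rintro rfl
        exact ⟨b.2, rfl⟩
      · rintro ⟨a, ha⟩
        have := Sum.inr.inj ha
        rw [← this]
  rw [this, Set.ncard_union_eq, Set.ncard_image_of_injective _ Sum.inl_injective]
  · congr 1
    rw [← Set.image_univ, Set.ncard_image_of_injective]
    · rw [Set.ncard_univ, Nat.card_eq_fintype_card, Fintype.card_fin]
    · intro a b hab
      simpa using hab
  · rw [Set.disjoint_left]
    rintro x ⟨j, _, rfl⟩ ⟨a, ha⟩
    simp at ha

/-- the core is a subgraph -/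
def inlHom : H →g leafy H l where
  toFun := Sum.inl
  map_rel' := by intro a b h; exact h

lemma leafy_connected (hH : H.Connected) : (leafy H l).Connected := by
  obtain ⟨i0⟩ := hH.nonempty
  have key : ∀ x, (leafy H l).Reachable x (.inl i0) := by
    rintro (i | a)
    · exact (hH.preconnected i i0).map (inlHom H l)
    · have h1 : (leafy H l).Adj (.inr a) (.inl a.1) := by simp
      exact h1.reachable.trans ((hH.preconnected a.1 i0).map (inlHom H l))
  have : Nonempty (C ⊕ (Σ i, Fin (l i))) := ⟨.inl i0⟩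
  exact ⟨fun x y => (key x).trans (key y).symm⟩

/-- a path between core vertices stays in the core -/
lemma core_path {x y : C ⊕ (Σ i, Fin (l i))} (p : (leafy H l).Walk x y) (hp : p.IsPath) :
    ∀ i j, x = .inl i → y = .inl j →
      ∃ q : H.Walk i j, q.IsPath ∧ q.length = p.length ∧ q.support.map Sum.inl = p.support := by
  induction p with
  | nil =>
    intro i j hi hj
    have : i = j := by
      rw [hi] at hj
      exact Sum.inl_injective hj
    subst this
    exact ⟨Walk.nil, Walk.IsPath.nil, rfl, by simp [hi]⟩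
  | @cons x x' y h p ih =>
    intro i j hi hj
    subst hi
    subst hj
    rw [Walk.cons_isPath_iff] at hp
    rcases x' with i' | a
    · obtain ⟨q, hq, hql, hqs⟩ := ih hp.1 i' j rfl rfl
      have h' : H.Adj i i' := h
      refine ⟨Walk.cons h' q, ?_, by simp [hql], by simp [hqs]⟩
      rw [Walk.cons_isPath_iff]
      refine ⟨hq, fun hi => hp.2 ?_⟩
      rw [← hqs]
      exact List.mem_map_of_mem hi
    · exfalso
      -- the next vertex is a leaf at `i`
      have h' : i = a.1 := h
      cases p with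
      | @cons _ z _ h2 p2 =>
        rcases z with i2 | b
        · have h2' : i2 = a.1 := h2
          apply hp.2
          rw [Walk.support_cons]
          rw [h', ← h2']
          exact List.mem_cons_of_mem _ (Walk.start_mem_support p2)
        · exact h2

lemma hasPath_ll {k : ℕ} {i j : C} :
    HasPath (leafy H l) k (.inl i) (.inl j) ↔ HasPath H k i j := by
  constructor
  · rintro ⟨p, hp, hk⟩
    obtain ⟨q, hq, hql, _⟩ := core_path H l p hp i j rfl rfl
    exact ⟨q, hq, hql.trans hk⟩
  · intro h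
    exact h.map (inlHom H l) Sum.inl_injective

/-- a path of the core is a path of the whole graph -/
lemma lift_path {i j : C} (q : H.Walk i j) (hq : q.IsPath) :
    ∃ p : (leafy H l).Walk (.inl i) (.inl j), p.IsPath ∧ p.length = q.length ∧
      ∀ a, Sum.inr a ∉ p.support := by
  refine ⟨q.map (inlHom H l), hq.map Sum.inl_injective, Walk.length_map _ _, ?_⟩
  intro a hmem
  have h2 : Sum.inr a ∈ q.support.map (inlHom H l) := by
    rw [← Walk.support_map]
    exact hmem
  obtain ⟨c, _, hc⟩ := List.mem_map.1 h2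
  exact absurd hc (by simp [inlHom])

/-- a path starting at a leaf -/
lemma hasPath_r {k : ℕ} {a : Σ i, Fin (l i)} {y : C ⊕ (Σ i, Fin (l i))} (hy : y ≠ .inr a) :
    HasPath (leafy H l) k (.inr a) y ↔
      ∃ m, k = m + 1 ∧ ∃ p : (leafy H l).Walk (.inl a.1) y, p.IsPath ∧ p.length = m ∧
        (Sum.inr a) ∉ p.support := by
  constructor
  · rintro ⟨p, hp, hk⟩
    cases p with
    | nil => exact absurd rfl hy
    | @cons _ z _ h q =>
      rcases z with i | b
      · have h' : i = a.1 := h
        subst h'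
        rw [Walk.cons_isPath_iff] at hp
        refine ⟨q.length, by simpa using hk.symm, q, hp.1, rfl, hp.2⟩
      · exact absurd h (by simp)
  · rintro ⟨m, rfl, p, hp, hl, hs⟩
    have h : (leafy H l).Adj (.inr a) (.inl a.1) := by simp
    refine ⟨Walk.cons h p, ?_, by simp [hl]⟩
    rw [Walk.cons_isPath_iff]
    exact ⟨hp, hs⟩

lemma hasPath_rl {k : ℕ} {a : Σ i, Fin (l i)} {j : C} :
    HasPath (leafy H l) k (.inr a) (.inl j) ↔ ∃ m, k = m + 1 ∧ HasPath H m a.1 j := by
  rw [hasPath_r H l (by simp)]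
  constructor
  · rintro ⟨m, rfl, p, hp, hl, hs⟩
    exact ⟨m, rfl, (hasPath_ll H l).1 ⟨p, hp, hl⟩⟩
  · rintro ⟨m, rfl, h⟩
    obtain ⟨q, hq, hql⟩ := h
    obtain ⟨p, hp, hpl, hps⟩ := lift_path H l q hq
    exact ⟨m, rfl, p, hp, hpl.trans hql, hps a⟩

lemma hasPath_rr {k : ℕ} {a b : Σ i, Fin (l i)} (hab : a ≠ b) :
    HasPath (leafy H l) k (.inr a) (.inr b) ↔ ∃ m, k = m + 2 ∧ HasPath H m a.1 b.1 := by
  have hne : (Sum.inr b : C ⊕ (Σ i, Fin (l i))) ≠ .inr a := by
    intro h
    exact hab (Sum.inr_injective h).symm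
  rw [hasPath_r H l hne]
  constructor
  · rintro ⟨m, rfl, p, hp, hl, hs⟩
    have h1 : HasPath (leafy H l) m (.inr b) (.inl a.1) :=
      ⟨p.reverse, hp.reverse, by simpa using hl⟩
    obtain ⟨m', rfl, h2⟩ := (hasPath_rl H l).1 h1
    exact ⟨m', rfl, h2.symm⟩
  · rintro ⟨m, rfl, h⟩
    obtain ⟨q, hq, hql⟩ := h
    obtain ⟨p, hp, hpl, hps⟩ := lift_path H l q.reverse hq.reverse
    have hadj : (leafy H l).Adj (.inr b) (.inl b.1) := by simp
    have hp2 : (Walk.cons hadj p).IsPath := by
      rw [Walk.cons_isPath_iff]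
      exact ⟨hp, hps b⟩
    refine ⟨m + 1, rfl, (Walk.cons hadj p).reverse, hp2.reverse, ?_, ?_⟩
    · rw [Walk.length_reverse, Walk.length_cons, hpl, Walk.length_reverse, hql]
    · rw [Walk.support_reverse, Walk.support_cons]
      simp only [List.mem_reverse, List.mem_cons, not_or]
      exact ⟨fun h => hab (Sum.inr_injective h), hps a⟩

/-- The set of bad lengths of a graph obtained by attaching leaves. -/
theorem badSet_leafy [Finite C] (h2 : ∀ i, 2 ≤ deg H i + l i) (k : ℕ) :
    k ∈ badSet (leafy H l) ↔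
      (∃ i j, i ≠ j ∧ deg H i + l i = deg H j + l j ∧ HasPath H k i j) ∨
      (∃ i j, i ≠ j ∧ 1 ≤ l i ∧ 1 ≤ l j ∧ ∃ m, k = m + 2 ∧ HasPath H m i j) ∨
      (k = 2 ∧ ∃ i, 2 ≤ l i) := by
  constructor
  · rintro ⟨x, y, hxy, hd, hp⟩
    rcases x with i | a <;> rcases y with j | b
    · left
      rw [deg_leafy_inl, deg_leafy_inl] at hd
      exact ⟨i, j, fun h => hxy (by rw [h]), hd, (hasPath_ll H l).1 hp⟩
    · rw [deg_leafy_inl, deg_leafy_inr] at hd
      have := h2 i
      omega
    · rw [deg_leafy_inl, deg_leafy_inr] at hd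
      have := h2 j
      omega
    · have hab : a ≠ b := fun h => hxy (by rw [h])
      obtain ⟨m, rfl, hm⟩ := (hasPath_rr H l hab).1 hp
      by_cases h : a.1 = b.1
      · right; right
        obtain ⟨i, a⟩ := a
        obtain ⟨j, b⟩ := b
        simp only at h
        subst h
        have hm0 : m = 0 := by
          by_contra hne
          exact hm.ne (by omega) rfl
        refine ⟨by omega, i, ?_⟩
        have hab' : a ≠ b := fun h => hab (by rw [h])
        have h1 := a.2
        have h3 := b.2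
        have h4 : (a : ℕ) ≠ b := fun h => hab' (Fin.ext h)
        omega
      · right; left
        exact ⟨a.1, b.1, h, by have := a.2.2; omega, by have := b.2.2; omega, m, rfl, hm⟩
  · rintro (⟨i, j, hij, hd, hp⟩ | ⟨i, j, hij, hi, hj, m, rfl, hm⟩ | ⟨rfl, i, hi⟩)
    · refine ⟨.inl i, .inl j, fun h => hij (Sum.inl_injective h), ?_, (hasPath_ll H l).2 hp⟩
      rw [deg_leafy_inl, deg_leafy_inl]
      exact hd
    · refine ⟨.inr ⟨i, ⟨0, hi⟩⟩, .inr ⟨j, ⟨0, hj⟩⟩, ?_, ?_, ?_⟩
      · intro h
        have := Sum.inr_injective h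
        exact hij (congrArg Sigma.fst this)
      · rw [deg_leafy_inr, deg_leafy_inr]
      · rw [hasPath_rr H l]
        · exact ⟨m, rfl, hm⟩
        · intro h
          exact hij (congrArg Sigma.fst h)
    · have hne : (⟨i, ⟨0, by omega⟩⟩ : Σ i, Fin (l i)) ≠ ⟨i, ⟨1, by omega⟩⟩ := by
        intro h
        have := (Sigma.mk.inj_iff.1 h).2
        have := eq_of_heq this
        have := congrArg Fin.val this
        simp at this
      refine ⟨.inr ⟨i, ⟨0, by omega⟩⟩, .inr ⟨i, ⟨1, by omega⟩⟩, ?_, ?_, ?_⟩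
      · intro h
        exact hne (Sum.inr_injective h)
      · rw [deg_leafy_inr, deg_leafy_inr]
      · rw [hasPath_rr H l hne]
        exact ⟨0, rfl, Walk.nil, Walk.IsPath.nil, rfl⟩

lemma card_leafy [Fintype C] :
    Fintype.card (C ⊕ (Σ i, Fin (l i))) = Fintype.card C + ∑ i, l i := by
  simp

end leafy

end Pool.Agent.KPI
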