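import Pool.Agent.KPI.Leafy

/-!
# Long cycles in graphs which are k-path irregular for all large k
-/

namespace Pool.Agent.KPI
open SimpleGraph

universe u
variable {V : Type u} {G : SimpleGraph V}

lemma append_path {a b c : V} {p : G.Walk a b} {q : G.Walk b c} (hp : p.IsPath) (hq : q.IsPath)
    (h : ∀ x, x ∈ p.support → x ∈ q.support → x = b) : (p.append q).IsPath := by
  rw [Walk.isPath_def, Walk.support_append]
  have h1 := hp.support_nodup
  have h2 := hq.support_nodup
  rw [← Walk.cons_tail_support] at h2
  rw [List.nodup_cons] at h2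
  refine List.Nodup.append h1 h2.2 ?_
  intro x hx hx'
  have : x = b := h x hx (by rw [← Walk.cons_tail_support]; exact List.mem_cons_of_mem _ hx')
  subst this
  exact h2.1 hx'

lemma meet {a b c : V} {p : G.Walk a b} {q : G.Walk b c} (h : (p.append q).IsPath) {x : V}
    (hp : x ∈ p.support) (hq : x ∈ q.support) : x = b := by
  by_contra hne
  rw [Walk.isPath_def, Walk.support_append] at h
  rw [← Walk.cons_tail_support, List.mem_cons] at hq
  rcases hq with hq | hq
  · exact hne hq
  · exact (List.nodup_append.1 h).2.2 x hp x hq rfl

lemma first_hit {S : Set V} : ∀ {a b : V} (p : G.Walk a b), (∃ x ∈ p.support, x ∈ S) →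
    ∃ (x : V) (p1 : G.Walk a x) (p2 : G.Walk x b), p = p1.append p2 ∧ x ∈ S ∧
      ∀ y ∈ p1.support, y ∈ S → y = x := by
  intro a b p
  induction p with
  | nil =>
    rintro ⟨x, hx, hxS⟩
    rw [Walk.support_nil, List.mem_singleton] at hx
    subst hx
    refine ⟨x, Walk.nil, Walk.nil, rfl, hxS, ?_⟩
    intro y hy _
    rwa [Walk.support_nil, List.mem_singleton] at hy
  | @cons a c b h p ih =>
    rintro ⟨x, hx, hxS⟩
    by_cases ha : a ∈ S
    · refine ⟨a, Walk.nil, Walk.cons h p, rfl, ha, ?_⟩
      intro y hy _
      rwa [Walk.support_nil, List.mem_singleton] at hy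
    · rw [Walk.support_cons, List.mem_cons] at hx
      have hx' : x ∈ p.support := by
        rcases hx with rfl | hx
        · exact absurd hxS ha
        · exact hx
      obtain ⟨z, p1, p2, he, hz, hmin⟩ := ih ⟨x, hx', hxS⟩
      refine ⟨z, Walk.cons h p1, p2, by rw [he]; rfl, hz, ?_⟩
      intro y hy hyS
      rw [Walk.support_cons, List.mem_cons] at hy
      rcases hy with rfl | hy
      · exact absurd hyS ha
      · exact hmin y hy hyS

lemma split2 {a b x : V} {p : G.Walk a b} (hx : x ∈ p.support) :
    ∃ (p1 : G.Walk a x) (p2 : G.Walk x b), p = p1.append p2 :=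
  Walk.mem_support_iff_exists_append.1 hx

lemma mem_append {a b c x : V} {p : G.Walk a b} {q : G.Walk b c} :
    x ∈ (p.append q).support ↔ x ∈ p.support ∨ x ∈ q.support := by
  rw [Walk.mem_support_append_iff]

/-- Two different vertices of a path: one of them comes first. -/
lemma split3 {a b x y : V} {p : G.Walk a b} (hx : x ∈ p.support) (hy : y ∈ p.support) :
    (∃ (p1 : G.Walk a x) (p2 : G.Walk x y) (p3 : G.Walk y b), p = p1.append (p2.append p3)) ∨
    (∃ (p1 : G.Walk a y) (p2 : G.Walk y x) (p3 : G.Walk x b), p = p1.append (p2.append p3)) := by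
  obtain ⟨p1, p2, rfl⟩ := split2 hx
  rcases mem_append.1 hy with h | h
  · right
    obtain ⟨q1, q2, rfl⟩ := split2 h
    exact ⟨q1, q2, p2, by rw [Walk.append_assoc]⟩
  · left
    obtain ⟨q1, q2, rfl⟩ := split2 h
    exact ⟨p1, q1, q2, rfl⟩

/-- There is a path with at least `m` edges inside `U` from `a` to `b`. -/
def LP (G : SimpleGraph V) (U : Set V) (m : ℕ) (a b : V) : Prop :=
  ∃ p : G.Walk a b, p.IsPath ∧ (∀ x ∈ p.support, x ∈ U) ∧ m ≤ p.length

lemma LP.symm {U : Set V} {m : ℕ} {a b : V} (h : LP G U m a b) : LP G U m b a := by
  obtain ⟨p, hp, hU, hm⟩ := h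
  exact ⟨p.reverse, hp.reverse, by intro x hx; rw [Walk.support_reverse, List.mem_reverse] at hx
                                   exact hU x hx, by rw [Walk.length_reverse]; exact hm⟩

lemma LP.mono {U U' : Set V} {m : ℕ} {a b : V} (h : LP G U m a b) (hU : U ⊆ U') :
    LP G U' m a b := by
  obtain ⟨p, hp, h1, hm⟩ := h
  exact ⟨p, hp, fun x hx => hU (h1 x hx), hm⟩

/-- Extend a long path inside `U` at its end by a path which meets `U` only in its start. -/
lemma LP.extend {U U' : Set V} {m : ℕ} {a b c : V} (h : LP G U m a b) (hU : U ⊆ U')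
    (q : G.Walk b c) (hq : q.IsPath) (hqU : ∀ x ∈ q.support, x ∈ U → x = b)
    (hqU' : ∀ x ∈ q.support, x ∈ U') : LP G U' m a c := by
  obtain ⟨p, hp, h1, hm⟩ := h
  refine ⟨p.append q, append_path hp hq fun x hx hx' => hqU x hx' (h1 x hx), ?_, ?_⟩
  · intro x hx
    rcases mem_append.1 hx with hx | hx
    · exact hU (h1 x hx)
    · exact hqU' x hx
  · rw [Walk.length_append]
    omega

/-- Any two vertices of `U` are joined by a path inside `U` with at least `m` edges. -/
def Good (G : SimpleGraph V) (m : ℕ) (U : Set V) : Prop :=
  ∀ a ∈ U, ∀ b ∈ U, a ≠ b → LP G U m a b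

/-- A good set stays good after adding an ear. -/
lemma Good.ear {m : ℕ} {U : Set V} (h : Good G m U) {u v : V} (hu : u ∈ U) (hv : v ∈ U)
    (huv : u ≠ v) (q : G.Walk u v) (hq : q.IsPath)
    (hqU : ∀ x ∈ q.support, x ∈ U → x = u ∨ x = v) : Good G m (U ∪ {x | x ∈ q.support}) := by
  have hsub : U ⊆ U ∪ {x | x ∈ q.support} := Set.subset_union_left
  -- an inner vertex and a vertex of `U`
  have key1 : ∀ a ∈ q.support, a ∉ U → ∀ b ∈ U, LP G (U ∪ {x | x ∈ q.support}) m b a := by
    intro a ha haU b hb
    obtain ⟨q1, q2, rfl⟩ := split2 ha
    have hq1 : q1.IsPath := hq.of_append_left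
    have hq2 : q2.IsPath := hq.of_append_right
    by_cases hbu : b = u
    · subst hbu
      refine (h b hb v hv huv).extend hsub q2.reverse hq2.reverse ?_ ?_
      · intro x hx hxU
        rw [Walk.support_reverse, List.mem_reverse] at hx
        rcases hqU x (mem_append.2 (Or.inr hx)) hxU with rfl | h1
        · have := meet hq q1.start_mem_support hx
          exact absurd (this ▸ hu) haU
        · exact h1
      · intro x hx
        rw [Walk.support_reverse, List.mem_reverse] at hx
        exact Or.inr (mem_append.2 (Or.inr hx))
    · refine (h b hb u hu hbu).extend hsub q1 hq1 ?_ ?_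
      · intro x hx hxU
        rcases hqU x (mem_append.2 (Or.inl hx)) hxU with h1 | rfl
        · exact h1
        · have := meet hq hx q2.end_mem_support
          exact absurd (this ▸ hv) haU
      · intro x hx
        exact Or.inr (mem_append.2 (Or.inl hx))
  -- two inner vertices
  have key2 : ∀ (a b : V), a ∉ U → b ∉ U → a ≠ b →
      (∃ (p1 : G.Walk u a) (p2 : G.Walk a b) (p3 : G.Walk b v), q = p1.append (p2.append p3)) →
      LP G (U ∪ {x | x ∈ q.support}) m a b := by
    rintro a b haU hbU hab ⟨p1, p2, p3, rfl⟩
    have h1 : p1.IsPath := hq.of_append_left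
    have h23 := hq.of_append_right
    have h3 : p3.IsPath := h23.of_append_right
    have hl : LP G (U ∪ {x | x ∈ p1.support}) m v a := by
      refine (h v hv u hu (Ne.symm huv)).extend Set.subset_union_left p1 h1 ?_ ?_
      · intro x hx hxU
        rcases hqU x (mem_append.2 (Or.inl hx)) hxU with h4 | rfl
        · exact h4
        · have := meet hq hx (p2.append p3).end_mem_support
          exact absurd (this ▸ hv) haU
      · intro x hx
        exact Or.inr hx
    refine hl.symm.extend ?_ p3.reverse h3.reverse ?_ ?_
    · intro x hx
      rcases hx with hx | hx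
      · exact Or.inl hx
      · exact Or.inr (mem_append.2 (Or.inl hx))
    · intro x hx hxU
      rw [Walk.support_reverse, List.mem_reverse] at hx
      rcases hxU with hxU | hxU
      · rcases hqU x (mem_append.2 (Or.inr (mem_append.2 (Or.inr hx)))) hxU with rfl | h4
        · have := meet hq p1.start_mem_support (mem_append.2 (Or.inr hx))
          exact absurd (this ▸ hu) haU
        · exact h4
      · have h5 : x = a := meet hq hxU (mem_append.2 (Or.inr hx))
        subst h5
        have h6 := meet h23 p2.start_mem_support hx
        exact absurd h6 hab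
    · intro x hx
      rw [Walk.support_reverse, List.mem_reverse] at hx
      exact Or.inr (mem_append.2 (Or.inr (mem_append.2 (Or.inr hx))))
  intro a ha b hb hab
  by_cases haU : a ∈ U
  · by_cases hbU : b ∈ U
    · exact (h a haU b hbU hab).mono hsub
    · rcases hb with hb | hb
      · exact absurd hb hbU
      · exact key1 b hb hbU a haU
  · have ha' : a ∈ q.support := by
      rcases ha with ha | ha
      · exact absurd ha haU
      · exact ha
    by_cases hbU : b ∈ U
    · exact (key1 a ha' haU b hbU).symm
    · have hb' : b ∈ q.support := by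
        rcases hb with hb | hb
        · exact absurd hb hbU
        · exact hb
      rcases split3 ha' hb' with h1 | h1
      · exact key2 a b haU hbU hab h1
      · exact (key2 b a hbU haU (Ne.symm hab) h1).symm

/-- The vertex set of a cycle with at least `2 * m - 1` vertices is good. -/
lemma good_cycle {m : ℕ} {a b : V} (p : G.Walk a b) (hp : p.IsPath) (hadj : G.Adj a b)
    (hl : 2 * m ≤ p.length + 2) : Good G m {x | x ∈ p.support} := by
  have hab : a ≠ b := hadj.ne
  have key : ∀ x y : V, x ≠ y →
      (∃ (p1 : G.Walk a x) (p2 : G.Walk x y) (p3 : G.Walk y b), p = p1.append (p2.append p3)) →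
      LP G {x | x ∈ p.support} m x y := by
    rintro x y hxy ⟨p1, p2, p3, rfl⟩
    have h1 : p1.IsPath := hp.of_append_left
    have h23 := hp.of_append_right
    have h2 : p2.IsPath := h23.of_append_left
    have h3 : p3.IsPath := h23.of_append_right
    rw [Walk.length_append, Walk.length_append] at hl
    by_cases hm : m ≤ p2.length
    · exact ⟨p2, h2, fun z hz => mem_append.2 (Or.inr (mem_append.2 (Or.inl hz))), hm⟩
    · have hpath : (Walk.cons hadj p3.reverse).IsPath := by
        rw [Walk.cons_isPath_iff]
        refine ⟨h3.reverse, ?_⟩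
        rw [Walk.support_reverse, List.mem_reverse]
        intro ha
        have h4 : a = x := meet hp p1.start_mem_support (mem_append.2 (Or.inr ha))
        subst h4
        exact hxy (meet h23 p2.start_mem_support ha)
      refine ⟨p1.reverse.append (Walk.cons hadj p3.reverse),
        append_path h1.reverse hpath ?_, ?_, ?_⟩
      · intro z hz hz'
        rw [Walk.support_reverse, List.mem_reverse] at hz
        rw [Walk.support_cons, List.mem_cons, Walk.support_reverse, List.mem_reverse] at hz'
        rcases hz' with h5 | h5
        · exact h5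
        · have h6 : z = x := meet hp hz (mem_append.2 (Or.inr h5))
          subst h6
          exact absurd (meet h23 p2.start_mem_support h5) hxy
      · intro z hz
        rcases mem_append.1 hz with h5 | h5
        · rw [Walk.support_reverse, List.mem_reverse] at h5
          exact mem_append.2 (Or.inl h5)
        · rw [Walk.support_cons, List.mem_cons, Walk.support_reverse, List.mem_reverse] at h5
          rcases h5 with rfl | h5
          · exact mem_append.2 (Or.inl p1.start_mem_support)
          · exact mem_append.2 (Or.inr (mem_append.2 (Or.inr h5)))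
      · rw [Walk.length_append, Walk.length_cons, Walk.length_reverse, Walk.length_reverse]
        omega
  intro x hx y hy hxy
  rcases split3 hx hy with h | h
  · exact key x y hxy h
  · exact (key y x (Ne.symm hxy) h).symm

/-- A path from `u` which leaves `U` at once and never returns. -/
def Out (U : Set V) {u z : V} (p : G.Walk u z) : Prop :=
  p.IsPath ∧ ∀ x ∈ p.support, x ≠ u → x ∉ U

lemma exists_longest_out [Finite V] (U : Set V) (u : V) :
    ∃ (z : V) (p : G.Walk u z), Out U p ∧
      ∀ (w : V) (q : G.Walk u w), Out U q → q.length ≤ p.length := by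
  classical
  have := Fintype.ofFinite V
  set S : Set ℕ := {m | ∃ (z : V) (p : G.Walk u z), Out U p ∧ p.length = m} with hS
  have hne : S.Nonempty := by
    refine ⟨0, u, Walk.nil, ⟨Walk.IsPath.nil, ?_⟩, rfl⟩
    intro x hx hxu
    rw [Walk.support_nil, List.mem_singleton] at hx
    exact absurd hx hxu
  have hbdd : BddAbove S := by
    refine ⟨Fintype.card V, ?_⟩
    rintro m ⟨z, p, hp, rfl⟩
    exact hp.1.length_lt.le
  obtain ⟨z, p, hp, hm⟩ := Nat.sSup_mem hne hbdd
  refine ⟨z, p, hp, fun w q hq => ?_⟩
  rw [hm]
  exact le_csSup hbdd ⟨w, q, hq, rfl⟩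

/-- The neighbours of the end of a longest outward path lie on it or in `U`. -/
lemma out_nbr {U : Set V} {u z : V} {p : G.Walk u z} (hp : Out U p)
    (hmax : ∀ (w : V) (q : G.Walk u w), Out U q → q.length ≤ p.length) {x : V}
    (hx : G.Adj z x) : x ∈ p.support ∨ x ∈ U := by
  by_contra h
  push Not at h
  have h1 : Out U (p.concat hx) := by
    constructor
    · rw [Walk.concat_isPath_iff]
      exact ⟨hp.1, h.1⟩
    · intro y hy hyu
      rw [Walk.support_concat, List.mem_append, List.mem_singleton] at hy
      rcases hy with hy | rfl
      · exact hp.2 y hy hyu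
      · exact h.2
  have := hmax x _ h1
  rw [Walk.length_concat] at this
  omega

/-- Two outward paths which meet give an ear. -/
lemma ear_of_meet {U : Set V} {u v z w : V} (huv : u ≠ v) (hu : u ∈ U)
    {p : G.Walk u z} {q : G.Walk v w} (hp : Out U p) (hq : Out U q) {y : V}
    (hyp : y ∈ p.support) (hyq : y ∈ q.support) :
    ∃ (e : G.Walk u v), e.IsPath ∧ (∃ x ∈ e.support, x ∉ U) ∧
      ∀ x ∈ e.support, x ∈ U → x = u ∨ x = v := by
  obtain ⟨x, p1, p2, rfl, hx, hmin⟩ := first_hit (S := {x | x ∈ q.support}) p ⟨y, hyp, hyq⟩
  have hx' : x ∈ q.support := hx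
  obtain ⟨q1, q2, rfl⟩ := split2 hx'
  have hxu : x ≠ u := by
    rintro rfl
    exact hq.2 x hx' huv hu
  have hxU : x ∉ U := hp.2 x (mem_append.2 (Or.inl p1.end_mem_support)) hxu
  refine ⟨p1.append q1.reverse, ?_, ⟨x, mem_append.2 (Or.inl p1.end_mem_support), hxU⟩, ?_⟩
  · refine append_path hp.1.of_append_left hq.1.of_append_left.reverse ?_
    intro t ht ht'
    rw [Walk.support_reverse, List.mem_reverse] at ht'
    exact hmin t ht (mem_append.2 (Or.inl ht'))
  · intro t ht htU
    rcases mem_append.1 ht with h | h
    · by_contra hne
      push Not at hne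
      exact hp.2 t (mem_append.2 (Or.inl h)) hne.1 htU
    · rw [Walk.support_reverse, List.mem_reverse] at h
      by_contra hne
      push Not at hne
      exact hq.2 t (mem_append.2 (Or.inl h)) hne.2 htU

/-- The neighbours of the end of a path which lie on the path lie on a final segment whose
ends are adjacent. -/
lemma last_segment {a z : V} (p : G.Walk a z) (hex : ∃ x ∈ p.support, G.Adj z x) :
    ∃ (x : V) (p1 : G.Walk a x) (p2 : G.Walk x z), p = p1.append p2 ∧ G.Adj z x ∧
      ∀ y ∈ p.support, G.Adj z y → y ∈ p2.support := by
  obtain ⟨x, p1, p2, h1, hx, hmin⟩ := first_hit (S := {x | G.Adj z x}) p hex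
  refine ⟨x, p1, p2, h1, hx, ?_⟩
  intro y hy hzy
  rw [h1] at hy
  rcases mem_append.1 hy with h | h
  · rw [hmin y h hzy]
    exact p2.start_mem_support
  · exact h

lemma exists_pen {a b : V} (p : G.Walk a b) (h : a ≠ b) : ∃ y ∈ p.support, G.Adj b y := by
  have key : ∀ {c d : V} (q : G.Walk c d), c ≠ d → ∃ y ∈ q.support, G.Adj c y := by
    intro c d q hcd
    cases q with
    | nil => exact absurd rfl hcd
    | @cons _ y _ h q =>
      refine ⟨y, ?_, h⟩
      rw [Walk.support_cons]
      exact List.mem_cons_of_mem _ q.start_mem_support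
  obtain ⟨y, hy, hadj⟩ := key p.reverse (Ne.symm h)
  rw [Walk.support_reverse, List.mem_reverse] at hy
  exact ⟨y, hy, hadj⟩

lemma support_ncard_le {a b : V} (p : G.Walk a b) :
    {x | x ∈ p.support}.ncard ≤ p.length + 1 := by
  classical
  have h1 : ({x | x ∈ p.support} : Set V) = (p.support.toFinset : Set V) := by
    ext x
    simp
  rw [h1, Set.ncard_coe_finset, ← Walk.length_support]
  exact List.toFinset_card_le _

lemma support_ncard {a b : V} {p : G.Walk a b} (hp : p.IsPath) :
    {x | x ∈ p.support}.ncard = p.length + 1 := by
  classical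
  have h1 : ({x | x ∈ p.support} : Set V) = (p.support.toFinset : Set V) := by
    ext x
    simp
  rw [h1, Set.ncard_coe_finset, ← Walk.length_support]
  exact List.toFinset_card_of_nodup hp.support_nodup

lemma deg_pos_of_adj [Finite V] {x y : V} (h : G.Adj x y) : 1 ≤ deg G x := by
  unfold deg
  exact (Set.ncard_pos (Set.toFinite _)).2 ⟨y, h⟩

/-- If a good set contains all neighbours of `z` but not ... the degree is smaller. -/
lemma deg_lt_of_subset [Finite V] {z : V} {C : Set V} (hz : z ∈ C) (h : ∀ y, G.Adj z y → y ∈ C) :
    deg G z + 1 ≤ C.ncard := by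
  unfold deg
  have h1 : G.neighborSet z ⊆ C \ {z} := by
    intro y hy
    refine ⟨h y hy, ?_⟩
    rintro rfl
    exact G.loopless.irrefl _ hy
  have h2 := Set.ncard_le_ncard h1 (Set.toFinite _)
  have h3 := Set.ncard_sdiff_singleton_add_one hz (Set.toFinite C)
  omega

theorem no_long_cycle [Finite V] {L : ℕ} (hL : 1 ≤ L) (hirr : ∀ k, L < k → PathIrregular G k)
    {a b : V} (p : G.Walk a b) (hp : p.IsPath) (hadj : G.Adj a b) : p.length < 2 * L := by
  classical
  have := Fintype.ofFinite V
  by_contra hlen
  push Not at hlen
  have hg0 : Good G (L + 1) {x | x ∈ p.support} := good_cycle p hp hadj (by omega)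
  -- a good set with the largest number of elements
  obtain ⟨U, hU, hmax⟩ := Finset.exists_max_image
    ((Finset.univ : Finset (Finset V)).filter fun U : Finset V => Good G (L + 1) (U : Set V)) Finset.card
    ⟨p.support.toFinset, by
      rw [Finset.mem_filter]
      refine ⟨Finset.mem_univ _, ?_⟩
      have h1 : ((p.support.toFinset : Finset V) : Set V) = {x | x ∈ p.support} := by
        ext x
        simp
      rw [h1]
      exact hg0⟩
  have hG : Good G (L + 1) (U : Set V) := (Finset.mem_filter.1 hU).2
  have hmax' : ∀ C : Set V, Good G (L + 1) C → C.ncard ≤ U.card := by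
    intro C hC
    have h1 := hmax C.toFinset (by
      rw [Finset.mem_filter]
      exact ⟨Finset.mem_univ _, by rwa [Set.coe_toFinset]⟩)
    rwa [← Set.ncard_eq_toFinset_card'] at h1
  have hUbig : 2 * L + 1 ≤ U.card := by
    have h1 := hmax' _ hg0
    rw [support_ncard hp] at h1
    omega
  have noear : ∀ u ∈ U, ∀ v ∈ U, u ≠ v → ∀ e : G.Walk u v, e.IsPath →
      (∀ x ∈ e.support, x ∈ (U : Set V) → x = u ∨ x = v) → ∀ x ∈ e.support, x ∈ (U : Set V) := by
    intro u hu v hv huv e he heU x hx
    by_contra hxU
    have h1 := hmax' _ (hG.ear hu hv huv e he heU)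
    have h2 : ((U : Set V)).ncard < ((U : Set V) ∪ {x | x ∈ e.support}).ncard := by
      refine Set.ncard_lt_ncard ?_ (Set.toFinite _)
      refine ⟨Set.subset_union_left, fun h => hxU (h (Or.inr hx))⟩
    rw [Set.ncard_coe_finset] at h2
    omega
  -- representatives
  choose z w hw hwmax using fun u : V => exists_longest_out (G := G) (U : Set V) u
  have hdeg : ∀ u ∈ U, 1 ≤ deg G (z u) ∧ deg G (z u) + 1 ≤ U.card := by
    intro u hu
    by_cases hz : z u = u
    · constructor
      · -- u has a neighbour
        rw [hz]
        obtain ⟨v, hv, hne⟩ : ∃ v ∈ U, v ≠ u := by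
          by_contra hcon
          push Not at hcon
          have : U ⊆ {u} := fun y hy => Finset.mem_singleton.2 (hcon y hy)
          have := Finset.card_le_card this
          rw [Finset.card_singleton] at this
          omega
        obtain ⟨q, hq, -, hl⟩ := hG u hu v hv (Ne.symm hne)
        cases q with
        | nil => rw [Walk.length_nil] at hl; omega
        | cons h q => exact deg_pos_of_adj h
      · have hall : ∀ y, G.Adj (z u) y → y ∈ (U : Set V) := by
          intro y hy
          rcases out_nbr (hw u) (hwmax u) hy with h | h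
          · by_cases hyu : y = u
            · rw [hyu]; exact hu
            · exfalso
              have hyU := (hw u).2 y h hyu
              -- the path is trivial
              have h0 : (w u).length = 0 := by
                have h1 := (hw u).1
                generalize hwu : w u = q at h1
                clear hwu
                revert q
                rw [hz]
                intro q hq
                rw [Walk.isPath_iff_nil.1 hq |>.eq_nil]
                rfl
              have h2 : {x | x ∈ (w u).support}.ncard = 1 := by
                rw [support_ncard (hw u).1, h0]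
              obtain ⟨t, ht⟩ := Set.ncard_eq_one.1 h2
              have h3 : y ∈ ({t} : Set V) := ht ▸ h
              have h4 : u ∈ ({t} : Set V) := ht ▸ (w u).start_mem_support
              exact hyu (h3.trans h4.symm)
          · exact h
        have := deg_lt_of_subset (C := (U : Set V)) (by rw [hz]; exact hu) hall
        rwa [Set.ncard_coe_finset] at this
    · have hzU : z u ∉ (U : Set V) := (hw u).2 _ (w u).end_mem_support hz
      have hall : ∀ y, G.Adj (z u) y → y ∈ (w u).support := by
        intro y hy
        rcases out_nbr (hw u) (hwmax u) hy with h | h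
        · exact h
        · by_contra hys
          have hyu : u ≠ y := by
            rintro rfl
            exact hys (w u).start_mem_support
          have hp' : ((w u).concat hy).IsPath := by
            rw [Walk.concat_isPath_iff]
            exact ⟨(hw u).1, hys⟩
          have := noear u hu y h hyu _ hp' (by
            intro x hx hxU
            rw [Walk.support_concat, List.mem_append, List.mem_singleton] at hx
            rcases hx with hx | rfl
            · left
              by_contra hne
              exact (hw u).2 x hx hne hxU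
            · right; rfl) (z u) (by
              rw [Walk.support_concat, List.mem_append, List.mem_singleton]
              exact Or.inl (w u).end_mem_support)
          exact hzU this
      -- z has a neighbour on the path
      have hex : ∃ x ∈ (w u).support, G.Adj (z u) x := by
        exact exists_pen (w u) (Ne.symm hz)
      obtain ⟨x, p1, p2, he, hx, hnb⟩ := last_segment (w u) hex
      refine ⟨deg_pos_of_adj hx, ?_⟩
      have hp2 : p2.IsPath := by
        have := (hw u).1
        rw [he] at this
        exact this.of_append_right
      have h1 := deg_lt_of_subset (G := G) (z := z u) (C := {y | y ∈ p2.support})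
        p2.end_mem_support (fun y hy => hnb y (hall y hy) hy)
      by_cases hbig : 2 * L ≤ p2.length
      · have h2 := hmax' _ (good_cycle p2 hp2 hx.symm (by omega))
        omega
      · rw [support_ncard hp2] at h1
        omega
  have hinj : ∀ u ∈ U, ∀ v ∈ U, deg G (z u) = deg G (z v) → u = v := by
    intro u hu v hv hd
    by_contra huv
    obtain ⟨q, hq, hqU, hl⟩ := hG u hu v hv huv
    have hdisj : ∀ x, x ∈ (w u).support → x ∈ (w v).support → False := by
      intro x hx hx'
      obtain ⟨e, he, ⟨t, ht, htU⟩, heU⟩ := ear_of_meet huv hu (hw u) (hw v) hx hx'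
      exact htU (noear u hu v hv huv e he heU t ht)
    have h1 : (q.append (w v)).IsPath := by
      refine append_path hq (hw v).1 ?_
      intro x hx hx'
      by_contra hne
      exact (hw v).2 x hx' hne (hqU x hx)
    have h2 : ((w u).reverse.append (q.append (w v))).IsPath := by
      refine append_path (hw u).1.reverse h1 ?_
      intro x hx hx'
      rw [Walk.support_reverse, List.mem_reverse] at hx
      rcases mem_append.1 hx' with h | h
      · by_contra hne
        exact (hw u).2 x hx hne (hqU x h)
      · exact (hdisj x hx h).elim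
    refine hirr (((w u).reverse.append (q.append (w v))).length) ?_ (z u) (z v) ⟨_, h2, rfl⟩ hd
    rw [Walk.length_append, Walk.length_append]
    omega
  have hcard : U.card ≤ (Finset.Icc 1 (U.card - 1)).card := by
    refine Finset.card_le_card_of_injOn (fun u => deg G (z u)) ?_ ?_
    · intro u hu
      have := hdeg u hu
      simp only [Finset.coe_Icc, Set.mem_Icc]
      omega
    · intro u hu v hv h
      exact hinj u hu v hv h
  rw [Nat.card_Icc] at hcard
  omega

end Pool.Agent.KPI
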