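import Pool.Agent.KPI.Long1

/-!
# Adding copies of a piece which already occurs many times
-/

namespace Pool.Agent.KPI
open SimpleGraph

universe u v
variable {V : Type u} {W : Type v}

section Swap

variable {α : Type*} (e f : α → W)

open Classical in
/-- Exchange the ranges of `e` and `f`. -/
noncomputable def swapFun (w : W) : W :=
  if h : ∃ a, e a = w then f h.choose else if h : ∃ a, f a = w then e h.choose else w

variable {e f}

lemma swapFun_e (he : Function.Injective e) (a : α) : swapFun e f (e a) = f a := by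
  unfold swapFun
  have h : ∃ b, e b = e a := ⟨a, rfl⟩
  rw [dif_pos h, he h.choose_spec]

lemma swapFun_f (hf : Function.Injective f) (hd : ∀ a b, e a ≠ f b) (a : α) :
    swapFun e f (f a) = e a := by
  unfold swapFun
  have h : ∃ b, f b = f a := ⟨a, rfl⟩
  rw [dif_neg (by rintro ⟨b, hb⟩; exact hd b a hb), dif_pos h, hf h.choose_spec]

lemma swapFun_ne {w : W} (h1 : ∀ a, e a ≠ w) (h2 : ∀ a, f a ≠ w) : swapFun e f w = w := by
  unfold swapFun
  rw [dif_neg (by rintro ⟨a, ha⟩; exact h1 a ha), dif_neg (by rintro ⟨a, ha⟩; exact h2 a ha)]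

lemma swapFun_cases (e f : α → W) (w : W) : (∃ a, w = e a) ∨ (∃ a, w = f a) ∨
    ((∀ a, e a ≠ w) ∧ ∀ a, f a ≠ w) := by
  by_cases h1 : ∃ a, w = e a
  · exact Or.inl h1
  · by_cases h2 : ∃ a, w = f a
    · exact Or.inr (Or.inl h2)
    · exact Or.inr (Or.inr ⟨fun a h => h1 ⟨a, h.symm⟩, fun a h => h2 ⟨a, h.symm⟩⟩)

lemma swapFun_invol (he : Function.Injective e) (hf : Function.Injective f)
    (hd : ∀ a b, e a ≠ f b) (w : W) : swapFun e f (swapFun e f w) = w := by
  rcases swapFun_cases e f w with ⟨a, rfl⟩ | ⟨a, rfl⟩ | ⟨h1, h2⟩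
  · rw [swapFun_e he, swapFun_f hf hd]
  · rw [swapFun_f hf hd, swapFun_e he]
  · rw [swapFun_ne h1 h2, swapFun_ne h1 h2]

/-- Exchanging two twin pieces is an automorphism. -/
noncomputable def swapIso {Γ : SimpleGraph W} (he : Function.Injective e)
    (hf : Function.Injective f) (hd : ∀ a b, e a ≠ f b)
    (h1 : ∀ a b, Γ.Adj (e a) (e b) ↔ Γ.Adj (f a) (f b))
    (h2 : ∀ a b, ¬ Γ.Adj (e a) (f b))
    (h3 : ∀ a w, (∀ b, e b ≠ w) → (∀ b, f b ≠ w) → (Γ.Adj (e a) w ↔ Γ.Adj (f a) w)) :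
    Γ ≃g Γ where
  toFun := swapFun e f
  invFun := swapFun e f
  left_inv := swapFun_invol he hf hd
  right_inv := swapFun_invol he hf hd
  map_rel_iff' := by
    intro w w'
    change Γ.Adj (swapFun e f w) (swapFun e f w') ↔ Γ.Adj w w'
    rcases swapFun_cases e f w with ⟨a, rfl⟩ | ⟨a, rfl⟩ | ⟨k1, k2⟩ <;>
    rcases swapFun_cases e f w' with ⟨b, rfl⟩ | ⟨b, rfl⟩ | ⟨l1, l2⟩
    · rw [swapFun_e he, swapFun_e he]
      exact (h1 a b).symm
    · rw [swapFun_e he, swapFun_f hf hd]
      constructor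
      · intro h
        exact absurd h.symm (h2 b a)
      · intro h
        exact absurd h (h2 a b)
    · rw [swapFun_e he, swapFun_ne l1 l2]
      exact (h3 a w' l1 l2).symm
    · rw [swapFun_e he, swapFun_f hf hd]
      constructor
      · intro h
        exact absurd h (h2 a b)
      · intro h
        exact absurd h.symm (h2 b a)
    · rw [swapFun_f hf hd, swapFun_f hf hd]
      exact h1 a b
    · rw [swapFun_f hf hd, swapFun_ne l1 l2]
      exact h3 a w' l1 l2
    · rw [swapFun_e he, swapFun_ne k1 k2, Γ.adj_comm w, Γ.adj_comm w]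
      exact (h3 b w k1 k2).symm
    · rw [swapFun_f hf hd, swapFun_ne k1 k2, Γ.adj_comm w, Γ.adj_comm w]
      exact h3 b w k1 k2
    · rw [swapFun_ne k1 k2, swapFun_ne l1 l2]

lemma swapIso_apply {Γ : SimpleGraph W} (he : Function.Injective e)
    (hf : Function.Injective f) (hd : ∀ a b, e a ≠ f b)
    (h1 : ∀ a b, Γ.Adj (e a) (e b) ↔ Γ.Adj (f a) (f b))
    (h2 : ∀ a b, ¬ Γ.Adj (e a) (f b))
    (h3 : ∀ a w, (∀ b, e b ≠ w) → (∀ b, f b ≠ w) → (Γ.Adj (e a) w ↔ Γ.Adj (f a) w)) (w : W) :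
    swapIso he hf hd h1 h2 h3 w = swapFun e f w := rfl

end Swap

/-- A path visits few of many disjoint sets all of which can be left only through a small set. -/
lemma visit_bound {Γ : SimpleGraph W} {ι : Type*} (J : Finset ι) (D : ι → Set W)
    (hD : ∀ i ∈ J, ∀ j ∈ J, ∀ a, a ∈ D i → a ∈ D j → i = j) (X : Finset W)
    (hX : ∀ i ∈ J, ∀ a b, Γ.Adj a b → a ∈ D i → b ∉ D i → b ∈ X) {x y : W} (p : Γ.Walk x y)
    (hp : p.IsPath) (hvis : ∀ i ∈ J, ∃ a ∈ p.support, a ∈ D i) : J.card ≤ X.card + 1 := by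
  classical
  set J' := J.filter fun i => y ∉ D i with hJ'
  have h1 : J.card ≤ J'.card + 1 := by
    have h2 : (J.filter fun i => y ∈ D i).card ≤ 1 := by
      rw [Finset.card_le_one]
      intro i hi j hj
      rw [Finset.mem_filter] at hi hj
      exact hD i hi.1 j hj.1 y hi.2 hj.2
    have h3 : J ⊆ J' ∪ J.filter fun i => y ∈ D i := by
      intro i hi
      rw [Finset.mem_union, hJ', Finset.mem_filter, Finset.mem_filter]
      by_cases h : y ∈ D i
      · exact Or.inr ⟨hi, h⟩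
      · exact Or.inl ⟨hi, h⟩
    have h4 := (Finset.card_le_card h3).trans (Finset.card_union_le _ _)
    omega
  have h4 : ∀ i ∈ J', ∃ d ∈ p.darts, d.fst ∈ D i ∧ d.snd ∈ X := by
    intro i hi
    rw [hJ', Finset.mem_filter] at hi
    obtain ⟨a, ha, haD⟩ := hvis i hi.1
    obtain ⟨p1, p2, rfl⟩ := split2 ha
    obtain ⟨d, hd, hd1, hd2⟩ := p2.exists_boundary_dart (D i) haD hi.2
    refine ⟨d, ?_, hd1, hX i hi.1 _ _ d.adj hd1 hd2⟩
    rw [Walk.darts_append]
    exact List.mem_append_right _ hd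
  have hnd : (p.darts.map (·.snd)).Nodup := by
    rw [Walk.map_snd_darts]
    exact hp.support_nodup.tail
  have h5 : J'.card ≤ X.card := by
    rcases J'.eq_empty_or_nonempty with h0 | ⟨i0, hi0⟩
    · rw [h0, Finset.card_empty]
      exact Nat.zero_le _
    have : Nonempty Γ.Dart := by
      obtain ⟨d, -⟩ := h4 i0 hi0
      exact ⟨d⟩
    choose! d hd using h4
    refine Finset.card_le_card_of_injOn (fun i => (d i).snd) ?_ ?_
    · intro i hi
      exact (hd i hi).2.2
    · intro i hi j hj hij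
      have h6 := List.inj_on_of_nodup_map hnd (hd i hi).1 (hd j hj).1 hij
      have h7 := (hd i hi).2.1
      rw [h6] at h7
      exact hD i (Finset.mem_filter.1 hi).1 j (Finset.mem_filter.1 hj).1 _ h7 (hd j hj).2.1
  omega

/-- Many copies of a piece with `s` vertices, attached in the same way to the set `X`. -/
structure Fam (G : SimpleGraph V) where
  s : ℕ
  E : Fin s → Fin s → Prop
  X : Set V
  A : Fin s → V → Prop
  r : ℕ
  hr : 0 < r
  β : Fin r → Fin s → V
  inj : ∀ i i' c c', β i c = β i' c' → i = i' ∧ c = c'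
  hX : ∀ i c, β i c ∉ X
  hE : ∀ i c c', G.Adj (β i c) (β i c') ↔ E c c'
  hA : ∀ i c z, (∀ c', β i c' ≠ z) → (G.Adj (β i c) z ↔ A c z)
  hAX : ∀ c z, A c z → z ∈ X

variable {G : SimpleGraph V} {I : Type}

/-- Add one new copy for each index. -/
def addG (G : SimpleGraph V) (fam : I → Fam G) :
    SimpleGraph (V ⊕ (Σ ι : I, Fin (fam ι).s)) where
  Adj x y := match x, y with
    | .inl z, .inl z' => G.Adj z z'
    | .inl z, .inr a => (fam a.1).A a.2 z
    | .inr a, .inl z => (fam a.1).A a.2 z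
    | .inr a, .inr b => ∃ ι c c', a = ⟨ι, c⟩ ∧ b = ⟨ι, c'⟩ ∧ (fam ι).E c c'
  symm := ⟨by
    rintro (z | a) (z' | b) h
    · exact SimpleGraph.Adj.symm (G := G) h
    · exact h
    · exact h
    · obtain ⟨ι, c, c', h1, h2, h3⟩ := h
      refine ⟨ι, c', c, h2, h1, ?_⟩
      rw [← (fam ι).hE ⟨0, (fam ι).hr⟩] at h3 ⊢
      exact h3.symm⟩
  loopless := ⟨by
    rintro (z | a) h
    · exact G.loopless.irrefl _ h
    · obtain ⟨ι, c, c', h1, h2, h3⟩ := h
      rw [h1] at h2
      cases h2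
      rw [← (fam ι).hE ⟨0, (fam ι).hr⟩] at h3
      exact G.loopless.irrefl _ h3⟩

variable {fam : I → Fam G}

@[simp] lemma addG_ll (z z' : V) : (addG G fam).Adj (.inl z) (.inl z') ↔ G.Adj z z' := Iff.rfl
@[simp] lemma addG_lr (z : V) (a : Σ ι : I, Fin (fam ι).s) :
    (addG G fam).Adj (.inl z) (.inr a) ↔ (fam a.1).A a.2 z := Iff.rfl
@[simp] lemma addG_rl (z : V) (a : Σ ι : I, Fin (fam ι).s) :
    (addG G fam).Adj (.inr a) (.inl z) ↔ (fam a.1).A a.2 z := Iff.rfl
lemma addG_rr (a b : Σ ι : I, Fin (fam ι).s) : (addG G fam).Adj (.inr a) (.inr b) ↔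
    ∃ ι c c', a = ⟨ι, c⟩ ∧ b = ⟨ι, c'⟩ ∧ (fam ι).E c c' := Iff.rfl

lemma addG_same (ι : I) (c c' : Fin (fam ι).s) :
    (addG G fam).Adj (.inr ⟨ι, c⟩) (.inr ⟨ι, c'⟩) ↔ (fam ι).E c c' := by
  rw [addG_rr]
  constructor
  · rintro ⟨κ, d, d', h1, h2, h3⟩
    cases h1
    cases h2
    exact h3
  · intro h
    exact ⟨ι, c, c', rfl, rfl, h⟩

lemma addG_diff {ι κ : I} (hne : ι ≠ κ) (c : Fin (fam ι).s) (c' : Fin (fam κ).s) :
    ¬ (addG G fam).Adj (.inr ⟨ι, c⟩) (.inr ⟨κ, c'⟩) := by
  rw [addG_rr]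
  rintro ⟨μ, d, d', h1, h2, -⟩
  cases h1
  cases h2
  exact hne rfl

/-- A path inside the old vertices is a path of the old graph. -/
lemma pull {α : Type*} {Γ : SimpleGraph (V ⊕ α)}
    (h : ∀ z z', Γ.Adj (.inl z) (.inl z') → G.Adj z z') : ∀ {x y : V ⊕ α} (p : Γ.Walk x y),
    (∀ w ∈ p.support, ∃ z, w = Sum.inl z) → ∀ x' y', x = .inl x' → y = .inl y' →
    ∃ q : G.Walk x' y', q.support.map Sum.inl = p.support := by
  intro x y p
  induction p with
  | nil =>
    intro _ x' y' hx hy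
    subst hx
    have : x' = y' := Sum.inl.inj hy
    subst this
    exact ⟨Walk.nil, rfl⟩
  | @cons a b c hab p ih =>
    intro hs x' y' hx hy
    subst hx
    obtain ⟨b', hb⟩ := hs b (by
      rw [Walk.support_cons]
      exact List.mem_cons_of_mem _ p.start_mem_support)
    subst hb
    obtain ⟨q, hq⟩ := ih (fun w hw => hs w (by
      rw [Walk.support_cons]
      exact List.mem_cons_of_mem _ hw)) b' y' rfl hy
    refine ⟨Walk.cons (h _ _ hab) q, ?_⟩
    rw [Walk.support_cons, Walk.support_cons, List.map_cons, hq]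

/-- Every path of the new graph is moved into the old graph by automorphisms. -/
theorem transfer [Finite V] [Finite I] (Y : Finset V) (hY : ∀ ι, (fam ι).X ⊆ (Y : Set V))
    (hr : ∀ ι, 2 * Y.card + 2 ≤ (fam ι).r) : ∀ (m : ℕ) {x y : V ⊕ (Σ ι : I, Fin (fam ι).s)}
    (p : (addG G fam).Walk x y), p.IsPath →
    ({ι : I | ∃ c, (Sum.inr ⟨ι, c⟩ : V ⊕ (Σ ι : I, Fin (fam ι).s)) ∈ p.support}).ncard ≤ m →
    ∃ (x' y' : V) (q : G.Walk x' y'), q.IsPath ∧ q.length = p.length ∧
      deg (addG G fam) (.inl x') = deg (addG G fam) x ∧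
      deg (addG G fam) (.inl y') = deg (addG G fam) y := by
  classical
  intro m
  induction m with
  | zero =>
    intro x y p hp hm
    have hempty : ({ι : I | ∃ c, (Sum.inr ⟨ι, c⟩ : V ⊕ (Σ ι : I, Fin (fam ι).s)) ∈
        p.support}) = ∅ := by
      rw [← Set.ncard_eq_zero (Set.toFinite _)]
      omega
    have hall : ∀ w ∈ p.support, ∃ z, w = Sum.inl z := by
      rintro (z | ⟨ι, c⟩) hw
      · exact ⟨z, rfl⟩
      · exfalso
        have : ι ∈ ({ι : I | ∃ c, (Sum.inr ⟨ι, c⟩ : V ⊕ (Σ ι : I, Fin (fam ι).s)) ∈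
          p.support}) := ⟨c, hw⟩
        rw [hempty] at this
        exact this
    obtain ⟨x', rfl⟩ := hall x p.start_mem_support
    obtain ⟨y', rfl⟩ := hall y p.end_mem_support
    obtain ⟨q, hq⟩ := pull (G := G) (fun z z' h => h) p hall x' y' rfl rfl
    refine ⟨x', y', q, ?_, ?_, rfl, rfl⟩
    · rw [Walk.isPath_def]
      have h := hp.support_nodup
      rw [← hq] at h
      exact List.Nodup.of_map _ h
    · have h1 := congrArg List.length hq
      rw [List.length_map, Walk.length_support, Walk.length_support] at h1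
      omega
  | succ m ih =>
    intro x y p hp hm
    by_cases hempty : ({ι : I | ∃ c, (Sum.inr ⟨ι, c⟩ : V ⊕ (Σ ι : I, Fin (fam ι).s)) ∈
        p.support}) = ∅
    · refine ih p hp ?_
      rw [hempty, Set.ncard_empty]
      omega
    obtain ⟨ι, c0, hc0⟩ := Set.nonempty_iff_ne_empty.2 hempty
    -- a good old copy which is not visited
    obtain ⟨i, hi1, hi2⟩ : ∃ i : Fin (fam ι).r, (∀ c, (fam ι).β i c ∉ Y) ∧
        ∀ c, (Sum.inl ((fam ι).β i c) : V ⊕ (Σ ι : I, Fin (fam ι).s)) ∉ p.support := by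
      by_contra hcon
      push Not at hcon
      set bad : Finset (Fin (fam ι).r) := Finset.univ.filter fun i => ∃ c, (fam ι).β i c ∈ Y
      set good : Finset (Fin (fam ι).r) := Finset.univ.filter fun i => ¬ ∃ c, (fam ι).β i c ∈ Y
      have h1 : bad.card ≤ Y.card := by
        have h2 : ∀ i ∈ bad, ∃ c, (fam ι).β i c ∈ Y := fun i hi => (Finset.mem_filter.1 hi).2
        have h3 : ∀ i ∈ bad, ∃ y ∈ Y, ∃ c, (fam ι).β i c = y := by
          intro i hi
          obtain ⟨c, hc⟩ := h2 i hi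
          exact ⟨_, hc, c, rfl⟩
        have : Nonempty V := ⟨(fam ι).β ⟨0, (fam ι).hr⟩ c0⟩
        choose! g hg1 hg2 using h3
        refine Finset.card_le_card_of_injOn g hg1 ?_
        intro i hi j hj hij
        obtain ⟨c, hc⟩ := hg2 i hi
        obtain ⟨c', hc'⟩ := hg2 j hj
        exact ((fam ι).inj i j c c' (by rw [hc, hc', hij])).1
      have h4 : good.card ≤ (Y.image (Sum.inl : V → V ⊕ (Σ ι : I, Fin (fam ι).s))).card + 1 := by
        refine visit_bound (Γ := addG G fam) good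
          (fun i => {w | ∃ c, w = Sum.inl ((fam ι).β i c)}) ?_ _ ?_ p hp ?_
        · rintro i - j - a ⟨c, rfl⟩ ⟨c', hc'⟩
          exact ((fam ι).inj i j c c' (Sum.inl.inj hc')).1
        · rintro i hi a b hab ⟨c, rfl⟩ hb
          have hi' : ∀ c, (fam ι).β i c ∉ Y := by
            intro c hc
            exact (Finset.mem_filter.1 hi).2 ⟨c, hc⟩
          rcases b with z | ⟨κ, c'⟩
          · rw [addG_ll] at hab
            have hz : ∀ c', (fam ι).β i c' ≠ z := by
              intro c' h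
              exact hb ⟨c', by rw [h]⟩
            rw [(fam ι).hA i c z hz] at hab
            exact Finset.mem_image_of_mem _ (hY ι ((fam ι).hAX _ _ hab))
          · exfalso
            rw [addG_lr] at hab
            exact hi' c (hY κ ((fam κ).hAX _ _ hab))
        · intro i hi
          have hi' : ∀ c, (fam ι).β i c ∉ Y := by
            intro c hc
            exact (Finset.mem_filter.1 hi).2 ⟨c, hc⟩
          obtain ⟨c, hc⟩ := hcon i hi'
          exact ⟨_, hc, c, rfl⟩
      have h5 : (Y.image (Sum.inl : V → V ⊕ (Σ ι : I, Fin (fam ι).s))).card ≤ Y.card :=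
        Finset.card_image_le
      have h6 := Finset.card_filter_add_card_filter_not (s := (Finset.univ : Finset
        (Fin (fam ι).r))) (fun i => ∃ c, (fam ι).β i c ∈ Y)
      rw [Finset.card_univ, Fintype.card_fin] at h6
      have h7 := hr ι
      change bad.card + good.card = _ at h6
      omega
    -- exchange the two copies
    have hXi : ∀ κ c, (fam ι).β i c ∉ (fam κ).X := fun κ c h => hi1 c (hY κ h)
    let e : Fin (fam ι).s → V ⊕ (Σ ι : I, Fin (fam ι).s) := fun c => Sum.inr ⟨ι, c⟩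
    let f : Fin (fam ι).s → V ⊕ (Σ ι : I, Fin (fam ι).s) := fun c => Sum.inl ((fam ι).β i c)
    have he : Function.Injective e := by
      intro a b h
      have h' : (⟨ι, a⟩ : Σ ι : I, Fin (fam ι).s) = ⟨ι, b⟩ := Sum.inr.inj h
      cases h'
      rfl
    have hf : Function.Injective f := by
      intro a b h
      exact ((fam ι).inj i i a b (Sum.inl.inj h)).2
    have hd : ∀ a b, e a ≠ f b := by
      intro a b h
      exact absurd h (by simp [e, f])
    let σ : addG G fam ≃g addG G fam := swapIso he hf hd (by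
        intro a b
        change (addG G fam).Adj (.inr ⟨ι, a⟩) (.inr ⟨ι, b⟩) ↔ G.Adj ((fam ι).β i a) ((fam ι).β i b)
        rw [addG_same, (fam ι).hE]) (by
        intro a b h
        have h' : (fam ι).A a ((fam ι).β i b) := h
        exact (fam ι).hX i b ((fam ι).hAX _ _ h')) (by
        intro a w hw1 hw2
        rcases w with z | ⟨κ, c⟩
        · change (fam ι).A a z ↔ G.Adj ((fam ι).β i a) z
          rw [(fam ι).hA i a z (fun c' h => hw2 c' (by rw [← h]))]
        · constructor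
          · intro h
            by_cases hικ : ι = κ
            · subst hικ
              exact absurd rfl (hw1 c)
            · exact absurd h (addG_diff hικ a c)
          · intro h
            have h' : (fam κ).A c ((fam ι).β i a) := h
            exact absurd ((fam κ).hAX _ _ h') (hXi κ a))
    have hσe : ∀ c, σ (e c) = f c := fun c => swapFun_e he c
    have hσf : ∀ c, σ (f c) = e c := fun c => swapFun_f hf hd c
    have hσn : ∀ w, (∀ a, e a ≠ w) → (∀ a, f a ≠ w) → σ w = w := fun w h1 h2 =>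
      swapFun_ne h1 h2
    have hσσ : ∀ w, σ (σ w) = w := fun w => swapFun_invol he hf hd w
    have hp' : (p.map σ.toHom).IsPath := hp.map σ.injective
    have hsub : ({κ : I | ∃ c, (Sum.inr ⟨κ, c⟩ : V ⊕ (Σ ι : I, Fin (fam ι).s)) ∈
        (p.map σ.toHom).support}) ⊆ ({κ : I | ∃ c, (Sum.inr ⟨κ, c⟩ :
          V ⊕ (Σ ι : I, Fin (fam ι).s)) ∈ p.support}) \ {ι} := by
      rintro κ ⟨c, hc⟩
      rw [Walk.support_map, List.mem_map] at hc
      obtain ⟨w, hw, hwc⟩ := hc
      have hwc' : σ w = Sum.inr ⟨κ, c⟩ := hwc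
      have hw' : w = σ (Sum.inr ⟨κ, c⟩) := by rw [← hwc', hσσ]
      have hκ : κ ≠ ι := by
        rintro rfl
        rw [hσe c] at hw'
        rw [hw'] at hw
        exact hi2 c hw
      refine ⟨⟨c, ?_⟩, hκ⟩
      rw [hσn] at hw'
      · exact hw' ▸ hw
      · intro a h
        have h' : (⟨ι, a⟩ : Σ ι : I, Fin (fam ι).s) = ⟨κ, c⟩ := Sum.inr.inj h
        cases h'
        exact hκ rfl
      · intro a h
        exact absurd h (by simp [f])
    have hlt : ({κ : I | ∃ c, (Sum.inr ⟨κ, c⟩ : V ⊕ (Σ ι : I, Fin (fam ι).s)) ∈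
        (p.map σ.toHom).support}).ncard ≤ m := by
      have h1 := Set.ncard_le_ncard hsub (Set.toFinite _)
      have h2 := Set.ncard_sdiff_singleton_add_one (s := {κ : I | ∃ c, (Sum.inr ⟨κ, c⟩ :
          V ⊕ (Σ ι : I, Fin (fam ι).s)) ∈ p.support}) (a := ι) ⟨c0, hc0⟩ (Set.toFinite _)
      omega
    obtain ⟨x', y', q, hq1, hq2, hq3, hq4⟩ := ih (p.map σ.toHom) hp' hlt
    refine ⟨x', y', q, hq1, ?_, ?_, ?_⟩
    · rw [hq2, Walk.length_map]
    · rw [hq3]
      exact deg_iso σ x
    · rw [hq4]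
      exact deg_iso σ y

end Pool.Agent.KPI
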