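import Pool.Agent.KPI.Pump1

/-!
# The pumping theorem
-/

namespace Pool.Agent.KPI
open SimpleGraph

universe u v
variable {V : Type u} {G : SimpleGraph V} {I : Type} {fam : I → Fam G}

/-- The number of new neighbours of an old vertex in one new copy. -/
noncomputable def Fam.slope (F : Fam G) (z : V) : ℕ := ({c | F.A c z} : Set (Fin F.s)).ncard

lemma sigma_ncard [Fintype I] {s : I → ℕ} (Q : ∀ ι, Fin (s ι) → Prop) :
    ({a | Q a.1 a.2} : Set (Σ ι : I, Fin (s ι))).ncard = ∑ ι, ({c | Q ι c} : Set (Fin (s ι))).ncard := by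
  classical
  have h1 : ({a | Q a.1 a.2} : Set (Σ ι : I, Fin (s ι))) =
      (((Finset.univ : Finset I).sigma fun ι => Finset.univ.filter fun c => Q ι c :
        Finset (Σ ι : I, Fin (s ι))) : Set (Σ ι : I, Fin (s ι))) := by
    ext a
    simp
  rw [h1, Set.ncard_coe_finset, Finset.card_sigma]
  refine Finset.sum_congr rfl ?_
  intro ι _
  have h2 : ({c | Q ι c} : Set (Fin (s ι))) =
      ((Finset.univ.filter fun c => Q ι c : Finset (Fin (s ι))) : Set (Fin (s ι))) := by
    ext c
    simp
  rw [h2, Set.ncard_coe_finset]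

lemma deg_addG [Finite V] [Fintype I] (z : V) :
    deg (addG G fam) (.inl z) = deg G z + ∑ ι, (fam ι).slope z := by
  classical
  unfold deg
  have h1 : (addG G fam).neighborSet (.inl z) =
      (Sum.inl '' G.neighborSet z) ∪
      (Sum.inr '' ({a | (fam a.1).A a.2 z} : Set (Σ ι : I, Fin (fam ι).s))) := by
    ext w
    rcases w with z' | a
    · constructor
      · intro h
        exact Or.inl ⟨z', h, rfl⟩
      · rintro (⟨y, hy, he⟩ | ⟨a, -, ha⟩)
        · rw [← Sum.inl.inj he]
          exact hy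
        · exact absurd ha (by simp)
    · constructor
      · intro h
        exact Or.inr ⟨a, h, rfl⟩
      · rintro (⟨y, hy, he⟩ | ⟨b, hb, he⟩)
        · exact absurd he (by simp)
        · rw [← Sum.inr.inj he]
          exact hb
  rw [h1, Set.ncard_union_eq ?_ (Set.toFinite _) (Set.toFinite _),
    Set.ncard_image_of_injective _ Sum.inl_injective,
    Set.ncard_image_of_injective _ Sum.inr_injective, sigma_ncard (fun ι c => (fam ι).A c z)]
  · rfl
  · rw [Set.disjoint_left]
    rintro x ⟨y, -, rfl⟩ ⟨a, -, ha⟩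
    exact absurd ha (by simp)

lemma addG_connected (hc : G.Connected) (hr : ∀ ι, 2 ≤ (fam ι).r) : (addG G fam).Connected := by
  classical
  obtain ⟨z0⟩ := hc.nonempty
  have : Nonempty (V ⊕ (Σ ι : I, Fin (fam ι).s)) := ⟨.inl z0⟩
  have hll : ∀ z, (addG G fam).Reachable (.inl z) (.inl z0) := by
    intro z
    let h : G →g addG G fam := ⟨Sum.inl, fun h => h⟩
    exact (hc.preconnected z z0).map h
  have hrl : ∀ a : (Σ ι : I, Fin (fam ι).s), (addG G fam).Reachable (.inr a) (.inl z0) := by
    rintro ⟨ι, c⟩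
    let i0 : Fin (fam ι).r := ⟨0, by have := hr ι; omega⟩
    let i1 : Fin (fam ι).r := ⟨1, by have := hr ι; omega⟩
    let e : Fin (fam ι).s → V ⊕ (Σ ι : I, Fin (fam ι).s) := fun c => Sum.inr ⟨ι, c⟩
    let f : Fin (fam ι).s → V ⊕ (Σ ι : I, Fin (fam ι).s) := fun c => Sum.inl ((fam ι).β i0 c)
    have he : Function.Injective e := by
      intro a b h
      have h' : (⟨ι, a⟩ : Σ ι : I, Fin (fam ι).s) = ⟨ι, b⟩ := Sum.inr.inj h
      cases h'
      rfl
    have hf : Function.Injective f := by
      intro a b h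
      exact ((fam ι).inj i0 i0 a b (Sum.inl.inj h)).2
    have hd : ∀ a b, e a ≠ f b := by
      intro a b h
      exact absurd h (by simp [e, f])
    have hfe : ∀ c, swapFun e f (Sum.inl ((fam ι).β i0 c)) = Sum.inr ⟨ι, c⟩ :=
      fun c => swapFun_f hf hd c
    have hne : ∀ z, (∀ c, (fam ι).β i0 c ≠ z) → swapFun e f (Sum.inl z) = Sum.inl z := by
      intro z hz
      refine swapFun_ne ?_ ?_
      · intro a h
        exact absurd h (by simp [e])
      · intro a h
        exact hz a (Sum.inl.inj h)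
    let θ : G →g addG G fam := ⟨fun z => swapFun e f (Sum.inl z), by
      intro z z' hzz
      by_cases h1 : ∃ c, (fam ι).β i0 c = z
      · obtain ⟨c1, rfl⟩ := h1
        by_cases h2 : ∃ c, (fam ι).β i0 c = z'
        · obtain ⟨c2, rfl⟩ := h2
          rw [hfe, hfe, addG_same, ← (fam ι).hE i0]
          exact hzz
        · have h2' : ∀ c, (fam ι).β i0 c ≠ z' := fun c h => h2 ⟨c, h⟩
          rw [hfe, hne z' h2']
          exact ((fam ι).hA i0 c1 z' h2').1 hzz
      · have h1' : ∀ c, (fam ι).β i0 c ≠ z := fun c h => h1 ⟨c, h⟩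
        by_cases h2 : ∃ c, (fam ι).β i0 c = z'
        · obtain ⟨c2, rfl⟩ := h2
          rw [hfe, hne z h1']
          exact ((fam ι).hA i0 c2 z h1').1 hzz.symm
        · have h2' : ∀ c, (fam ι).β i0 c ≠ z' := fun c h => h2 ⟨c, h⟩
          rw [hne z h1', hne z' h2']
          exact hzz⟩
    have h3 := (hc.preconnected ((fam ι).β i0 c) ((fam ι).β i1 c)).map θ
    have h4 : θ ((fam ι).β i0 c) = Sum.inr ⟨ι, c⟩ := hfe c
    have h5 : θ ((fam ι).β i1 c) = Sum.inl ((fam ι).β i1 c) := by
      refine hne _ ?_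
      intro c' h
      have h6 := ((fam ι).inj i0 i1 c' c h).1
      have h7 := Fin.ext_iff.1 h6
      simp [i0, i1] at h7
    rw [h4, h5] at h3
    exact h3.trans (hll _)
  have hall : ∀ w, (addG G fam).Reachable w (.inl z0) := by
    rintro (z | a)
    · exact hll z
    · exact hrl a
  exact ⟨fun x y => (hall x).trans (hall y).symm⟩

lemma deg_lt_card [Fintype V] (z : V) : deg G z < Fintype.card V := by
  classical
  unfold deg
  rw [← Nat.card_eq_fintype_card, ← Set.ncard_univ]
  refine Set.ncard_lt_ncard ?_ (Set.toFinite _)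
  refine ⟨Set.subset_univ _, fun h => ?_⟩
  exact G.loopless.irrefl z (h (Set.mem_univ z))

/-- The pumping theorem. -/
theorem pump [Fintype V] (hc : G.Connected) {φ : Type} [Fintype φ] (F : φ → Fam G) (w : φ → ℕ)
    (Y : Finset V) (hY : ∀ f, (F f).X ⊆ (Y : Set V)) (hr : ∀ f, 2 * Y.card + 2 ≤ (F f).r)
    (hw : ∀ k ∈ badSet G, ∃ u v, u ≠ v ∧ deg G u = deg G v ∧ HasPath G k u v ∧
      ∑ f, w f * (F f).slope u = ∑ f, w f * (F f).slope v) {j : ℕ} (hj : Fintype.card V ≤ j) :
    Realisable (Fintype.card V + j * ∑ f, w f * (F f).s) ({k | 1 ≤ k} \ badSet G) := by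
  classical
  let I := Σ f : φ, Fin (j * w f)
  let fam : I → Fam G := fun ι => F ι.1
  have hsum : ∀ g : φ → ℕ, ∑ ι : I, g ι.1 = j * ∑ f, w f * g f := by
    intro g
    rw [Fintype.sum_sigma, Finset.mul_sum]
    refine Finset.sum_congr rfl ?_
    intro f _
    change ∑ _y : Fin (j * w f), g f = _
    rw [Finset.sum_const, Finset.card_univ, Fintype.card_fin, smul_eq_mul]
    ring
  have hdeg : ∀ z, deg (addG G fam) (.inl z) = deg G z + j * ∑ f, w f * (F f).slope z := by
    intro z
    rw [deg_addG]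
    congr 1
    exact hsum fun f => (F f).slope z
  have hcard : Fintype.card (V ⊕ (Σ ι : I, Fin (fam ι).s)) =
      Fintype.card V + j * ∑ f, w f * (F f).s := by
    rw [Fintype.card_sum, Fintype.card_sigma]
    congr 1
    simp only [Fintype.card_fin]
    exact hsum fun f => (F f).s
  refine realisable_of (addG G fam) (addG_connected hc fun ι => ?_) hcard ?_
  · have h1 : 2 * Y.card + 2 ≤ (fam ι).r := hr ι.1
    omega
  · ext k
    constructor
    · rintro ⟨x, y, hxy, hd, hp⟩
      have hk := hp.pos hxy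
      obtain ⟨p, hp, hl⟩ := hp
      obtain ⟨x', y', q, hq1, hq2, hq3, hq4⟩ := transfer (fam := fam) Y (fun ι => hY ι.1)
        (fun ι => hr ι.1) _ p hp le_rfl
      have hne : x' ≠ y' := by
        have h1 : HasPath G k x' y' := ⟨q, hq1, by omega⟩
        exact h1.ne hk
      refine ⟨x', y', hne, ?_, ⟨q, hq1, by omega⟩⟩
      rw [hd, ← hq4, hdeg, hdeg] at hq3
      have h1 := deg_lt_card (G := G) x'
      have h2 := deg_lt_card (G := G) y'
      have h3 : (deg G x' + j * ∑ f, w f * (F f).slope x') % j =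
          (deg G y' + j * ∑ f, w f * (F f).slope y') % j := by rw [hq3]
      rw [Nat.add_mul_mod_self_left, Nat.add_mul_mod_self_left, Nat.mod_eq_of_lt (by omega),
        Nat.mod_eq_of_lt (by omega)] at h3
      exact h3
    · intro hk
      obtain ⟨u, v, huv, hd, hp, hs⟩ := hw k hk
      refine ⟨.inl u, .inl v, fun h => huv (Sum.inl.inj h), ?_, ?_⟩
      · rw [hdeg, hdeg, hd, hs]
      · let h : G →g addG G fam := ⟨Sum.inl, fun h => h⟩
        exact hp.map h Sum.inl_injective

end Pool.Agent.KPI
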