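import Mathlib

/-!
# Convex hulls of compact sets, and integer relations
-/

namespace Pool.Agent.KPI

/-- The convex hull of a compact set of a finite dimensional space is compact. -/
theorem compact_hull {p : ℕ} {K : Set (Fin p → ℝ)} (hK : IsCompact K) :
    IsCompact (convexHull ℝ K) := by
  classical
  rcases K.eq_empty_or_nonempty with rfl | ⟨z0, hz0⟩
  · rw [convexHull_empty]
    exact isCompact_empty
  let Φ : (Fin (p + 1) → ℝ) × (Fin (p + 1) → (Fin p → ℝ)) → (Fin p → ℝ) :=
    fun q => ∑ i, q.1 i • q.2 i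
  have hΦ : Continuous Φ := by
    refine continuous_finsetSum _ ?_
    intro i _
    exact ((continuous_apply i).comp continuous_fst).smul
      ((continuous_apply i).comp continuous_snd)
  have hcomp : IsCompact ((stdSimplex ℝ (Fin (p + 1))) ×ˢ
      (Set.univ.pi fun _ : Fin (p + 1) => K)) :=
    (isCompact_stdSimplex ℝ (Fin (p + 1))).prod (isCompact_univ_pi fun _ => hK)
  have himg : Φ '' ((stdSimplex ℝ (Fin (p + 1))) ×ˢ (Set.univ.pi fun _ : Fin (p + 1) => K)) =
      convexHull ℝ K := by
    apply Set.Subset.antisymm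
    · rintro _ ⟨⟨w, z⟩, ⟨hw, hz⟩, rfl⟩
      refine (convex_convexHull ℝ K).sum_mem (fun i _ => hw.1 i) hw.2 ?_
      intro i _
      exact subset_convexHull ℝ K (hz i (Set.mem_univ i))
    · intro x hx
      obtain ⟨ι, hι, z, w, h1, h2, h3, h4, h5⟩ := eq_pos_convex_span_of_mem_convexHull hx
      have hcard : Fintype.card ι ≤ Fintype.card (Fin (p + 1)) := by
        have h6 := h2.card_le_finrank_succ
        have h7 : Module.finrank ℝ (vectorSpan ℝ (Set.range z)) ≤ p := by
          refine (Submodule.finrank_le _).trans ?_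
          rw [Module.finrank_fintype_fun_eq_card, Fintype.card_fin]
        rw [Fintype.card_fin]
        omega
      obtain ⟨e⟩ := Function.Embedding.nonempty_of_card_le hcard
      have hin : ∀ i, Function.extend e w (fun _ => 0) (e i) = w i :=
        fun i => e.injective.extend_apply w _ i
      have hiz : ∀ i, Function.extend e z (fun _ => z0) (e i) = z i :=
        fun i => e.injective.extend_apply z _ i
      have hout : ∀ j, (¬ ∃ i, e i = j) → Function.extend e w (fun _ => (0 : ℝ)) j = 0 :=
        fun j hj => Function.extend_apply' _ _ _ hj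
      refine ⟨⟨Function.extend e w (fun _ => 0), Function.extend e z (fun _ => z0)⟩,
        ⟨⟨?_, ?_⟩, ?_⟩, ?_⟩
      · intro j
        by_cases hj : ∃ i, e i = j
        · obtain ⟨i, rfl⟩ := hj
          change 0 ≤ Function.extend e w (fun _ => 0) (e i)
          rw [hin]
          exact (h3 i).le
        · change 0 ≤ Function.extend e w (fun _ => 0) j
          rw [hout j hj]
      · change ∑ j, Function.extend e w (fun _ => 0) j = 1
        rw [← h4]
        symm
        refine Finset.sum_of_injOn e e.injective.injOn (fun i _ => Finset.mem_coe.2 (Finset.mem_univ _)) ?_ ?_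
        · intro j _ hj
          refine hout j ?_
          rintro ⟨i, rfl⟩
          exact hj ⟨i, Finset.mem_coe.2 (Finset.mem_univ _), rfl⟩
        · intro i _
          exact (hin i).symm
      · intro j _
        change Function.extend e z (fun _ => z0) j ∈ K
        by_cases hj : ∃ i, e i = j
        · obtain ⟨i, rfl⟩ := hj
          rw [hiz]
          exact h1 ⟨i, rfl⟩
        · rw [Function.extend_apply' _ _ _ hj]
          exact hz0
      · change ∑ j, Function.extend e w (fun _ => 0) j • Function.extend e z (fun _ => z0) j = x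
        rw [← h5]
        symm
        refine Finset.sum_of_injOn e e.injective.injOn (fun i _ => Finset.mem_coe.2 (Finset.mem_univ _)) ?_ ?_
        · intro j _ hj
          rw [hout j ?_, zero_smul]
          rintro ⟨i, rfl⟩
          exact hj ⟨i, Finset.mem_coe.2 (Finset.mem_univ _), rfl⟩
        · intro i _
          rw [hin, hiz]
  rw [← himg]
  exact hcomp.image hΦ

/-- A nonnegative real relation between integer vectors gives a relation with natural
coefficients. -/
theorem int_relation {p : ℕ} {φ : Type*} [Fintype φ] (d : φ → Fin p → ℤ) (w : φ → ℝ)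
    (hw : ∀ f, 0 ≤ w f) (hne : ∃ f, 0 < w f) (hsum : ∀ k, ∑ f, w f * (d f k : ℝ) = 0) :
    ∃ W : φ → ℕ, (∃ f, 0 < W f) ∧ ∀ k, ∑ f, (W f : ℤ) * d f k = 0 := by
  classical
  obtain ⟨f0, hf0⟩ := hne
  obtain ⟨M, hM⟩ := exists_nat_gt (1 / w f0)
  have hM1 : 1 ≤ (M : ℝ) * w f0 := by
    have := (div_lt_iff₀ hf0).1 hM
    linarith
  let a : ℕ → φ → ℤ := fun m f => ⌊(m : ℝ) * ((M : ℝ) * w f)⌋
  let e : ℕ → Fin p → ℤ := fun m k => ∑ f, a m f * d f k
  let B : ℤ := ∑ f, ∑ k, |d f k|
  have hbound : ∀ m k, |e m k| ≤ B := by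
    intro m k
    have h1 : ((e m k : ℤ) : ℝ) = ∑ f, ((a m f : ℝ) - (m : ℝ) * ((M : ℝ) * w f)) * (d f k : ℝ) := by
      have h2 : ∑ f, ((m : ℝ) * ((M : ℝ) * w f)) * (d f k : ℝ) = 0 := by
        have h3 : ∑ f, ((m : ℝ) * ((M : ℝ) * w f)) * (d f k : ℝ) =
            (m : ℝ) * (M : ℝ) * ∑ f, w f * (d f k : ℝ) := by
          rw [Finset.mul_sum]
          refine Finset.sum_congr rfl ?_
          intro f _
          ring
        rw [h3, hsum k, mul_zero]
      have h4 : ((e m k : ℤ) : ℝ) = ∑ f, (a m f : ℝ) * (d f k : ℝ) := by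
        push_cast [e]
        rfl
      rw [h4]
      rw [← sub_zero (∑ f, (a m f : ℝ) * (d f k : ℝ)), ← h2, ← Finset.sum_sub_distrib]
      refine Finset.sum_congr rfl ?_
      intro f _
      ring
    have h5 : |((e m k : ℤ) : ℝ)| ≤ ∑ f, |(d f k : ℝ)| := by
      rw [h1]
      refine (Finset.abs_sum_le_sum_abs _ _).trans ?_
      refine Finset.sum_le_sum ?_
      intro f _
      rw [abs_mul]
      have h6 : |(a m f : ℝ) - (m : ℝ) * ((M : ℝ) * w f)| ≤ 1 := by
        have h7 := Int.floor_le ((m : ℝ) * ((M : ℝ) * w f))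
        have h8 := Int.lt_floor_add_one ((m : ℝ) * ((M : ℝ) * w f))
        rw [abs_le]
        constructor
        · change -1 ≤ ((⌊(m : ℝ) * ((M : ℝ) * w f)⌋ : ℤ) : ℝ) - _
          linarith
        · change ((⌊(m : ℝ) * ((M : ℝ) * w f)⌋ : ℤ) : ℝ) - _ ≤ 1
          linarith
      calc |(a m f : ℝ) - (m : ℝ) * ((M : ℝ) * w f)| * |(d f k : ℝ)| ≤ 1 * |(d f k : ℝ)| :=
            mul_le_mul_of_nonneg_right h6 (abs_nonneg _)
        _ = |(d f k : ℝ)| := one_mul _
    have h9 : (|e m k| : ℤ) ≤ ∑ f, |d f k| := by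
      have : ((|e m k| : ℤ) : ℝ) ≤ ((∑ f, |d f k| : ℤ) : ℝ) := by
        push_cast
        exact h5
      exact_mod_cast this
    refine h9.trans ?_
    refine Finset.sum_le_sum ?_
    intro f _
    exact Finset.single_le_sum (f := fun k => |d f k|) (fun k _ => abs_nonneg _)
      (Finset.mem_univ k)
  have hfin : (Set.range e).Finite := by
    refine Set.Finite.subset (Set.Finite.pi' (t := fun _ : Fin p => Set.Icc (-B) B)
      fun _ => Set.finite_Icc _ _) ?_
    rintro _ ⟨m, rfl⟩ k
    exact abs_le.1 (hbound m k)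
  obtain ⟨m, -, m', -, hmm, he⟩ := Set.Infinite.exists_ne_map_eq_of_mapsTo
    (Set.infinite_univ (α := ℕ)) (fun m _ => Set.mem_range_self (f := e) m) hfin
  have key : ∀ m m' : ℕ, m < m' → e m = e m' →
      ∃ W : φ → ℕ, (∃ f, 0 < W f) ∧ ∀ k, ∑ f, (W f : ℤ) * d f k = 0 := by
    intro m m' hlt he
    have hmono : ∀ f, a m f ≤ a m' f := by
      intro f
      refine Int.floor_le_floor ?_
      refine mul_le_mul_of_nonneg_right ?_ (mul_nonneg (Nat.cast_nonneg _) (hw f))
      exact_mod_cast hlt.le
    refine ⟨fun f => (a m' f - a m f).toNat, ⟨f0, ?_⟩, ?_⟩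
    · have h1 : a m f0 + 1 ≤ a m' f0 := by
        have h2 : a m f0 + 1 = ⌊(m : ℝ) * ((M : ℝ) * w f0) + 1⌋ := by
          rw [Int.floor_add_one]
        rw [h2]
        refine Int.floor_le_floor ?_
        have h3 : ((m : ℝ) + 1) ≤ (m' : ℝ) := by exact_mod_cast hlt
        nlinarith
      change 0 < (a m' f0 - a m f0).toNat
      omega
    · intro k
      have h1 : ∀ f, (((a m' f - a m f).toNat : ℕ) : ℤ) = a m' f - a m f := by
        intro f
        have := hmono f
        omega
      have h2 : ∑ f, (((a m' f - a m f).toNat : ℕ) : ℤ) * d f k = e m' k - e m k := by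
        change _ = ∑ f, a m' f * d f k - ∑ f, a m f * d f k
        rw [← Finset.sum_sub_distrib]
        refine Finset.sum_congr rfl ?_
        intro f _
        rw [h1]
        ring
      rw [h2, he, sub_self]
  rcases lt_or_gt_of_ne hmm with h | h
  · exact key m m' h he
  · exact key m' m h he.symm

end Pool.Agent.KPI
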