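import Pool.Agent.KPI.Pump2

/-!
# Decomposition of a graph without long paths into pieces
-/

namespace Pool.Agent.KPI
open SimpleGraph

universe u
variable {V : Type u} {G : SimpleGraph V}

/-- `b` can be reached from `a` inside `W`. -/
def Conn (G : SimpleGraph V) (W : Set V) (a b : V) : Prop :=
  ∃ p : G.Walk a b, ∀ x ∈ p.support, x ∈ W

lemma Conn.symm {W : Set V} {a b : V} (h : Conn G W a b) : Conn G W b a := by
  obtain ⟨p, hp⟩ := h
  exact ⟨p.reverse, fun x hx => hp x (by rwa [Walk.support_reverse, List.mem_reverse] at hx)⟩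

lemma Conn.trans {W : Set V} {a b c : V} (h : Conn G W a b) (h' : Conn G W b c) :
    Conn G W a c := by
  obtain ⟨p, hp⟩ := h
  obtain ⟨q, hq⟩ := h'
  refine ⟨p.append q, fun x hx => ?_⟩
  rcases mem_append.1 hx with h | h
  · exact hp x h
  · exact hq x h

lemma Conn.refl {W : Set V} {a : V} (ha : a ∈ W) : Conn G W a a := by
  refine ⟨Walk.nil, fun x hx => ?_⟩
  rw [Walk.support_nil, List.mem_singleton] at hx
  rwa [hx]

lemma Conn.mem_left {W : Set V} {a b : V} (h : Conn G W a b) : a ∈ W := by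
  obtain ⟨p, hp⟩ := h
  exact hp _ p.start_mem_support

lemma Conn.mem_right {W : Set V} {a b : V} (h : Conn G W a b) : b ∈ W := by
  obtain ⟨p, hp⟩ := h
  exact hp _ p.end_mem_support

lemma Conn.adj {W : Set V} {a b : V} (h : G.Adj a b) (ha : a ∈ W) (hb : b ∈ W) :
    Conn G W a b := by
  refine ⟨Walk.cons h Walk.nil, fun x hx => ?_⟩
  rw [Walk.support_cons, Walk.support_nil, List.mem_cons, List.mem_singleton] at hx
  rcases hx with rfl | rfl
  · exact ha
  · exact hb

open Classical in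
/-- The component of `a` inside `W`. -/
noncomputable def Kp [Fintype V] (G : SimpleGraph V) (W : Set V) (a : V) : Finset V :=
  Finset.univ.filter fun b => Conn G W a b

lemma mem_Kp [Fintype V] {W : Set V} {a b : V} : b ∈ Kp G W a ↔ Conn G W a b := by
  classical
  unfold Kp
  rw [Finset.mem_filter]
  exact ⟨fun h => h.2, fun h => ⟨Finset.mem_univ _, h⟩⟩

lemma Kp_eq [Fintype V] {W : Set V} {a b : V} (h : Conn G W a b) : Kp G W a = Kp G W b := by
  ext c
  rw [mem_Kp, mem_Kp]
  exact ⟨fun h' => h.symm.trans h', fun h' => h.trans h'⟩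

open Classical in
/-- The components inside `W`. -/
noncomputable def comps [Fintype V] (G : SimpleGraph V) (W : Set V) : Finset (Finset V) :=
  (Finset.univ.filter fun b => b ∈ W).image fun b => Kp G W b

lemma mem_comps [Fintype V] {W : Set V} {C : Finset V} :
    C ∈ comps G W ↔ ∃ b ∈ W, C = Kp G W b := by
  classical
  unfold comps
  rw [Finset.mem_image]
  constructor
  · rintro ⟨b, hb, rfl⟩
    exact ⟨b, (Finset.mem_filter.1 hb).2, rfl⟩
  · rintro ⟨b, hb, rfl⟩
    exact ⟨b, Finset.mem_filter.2 ⟨Finset.mem_univ _, hb⟩, rfl⟩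

lemma comps_cover [Fintype V] {W : Set V} {x : V} : x ∈ W ↔ ∃ C ∈ comps G W, x ∈ C := by
  constructor
  · intro hx
    exact ⟨Kp G W x, mem_comps.2 ⟨x, hx, rfl⟩, mem_Kp.2 (Conn.refl hx)⟩
  · rintro ⟨C, hC, hx⟩
    obtain ⟨b, hb, rfl⟩ := mem_comps.1 hC
    exact (mem_Kp.1 hx).mem_right

lemma comps_disj [Fintype V] {W : Set V} {C C' : Finset V} (hC : C ∈ comps G W)
    (hC' : C' ∈ comps G W) (hne : C ≠ C') : Disjoint C C' := by
  classical
  rw [Finset.disjoint_left]
  intro x hx hx'
  obtain ⟨b, hb, rfl⟩ := mem_comps.1 hC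
  obtain ⟨b', hb', rfl⟩ := mem_comps.1 hC'
  exact hne (Kp_eq ((mem_Kp.1 hx).trans (mem_Kp.1 hx').symm))

lemma comps_adj [Fintype V] {W : Set V} {C C' : Finset V} (hC : C ∈ comps G W)
    (hC' : C' ∈ comps G W) (hne : C ≠ C') {a b : V} (ha : a ∈ C) (hb : b ∈ C') :
    ¬ G.Adj a b := by
  intro hab
  obtain ⟨x, hx, rfl⟩ := mem_comps.1 hC
  obtain ⟨y, hy, rfl⟩ := mem_comps.1 hC'
  have h1 := mem_Kp.1 ha
  have h2 := mem_Kp.1 hb
  exact hne (Kp_eq ((h1.trans (Conn.adj hab h1.mem_right h2.mem_right)).trans h2.symm))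

/-- A piece of height at most `h`: it has a root after the removal of which it splits into
pieces of smaller height. -/
def PieceD (G : SimpleGraph V) : ℕ → Finset V → Prop
  | 0, _ => False
  | h + 1, Z => ∃ z ∈ Z, ∃ 𝒞 : Finset (Finset V), (∀ C ∈ 𝒞, PieceD G h C) ∧
      (∀ C ∈ 𝒞, ∀ C' ∈ 𝒞, C ≠ C' → Disjoint C C') ∧
      (∀ x, (x ∈ Z ∧ x ≠ z) ↔ ∃ C ∈ 𝒞, x ∈ C) ∧
      (∀ C ∈ 𝒞, ∀ C' ∈ 𝒞, C ≠ C' → ∀ a ∈ C, ∀ b ∈ C', ¬ G.Adj a b)

lemma PieceD.nonempty {h : ℕ} {Z : Finset V} (hZ : PieceD G h Z) : Z.Nonempty := by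
  cases h with
  | zero => exact hZ.elim
  | succ h =>
    obtain ⟨z, hz, -⟩ := hZ
    exact ⟨z, hz⟩

theorem exists_piece [Fintype V] : ∀ (h : ℕ) (W : Set V) (a : V), a ∈ W →
    (∀ (b : V) (p : G.Walk a b), p.IsPath → (∀ x ∈ p.support, x ∈ W) → p.length < h) →
    PieceD G h (Kp G W a) := by
  classical
  intro h
  induction h with
  | zero =>
    intro W a ha hp
    have := hp a Walk.nil Walk.IsPath.nil (by
      intro x hx
      rw [Walk.support_nil, List.mem_singleton] at hx
      rwa [hx])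
    exact absurd this (by simp)
  | succ h ih =>
    intro W a ha hp
    set W' : Set V := {x | x ∈ Kp G W a ∧ x ≠ a} with hW'
    refine ⟨a, mem_Kp.2 (Conn.refl ha), comps G W', ?_, ?_, ?_, ?_⟩
    · intro C hC
      obtain ⟨b, hb, rfl⟩ := mem_comps.1 hC
      obtain ⟨p, hpW⟩ := mem_Kp.1 hb.1
      -- the first vertex after `a` on a path from `a` to `b`
      have hpath := p.bypass_isPath
      have hsub : ∀ x ∈ p.bypass.support, x ∈ W := fun x hx =>
        hpW x (p.support_bypass_subset_support hx)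
      obtain ⟨b', hadj, t, ht⟩ : ∃ (y : V) (h : G.Adj a y) (t : G.Walk y b),
          p.bypass = Walk.cons h t := by
        have hab : a ≠ b := Ne.symm hb.2
        generalize p.bypass = q at *
        cases q with
        | nil => exact absurd rfl hab
        | @cons _ y _ h q => exact ⟨y, h, q, rfl⟩
      rw [ht, Walk.cons_isPath_iff] at hpath
      rw [ht] at hsub
      have htW' : ∀ x ∈ t.support, x ∈ W' := by
        intro x hx
        refine ⟨?_, ?_⟩
        · rw [mem_Kp]
          obtain ⟨r1, r2, rfl⟩ := split2 hx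
          refine ⟨Walk.cons hadj r1, ?_⟩
          intro y hy
          refine hsub y ?_
          rw [Walk.support_cons, List.mem_cons] at hy ⊢
          rcases hy with rfl | hy
          · exact Or.inl rfl
          · exact Or.inr (mem_append.2 (Or.inl hy))
        · rintro rfl
          exact hpath.2 hx
      have hconn : Conn G W' b' b := ⟨t, htW'⟩
      rw [← Kp_eq hconn]
      refine ih W' b' hconn.mem_left ?_
      intro c q hq hqW
      have ha' : a ∉ q.support := fun h => (hqW a h).2 rfl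
      have h1 := hp c (Walk.cons hadj q) (by
        rw [Walk.cons_isPath_iff]
        exact ⟨hq, ha'⟩) (by
        intro x hx
        rw [Walk.support_cons, List.mem_cons] at hx
        rcases hx with rfl | hx
        · exact ha
        · exact (mem_Kp.1 (hqW x hx).1).mem_right)
      rw [Walk.length_cons] at h1
      omega
    · intro C hC C' hC' hne
      exact comps_disj hC hC' hne
    · intro x
      exact comps_cover (G := G) (W := W')
    · intro C hC C' hC' hne x hx y hy
      exact comps_adj hC hC' hne hx hy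

/-- The neighbours of a vertex of `Z` lie in `Z` or in the list `X`, which misses `Z`. -/
def Closed (G : SimpleGraph V) (X : List V) (Z : Finset V) : Prop :=
  (∀ z ∈ Z, z ∉ X) ∧ ∀ z ∈ Z, ∀ y, G.Adj z y → y ∈ Z ∨ y ∈ X

lemma closed_child {X : List V} {Z : Finset V} (hZ : Closed G X Z) {z : V}
    {𝒞 : Finset (Finset V)} (h3 : ∀ x, (x ∈ Z ∧ x ≠ z) ↔ ∃ C ∈ 𝒞, x ∈ C)
    (h4 : ∀ C ∈ 𝒞, ∀ C' ∈ 𝒞, C ≠ C' → ∀ a ∈ C, ∀ b ∈ C', ¬ G.Adj a b) {C : Finset V}
    (hC : C ∈ 𝒞) : Closed G (z :: X) C := by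
  constructor
  · intro a ha hX
    have h5 := (h3 a).2 ⟨C, hC, ha⟩
    rw [List.mem_cons] at hX
    rcases hX with h | h
    · exact h5.2 h
    · exact hZ.1 a h5.1 h
  · intro a ha y hy
    have h5 := (h3 a).2 ⟨C, hC, ha⟩
    rcases hZ.2 a h5.1 y hy with h | h
    · by_cases hyz : y = z
      · exact Or.inr (by rw [hyz]; exact List.mem_cons_self)
      · obtain ⟨C', hC', hyC'⟩ := (h3 y).1 ⟨h, hyz⟩
        by_cases hne : C = C'
        · exact Or.inl (hne ▸ hyC')
        · exact absurd hy (h4 C hC C' hC' hne a ha y hyC')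
    · exact Or.inr (List.mem_cons_of_mem _ h)

section Codes

variable {p H : ℕ}

open Classical in
/-- The contribution of the vertex `x` to the degrees of `u k` minus that to those of `v k`. -/
noncomputable def dv (G : SimpleGraph V) (u v : Fin p → V) (x : V) (k : Fin p) : ℤ :=
  (if G.Adj x (u k) then 1 else 0) - (if G.Adj x (v k) then 1 else 0)

/-- Isomorphism types of pieces. -/
def Code (p H : ℕ) : Type :=
  (Σ s : ℕ, (Fin s → Fin s → Bool) × (Fin s → Fin H → Bool)) × (Fin p → ℤ)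

/-- The number of vertices. -/
def Code.s (κ : Code p H) : ℕ := κ.1.1
/-- The adjacencies inside the piece. -/
def Code.E (κ : Code p H) : Fin κ.s → Fin κ.s → Bool := κ.1.2.1
/-- The adjacencies to the members of the list `X`. -/
def Code.A (κ : Code p H) : Fin κ.s → Fin H → Bool := κ.1.2.2
/-- The sum of the contributions of the vertices. -/
def Code.d (κ : Code p H) : Fin p → ℤ := κ.2

lemma codes_finite (b : ℕ) : {κ : Code p H | κ.s < b ∧ ∀ k, |κ.d k| ≤ κ.s}.Finite := by
  have h1 : {κ : Code p H | κ.s < b ∧ ∀ k, |κ.d k| ≤ κ.s} ⊆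
      ⋃ s ∈ Finset.range b, (fun q : ((Fin s → Fin s → Bool) × (Fin s → Fin H → Bool)) ×
        (Fin p → ℤ) => ((⟨s, q.1⟩, q.2) : Code p H)) '' (Set.univ ×ˢ
          {d | ∀ k, d k ∈ Set.Icc (-(s : ℤ)) s}) := by
    rintro ⟨⟨s, EA⟩, d⟩ ⟨hs, hd⟩
    have hs' : s < b := hs
    refine Set.mem_biUnion (Finset.mem_coe.2 (Finset.mem_range.2 hs')) ?_
    refine ⟨(EA, d), ⟨Set.mem_univ _, ?_⟩, rfl⟩
    intro k
    exact abs_le.1 (hd k)
  refine Set.Finite.subset ?_ h1
  refine Set.Finite.biUnion (Finset.finite_toSet _) ?_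
  intro s _
  refine Set.Finite.image _ (Set.Finite.prod Set.finite_univ ?_)
  exact Set.Finite.pi' fun _ => Set.finite_Icc _ _

/-- The piece `D` with its adjacencies to the members of `X` has the code `κ`. -/
def HasCode (G : SimpleGraph V) (u v : Fin p → V) (X : List V) (D : Finset V) (κ : Code p H) :
    Prop :=
  ∃ β : Fin κ.s → V, Function.Injective β ∧ (∀ x, x ∈ D ↔ ∃ c, β c = x) ∧
    (∀ c c', κ.E c c' = true ↔ G.Adj (β c) (β c')) ∧
    (∀ c t, κ.A c t = true ↔ ∃ x, X[t.val]? = some x ∧ G.Adj (β c) x) ∧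
    ∀ k, κ.d k = ∑ x ∈ D, dv G u v x k

lemma exists_code (G : SimpleGraph V) (u v : Fin p → V) (X : List V) (D : Finset V) :
    ∃ κ : Code p H, HasCode G u v X D κ := by
  classical
  let β : Fin D.card → V := fun c => (D.equivFin.symm c).1
  refine ⟨(⟨D.card, (fun c c' => decide (G.Adj (β c) (β c')),
    fun c t => decide (∃ x, X[t.val]? = some x ∧ G.Adj (β c) x))⟩,
    fun k => ∑ x ∈ D, dv G u v x k), β, ?_, ?_, ?_, ?_, ?_⟩
  · intro a b h
    exact D.equivFin.symm.injective (Subtype.ext h)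
  · intro x
    constructor
    · intro hx
      exact ⟨D.equivFin ⟨x, hx⟩, by simp [β]⟩
    · rintro ⟨c, rfl⟩
      exact (D.equivFin.symm c).2
  · intro c c'
    exact decide_eq_true_iff
  · intro c t
    exact decide_eq_true_iff
  · intro k
    rfl

lemma HasCode.card {u v : Fin p → V} {X : List V} {D : Finset V} {κ : Code p H}
    (h : HasCode G u v X D κ) : D.card = κ.s := by
  classical
  obtain ⟨β, hβ, hD, -⟩ := h
  have h1 : D = Finset.univ.image β := by
    ext x
    rw [hD, Finset.mem_image]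
    simp
  rw [h1, Finset.card_image_of_injective _ hβ, Finset.card_univ, Fintype.card_fin]

lemma HasCode.abs_le {u v : Fin p → V} {X : List V} {D : Finset V} {κ : Code p H}
    (h : HasCode G u v X D κ) (k : Fin p) : |κ.d k| ≤ κ.s := by
  classical
  have hc := h.card
  obtain ⟨β, hβ, hD, -, -, hd⟩ := h
  rw [hd k, ← hc]
  refine (Finset.abs_sum_le_sum_abs _ _).trans ?_
  refine (Finset.sum_le_card_nsmul _ _ 1 ?_).trans ?_
  · intro x _
    unfold dv
    split_ifs <;> simp
  · simp

/-- Many pieces with the same code form a family. -/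
lemma exists_fam {u v : Fin p → V} {X : List V} (hH : X.length ≤ H) {κ : Code p H} {r : ℕ}
    (hr : 0 < r) {𝒟 : Finset (Finset V)} (hcard : r ≤ 𝒟.card)
    (hdisj : ∀ D ∈ 𝒟, ∀ D' ∈ 𝒟, D ≠ D' → Disjoint D D')
    (h : ∀ D ∈ 𝒟, Closed G X D ∧ HasCode G u v X D κ) (hu : ∀ k, u k ∈ X) (hv : ∀ k, v k ∈ X) :
    ∃ F : Fam G, F.s = κ.s ∧ F.r = r ∧ F.X = {x | x ∈ X} ∧
      ∀ k, (F.slope (u k) : ℤ) - F.slope (v k) = κ.d k := by
  classical
  have hcl : ∀ i : Fin r, ∃ D ∈ 𝒟, True := by
    intro i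
    have : 0 < 𝒟.card := by omega
    obtain ⟨D, hD⟩ := Finset.card_pos.1 this
    exact ⟨D, hD, trivial⟩
  let D : Fin r → Finset V := fun i => (𝒟.equivFin.symm ⟨i.val, by have := i.isLt; omega⟩).1
  have hDmem : ∀ i, D i ∈ 𝒟 := fun i => (𝒟.equivFin.symm ⟨i.val, by have := i.isLt; omega⟩).2
  have hDinj : ∀ i j, D i = D j → i = j := by
    intro i j hij
    have h1 := 𝒟.equivFin.symm.injective (Subtype.ext hij)
    have h2 := congrArg Fin.val h1
    exact Fin.ext h2
  choose β hβ1 hβ2 hβ3 hβ4 hβ5 using fun i => (h (D i) (hDmem i)).2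
  let i0 : Fin r := ⟨0, hr⟩
  -- the adjacencies to `X` agree
  have hXagree : ∀ i c x, x ∈ X → (G.Adj (β i c) x ↔ G.Adj (β i0 c) x) := by
    intro i c x hx
    obtain ⟨t, ht⟩ := List.mem_iff_getElem?.1 hx
    have htlen : t < X.length := (List.getElem?_eq_some_iff.1 ht).1
    have key : ∀ i, κ.A c ⟨t, by omega⟩ = true ↔ G.Adj (β i c) x := by
      intro i
      rw [hβ4]
      constructor
      · rintro ⟨y, hy, hadj⟩
        have hyx : y = x := by
          have h1 : some y = some x := hy.symm.trans ht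
          exact Option.some.inj h1
        rw [← hyx]
        exact hadj
      · intro hadj
        exact ⟨x, ht, hadj⟩
    rw [← key i, ← key i0]
  refine ⟨{ s := κ.s
            E := fun c c' => κ.E c c' = true
            X := {x | x ∈ X}
            A := fun c z => z ∈ X ∧ G.Adj (β i0 c) z
            r := r
            hr := hr
            β := β
            inj := ?_
            hX := ?_
            hE := ?_
            hA := ?_
            hAX := ?_ }, rfl, rfl, rfl, ?_⟩
  · intro i i' c c' he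
    have h1 : β i c ∈ D i := (hβ2 i _).2 ⟨c, rfl⟩
    have h2 : β i c ∈ D i' := by
      rw [he]
      exact (hβ2 i' _).2 ⟨c', rfl⟩
    have hii : i = i' := by
      by_contra hne
      have h3 := hdisj (D i) (hDmem i) (D i') (hDmem i') fun h => hne (hDinj i i' h)
      exact Finset.disjoint_left.1 h3 h1 h2
    subst hii
    exact ⟨rfl, hβ1 i he⟩
  · intro i c hx
    exact (h (D i) (hDmem i)).1.1 _ ((hβ2 i _).2 ⟨c, rfl⟩) hx
  · intro i c c'
    exact (hβ3 i c c').symm
  · intro i c z hz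
    constructor
    · intro hadj
      have hzX : z ∈ X := by
        rcases (h (D i) (hDmem i)).1.2 _ ((hβ2 i _).2 ⟨c, rfl⟩) z hadj with h1 | h1
        · obtain ⟨c', hc'⟩ := (hβ2 i z).1 h1
          exact absurd hc' (hz c')
        · exact h1
      exact ⟨hzX, (hXagree i c z hzX).1 hadj⟩
    · rintro ⟨hzX, hadj⟩
      exact (hXagree i c z hzX).2 hadj
  · intro c z hz
    exact hz.1
  · intro k
    rw [hβ5 i0 k]
    unfold Fam.slope
    simp only
    have hsum : ∀ y ∈ X, ((({c | y ∈ X ∧ G.Adj (β i0 c) y} : Set (Fin κ.s)).ncard : ℕ) : ℤ) =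
        ∑ x ∈ D i0, if G.Adj x y then (1 : ℤ) else 0 := by
      intro y hy
      have h1 : D i0 = Finset.univ.image (β i0) := by
        ext x
        rw [hβ2, Finset.mem_image]
        simp
      rw [h1, Finset.sum_image (fun a _ b _ hab => hβ1 i0 hab), Finset.sum_boole]
      have h2 : ({c | y ∈ X ∧ G.Adj (β i0 c) y} : Set (Fin κ.s)) =
          ((Finset.univ.filter fun c => G.Adj (β i0 c) y : Finset (Fin κ.s)) :
            Set (Fin κ.s)) := by
        ext c
        simp [hy]
      rw [h2, Set.ncard_coe_finset]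
    rw [hsum _ (hu k), hsum _ (hv k), ← Finset.sum_sub_distrib]
    refine Finset.sum_congr rfl ?_
    intro x _
    unfold dv
    rfl

end Codes

end Pool.Agent.KPI
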