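import Pool.Agent.KPI.Pump3
import Pool.Agent.KPI.Pump4

/-!
# Averages of pieces along an ultrafilter
-/

namespace Pool.Agent.KPI
open SimpleGraph Filter

section Basic

variable {V : Type*} {p H : ℕ} (G : SimpleGraph V) (u v : Fin p → V)

/-- The contribution of a vertex, as a real vector. -/
noncomputable def rv (x : V) : Fin p → ℝ := fun k => (dv G u v x k : ℝ)

/-- The average contribution of the vertices of `D`. -/
noncomputable def av (D : Finset V) : Fin p → ℝ := (D.card : ℝ)⁻¹ • ∑ x ∈ D, rv G u v x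

/-- The average contribution of the vertices of a piece with a given code. -/
noncomputable def vh (κ : Code p H) : Fin p → ℝ := fun k => (κ.d k : ℝ) / κ.s

variable {G u v}

lemma rv_norm (x : V) : ‖rv G u v x‖ ≤ 1 := by
  rw [pi_norm_le_iff_of_nonneg zero_le_one]
  intro k
  unfold rv dv
  split_ifs <;> simp

lemma sum_norm (D : Finset V) : ‖∑ x ∈ D, rv G u v x‖ ≤ D.card := by
  refine (norm_sum_le _ _).trans ?_
  refine (Finset.sum_le_card_nsmul _ _ 1 fun x _ => rv_norm x).trans ?_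
  simp

lemma av_norm (D : Finset V) : ‖av G u v D‖ ≤ 1 := by
  unfold av
  rw [norm_smul, norm_inv, Real.norm_natCast]
  by_cases h : D.card = 0
  · rw [h]
    simp
  · have h1 : (0 : ℝ) < D.card := by exact_mod_cast Nat.pos_of_ne_zero h
    rw [inv_mul_le_iff₀ h1, mul_one]
    exact sum_norm D

lemma card_smul_av (D : Finset V) : (D.card : ℝ) • av G u v D = ∑ x ∈ D, rv G u v x := by
  unfold av
  by_cases h : D.card = 0
  · rw [Finset.card_eq_zero] at h
    rw [h]
    simp
  · have h1 : (D.card : ℝ) ≠ 0 := by exact_mod_cast h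
    rw [smul_smul, mul_inv_cancel₀ h1, one_smul]

lemma HasCode.av_eq {X : List V} {D : Finset V} {κ : Code p H} (h : HasCode G u v X D κ) :
    av G u v D = vh κ := by
  have hc := h.card
  obtain ⟨β, -, -, -, -, hd⟩ := h
  funext k
  unfold av vh
  rw [Pi.smul_apply, Finset.sum_apply, hd k, hc, smul_eq_mul, div_eq_inv_mul]
  congr 1
  push_cast
  rfl

/-- Replacing a set by a large subset changes the average only a little. -/
lemma av_close [DecidableEq V] {W D : Finset V} (hsub : D ⊆ W) {ε : ℝ} (hW : 0 < W.card)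
    (hε : 2 * ((W.card : ℝ) - D.card) ≤ ε * W.card) :
    dist (av G u v W) (av G u v D) ≤ ε := by
  have hWpos : (0 : ℝ) < W.card := by exact_mod_cast hW
  have h1 : ∑ x ∈ W, rv G u v x = ∑ x ∈ W \ D, rv G u v x + (D.card : ℝ) • av G u v D := by
    rw [card_smul_av, Finset.sum_sdiff hsub]
  have h2 : av G u v W - av G u v D =
      (W.card : ℝ)⁻¹ • (∑ x ∈ W \ D, rv G u v x - ((W.card : ℝ) - D.card) • av G u v D) := by
    have h3 : av G u v D = (W.card : ℝ)⁻¹ • ((W.card : ℝ) • av G u v D) := by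
      rw [smul_smul, inv_mul_cancel₀ hWpos.ne', one_smul]
    have h4 : av G u v W = (W.card : ℝ)⁻¹ • ∑ x ∈ W, rv G u v x := rfl
    rw [h4, h1]
    nth_rewrite 2 [h3]
    rw [← smul_sub]
    congr 1
    rw [sub_smul]
    abel
  have h5 : ((W \ D).card : ℝ) = (W.card : ℝ) - D.card := by
    rw [Finset.card_sdiff_of_subset hsub, Nat.cast_sub (Finset.card_le_card hsub)]
  have h6 : (0 : ℝ) ≤ (W.card : ℝ) - D.card := by
    rw [← h5]
    exact Nat.cast_nonneg _
  rw [dist_eq_norm, h2, norm_smul, norm_inv, Real.norm_natCast, inv_mul_le_iff₀ hWpos]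
  calc ‖∑ x ∈ W \ D, rv G u v x - ((W.card : ℝ) - D.card) • av G u v D‖
      ≤ ‖∑ x ∈ W \ D, rv G u v x‖ + ‖((W.card : ℝ) - D.card) • av G u v D‖ := norm_sub_le _ _
    _ ≤ ((W.card : ℝ) - D.card) + ((W.card : ℝ) - D.card) * 1 := by
        refine add_le_add ?_ ?_
        · rw [← h5]
          exact sum_norm _
        · rw [norm_smul, Real.norm_of_nonneg h6]
          exact mul_le_mul_of_nonneg_left (av_norm D) h6
    _ ≤ W.card * ε := by linarith

/-- The average over a disjoint union. -/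
lemma av_union [DecidableEq V] {𝒟 : Finset (Finset V)} (hne : 𝒟.Nonempty)
    (hpos : ∀ D ∈ 𝒟, D.Nonempty)
    (hdisj : ∀ D ∈ 𝒟, ∀ D' ∈ 𝒟, D ≠ D' → Disjoint D D') {C : Set (Fin p → ℝ)}
    (hC : Convex ℝ C) (h : ∀ D ∈ 𝒟, av G u v D ∈ C) : av G u v (𝒟.biUnion id) ∈ C := by
  have hcard : (𝒟.biUnion id).card = ∑ D ∈ 𝒟, D.card := by
    rw [Finset.card_biUnion]
    · rfl
    · intro D hD D' hD' hne
      exact hdisj D hD D' hD' hne
  have hcpos : 0 < (𝒟.biUnion id).card := by
    obtain ⟨D, hD⟩ := hne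
    obtain ⟨x, hx⟩ := hpos D hD
    exact Finset.card_pos.2 ⟨x, Finset.mem_biUnion.2 ⟨D, hD, hx⟩⟩
  have hcpos' : (0 : ℝ) < (𝒟.biUnion id).card := by exact_mod_cast hcpos
  have h1 : av G u v (𝒟.biUnion id) =
      ∑ D ∈ 𝒟, ((D.card : ℝ) / (𝒟.biUnion id).card) • av G u v D := by
    have h2 : ∑ x ∈ 𝒟.biUnion id, rv G u v x = ∑ D ∈ 𝒟, (D.card : ℝ) • av G u v D := by
      rw [Finset.sum_biUnion]
      · refine Finset.sum_congr rfl ?_
        intro D _
        rw [card_smul_av]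
        rfl
      · intro D hD D' hD' hne
        exact hdisj D hD D' hD' hne
    have h3 : av G u v (𝒟.biUnion id) =
        ((𝒟.biUnion id).card : ℝ)⁻¹ • ∑ x ∈ 𝒟.biUnion id, rv G u v x := rfl
    rw [h3, h2, Finset.smul_sum]
    refine Finset.sum_congr rfl ?_
    intro D _
    rw [smul_smul, div_eq_inv_mul]
  rw [h1]
  refine hC.sum_mem ?_ ?_ h
  · intro D _
    positivity
  · rw [← Finset.sum_div, div_eq_one_iff_eq hcpos'.ne', hcard]
    push_cast
    rfl

end Basic

variable {p H : ℕ} {n : ℕ → ℕ} (G : ∀ i, SimpleGraph (Fin (n i))) (u v : ∀ i, Fin p → Fin (n i))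
  (𝒰 : Ultrafilter ℕ)

/-- The graph number `i` has `r` disjoint pieces of height at most `h` with the code `κ`. -/
def HasFam (i h r : ℕ) (κ : Code p H) : Prop :=
  ∃ X : List (Fin (n i)), X.length + h ≤ H ∧ (∀ k, u i k ∈ X ∧ v i k ∈ X) ∧
    ∃ 𝒟 : Finset (Finset (Fin (n i))), r ≤ 𝒟.card ∧
      (∀ D ∈ 𝒟, ∀ D' ∈ 𝒟, D ≠ D' → Disjoint D D') ∧
      ∀ D ∈ 𝒟, PieceD (G i) h D ∧ Closed (G i) X D ∧ HasCode (G i) (u i) (v i) X D κ

/-- The codes which occur arbitrarily often. -/
def TT (H h : ℕ) : Set (Code p H) := {κ | ∀ r, ∀ᶠ i in (𝒰 : Filter ℕ), HasFam G u v i h r κ}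

/-- The average contributions of the codes of height less than `h` which occur arbitrarily
often. -/
def SS (H h : ℕ) : Set (Fin p → ℝ) := {y | ∃ h' < h, ∃ κ ∈ TT G u v 𝒰 H h', vh κ = y}

/-- The convex hull. -/
def CC (H h : ℕ) : Set (Fin p → ℝ) := convexHull ℝ (SS G u v 𝒰 H h)

lemma SS_mono {h h' : ℕ} (hh : h ≤ h') : SS G u v 𝒰 H h ⊆ SS G u v 𝒰 H h' := by
  rintro y ⟨k, hk, κ, hκ, rfl⟩
  exact ⟨k, by omega, κ, hκ, rfl⟩

lemma CC_mono {h h' : ℕ} (hh : h ≤ h') : CC G u v 𝒰 H h ⊆ CC G u v 𝒰 H h' :=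
  convexHull_mono (SS_mono G u v 𝒰 hh)

/-- Large pieces of height at most `h` have averages close to `CC h`. -/
def Big (H h : ℕ) : Prop := ∀ ε : ℝ, 0 < ε → ∃ b : ℕ, ∀ᶠ i in (𝒰 : Filter ℕ),
  ∀ (X : List (Fin (n i))) (Z : Finset (Fin (n i))), X.length + h ≤ H →
    (∀ k, u i k ∈ X ∧ v i k ∈ X) → PieceD (G i) h Z → Closed (G i) X Z → b ≤ Z.card →
    av (G i) (u i) (v i) Z ∈ Metric.cthickening ε (CC G u v 𝒰 H h)

/-- Large sets which consist of pieces of height at most `h`, with few exceptions, have averages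
close to `CC (h + 1)`. -/
theorem avg {h : ℕ} (hB : Big G u v 𝒰 H h) (c : ℕ) {ε : ℝ} (hε : 0 < ε) :
    ∃ b : ℕ, ∀ᶠ i in (𝒰 : Filter ℕ), ∀ (X : List (Fin (n i))) (𝒟 : Finset (Finset (Fin (n i))))
      (W : Finset (Fin (n i))), X.length + h ≤ H → (∀ k, u i k ∈ X ∧ v i k ∈ X) →
      (∀ D ∈ 𝒟, ∀ D' ∈ 𝒟, D ≠ D' → Disjoint D D') →
      (∀ D ∈ 𝒟, PieceD (G i) h D ∧ Closed (G i) X D ∧ D ⊆ W) →
      (∀ E : Finset (Fin (n i)), E ⊆ W → (∀ x ∈ E, ∀ D ∈ 𝒟, x ∉ D) → E.card ≤ c) →
      b ≤ W.card → av (G i) (u i) (v i) W ∈ Metric.cthickening ε (CC G u v 𝒰 H (h + 1)) := by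
  classical
  obtain ⟨b0, hb0⟩ := hB (ε / 2) (by linarith)
  -- the small codes
  have hfin := codes_finite (p := p) (H := H) b0
  set 𝒦 : Finset (Code p H) := hfin.toFinset with h𝒦
  have hr : ∀ κ : Code p H, ∃ r : ℕ, κ ∉ TT G u v 𝒰 H h →
      ∀ᶠ i in (𝒰 : Filter ℕ), ¬ HasFam G u v i h r κ := by
    intro κ
    by_cases hκ : κ ∈ TT G u v 𝒰 H h
    · exact ⟨0, fun h => absurd hκ h⟩
    · have h1 : ∃ r, ¬ ∀ᶠ i in (𝒰 : Filter ℕ), HasFam G u v i h r κ := by
        by_contra hcon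
        push Not at hcon
        exact hκ hcon
      obtain ⟨r, hr⟩ := h1
      exact ⟨r, fun _ => Ultrafilter.eventually_not.2 hr⟩
  choose r hr using hr
  have hall : ∀ᶠ i in (𝒰 : Filter ℕ), ∀ κ ∈ 𝒦, κ ∉ TT G u v 𝒰 H h →
      ¬ HasFam G u v i h (r κ) κ := by
    rw [Filter.eventually_all_finset]
    intro κ _
    by_cases hκ : κ ∈ TT G u v 𝒰 H h
    · exact Filter.Eventually.of_forall fun i h => absurd hκ h
    · exact (hr κ hκ).mono fun i hi _ => hi
  set B : ℕ := b0 * ∑ κ ∈ 𝒦, r κ with hBdef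
  obtain ⟨b, hb⟩ := exists_nat_gt (4 * ((c : ℝ) + B) / ε + c + B)
  refine ⟨b, ?_⟩
  filter_upwards [hb0, hall] with i hi1 hi2
  intro X 𝒟 W hX hR hdisj h𝒟 hleft hW
  set good := 𝒟.filter fun D => av (G i) (u i) (v i) D ∈
    Metric.cthickening (ε / 2) (CC G u v 𝒰 H (h + 1)) with hgood
  set bad := 𝒟.filter fun D => av (G i) (u i) (v i) D ∉
    Metric.cthickening (ε / 2) (CC G u v 𝒰 H (h + 1)) with hbad
  -- bad pieces are small and have a rare code
  have hbad1 : ∀ D ∈ bad, D.card < b0 ∧ ∃ κ ∈ 𝒦, κ ∉ TT G u v 𝒰 H h ∧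
      HasCode (G i) (u i) (v i) X D κ := by
    intro D hD
    rw [hbad, Finset.mem_filter] at hD
    have hlt : D.card < b0 := by
      by_contra hge
      push Not at hge
      exact hD.2 (Metric.cthickening_subset_of_subset _ (CC_mono G u v 𝒰 (Nat.le_succ h))
        (hi1 X D hX hR (h𝒟 D hD.1).1 (h𝒟 D hD.1).2.1 hge))
    obtain ⟨κ, hκ⟩ := exists_code (H := H) (G i) (u i) (v i) X D
    refine ⟨hlt, κ, ?_, ?_, hκ⟩
    · rw [h𝒦, Set.Finite.mem_toFinset]
      exact ⟨by rw [← hκ.card]; exact hlt, hκ.abs_le⟩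
    · intro hT
      apply hD.2
      rw [hκ.av_eq]
      refine Metric.self_subset_cthickening _ (subset_convexHull ℝ _ ?_)
      exact ⟨h, Nat.lt_succ_self h, κ, hT, rfl⟩
  have hbadcard : bad.card ≤ ∑ κ ∈ 𝒦, r κ := by
    have hnon : Nonempty (Code p H) :=
      ⟨(⟨0, ((fun _ _ => false), (fun _ _ => false))⟩, fun _ => 0)⟩
    choose! hlt κ hκ1 hκ2 hκ3 using hbad1
    rw [Finset.card_eq_sum_card_fiberwise (f := κ) (t := 𝒦) (fun D hD => hκ1 D hD)]
    refine Finset.sum_le_sum ?_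
    intro κ' hκ'
    by_contra hcon
    push Not at hcon
    have hne : (bad.filter fun D => κ D = κ').Nonempty := by
      rw [← Finset.card_pos]
      omega
    obtain ⟨D0, hD0⟩ := hne
    rw [Finset.mem_filter] at hD0
    have hnT : κ' ∉ TT G u v 𝒰 H h := by
      rw [← hD0.2]
      exact hκ2 D0 hD0.1
    refine hi2 κ' hκ' hnT ⟨X, hX, hR, bad.filter fun D => κ D = κ', hcon.le, ?_, ?_⟩
    · intro D hD D' hD' hne
      exact hdisj D (Finset.mem_filter.1 (Finset.mem_filter.1 hD).1).1 D'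
        (Finset.mem_filter.1 (Finset.mem_filter.1 hD').1).1 hne
    · intro D hD
      rw [Finset.mem_filter] at hD
      have hD𝒟 : D ∈ 𝒟 := (Finset.mem_filter.1 hD.1).1
      refine ⟨(h𝒟 D hD𝒟).1, (h𝒟 D hD𝒟).2.1, ?_⟩
      rw [← hD.2]
      exact hκ3 D hD.1
  -- the union of the good pieces is almost everything
  set U := good.biUnion id with hU
  have hUW : U ⊆ W := by
    intro x hx
    obtain ⟨D, hD, hx⟩ := Finset.mem_biUnion.1 hx
    exact (h𝒟 D (Finset.mem_filter.1 hD).1).2.2 hx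
  have hcardU : W.card ≤ U.card + (c + B) := by
    have h1 : W ⊆ U ∪ ((W \ 𝒟.biUnion id) ∪ bad.biUnion id) := by
      intro x hx
      rw [Finset.mem_union, Finset.mem_union, Finset.mem_sdiff]
      by_cases h1 : x ∈ 𝒟.biUnion id
      · obtain ⟨D, hD, hxD⟩ := Finset.mem_biUnion.1 h1
        by_cases h2 : D ∈ good
        · exact Or.inl (Finset.mem_biUnion.2 ⟨D, h2, hxD⟩)
        · refine Or.inr (Or.inr (Finset.mem_biUnion.2 ⟨D, ?_, hxD⟩))
          rw [hbad, Finset.mem_filter]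
          refine ⟨hD, fun h3 => h2 ?_⟩
          rw [hgood, Finset.mem_filter]
          exact ⟨hD, h3⟩
      · exact Or.inr (Or.inl ⟨hx, h1⟩)
    have h2 := Finset.card_le_card h1
    have h3 := Finset.card_union_le U ((W \ 𝒟.biUnion id) ∪ bad.biUnion id)
    have h4 := Finset.card_union_le (W \ 𝒟.biUnion id) (bad.biUnion id)
    have h5 : (W \ 𝒟.biUnion id).card ≤ c := by
      refine hleft _ Finset.sdiff_subset ?_
      intro x hx D hD hxD
      rw [Finset.mem_sdiff] at hx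
      exact hx.2 (Finset.mem_biUnion.2 ⟨D, hD, hxD⟩)
    have h6 : (bad.biUnion id).card ≤ B := by
      refine Finset.card_biUnion_le.trans ?_
      refine (Finset.sum_le_card_nsmul _ _ b0 ?_).trans ?_
      · intro D hD
        exact (hbad1 D hD).1.le
      · rw [smul_eq_mul, hBdef, mul_comm]
        exact Nat.mul_le_mul_left _ hbadcard
    omega
  have hbR : 4 * ((c : ℝ) + B) / ε + c + B < W.card := by
    have : (b : ℝ) ≤ W.card := by exact_mod_cast hW
    linarith
  have hnn : 0 ≤ 4 * ((c : ℝ) + B) / ε := by positivity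
  have hcB : (0 : ℝ) ≤ (c : ℝ) + B := by positivity
  have hWU : (W.card : ℝ) - U.card ≤ (c : ℝ) + B := by
    have : ((W.card : ℕ) : ℝ) ≤ ((U.card + (c + B) : ℕ) : ℝ) := by exact_mod_cast hcardU
    push_cast at this
    linarith
  have hUpos : 0 < U.card := by
    have : (0 : ℝ) < U.card := by linarith
    exact_mod_cast this
  have hgne : good.Nonempty := by
    obtain ⟨x, hx⟩ := Finset.card_pos.1 hUpos
    obtain ⟨D, hD, -⟩ := Finset.mem_biUnion.1 hx
    exact ⟨D, hD⟩
  have hyU : av (G i) (u i) (v i) U ∈ Metric.cthickening (ε / 2) (CC G u v 𝒰 H (h + 1)) := by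
    refine av_union hgne ?_ ?_ ((convex_convexHull ℝ _).cthickening _) ?_
    · intro D hD
      exact (h𝒟 D (Finset.mem_filter.1 hD).1).1.nonempty
    · intro D hD D' hD' hne
      exact hdisj D (Finset.mem_filter.1 hD).1 D' (Finset.mem_filter.1 hD').1 hne
    · intro D hD
      exact (Finset.mem_filter.1 hD).2
  have hWpos : 0 < W.card := by
    have := Finset.card_le_card hUW
    omega
  have hdist : dist (av (G i) (u i) (v i) W) (av (G i) (u i) (v i) U) ≤ ε / 2 := by
    refine av_close hUW hWpos ?_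
    have h1 : 4 * ((c : ℝ) + B) ≤ ε * W.card := by
      have h2 : 4 * ((c : ℝ) + B) / ε ≤ W.card := by linarith
      rw [div_le_iff₀ hε] at h2
      linarith
    linarith
  have h1 := Metric.mem_cthickening_of_dist_le _ _ _ _ hyU hdist
  have h2 := Metric.cthickening_cthickening_subset (by linarith : 0 ≤ ε / 2)
    (by linarith : 0 ≤ ε / 2) (CC G u v 𝒰 H (h + 1)) h1
  rwa [add_halves] at h2

theorem big_all : ∀ h, Big G u v 𝒰 H h := by
  classical
  intro h
  induction h with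
  | zero =>
    intro ε _
    refine ⟨0, Filter.Eventually.of_forall ?_⟩
    intro i X Z _ _ hZ
    exact hZ.elim
  | succ h ih =>
    intro ε hε
    obtain ⟨b, hb⟩ := avg G u v 𝒰 ih 1 hε
    refine ⟨b, ?_⟩
    filter_upwards [hb] with i hi
    intro X Z hX hR hZ hcl hbZ
    obtain ⟨z, hz, 𝒞, h1, h2, h3, h4⟩ := hZ
    refine hi (z :: X) 𝒞 Z (by rw [List.length_cons]; omega) ?_ h2 ?_ ?_ hbZ
    · intro k
      exact ⟨List.mem_cons_of_mem _ (hR k).1, List.mem_cons_of_mem _ (hR k).2⟩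
    · intro C hC
      exact ⟨h1 C hC, closed_child hcl h3 h4 hC, fun x hx => ((h3 x).2 ⟨C, hC, hx⟩).1⟩
    · intro E hE hE'
      have hsub : E ⊆ {z} := by
        intro x hx
        rw [Finset.mem_singleton]
        by_contra hne
        obtain ⟨C, hC, hxC⟩ := (h3 x).1 ⟨hE hx, hne⟩
        exact hE' x hx C hC hxC
      exact (Finset.card_le_card hsub).trans (by rw [Finset.card_singleton])

variable {G u v 𝒰}

lemma TT_piece {h : ℕ} {κ : Code p H} (hκ : κ ∈ TT G u v 𝒰 H h) :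
    ∀ᶠ i in (𝒰 : Filter ℕ), ∃ (X : List (Fin (n i))) (D : Finset (Fin (n i))),
      X.length + h ≤ H ∧ (∀ k, u i k ∈ X ∧ v i k ∈ X) ∧ PieceD (G i) h D ∧ Closed (G i) X D ∧
      HasCode (G i) (u i) (v i) X D κ := by
  filter_upwards [hκ 1] with i hi
  obtain ⟨X, hX, hR, 𝒟, hcard, -, h𝒟⟩ := hi
  obtain ⟨D, hD⟩ := Finset.card_pos.1 (show 0 < 𝒟.card by omega)
  exact ⟨X, D, hX, hR, (h𝒟 D hD).1, (h𝒟 D hD).2.1, (h𝒟 D hD).2.2⟩

lemma TT_abs {h : ℕ} {κ : Code p H} (hκ : κ ∈ TT G u v 𝒰 H h) (k : Fin p) :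
    |κ.d k| ≤ κ.s := by
  obtain ⟨i, X, D, -, -, -, -, hD⟩ := (TT_piece hκ).exists
  exact hD.abs_le k

lemma TT_pos {h : ℕ} {κ : Code p H} (hκ : κ ∈ TT G u v 𝒰 H h) : 0 < κ.s := by
  obtain ⟨i, X, D, -, -, hP, -, hD⟩ := (TT_piece hκ).exists
  rw [← hD.card]
  exact Finset.card_pos.2 hP.nonempty

lemma vh_norm {κ : Code p H} (hκ : ∀ k, |κ.d k| ≤ κ.s) : ‖vh κ‖ ≤ 1 := by
  rw [pi_norm_le_iff_of_nonneg zero_le_one]
  intro k
  unfold vh
  rw [Real.norm_eq_abs, abs_div, Nat.abs_cast]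
  refine div_le_one_of_le₀ ?_ (Nat.cast_nonneg _)
  exact_mod_cast hκ k

variable (G u v 𝒰)

theorem compact_CC : ∀ h, IsCompact (CC G u v 𝒰 H h) := by
  classical
  intro h
  induction h with
  | zero =>
    have : CC G u v 𝒰 H 0 = ∅ := by
      unfold CC
      rw [convexHull_eq_empty]
      ext y
      constructor
      · rintro ⟨h', hh, -⟩
        omega
      · intro h
        exact h.elim
    rw [this]
    exact isCompact_empty
  | succ h ih =>
    set K := SS G u v 𝒰 H (h + 1) ∪ CC G u v 𝒰 H h with hK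
    have hfinε : ∀ ε : ℝ, 0 < ε → {y ∈ SS G u v 𝒰 H (h + 1) |
        y ∉ Metric.cthickening ε (CC G u v 𝒰 H h)}.Finite := by
      intro ε hε
      have hb : ∀ h', ∃ b : ℕ, ∀ κ ∈ TT G u v 𝒰 H h', b ≤ κ.s →
          vh κ ∈ Metric.cthickening ε (CC G u v 𝒰 H h') := by
        intro h'
        obtain ⟨b, hb⟩ := big_all G u v 𝒰 (H := H) h' ε hε
        refine ⟨b, ?_⟩
        intro κ hκ hbκ
        obtain ⟨i, hi1, X, D, hX, hR, hP, hcl, hD⟩ := (hb.and (TT_piece hκ)).exists
        rw [← hD.av_eq]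
        exact hi1 X D hX hR hP hcl (by rw [hD.card]; exact hbκ)
      choose b hb using hb
      refine Set.Finite.subset ((codes_finite (p := p) (H := H)
        (∑ h' ∈ Finset.range (h + 1), b h')).image vh) ?_
      rintro y ⟨⟨h', hh', κ, hκ, rfl⟩, hy⟩
      refine ⟨κ, ⟨?_, TT_abs hκ⟩, rfl⟩
      by_contra hge
      push Not at hge
      have h1 : b h' ≤ ∑ h' ∈ Finset.range (h + 1), b h' :=
        Finset.single_le_sum (f := b) (fun _ _ => Nat.zero_le _) (Finset.mem_range.2 hh')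
      exact hy (Metric.cthickening_subset_of_subset _ (CC_mono G u v 𝒰 (by omega))
        (hb h' κ hκ (h1.trans hge)))
    have hKcl : IsClosed K := by
      refine isClosed_of_closure_subset ?_
      intro x hx
      by_contra hxK
      have hx1 : x ∉ SS G u v 𝒰 H (h + 1) := fun h => hxK (Or.inl h)
      have hx2 : x ∉ CC G u v 𝒰 H h := fun h => hxK (Or.inr h)
      apply hx2
      have hcl : closure (CC G u v 𝒰 H h) = CC G u v 𝒰 H h := ih.isClosed.closure_eq
      rw [← hcl, Metric.closure_eq_iInter_cthickening]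
      simp only [Set.mem_iInter]
      intro ε hε
      have hsub : K ⊆ {y ∈ SS G u v 𝒰 H (h + 1) |
          y ∉ Metric.cthickening ε (CC G u v 𝒰 H h)} ∪
          Metric.cthickening ε (CC G u v 𝒰 H h) := by
        rintro y (hy | hy)
        · by_cases h1 : y ∈ Metric.cthickening ε (CC G u v 𝒰 H h)
          · exact Or.inr h1
          · exact Or.inl ⟨hy, h1⟩
        · exact Or.inr (Metric.self_subset_cthickening _ hy)
      have hcl2 : IsClosed ({y ∈ SS G u v 𝒰 H (h + 1) |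
          y ∉ Metric.cthickening ε (CC G u v 𝒰 H h)} ∪
          Metric.cthickening ε (CC G u v 𝒰 H h)) :=
        (hfinε ε hε).isClosed.union Metric.isClosed_cthickening
      rcases closure_minimal hsub hcl2 hx with h1 | h1
      · exact absurd h1.1 hx1
      · exact h1
    have hKb : Bornology.IsBounded K := by
      refine Bornology.IsBounded.union ?_ ih.isBounded
      rw [isBounded_iff_forall_norm_le]
      refine ⟨1, ?_⟩
      rintro y ⟨h', -, κ, hκ, rfl⟩
      exact vh_norm (TT_abs hκ)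
    have hKc : IsCompact K := Metric.isCompact_of_isClosed_isBounded hKcl hKb
    have heq : CC G u v 𝒰 H (h + 1) = convexHull ℝ K := by
      apply Set.Subset.antisymm
      · exact convexHull_mono Set.subset_union_left
      · refine convexHull_min ?_ (convex_convexHull ℝ _)
        exact Set.union_subset (subset_convexHull ℝ _) (CC_mono G u v 𝒰 (Nat.le_succ h))
    rw [heq]
    exact compact_hull hKc

/-- The main result on averages: the zero vector is a convex combination of averages of codes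
which occur arbitrarily often. -/
theorem zero_mem {l : ℕ} (hH : H = 2 * p + l) (hn : ∀ N, ∀ᶠ i in (𝒰 : Filter ℕ), N ≤ n i)
    (hp : ∀ i (a b : Fin (n i)) (q : (G i).Walk a b), q.IsPath → q.length < l)
    (hd : ∀ i k, deg (G i) (u i k) = deg (G i) (v i k)) : (0 : Fin p → ℝ) ∈ CC G u v 𝒰 H (l + 1) := by
  classical
  have hcl : closure (CC G u v 𝒰 H (l + 1)) = CC G u v 𝒰 H (l + 1) :=
    (compact_CC G u v 𝒰 (l + 1)).isClosed.closure_eq
  rw [← hcl, Metric.closure_eq_iInter_cthickening]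
  simp only [Set.mem_iInter]
  intro ε hε
  obtain ⟨b, hb⟩ := avg G u v 𝒰 (big_all G u v 𝒰 (H := H) l) (2 * p) hε
  obtain ⟨i, hi1, hi2⟩ := (hb.and (hn b)).exists
  set X : List (Fin (n i)) := List.ofFn (u i) ++ List.ofFn (v i) with hX
  have hXlen : X.length = 2 * p := by
    rw [hX, List.length_append, List.length_ofFn, List.length_ofFn]
    omega
  have h1 := hi1 X (comps (G i) {x | x ∉ X}) Finset.univ (by omega) (by
    intro k
    rw [hX, List.mem_append, List.mem_append]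
    exact ⟨Or.inl (List.mem_ofFn.2 ⟨k, rfl⟩), Or.inr (List.mem_ofFn.2 ⟨k, rfl⟩)⟩) (by
    intro D hD D' hD' hne
    exact comps_disj hD hD' hne) (by
    intro D hD
    refine ⟨?_, ⟨?_, ?_⟩, Finset.subset_univ _⟩
    · obtain ⟨a, ha, rfl⟩ := mem_comps.1 hD
      exact exists_piece l _ a ha fun b q hq _ => hp i a b q hq
    · intro z hz
      exact comps_cover.2 ⟨D, hD, hz⟩
    · intro z hz y hy
      by_cases hyX : y ∈ X
      · exact Or.inr hyX
      · left
        obtain ⟨D', hD', hyD'⟩ := comps_cover.1 (show y ∈ {x | x ∉ X} from hyX)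
        by_cases hne : D = D'
        · exact hne ▸ hyD'
        · exact absurd hy (comps_adj hD hD' hne hz hyD')) (by
    intro E _ hE
    have hsub : E ⊆ X.toFinset := by
      intro x hx
      rw [List.mem_toFinset]
      by_contra hxX
      obtain ⟨D, hD, hxD⟩ := comps_cover.1 (show x ∈ {x | x ∉ X} from hxX)
      exact hE x hx D hD hxD
    exact (Finset.card_le_card hsub).trans ((List.toFinset_card_le X).trans hXlen.le)) (by
    rw [Finset.card_univ, Fintype.card_fin]
    exact hi2)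
  have h2 : av (G i) (u i) (v i) Finset.univ = 0 := by
    unfold av
    have h3 : ∑ x ∈ Finset.univ, rv (G i) (u i) (v i) x = 0 := by
      funext k
      rw [Finset.sum_apply]
      have h4 : ∑ x : Fin (n i), rv (G i) (u i) (v i) x k =
          ((deg (G i) (u i k) : ℝ)) - deg (G i) (v i k) := by
        have h5 : ∀ y : Fin (n i), (∑ x : Fin (n i), if (G i).Adj x y then (1 : ℝ) else 0) =
            deg (G i) y := by
          intro y
          rw [Finset.sum_boole]
          unfold deg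
          have h6 : (G i).neighborSet y =
              ((Finset.univ.filter fun x => (G i).Adj x y : Finset (Fin (n i))) :
                Set (Fin (n i))) := by
            ext x
            simp [SimpleGraph.adj_comm]
          rw [h6, Set.ncard_coe_finset]
        rw [← h5, ← h5, ← Finset.sum_sub_distrib]
        refine Finset.sum_congr rfl ?_
        intro x _
        unfold rv dv
        push_cast
        rfl
      rw [h4, hd i k, sub_self]
      rfl
    rw [h3, smul_zero]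
  rw [h2] at h1
  exact h1

/-- A relation with natural coefficients between codes which occur arbitrarily often. -/
theorem exists_relation {h : ℕ} (h0 : (0 : Fin p → ℝ) ∈ CC G u v 𝒰 H h) :
    ∃ (φ : Type) (_ : Fintype φ) (κ : φ → Code p H) (hh : φ → ℕ) (W : φ → ℕ),
      (∀ f, κ f ∈ TT G u v 𝒰 H (hh f)) ∧ (∃ f, 0 < W f) ∧
      ∀ k, ∑ f, (W f : ℤ) * (κ f).d k = 0 := by
  classical
  unfold CC at h0
  rw [convexHull_eq] at h0
  obtain ⟨ι, t, w, z, hw0, hw1, hz, hc⟩ := h0
  have hz' : ∀ f : t, ∃ h' : ℕ, ∃ κ ∈ TT G u v 𝒰 H h', vh κ = z f.1 := by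
    intro f
    obtain ⟨h', -, κ, hκ, he⟩ := hz f.1 f.2
    exact ⟨h', κ, hκ, he⟩
  choose hh κ hκ hκz using hz'
  have hs : ∀ f : t, (0 : ℝ) < (κ f).s := fun f => by exact_mod_cast TT_pos (hκ f)
  obtain ⟨W, hW1, hW2⟩ := int_relation (fun f : t => (κ f).d) (fun f : t => w f.1 / (κ f).s)
    (fun f => div_nonneg (hw0 f.1 f.2) (hs f).le) (by
      by_contra hcon
      push Not at hcon
      have h1 : ∀ i ∈ t, w i = 0 := by
        intro i hi
        have h2 := hcon ⟨i, hi⟩
        have h3 : w i / (κ ⟨i, hi⟩).s ≤ 0 := h2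
        have h4 : w i ≤ 0 := by
          rw [div_le_iff₀ (hs ⟨i, hi⟩), zero_mul] at h3
          exact h3
        exact le_antisymm h4 (hw0 i hi)
      rw [Finset.sum_congr rfl h1, Finset.sum_const_zero] at hw1
      exact zero_ne_one hw1) (by
      intro k
      rw [Finset.centerMass_eq_of_sum_1 _ _ hw1] at hc
      have h1 := congrFun hc k
      rw [Finset.sum_apply] at h1
      have h2 : (0 : Fin p → ℝ) k = 0 := rfl
      rw [h2, ← Finset.sum_coe_sort] at h1
      rw [← h1]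
      refine Finset.sum_congr rfl ?_
      intro f _
      rw [Pi.smul_apply, smul_eq_mul, ← hκz f]
      unfold vh
      ring)
  exact ⟨t, inferInstance, κ, hh, W, hκ, hW1, hW2⟩

end Pool.Agent.KPI
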