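import Pool.Agent.KPI.Leafy

namespace Pool.Agent.KPI
open SimpleGraph

universe u
variable {V : Type u} {G : SimpleGraph V}

lemma hp1 {a b : V} (h1 : G.Adj a b) : HasPath G 1 a b :=
  ⟨Walk.cons h1 Walk.nil, by simp [Walk.cons_isPath_iff, h1.ne], rfl⟩

lemma hp2 {a b c : V} (h1 : G.Adj a b) (h2 : G.Adj b c) (hn : [a, b, c].Nodup) :
    HasPath G 2 a c := by
  refine ⟨Walk.cons h1 (Walk.cons h2 Walk.nil), ?_, rfl⟩
  rw [Walk.isPath_def]
  simpa using hn

lemma hp3 {a b c d : V} (h1 : G.Adj a b) (h2 : G.Adj b c) (h3 : G.Adj c d)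
    (hn : [a, b, c, d].Nodup) : HasPath G 3 a d := by
  refine ⟨Walk.cons h1 (Walk.cons h2 (Walk.cons h3 Walk.nil)), ?_, rfl⟩
  rw [Walk.isPath_def]
  simpa using hn

lemma hp4 {a b c d e : V} (h1 : G.Adj a b) (h2 : G.Adj b c) (h3 : G.Adj c d) (h4 : G.Adj d e)
    (hn : [a, b, c, d, e].Nodup) : HasPath G 4 a e := by
  refine ⟨Walk.cons h1 (Walk.cons h2 (Walk.cons h3 (Walk.cons h4 Walk.nil))), ?_, rfl⟩
  rw [Walk.isPath_def]
  simpa using hn

lemma hp5 {a b c d e f : V} (h1 : G.Adj a b) (h2 : G.Adj b c) (h3 : G.Adj c d) (h4 : G.Adj d e)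
    (h5 : G.Adj e f) (hn : [a, b, c, d, e, f].Nodup) : HasPath G 5 a f := by
  refine ⟨Walk.cons h1 (Walk.cons h2 (Walk.cons h3 (Walk.cons h4 (Walk.cons h5 Walk.nil)))),
    ?_, rfl⟩
  rw [Walk.isPath_def]
  simpa using hn

lemma hp6 {a b c d e f g : V} (h1 : G.Adj a b) (h2 : G.Adj b c) (h3 : G.Adj c d)
    (h4 : G.Adj d e) (h5 : G.Adj e f) (h6 : G.Adj f g) (hn : [a, b, c, d, e, f, g].Nodup) :
    HasPath G 6 a g := by
  refine ⟨Walk.cons h1 (Walk.cons h2 (Walk.cons h3 (Walk.cons h4 (Walk.cons h5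
    (Walk.cons h6 Walk.nil))))), ?_, rfl⟩
  rw [Walk.isPath_def]
  simpa using hn

/-- `l` is a leaf attached to `h` -/
def Leaf (G : SimpleGraph V) (l h : V) : Prop := G.Adj l h ∧ deg G l = 1

/-- a vertex with a leaf -/
def Host (G : SimpleGraph V) (h : V) : Prop := ∃ l, Leaf G l h

lemma Leaf.uniq {l h x : V} (hl : Leaf G l h) (hx : G.Adj l x) : x = h := by
  obtain ⟨h1, h2⟩ := hl
  unfold deg at h2
  obtain ⟨a, ha⟩ := Set.ncard_eq_one.1 h2
  have e1 : h ∈ G.neighborSet l := h1
  have e2 : x ∈ G.neighborSet l := hx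
  rw [ha] at e1 e2
  rw [Set.mem_singleton_iff] at e1 e2
  rw [e1, e2]

lemma Leaf.ne {l h x y : V} (hl : Leaf G l h) (hx : G.Adj x y) (hy : y ≠ h) : l ≠ x := by
  rintro rfl
  exact hy (hl.uniq hx)

section
variable (k1 : PathIrregular G 1) (k3 : PathIrregular G 3) (k4 : PathIrregular G 4)
  (k5 : PathIrregular G 5) (k6 : PathIrregular G 6)

include k1 in
lemma adj_deg {a b : V} (h : G.Adj a b) : deg G a ≠ deg G b := k1 a b (hp1 h)

include k1 in
lemma host_deg {h : V} (hh : Host G h) : deg G h ≠ 1 := by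
  obtain ⟨l, hl⟩ := hh
  have := adj_deg k1 hl.1
  rw [hl.2] at this
  exact Ne.symm this

include k1 k3 in
lemma E1 {h g : V} (hh : Host G h) (hg : Host G g) (h1 : G.Adj h g) : False := by
  obtain ⟨l, hl⟩ := id hh
  obtain ⟨m, hm⟩ := id hg
  have hmh : m ≠ h := by
    rintro rfl
    exact host_deg k1 hh hm.2
  have hlg : l ≠ g := hl.ne hm.1.symm hmh
  have hlm : l ≠ m := hl.ne hm.1 h1.ne'
  have a1 := hl.1.ne
  have a2 := hm.1.ne
  have a3 := h1.ne
  exact k3 l m (hp3 hl.1 h1 hm.1.symm (by simp only [List.nodup_cons, List.mem_cons, List.not_mem_nil, or_false, not_or, List.nodup_nil, and_true, not_false_eq_true]; split_ands <;> first | assumption | exact Ne.symm (by assumption))) (by rw [hl.2, hm.2])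

include k4 in
lemma E2 {h a g : V} (hh : Host G h) (hg : Host G g) (h1 : G.Adj h a) (h2 : G.Adj a g)
    (hne : h ≠ g) : False := by
  obtain ⟨l, hl⟩ := hh
  obtain ⟨m, hm⟩ := hg
  have hla : l ≠ a := hl.ne h2 hne.symm
  have hlg : l ≠ g := hl.ne h2.symm h1.ne'
  have hlm : l ≠ m := hl.ne hm.1 hne.symm
  have hma : m ≠ a := hm.ne h1.symm hne
  have hmh : m ≠ h := hm.ne h1 h2.ne
  have a1 := hl.1.ne
  have a2 := hm.1.ne
  have a3 := h1.ne
  have a4 := h2.ne
  exact k4 l m (hp4 hl.1 h1 h2 hm.1.symm (by simp only [List.nodup_cons, List.mem_cons, List.not_mem_nil, or_false, not_or, List.nodup_nil, and_true, not_false_eq_true]; split_ands <;> first | assumption | exact Ne.symm (by assumption))) (by rw [hl.2, hm.2])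

include k5 in
lemma E3 {h a b g : V} (hh : Host G h) (hg : Host G g) (h1 : G.Adj h a) (h2 : G.Adj a b)
    (h3 : G.Adj b g) (hn : [h, a, b, g].Nodup) : False := by
  obtain ⟨l, hl⟩ := hh
  obtain ⟨m, hm⟩ := hg
  simp only [List.nodup_cons, List.mem_cons, List.not_mem_nil, or_false, not_or, List.nodup_nil,
    and_true, not_false_eq_true] at hn
  obtain ⟨⟨n1, n2, n3⟩, ⟨n4, n5⟩, n6⟩ := hn
  change h ≠ a at n1
  change h ≠ b at n2
  change h ≠ g at n3
  change a ≠ b at n4
  change a ≠ g at n5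
  change b ≠ g at n6
  have hla : l ≠ a := hl.ne h2 n2.symm
  have hlb : l ≠ b := hl.ne h3 n3.symm
  have hlg : l ≠ g := hl.ne h3.symm n2.symm
  have hlm : l ≠ m := hl.ne hm.1 n3.symm
  have hmb : m ≠ b := hm.ne h2.symm n5
  have hma : m ≠ a := hm.ne h1.symm n3
  have hmh : m ≠ h := hm.ne h1 n5
  have a1 := hl.1.ne
  have a2 := hm.1.ne
  exact k5 l m (hp5 hl.1 h1 h2 h3 hm.1.symm (by simp only [List.nodup_cons, List.mem_cons, List.not_mem_nil, or_false, not_or, List.nodup_nil, and_true, not_false_eq_true]; split_ands <;> first | assumption | exact Ne.symm (by assumption))) (by rw [hl.2, hm.2])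

include k6 in
lemma E4 {h a b c g : V} (hh : Host G h) (hg : Host G g) (h1 : G.Adj h a) (h2 : G.Adj a b)
    (h3 : G.Adj b c) (h4 : G.Adj c g) (hn : [h, a, b, c, g].Nodup) : False := by
  obtain ⟨l, hl⟩ := hh
  obtain ⟨m, hm⟩ := hg
  simp only [List.nodup_cons, List.mem_cons, List.not_mem_nil, or_false, not_or, List.nodup_nil,
    and_true, not_false_eq_true] at hn
  obtain ⟨⟨n1, n2, n3, n3'⟩, ⟨n4, n5, n5'⟩, ⟨n6, n7⟩, n8⟩ := hn
  change h ≠ a at n1
  change h ≠ b at n2
  change h ≠ c at n3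
  change h ≠ g at n3'
  change a ≠ b at n4
  change a ≠ c at n5
  change a ≠ g at n5'
  change b ≠ c at n6
  change b ≠ g at n7
  change c ≠ g at n8
  have hla : l ≠ a := hl.ne h2 n2.symm
  have hlb : l ≠ b := hl.ne h3 n3.symm
  have hlc : l ≠ c := hl.ne h4 n3'.symm
  have hlg : l ≠ g := hl.ne h4.symm n3.symm
  have hlm : l ≠ m := hl.ne hm.1 n3'.symm
  have hmc : m ≠ c := hm.ne h3.symm n7
  have hmb : m ≠ b := hm.ne h2.symm n5'
  have hma : m ≠ a := hm.ne h1.symm n3'
  have hmh : m ≠ h := hm.ne h1 n5'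
  have a1 := hl.1.ne
  have a2 := hm.1.ne
  exact k6 l m (hp6 hl.1 h1 h2 h3 h4 hm.1.symm (by simp only [List.nodup_cons, List.mem_cons, List.not_mem_nil, or_false, not_or, List.nodup_nil, and_true, not_false_eq_true]; split_ands <;> first | assumption | exact Ne.symm (by assumption))) (by rw [hl.2, hm.2])

/-- setup: a set `A` of neighbours of `w`, representatives of the degree classes and children -/
structure Sel (G : SimpleGraph V) (w : V) (A : Finset V) (r c : V → V) : Prop where
  adj : ∀ x ∈ A, G.Adj w x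
  rmem : ∀ x ∈ A, r x ∈ A
  rdeg : ∀ x ∈ A, deg G (r x) = deg G x
  runiq : ∀ x ∈ A, ∀ y ∈ A, deg G x = deg G y → r x = r y
  cadj : ∀ x ∈ A, r x ≠ x → G.Adj x (c x)
  cw : ∀ x ∈ A, r x ≠ x → c x ≠ w

variable {w : V} {A : Finset V} {r c : V → V}

include k1 k3 in
lemma Sel.notadj (S : Sel G w A r c) {x : V} (hx : x ∈ A) (hr : r x ≠ x) :
    ¬ G.Adj w (c x) := by
  intro h
  have h1 := S.cadj x hx hr
  have h2 := S.adj _ (S.rmem x hx)
  have h3 := S.adj x hx
  have h4 : c x ≠ r x := by
    intro he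
    have := adj_deg k1 h1
    rw [he, S.rdeg x hx] at this
    exact this rfl
  have a1 := h1.ne
  have a2 := h.ne
  have a3 := h2.ne
  have a4 := h3.ne
  exact k3 x (r x) (hp3 h1 h.symm h2 (by simp only [List.nodup_cons, List.mem_cons, List.not_mem_nil, or_false, not_or, List.nodup_nil, and_true, not_false_eq_true]; split_ands <;> first | assumption | exact Ne.symm (by assumption))) (S.rdeg x hx).symm

include k4 in
lemma Sel.cinj (S : Sel G w A r c) {x y : V} (hx : x ∈ A) (hy : y ∈ A) (hrx : r x ≠ x)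
    (hry : r y ≠ y) (hxy : x ≠ y) (hn : ¬ G.Adj w (c x)) : c x ≠ c y := by
  intro he
  have h1 := S.cadj x hx hrx
  have h2 := S.cadj y hy hry
  rw [← he] at h2
  have h3 := S.adj y hy
  have h4 := S.adj _ (S.rmem x hx)
  have h5 : r x ≠ y := by
    intro h
    have : r x = r y := S.runiq x hx y hy (by rw [← S.rdeg x hx, h])
    rw [h] at this
    exact hry this.symm
  have h6 : c x ≠ w := S.cw x hx hrx
  have h7 : c x ≠ r x := by
    intro h
    rw [h] at hn
    exact hn h4
  have a0 := S.adj x hx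
  have a1 := h1.ne
  have a2 := h2.ne
  have a3 := h3.ne
  have a4 := h4.ne
  have a5 := a0.ne
  exact k4 x (r x) (hp4 h1 h2.symm h3.symm h4 (by simp only [List.nodup_cons, List.mem_cons, List.not_mem_nil, or_false, not_or, List.nodup_nil, and_true, not_false_eq_true]; split_ands <;> first | assumption | exact Ne.symm (by assumption))) (S.rdeg x hx).symm

/-- the value attached to a neighbour -/
noncomputable def val (G : SimpleGraph V) (r c : V → V) (x : V) : ℕ := by
  classical
  exact if r x = x then deg G x else deg G (c x)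

lemma val_pos {x : V} (h : r x = x) : val G r c x = deg G x := by
  unfold val
  rw [if_pos h]

lemma val_neg {x : V} (h : r x ≠ x) : val G r c x = deg G (c x) := by
  unfold val
  rw [if_neg h]

include k3 in
/-- the degree of a child is different from the degree of every other neighbour -/
lemma child_ne {x y z : V} (hx : G.Adj w x) (hy : G.Adj x y) (hyw : y ≠ w)
    (hn : ¬ G.Adj w y) (hz : G.Adj w z) (hzx : z ≠ x) : deg G y ≠ deg G z := by
  have h1 : y ≠ z := by
    rintro rfl
    exact hn hz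
  have a1 := hx.ne
  have a2 := hy.ne
  have a3 := hz.ne
  exact k3 y z (hp3 hy.symm hx.symm hz (by simp only [List.nodup_cons, List.mem_cons, List.not_mem_nil, or_false, not_or, List.nodup_nil, and_true, not_false_eq_true]; split_ands <;> first | assumption | exact Ne.symm (by assumption)))

include k1 k3 k4 in
lemma Sel.inj (S : Sel G w A r c) : Set.InjOn (val G r c) A := by
  intro x hx y hy hxy
  by_contra hne
  rw [Finset.mem_coe] at hx hy
  by_cases hrx : r x = x
  · by_cases hry : r y = y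
    · rw [val_pos hrx, val_pos hry] at hxy
      have := S.runiq x hx y hy hxy
      rw [hrx, hry] at this
      exact hne this
    · rw [val_pos hrx, val_neg hry] at hxy
      exact child_ne k3 (S.adj y hy) (S.cadj y hy hry) (S.cw y hy hry) (S.notadj k1 k3 hy hry)
        (S.adj x hx) hne hxy.symm
  · by_cases hry : r y = y
    · rw [val_neg hrx, val_pos hry] at hxy
      exact child_ne k3 (S.adj x hx) (S.cadj x hx hrx) (S.cw x hx hrx) (S.notadj k1 k3 hx hrx)
        (S.adj y hy) (Ne.symm hne) hxy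
    · rw [val_neg hrx, val_neg hry] at hxy
      have hn := S.notadj k1 k3 hx hrx
      have hn' := S.notadj k1 k3 hy hry
      have h0 := S.cinj k4 hx hy hrx hry hne hn
      have h1 := S.cadj x hx hrx
      have h2 := S.adj x hx
      have h3 := S.adj y hy
      have h4 := S.cadj y hy hry
      have h5 := S.cw x hx hrx
      have h6 := S.cw y hy hry
      have h7 : c x ≠ y := by
        rintro rfl
        exact hn h3
      have h8 : c y ≠ x := by
        rintro rfl
        exact hn' h2
      have a1 := h1.ne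
      have a2 := h2.ne
      have a3 := h3.ne
      have a4 := h4.ne
      exact k4 (c x) (c y) (hp4 h1.symm h2.symm h3 h4 (by simp only [List.nodup_cons, List.mem_cons, List.not_mem_nil, or_false, not_or, List.nodup_nil, and_true, not_false_eq_true]; split_ands <;> first | assumption | exact Ne.symm (by assumption))) hxy

end

end Pool.Agent.KPI
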