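import Pool.Agent.KPI.Star

namespace Pool.Agent.KPI
open SimpleGraph

universe u
variable {V : Type u} {G : SimpleGraph V}

lemma exists_sel {w : V} (A : Finset V) (hA : ∀ x ∈ A, G.Adj w x) (Bad Q : V → Prop)
    (hbad : ∀ x ∈ A, ∀ y ∈ A, Bad x → Bad y → deg G x = deg G y → x = y)
    (hch : ∀ x ∈ A, ¬ Bad x → (∃ z ∈ A, z ≠ x ∧ deg G z = deg G x) →
      ∃ y, G.Adj x y ∧ y ≠ w ∧ Q y) :
    ∃ r c : V → V, Sel G w A r c ∧ ∀ x ∈ A, r x ≠ x → Q (c x) := by
  classical
  have hpick : ∀ v : ℕ, ∃ p : V, (∃ x ∈ A, deg G x = v) →
      (p ∈ A ∧ deg G p = v ∧ ((∃ x ∈ A, deg G x = v ∧ Bad x) → Bad p)) := by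
    intro v
    by_cases h1 : ∃ x ∈ A, deg G x = v ∧ Bad x
    · obtain ⟨x, hx, hv, hb⟩ := h1
      exact ⟨x, fun _ => ⟨hx, hv, fun _ => hb⟩⟩
    · by_cases h2 : ∃ x ∈ A, deg G x = v
      · obtain ⟨x, hx, hv⟩ := h2
        exact ⟨x, fun _ => ⟨hx, hv, fun h => absurd h h1⟩⟩
      · exact ⟨w, fun h => absurd h h2⟩
  choose pick hp using hpick
  have hcc : ∀ x : V, ∃ y : V, (x ∈ A ∧ pick (deg G x) ≠ x) → G.Adj x y ∧ y ≠ w ∧ Q y := by
    intro x
    by_cases hx : x ∈ A ∧ pick (deg G x) ≠ x
    · obtain ⟨h1, h2⟩ := hx
      obtain ⟨p1, p2, p3⟩ := hp (deg G x) ⟨x, h1, rfl⟩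
      have hnb : ¬ Bad x := by
        intro hb
        exact h2 (hbad _ p1 x h1 (p3 ⟨x, h1, rfl, hb⟩) hb p2)
      obtain ⟨y, hy⟩ := hch x h1 hnb ⟨_, p1, h2, p2⟩
      exact ⟨y, fun _ => hy⟩
    · exact ⟨w, fun h => absurd h hx⟩
  choose c hc using hcc
  refine ⟨fun x => pick (deg G x), c, ⟨hA, ?_, ?_, ?_, ?_, ?_⟩, ?_⟩
  · intro x hx
    exact (hp (deg G x) ⟨x, hx, rfl⟩).1
  · intro x hx
    exact (hp (deg G x) ⟨x, hx, rfl⟩).2.1
  · intro x _ y _ h
    simp only [h]
  · intro x hx h
    exact (hc x ⟨hx, h⟩).1
  · intro x hx h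
    exact (hc x ⟨hx, h⟩).2.1
  · intro x hx h
    exact (hc x ⟨hx, h⟩).2.2

lemma deg_eq_card [Fintype V] [DecidableEq V] [DecidableRel G.Adj] (x : V) :
    deg G x = (Finset.univ.filter (fun y => G.Adj x y)).card := by
  unfold deg
  rw [← Set.ncard_coe_finset]
  congr 1
  ext y
  simp

lemma deg_pos [Finite V] {x y : V} (h : G.Adj x y) : 1 ≤ deg G x := by
  unfold deg
  have : 0 < (G.neighborSet x).ncard := by
    rw [Set.ncard_pos (Set.toFinite _)]
    exact ⟨y, h⟩
  omega

lemma exists_other [Finite V] {x w : V} (h : 2 ≤ deg G x) : ∃ y, G.Adj x y ∧ y ≠ w := by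
  unfold deg at h
  obtain ⟨y, hy, hne⟩ := Set.exists_ne_of_one_lt_ncard (s := G.neighborSet x) (by omega) w
  exact ⟨y, hy, hne⟩

lemma ncard_pair_le2 (a b : V) : ({a, b} : Set V).ncard ≤ 2 := by
  have h := Set.ncard_insert_le a ({b} : Set V)
  rw [Set.ncard_singleton] at h
  exact h

lemma exists_other2 [Finite V] {x w z : V} (h : 3 ≤ deg G x) :
    ∃ y, G.Adj x y ∧ y ≠ w ∧ y ≠ z := by
  by_contra hno
  push Not at hno
  have hsub : G.neighborSet x ⊆ {w, z} := by
    intro y hy
    by_cases h1 : y = w
    · simp [h1]
    · simp [hno y hy h1]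
  have h1 := Set.ncard_le_ncard hsub (Set.toFinite _)
  have h2 := ncard_pair_le2 w z
  unfold deg at h
  omega

section
variable [Fintype V] (k1 : PathIrregular G 1) (k3 : PathIrregular G 3) (k4 : PathIrregular G 4)
  (k5 : PathIrregular G 5) (k6 : PathIrregular G 6)

/-- neither a host nor of degree at most one -/
def Inner (G : SimpleGraph V) (x : V) : Prop := ¬ Host G x ∧ 2 ≤ deg G x

lemma two_le_of_adj {w x : V} (hw : ¬ Host G w) (hx : G.Adj w x) : 2 ≤ deg G x := by
  have h1 := deg_pos hx.symm
  have h2 : deg G x ≠ 1 := fun h => hw ⟨x, hx.symm, h⟩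
  omega

include k1 k3 k4 k5 k6 in
lemma caseA {w h : V} (hw : Inner G w) (hmax : ∀ x, Inner G x → deg G x ≤ deg G w)
    (hh : Host G h) (hadj : G.Adj w h) : False := by
  classical
  set N := Finset.univ.filter (fun y => G.Adj w y) with hN
  have hNc : N.card = deg G w := (deg_eq_card w).symm
  have hmem : ∀ x, x ∈ N ↔ G.Adj w x := by intro x; simp [hN]
  set A := N.erase h with hA
  have hAm : ∀ x, x ∈ A ↔ x ≠ h ∧ G.Adj w x := by
    intro x
    rw [hA, Finset.mem_erase, hmem]
  have hAc : A.card = deg G w - 1 := by
    rw [hA, Finset.card_erase_of_mem ((hmem h).2 hadj), hNc]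
  have hwh : w ≠ h := hadj.ne
  have hnh : ∀ x ∈ A, ¬ Host G x := by
    intro x hx hhx
    obtain ⟨h1, h2⟩ := (hAm x).1 hx
    exact E2 k4 hh hhx hadj.symm h2 (Ne.symm h1)
  have hin : ∀ x ∈ A, Inner G x := fun x hx =>
    ⟨hnh x hx, two_le_of_adj hw.1 ((hAm x).1 hx).2⟩
  -- children of members of large classes
  have hch : ∀ x ∈ A, (∃ z ∈ A, z ≠ x ∧ deg G z = deg G x) → ∀ y, G.Adj x y → y ≠ w →
      y ≠ h ∧ Inner G y := by
    intro x hx ⟨z, hz, hzx, hzd⟩ y hy hyw
    obtain ⟨x1, x2⟩ := (hAm x).1 hx
    obtain ⟨z1, z2⟩ := (hAm z).1 hz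
    have a1 := x2.ne
    have a2 := z2.ne
    have a3 := hy.ne
    have hyh : y ≠ h := by
      rintro rfl
      exact k3 x z (hp3 hy hadj.symm z2 (by simp only [List.nodup_cons, List.mem_cons, List.not_mem_nil, or_false, not_or, List.nodup_nil, and_true, not_false_eq_true]; split_ands <;> first | assumption | exact Ne.symm (by assumption))) hzd.symm
    refine ⟨hyh, ?_, two_le_of_adj (hnh x hx) hy⟩
    intro hhy
    exact E3 k5 hh hhy hadj.symm x2 hy (by simp only [List.nodup_cons, List.mem_cons, List.not_mem_nil, or_false, not_or, List.nodup_nil, and_true, not_false_eq_true]; split_ands <;> first | assumption | exact Ne.symm (by assumption))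
  obtain ⟨r, c, S, hQ⟩ := exists_sel (G := G) (w := w) A (fun x hx => ((hAm x).1 hx).2)
    (fun _ => False) (fun y => Inner G y)
    (fun _ _ _ _ h _ _ => absurd h (by simp))
    (by
      intro x hx _ hz
      obtain ⟨y, hy, hyw⟩ := exists_other (w := w) (hin x hx).2
      exact ⟨y, hy, hyw, (hch x hx hz y hy hyw).2⟩)
  have hinj := S.inj k1 k3 k4
  have hmaps : ∀ x ∈ A, val G r c x ∈ Finset.Icc 2 (deg G w) := by
    intro x hx
    rw [Finset.mem_Icc]
    by_cases hr : r x = x
    · rw [val_pos hr]
      exact ⟨(hin x hx).2, hmax x (hin x hx)⟩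
    · rw [val_neg hr]
      exact ⟨(hQ x hx hr).2, hmax _ (hQ x hx hr)⟩
  have himg : A.image (val G r c) = Finset.Icc 2 (deg G w) := by
    apply Finset.eq_of_subset_of_card_le
    · intro v hv
      obtain ⟨x, hx, rfl⟩ := Finset.mem_image.1 hv
      exact hmaps x hx
    · rw [Finset.card_image_of_injOn hinj, hAc, Nat.card_Icc]
      omega
  have hd2 : 2 ≤ deg G w := hw.2
  obtain ⟨z, hz, hzv⟩ : ∃ z ∈ A, val G r c z = deg G w := by
    have : deg G w ∈ A.image (val G r c) := by
      rw [himg, Finset.mem_Icc]
      exact ⟨hd2, le_refl _⟩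
    exact Finset.mem_image.1 this
  have hwz := ((hAm z).1 hz).2
  have hrz : r z ≠ z := by
    intro hr
    rw [val_pos hr] at hzv
    exact adj_deg k1 hwz hzv.symm
  rw [val_neg hrz] at hzv
  set q := c z with hq
  have hzq : G.Adj z q := S.cadj z hz hrz
  have hqw : q ≠ w := S.cw z hz hrz
  have hqn : ¬ G.Adj w q := S.notadj k1 k3 hz hrz
  have hqin : Inner G q := hQ z hz hrz
  have hrA := S.rmem z hz
  have hwr := S.adj _ hrA
  have hrd := S.rdeg z hz
  have hrin := hin _ hrA
  have hrr : r (r z) = r z := S.runiq _ hrA _ hz hrd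
  have hrh : r z ≠ h := ((hAm _).1 hrA).1
  have hzh : z ≠ h := ((hAm _).1 hz).1
  -- the degree of `w` is at least three
  have hd3 : 3 ≤ deg G w := by
    have h1 : deg G z ≤ deg G w := hmax z (hin z hz)
    have h2 : 2 ≤ A.card := by
      have : ({z, r z} : Finset V) ⊆ A := by
        intro x hx
        rw [Finset.mem_insert, Finset.mem_singleton] at hx
        rcases hx with rfl | rfl
        · exact hz
        · exact hrA
      have h3 := Finset.card_le_card this
      rw [Finset.card_pair (Ne.symm hrz)] at h3
      exact h3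
    omega
  obtain ⟨u, hqu, huz, hur⟩ := exists_other2 (x := q) (w := z) (z := r z) (by rw [hzv]; exact hd3)
  have huw : u ≠ w := by
    rintro rfl
    exact hqn hqu.symm
  have hqr : q ≠ r z := by
    intro h
    rw [h] at hqn
    exact hqn hwr
  have hqh : q ≠ h := by
    intro h
    rw [h] at hqn
    exact hqn hadj
  have b1 := hzq.ne
  have b2 := hqu.ne
  have b3 := hwz.ne
  have b4 := hwr.ne
  have huh : u ≠ h := by
    rintro rfl
    exact k4 z (r z) (hp4 hzq hqu hadj.symm hwr (by simp only [List.nodup_cons, List.mem_cons, List.not_mem_nil, or_false, not_or, List.nodup_nil, and_true, not_false_eq_true]; split_ands <;> first | assumption | exact Ne.symm (by assumption))) hrd.symm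
  have huN : ¬ G.Adj w u := by
    intro hwu
    exact k4 z (r z) (hp4 hzq hqu hwu.symm hwr (by simp only [List.nodup_cons, List.mem_cons, List.not_mem_nil, or_false, not_or, List.nodup_nil, and_true, not_false_eq_true]; split_ands <;> first | assumption | exact Ne.symm (by assumption))) hrd.symm
  have huin : Inner G u := by
    refine ⟨?_, two_le_of_adj hqin.1 hqu⟩
    intro hhu
    exact E4 k6 hh hhu hadj.symm hwz hzq hqu (by simp only [List.nodup_cons, List.mem_cons, List.not_mem_nil, or_false, not_or, List.nodup_nil, and_true, not_false_eq_true]; split_ands <;> first | assumption | exact Ne.symm (by assumption))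
  obtain ⟨t, ht, htv⟩ : ∃ t ∈ A, val G r c t = deg G u := by
    have : deg G u ∈ A.image (val G r c) := by
      rw [himg, Finset.mem_Icc]
      exact ⟨huin.2, hmax u huin⟩
    exact Finset.mem_image.1 this
  have hwt := ((hAm t).1 ht).2
  have b5 := hwt.ne
  by_cases hrt : r t = t
  · rw [val_pos hrt] at htv
    have htz : t ≠ z := by
      rintro rfl
      exact hrz hrt
    have hut : u ≠ t := by
      rintro rfl
      exact huN hwt
    have hqt : q ≠ t := by
      intro h
      rw [← h] at hwt
      exact hqn hwt
    exact k4 u t (hp4 hqu.symm hzq.symm hwz.symm hwt (by simp only [List.nodup_cons, List.mem_cons, List.not_mem_nil, or_false, not_or, List.nodup_nil, and_true, not_false_eq_true]; split_ands <;> first | assumption | exact Ne.symm (by assumption))) htv.symm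
  · rw [val_neg hrt] at htv
    by_cases htz : t = z
    · rw [htz, ← hq] at htv
      exact adj_deg k1 hqu htv
    · have hct := S.cadj t ht hrt
      have hctn := S.notadj k1 k3 ht hrt
      have hctw := S.cw t ht hrt
      have hqct : q ≠ c t := S.cinj k4 hz ht hrz hrt (Ne.symm htz) hqn
      have hrtz : r z ≠ t := by
        intro h
        rw [h] at hrr
        exact hrt hrr
      have hqt : q ≠ t := by
        intro h
        rw [← h] at hwt
        exact hqn hwt
      have hut : u ≠ t := by
        rintro rfl
        exact huN hwt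
      have hzct : z ≠ c t := by
        intro h
        rw [← h] at hctn
        exact hctn hwz
      have b6 := hct.ne
      by_cases huct : u = c t
      · rw [← huct] at hct
        exact k5 z (r z) (hp5 hzq hqu hct.symm hwt.symm hwr (by simp only [List.nodup_cons, List.mem_cons, List.not_mem_nil, or_false, not_or, List.nodup_nil, and_true, not_false_eq_true]; split_ands <;> first | assumption | exact Ne.symm (by assumption))) hrd.symm
      · exact k5 u (c t) (hp5 hqu.symm hzq.symm hwz.symm hwt hct (by simp only [List.nodup_cons, List.mem_cons, List.not_mem_nil, or_false, not_or, List.nodup_nil, and_true, not_false_eq_true]; split_ands <;> first | assumption | exact Ne.symm (by assumption))) htv.symm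

include k1 k3 k4 in
/-- counting: a selection on all neighbours with inner children is impossible -/
lemma sel_false {w : V} (hw : Inner G w) (hmax : ∀ x, Inner G x → deg G x ≤ deg G w)
    (hN : ∀ x, G.Adj w x → ¬ Host G x) {r c : V → V} {A : Finset V} (S : Sel G w A r c)
    (hQ : ∀ x ∈ A, r x ≠ x → Inner G (c x)) (hc : deg G w ≤ A.card) : False := by
  classical
  have hinj := S.inj k1 k3 k4
  have hmaps : ∀ x ∈ A, val G r c x ∈ Finset.Icc 2 (deg G w) := by
    intro x hx
    have hin : Inner G x := ⟨hN x (S.adj x hx), two_le_of_adj hw.1 (S.adj x hx)⟩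
    rw [Finset.mem_Icc]
    by_cases hr : r x = x
    · rw [val_pos hr]
      exact ⟨hin.2, hmax x hin⟩
    · rw [val_neg hr]
      exact ⟨(hQ x hx hr).2, hmax _ (hQ x hx hr)⟩
  have h1 := Finset.card_le_card_of_injOn _ hmaps hinj
  rw [Nat.card_Icc] at h1
  have := hw.2
  omega

include k1 k3 k4 k5 k6 in
lemma caseB {w : V} (hw : Inner G w) (hmax : ∀ x, Inner G x → deg G x ≤ deg G w)
    (hN : ∀ x, G.Adj w x → ¬ Host G x) : False := by
  classical
  set N := Finset.univ.filter (fun y => G.Adj w y) with hNdef
  have hNc : N.card = deg G w := (deg_eq_card w).symm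
  have hmem : ∀ x, x ∈ N ↔ G.Adj w x := by intro x; simp [hNdef]
  have hin : ∀ x ∈ N, Inner G x := fun x hx =>
    ⟨hN x ((hmem x).1 hx), two_le_of_adj hw.1 ((hmem x).1 hx)⟩
  by_cases hex : ∃ h x0, Host G h ∧ G.Adj w x0 ∧ G.Adj x0 h
  · obtain ⟨h, x0, hh, hx0, hx0h⟩ := hex
    have hwh : w ≠ h := by
      rintro rfl
      exact hw.1 hh
    have hhN : ¬ G.Adj w h := fun hadj => hN h hadj hh
    have c1 := hx0.ne
    have c2 := hx0h.ne
    -- children which are not `h` are inner
    have hch : ∀ x, G.Adj w x → ∀ y, G.Adj x y → y ≠ w → y ≠ h → Inner G y := by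
      intro x hx y hy hyw hyh
      refine ⟨?_, two_le_of_adj (hN x hx) hy⟩
      intro hhy
      by_cases hyN : G.Adj w y
      · exact hN y hyN hhy
      · by_cases hxx : x = x0
        · subst hxx
          exact E2 k4 hh hhy hx0h.symm hy (Ne.symm hyh)
        · have hyx0 : y ≠ x0 := by
            rintro rfl
            exact hyN hx0
          have hhx : h ≠ x := by
            rintro rfl
            exact hhN hx
          have b1 := hx.ne
          have b2 := hy.ne
          exact E4 k6 hh hhy hx0h.symm hx0.symm hx hy (by simp only [List.nodup_cons, List.mem_cons, List.not_mem_nil, or_false, not_or, List.nodup_nil, and_true, not_false_eq_true]; split_ands <;> first | assumption | exact Ne.symm (by assumption))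
    by_cases hb : ∀ x ∈ N, ∀ y ∈ N, (∀ t, G.Adj x t → t = w ∨ t = h) →
        (∀ t, G.Adj y t → t = w ∨ t = h) → deg G x = deg G y → x = y
    · obtain ⟨r, c, S, hQ⟩ := exists_sel (G := G) (w := w) N (fun x hx => (hmem x).1 hx)
        (fun x => ∀ t, G.Adj x t → t = w ∨ t = h) (fun y => Inner G y) hb
        (by
          intro x hx hnb _
          push Not at hnb
          obtain ⟨y, hy, hyw, hyh⟩ := hnb
          exact ⟨y, hy, hyw, hch x ((hmem x).1 hx) y hy hyw hyh⟩)
      exact sel_false k1 k3 k4 hw hmax hN S hQ (le_of_eq hNc.symm)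
    · push Not at hb
      obtain ⟨y1, hy1, y2, hy2, hb1, hb2, hd12, hne⟩ := hb
      have hw1 := (hmem y1).1 hy1
      have hw2 := (hmem y2).1 hy2
      have hadjh : ∀ y, G.Adj w y → (∀ t, G.Adj y t → t = w ∨ t = h) → G.Adj y h := by
        intro y hy hbad
        obtain ⟨t, ht, htw⟩ := exists_other (w := w) (hin y ((hmem y).2 hy)).2
        rcases hbad t ht with h1 | h1
        · exact absurd h1 htw
        · rw [← h1]; exact ht
      have h1h := hadjh y1 hw1 hb1
      have h2h := hadjh y2 hw2 hb2
      have d1 := hw1.ne
      have d2 := hw2.ne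
      have d3 := h1h.ne
      have d4 := h2h.ne
      -- nobody else is adjacent to `h`
      have hother : ∀ z, G.Adj w z → z ≠ y1 → z ≠ y2 → ¬ G.Adj z h := by
        intro z hz hz1 hz2 hzh
        have e1 := hz.ne
        have e2 := hzh.ne
        exact k4 y1 y2 (hp4 h1h hzh.symm hz.symm hw2 (by simp only [List.nodup_cons, List.mem_cons, List.not_mem_nil, or_false, not_or, List.nodup_nil, and_true, not_false_eq_true]; split_ands <;> first | assumption | exact Ne.symm (by assumption))) hd12
      -- nobody else has the same degree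
      have hdeg : ∀ z, G.Adj w z → z ≠ y1 → z ≠ y2 → deg G z ≠ deg G y1 := by
        intro z hz hz1 hz2 hzd
        have e1 := hz.ne
        have e3 : h ≠ z := by
          rintro rfl
          exact hhN hz
        exact k4 y1 z (hp4 h1h h2h.symm hw2.symm hz (by simp only [List.nodup_cons, List.mem_cons, List.not_mem_nil, or_false, not_or, List.nodup_nil, and_true, not_false_eq_true]; split_ands <;> first | assumption | exact Ne.symm (by assumption))) hzd.symm
      have hdy1 : deg G y1 ≤ 2 := by
        unfold deg
        have hsub : G.neighborSet y1 ⊆ {w, h} := by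
          intro t ht
          rcases hb1 t ht with h1 | h1
          · simp [h1]
          · simp [h1]
        exact (Set.ncard_le_ncard hsub (Set.toFinite _)).trans (ncard_pair_le2 w h)
      set A := N.erase y2 with hA
      have hAm : ∀ x, x ∈ A ↔ x ≠ y2 ∧ G.Adj w x := by
        intro x
        rw [hA, Finset.mem_erase, hmem]
      have hAc : A.card = deg G w - 1 := by
        rw [hA, Finset.card_erase_of_mem hy2, hNc]
      obtain ⟨r, c, S, hQ⟩ := exists_sel (G := G) (w := w) A (fun x hx => ((hAm x).1 hx).2)
        (fun x => ∀ t, G.Adj x t → t = w ∨ t = h) (fun y => Inner G y)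
        (by
          intro x hx y hy bx by' _
          obtain ⟨x1, x2⟩ := (hAm x).1 hx
          obtain ⟨yy1, yy2⟩ := (hAm y).1 hy
          have e1 : x = y1 := by
            by_contra hx1
            exact hother x x2 hx1 x1 (hadjh x x2 bx)
          have e2 : y = y1 := by
            by_contra hx1
            exact hother y yy2 hx1 yy1 (hadjh y yy2 by')
          rw [e1, e2])
        (by
          intro x hx hnb _
          push Not at hnb
          obtain ⟨y, hy, hyw, hyh⟩ := hnb
          exact ⟨y, hy, hyw, hch x ((hAm x).1 hx).2 y hy hyw hyh⟩)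
      have hinj := S.inj k1 k3 k4
      have hinA : ∀ x ∈ A, Inner G x := fun x hx => hin x (Finset.mem_of_mem_erase hx)
      have hmaps : ∀ x ∈ A, val G r c x ∈ Finset.Icc 2 (deg G w) := by
        intro x hx
        rw [Finset.mem_Icc]
        by_cases hr : r x = x
        · rw [val_pos hr]
          exact ⟨(hinA x hx).2, hmax x (hinA x hx)⟩
        · rw [val_neg hr]
          exact ⟨(hQ x hx hr).2, hmax _ (hQ x hx hr)⟩
      by_cases hall : ∀ x ∈ A, r x = x
      · have hmaps2 : ∀ x ∈ A, val G r c x ∈ Finset.Icc 2 (deg G w - 1) := by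
          intro x hx
          have h1 := hmaps x hx
          rw [Finset.mem_Icc] at h1 ⊢
          rw [val_pos (hall x hx)] at h1 ⊢
          have h2 := adj_deg k1 ((hAm x).1 hx).2
          omega
        have h1 := Finset.card_le_card_of_injOn _ hmaps2 hinj
        rw [Nat.card_Icc, hAc] at h1
        have := hw.2
        omega
      · push Not at hall
        obtain ⟨z, hz, hrz⟩ := hall
        obtain ⟨hz2, hwz⟩ := (hAm z).1 hz
        have hrA := S.rmem z hz
        obtain ⟨hq2, hwq⟩ := (hAm (r z)).1 hrA
        have hrd := S.rdeg z hz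
        have hrr : r (r z) = r z := S.runiq _ hrA _ hz hrd
        set q := r z with hq
        have hz1 : z ≠ y1 := by
          rintro rfl
          exact hdeg q hwq hrz hq2 hrd
        have hq1 : q ≠ y1 := by
          intro h1
          exact hdeg z hwz hz1 hz2 (by rw [← hrd, h1])
        have hqh : ¬ G.Adj q h := hother q hwq hq1 hq2
        have hqd : 3 ≤ deg G q := by
          have h1 := (hinA q hrA).2
          have h2 := hdeg q hwq hq1 hq2
          have h3 := (hin y1 hy1).2
          omega
        obtain ⟨a, hqa, haw, hacz⟩ := exists_other2 (x := q) (w := w) (z := c z) hqd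
        have e1 := hwq.ne
        have e2 := hwz.ne
        have e3 := hqa.ne
        have haz : a ≠ z := by
          rintro rfl
          exact adj_deg k1 hqa hrd
        have haN : ¬ G.Adj w a := by
          intro hwa
          exact k3 q z (hp3 hqa hwa.symm hwz (by simp only [List.nodup_cons, List.mem_cons, List.not_mem_nil, or_false, not_or, List.nodup_nil, and_true, not_false_eq_true]; split_ands <;> first | assumption | exact Ne.symm (by assumption))) hrd
        have hah : a ≠ h := by
          rintro rfl
          exact hqh hqa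
        have hain : Inner G a := hch q hwq a hqa haw hah
        have hnot : deg G a ∉ A.image (val G r c) := by
          intro hmem'
          obtain ⟨t, ht, htv⟩ := Finset.mem_image.1 hmem'
          have hwt := ((hAm t).1 ht).2
          have e4 := hwt.ne
          have hat : a ≠ t := by
            rintro rfl
            exact haN hwt
          by_cases hrt : r t = t
          · rw [val_pos hrt] at htv
            by_cases htq : t = q
            · rw [htq] at htv
              exact adj_deg k1 hqa htv
            · exact child_ne k3 hwq hqa haw haN hwt htq htv.symm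
          · rw [val_neg hrt] at htv
            have htq : t ≠ q := by
              rintro rfl
              exact hrt hrr
            have hct := S.cadj t ht hrt
            have hctn := S.notadj k1 k3 ht hrt
            have hctw := S.cw t ht hrt
            have hqct : q ≠ c t := by
              intro h1
              rw [← h1] at hctn
              exact hctn hwq
            have e5 := hct.ne
            have hact : a ≠ c t := by
              intro h1
              by_cases htz : t = z
              · rw [htz] at h1
                exact hacz h1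
              · rw [← h1] at hct
                by_cases hrtq : r t = q
                · have hdt : deg G t = deg G z := by
                    rw [← S.rdeg t ht, hrtq, hrd]
                  exact k4 t z (hp4 hct hqa.symm hwq.symm hwz (by simp only [List.nodup_cons, List.mem_cons, List.not_mem_nil, or_false, not_or, List.nodup_nil, and_true, not_false_eq_true]; split_ands <;> first | assumption | exact Ne.symm (by assumption))) hdt
                · have hwrt := S.adj _ (S.rmem t ht)
                  have e6 := hwrt.ne
                  have hart : a ≠ r t := by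
                    intro h2
                    rw [← h2] at hwrt
                    exact haN hwrt
                  exact k4 t (r t) (hp4 hct hqa.symm hwq.symm hwrt (by simp only [List.nodup_cons, List.mem_cons, List.not_mem_nil, or_false, not_or, List.nodup_nil, and_true, not_false_eq_true]; split_ands <;> first | assumption | exact Ne.symm (by assumption))) (S.rdeg t ht).symm
            exact k4 a (c t) (hp4 hqa.symm hwq.symm hwt hct (by simp only [List.nodup_cons, List.mem_cons, List.not_mem_nil, or_false, not_or, List.nodup_nil, and_true, not_false_eq_true]; split_ands <;> first | assumption | exact Ne.symm (by assumption))) htv.symm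
        have hsub : insert (deg G a) (A.image (val G r c)) ⊆ Finset.Icc 2 (deg G w) := by
          intro v hv
          rw [Finset.mem_insert] at hv
          rcases hv with rfl | hv
          · rw [Finset.mem_Icc]
            exact ⟨hain.2, hmax a hain⟩
          · obtain ⟨x, hx, rfl⟩ := Finset.mem_image.1 hv
            exact hmaps x hx
        have h1 := Finset.card_le_card hsub
        rw [Finset.card_insert_of_notMem hnot, Finset.card_image_of_injOn hinj, Nat.card_Icc,
          hAc] at h1
        have := hw.2
        omega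
  · push Not at hex
    obtain ⟨r, c, S, hQ⟩ := exists_sel (G := G) (w := w) N (fun x hx => (hmem x).1 hx)
      (fun _ => False) (fun y => Inner G y)
      (fun _ _ _ _ h _ _ => absurd h (by simp))
      (by
        intro x hx _ _
        obtain ⟨y, hy, hyw⟩ := exists_other (w := w) (hin x hx).2
        exact ⟨y, hy, hyw, fun hhy => hex y x hhy ((hmem x).1 hx) hy,
          two_le_of_adj (hin x hx).1 hy⟩)
    exact sel_false k1 k3 k4 hw hmax hN S hQ (le_of_eq hNc.symm)

include k1 k3 k4 k5 k6 in
theorem no_inner (w : V) : ¬ Inner G w := by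
  classical
  intro hw
  obtain ⟨w', hw', hmax⟩ := Finset.exists_max_image (Finset.univ.filter (fun x => Inner G x))
    (deg G) ⟨w, by simpa using hw⟩
  have hw'' : Inner G w' := by simpa using hw'
  have hmax' : ∀ x, Inner G x → deg G x ≤ deg G w' := fun x hx => hmax x (by simpa using hx)
  by_cases h : ∃ h, Host G h ∧ G.Adj w' h
  · obtain ⟨h, hh, hadj⟩ := h
    exact caseA k1 k3 k4 k5 k6 hw'' hmax' hh hadj
  · push Not at h
    exact caseB k1 k3 k4 k5 k6 hw'' hmax' (fun x hx hhx => h x hhx hx)

include k1 k3 k4 k5 k6 in
/-- A connected graph which is `k`-path irregular for `k = 1, 3, 4, 5, 6` is a star. -/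
theorem star_of_irr (hc : G.Connected) :
    ∃ c, ∀ v, v ≠ c → G.neighborSet v = {c} := by
  classical
  obtain ⟨v0⟩ := hc.nonempty
  by_cases hsub : ∀ v, v = v0
  · exact ⟨v0, fun v hv => absurd (hsub v) hv⟩
  · push Not at hsub
    obtain ⟨v1, hv1⟩ := hsub
    have hnt : Nontrivial V := ⟨v0, v1, Ne.symm hv1⟩
    -- every vertex has a neighbour
    have hnb : ∀ v, ∃ x, G.Adj v x := by
      intro v
      obtain ⟨u, hu⟩ := exists_ne v
      obtain ⟨p⟩ := hc.preconnected v u
      cases p with
      | nil => exact absurd rfl hu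
      | cons h _ => exact ⟨_, h⟩
    -- a host exists
    have hhost : ∃ c, Host G c := by
      obtain ⟨x, hx⟩ := hnb v0
      by_cases h0 : Host G v0
      · exact ⟨v0, h0⟩
      · have h1 : deg G v0 ≤ 1 := by
          by_contra h2
          exact no_inner k1 k3 k4 k5 k6 v0 ⟨h0, by omega⟩
        have h2 := deg_pos hx
        exact ⟨x, v0, hx, by omega⟩
    obtain ⟨c, hcH⟩ := hhost
    have hnbr : ∀ v, G.Adj c v → Leaf G v c := by
      intro v hv
      refine ⟨hv.symm, ?_⟩
      have h1 : ¬ Host G v := fun hv' => E1 k1 k3 hcH hv' hv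
      have h2 : deg G v ≤ 1 := by
        by_contra h2
        exact no_inner k1 k3 k4 k5 k6 v ⟨h1, by omega⟩
      have h3 := deg_pos hv.symm
      omega
    -- the set `{c} ∪ N(c)` is everything
    have hall : ∀ v, v = c ∨ G.Adj c v := by
      intro v
      have key : ∀ (x y : V) (p : G.Walk x y), (x = c ∨ G.Adj c x) → (y = c ∨ G.Adj c y) := by
        intro x y p
        induction p with
        | nil => exact id
        | @cons a b d hab _ ih =>
          intro ha
          apply ih
          rcases ha with rfl | ha
          · exact Or.inr hab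
          · exact Or.inl ((hnbr a ha).uniq hab)
      obtain ⟨p⟩ := hc.preconnected c v
      exact key c v p (Or.inl rfl)
    refine ⟨c, fun v hv => ?_⟩
    have hadj := (hall v).resolve_left hv
    ext x
    rw [SimpleGraph.mem_neighborSet, Set.mem_singleton_iff]
    constructor
    · intro hx
      exact (hnbr v hadj).uniq hx
    · rintro rfl
      exact hadj.symm

end

end Pool.Agent.KPI
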