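import Pool.Agent.KPI.Leafy

namespace Pool.Agent.KPI
open SimpleGraph

/-- The path `0, 1, ..., m - 1` with the additional edge `{0, 2}`: a triangle with a tail. -/
def tad (m : ℕ) : SimpleGraph (Fin m) where
  Adj i j := i.val + 1 = j.val ∨ j.val + 1 = i.val ∨ (i.val = 0 ∧ j.val = 2) ∨
    (i.val = 2 ∧ j.val = 0)
  symm := ⟨by intro i j h; omega⟩
  loopless := ⟨by intro i h; omega⟩

section
variable {m : ℕ}

lemma tad_adj (i j : Fin m) : (tad m).Adj i j ↔ (i.val + 1 = j.val ∨ j.val + 1 = i.val ∨
    (i.val = 0 ∧ j.val = 2) ∨ (i.val = 2 ∧ j.val = 0)) := Iff.rfl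

lemma sepR {c : ℕ} (hc : 2 ≤ c) : ∀ {a b : Fin m} (p : (tad m).Walk a b),
    (∀ x ∈ p.support, x.val ≠ c) → c < a.val → c < b.val := by
  intro a b p
  induction p with
  | nil => intro _ h; exact h
  | @cons a x b h p ih =>
    intro hs ha
    apply ih
    · intro y hy
      exact hs y (by rw [Walk.support_cons]; exact List.mem_cons_of_mem _ hy)
    · have h1 := hs x (by rw [Walk.support_cons]
                          exact List.mem_cons_of_mem _ (Walk.start_mem_support p))
      rw [tad_adj] at h
      omega

lemma sepL {c : ℕ} (hc : 2 ≤ c) : ∀ {a b : Fin m} (p : (tad m).Walk a b),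
    (∀ x ∈ p.support, x.val ≠ c) → a.val < c → b.val < c := by
  intro a b p
  induction p with
  | nil => intro _ h; exact h
  | @cons a x b h p ih =>
    intro hs ha
    apply ih
    · intro y hy
      exact hs y (by rw [Walk.support_cons]; exact List.mem_cons_of_mem _ hy)
    · have h1 := hs x (by rw [Walk.support_cons]
                          exact List.mem_cons_of_mem _ (Walk.start_mem_support p))
      rw [tad_adj] at h
      omega

lemma fwd : ∀ {a b : Fin m} (p : (tad m).Walk a b), p.IsPath →
    (∀ x ∈ p.support, a.val ≤ x.val) → 2 ≤ a.val → a.val + p.length = b.val := by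
  intro a b p
  induction p with
  | nil => intro _ _ _; simp
  | @cons a x b h p ih =>
    intro hp hs ha
    rw [Walk.cons_isPath_iff] at hp
    have hx := hs x (by rw [Walk.support_cons]
                        exact List.mem_cons_of_mem _ (Walk.start_mem_support p))
    rw [tad_adj] at h
    have hxa : x.val = a.val + 1 := by omega
    have := ih hp.1 (by
      intro y hy
      have h1 := hs y (by rw [Walk.support_cons]; exact List.mem_cons_of_mem _ hy)
      have h2 : y ≠ a := by
        rintro rfl
        exact hp.2 hy
      have h3 : y.val ≠ a.val := fun h => h2 (Fin.ext h)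
      omega) (by omega)
    rw [Walk.length_cons]
    omega

/-- lengths of paths between two vertices of the tail -/
lemma tail_path {i j : Fin m} (hi : 2 ≤ i.val) (hij : i.val < j.val) {k : ℕ}
    (h : HasPath (tad m) k i j) : k = j.val - i.val := by
  obtain ⟨p, hp, hl⟩ := h
  have hmain : ∀ x ∈ p.support, i.val ≤ x.val := by
    cases p with
    | nil => omega
    | @cons _ x _ h q =>
      rw [Walk.cons_isPath_iff] at hp
      have hav : ∀ y ∈ q.support, y.val ≠ i.val := by
        intro y hy he
        have : y = i := Fin.ext he
        rw [this] at hy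
        exact hp.2 hy
      have hx1 : x.val ≠ i.val := hav x (Walk.start_mem_support q)
      have hx : i.val < x.val := by
        by_contra hlt
        have := sepL hi q hav (by omega)
        omega
      intro y hy
      rw [Walk.support_cons, List.mem_cons] at hy
      rcases hy with rfl | hy
      · exact le_refl _
      · classical
        have := sepR hi (q.takeUntil y hy) (by
          intro z hz
          exact hav z (Walk.support_takeUntil_subset_support q hy hz)) hx
        omega
  have := fwd p hp hmain hi
  omega

/-- lengths of paths starting at `0` or `1` and ending in the tail -/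
lemma head_path {i j : Fin m} (hi : i.val < 2) (hj : 2 ≤ j.val) {k : ℕ}
    (h : HasPath (tad m) k i j) : k = j.val - 1 ∨ k = j.val := by
  obtain ⟨p, hp, hl⟩ := h
  have two : ∀ (a : Fin m), a.val = 2 → ∀ q : (tad m).Walk a j, q.IsPath →
      q.length + 2 = j.val := by
    intro a ha q hq
    by_cases haj : a.val < j.val
    · have := tail_path (by omega) haj ⟨q, hq, rfl⟩
      omega
    · have : a = j := Fin.ext (by omega)
      subst this
      have := Walk.length_eq_zero_iff.2 (Walk.isPath_iff_nil.1 hq)
      omega
  cases p with
  | nil => omega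
  | @cons _ x _ h q =>
    rw [Walk.cons_isPath_iff] at hp
    rw [Walk.length_cons] at hl
    rw [tad_adj] at h
    by_cases hx2 : x.val = 2
    · have := two x hx2 q hp.1
      omega
    · have hx1 : x.val < 2 := by omega
      obtain ⟨hq, hnot⟩ := hp
      cases q with
      | nil => omega
      | @cons _ y _ h2 q2 =>
        rw [Walk.cons_isPath_iff] at hq
        rw [tad_adj] at h2
        have hyi : y.val ≠ i.val := by
          intro he
          have : y = i := Fin.ext he
          apply hnot
          rw [Walk.support_cons, ← this]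
          exact List.mem_cons_of_mem _ (Walk.start_mem_support q2)
        have hy2 : y.val = 2 := by omega
        have := two y hy2 q2 hq.1
        rw [Walk.length_cons] at hl
        omega

/-- lengths of paths between `0` and `1` -/
lemma zero_one_path {i j : Fin m} (hi : i.val = 0) (hj : j.val = 1) {k : ℕ}
    (h : HasPath (tad m) k i j) : k = 1 ∨ k = 2 := by
  obtain ⟨p, hp, hl⟩ := h
  cases p with
  | nil => omega
  | @cons _ x _ h q =>
    rw [Walk.cons_isPath_iff] at hp
    rw [Walk.length_cons] at hl
    rw [tad_adj] at h
    obtain ⟨hq, hnot⟩ := hp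
    cases q with
    | nil => simp at hl; omega
    | @cons _ y _ h2 q2 =>
      rw [Walk.cons_isPath_iff] at hq
      rw [tad_adj] at h2
      have hyi : y.val ≠ i.val := by
        intro he
        have : y = i := Fin.ext he
        apply hnot
        rw [Walk.support_cons, ← this]
        exact List.mem_cons_of_mem _ (Walk.start_mem_support q2)
      by_cases hx1 : x.val = 1
      · exfalso
        have hxj : x = j := Fin.ext (by omega)
        apply hq.2
        rw [hxj]
        exact Walk.end_mem_support q2
      · have hx2 : x.val = 2 := by omega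
        have hy1 : y.val = 1 := by
          by_contra hne
          have hy3 : 2 < y.val := by omega
          have := sepR (c := 2) le_rfl q2 (by
            intro z hz he
            have : z = x := Fin.ext (by omega)
            rw [this] at hz
            exact hq.2 hz) hy3
          omega
        have hyj : y = j := Fin.ext (by omega)
        subst hyj
        have := Walk.length_eq_zero_iff.2 (Walk.isPath_iff_nil.1 hq.1)
        rw [Walk.length_cons] at hl
        omega

/-- increasing paths -/
lemma up_path : ∀ (d : ℕ) (i j : Fin m), i.val + d = j.val →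
    ∃ p : (tad m).Walk i j, p.IsPath ∧ p.length = d ∧ ∀ x ∈ p.support, i.val ≤ x.val := by
  intro d
  induction d with
  | zero =>
    intro i j h
    have : i = j := Fin.ext (by omega)
    subst this
    exact ⟨Walk.nil, Walk.IsPath.nil, rfl, by simp⟩
  | succ d ih =>
    intro i j h
    have hlt : i.val + 1 < m := by have := j.2; omega
    obtain ⟨p, hp, hl, hs⟩ := ih ⟨i.val + 1, hlt⟩ j (by simp only; omega)
    have hadj : (tad m).Adj i ⟨i.val + 1, hlt⟩ := Or.inl rfl
    refine ⟨Walk.cons hadj p, ?_, by rw [Walk.length_cons, hl], ?_⟩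
    · rw [Walk.cons_isPath_iff]
      refine ⟨hp, fun hmem => ?_⟩
      have := hs i hmem
      simp only at this
      omega
    · intro x hx
      rw [Walk.support_cons, List.mem_cons] at hx
      rcases hx with rfl | hx
      · exact le_refl _
      · have := hs x hx
        simp only at this
        omega

lemma up (i j : Fin m) (h : i.val ≤ j.val) : HasPath (tad m) (j.val - i.val) i j := by
  obtain ⟨p, hp, hl, _⟩ := up_path (j.val - i.val) i j (by omega)
  exact ⟨p, hp, hl⟩

lemma tad_connected (hm : 1 ≤ m) : (tad m).Connected := by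
  have h0 : Fin m := ⟨0, hm⟩
  have key : ∀ x : Fin m, (tad m).Reachable ⟨0, hm⟩ x := by
    intro x
    obtain ⟨p, _⟩ := up ⟨0, hm⟩ x (by simp)
    exact ⟨p⟩
  have : Nonempty (Fin m) := ⟨h0⟩
  exact ⟨fun x y => (key x).symm.trans (key y)⟩

lemma ncard_pair_fin {a b : Fin m} (h : a ≠ b) : ({a, b} : Set (Fin m)).ncard = 2 :=
  Set.ncard_pair h

lemma deg_tad0 (hm : 4 ≤ m) (i : Fin m) (hi : i.val = 0) : deg (tad m) i = 2 := by
  unfold deg
  have : (tad m).neighborSet i = {⟨1, by omega⟩, ⟨2, by omega⟩} := by
    ext j
    simp only [SimpleGraph.mem_neighborSet, tad_adj, Set.mem_insert_iff, Set.mem_singleton_iff,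
      Fin.ext_iff]
    omega
  rw [this]
  exact Set.ncard_pair (by simp [Fin.ext_iff])

lemma deg_tad1 (hm : 4 ≤ m) (i : Fin m) (hi : i.val = 1) : deg (tad m) i = 2 := by
  unfold deg
  have : (tad m).neighborSet i = {⟨0, by omega⟩, ⟨2, by omega⟩} := by
    ext j
    simp only [SimpleGraph.mem_neighborSet, tad_adj, Set.mem_insert_iff, Set.mem_singleton_iff,
      Fin.ext_iff]
    omega
  rw [this]
  exact Set.ncard_pair (by simp [Fin.ext_iff])

lemma deg_tad2 (hm : 4 ≤ m) (i : Fin m) (hi : i.val = 2) : deg (tad m) i = 3 := by
  unfold deg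
  have : (tad m).neighborSet i = {⟨0, by omega⟩, ⟨1, by omega⟩, ⟨3, by omega⟩} := by
    ext j
    simp only [SimpleGraph.mem_neighborSet, tad_adj, Set.mem_insert_iff, Set.mem_singleton_iff,
      Fin.ext_iff]
    omega
  rw [this, Set.ncard_insert_of_notMem, Set.ncard_pair]
  · simp [Fin.ext_iff]
  · simp [Fin.ext_iff]

lemma deg_tad_mid (i : Fin m) (hi : 3 ≤ i.val) (hi' : i.val + 1 < m) : deg (tad m) i = 2 := by
  unfold deg
  have : (tad m).neighborSet i = {⟨i.val - 1, by omega⟩, ⟨i.val + 1, by omega⟩} := by
    ext j
    simp only [SimpleGraph.mem_neighborSet, tad_adj, Set.mem_insert_iff, Set.mem_singleton_iff,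
      Fin.ext_iff]
    omega
  rw [this]
  exact Set.ncard_pair (by simp only [ne_eq, Fin.ext_iff]; omega)

lemma deg_tad_last (i : Fin m) (hi : 3 ≤ i.val) (hi' : i.val + 1 = m) : deg (tad m) i = 1 := by
  unfold deg
  have : (tad m).neighborSet i = {⟨i.val - 1, by omega⟩} := by
    ext j
    simp only [SimpleGraph.mem_neighborSet, tad_adj, Set.mem_singleton_iff,
      Fin.ext_iff]
    have := j.2
    omega
  rw [this, Set.ncard_singleton]

end

end Pool.Agent.KPI
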