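import Pool.Agent.KPI.High
import Pool.Agent.KPI.Long1

/-!
# Graphs which are k-path irregular for k = 2 and k = 4
-/

namespace Pool.Agent.KPI
open SimpleGraph

universe u
variable {V : Type u} {G : SimpleGraph V}

/-- The numbering of the vertices of a half graph. -/
structure Half (G : SimpleGraph V) (D : ℕ) (a b : ℕ → V) : Prop where
  ainj : ∀ i j, 1 ≤ i → i ≤ D → 1 ≤ j → j ≤ D → a i = a j → i = j
  binj : ∀ i j, 1 ≤ i → i ≤ D → 1 ≤ j → j ≤ D → b i = b j → i = j
  ab : ∀ i j, 1 ≤ i → i ≤ D → 1 ≤ j → j ≤ D → a i ≠ b j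
  surj : ∀ x, (∃ i, 1 ≤ i ∧ i ≤ D ∧ x = a i) ∨ (∃ i, 1 ≤ i ∧ i ≤ D ∧ x = b i)
  adj : ∀ i j, 1 ≤ i → i ≤ D → 1 ≤ j → j ≤ D → (G.Adj (a i) (b j) ↔ D + 1 ≤ i + j)
  aa : ∀ i j, 1 ≤ i → i ≤ D → 1 ≤ j → j ≤ D → ¬ G.Adj (a i) (a j)
  bb : ∀ i j, 1 ≤ i → i ≤ D → 1 ≤ j → j ≤ D → ¬ G.Adj (b i) (b j)
  da : ∀ i, 1 ≤ i → i ≤ D → deg G (a i) = i
  db : ∀ i, 1 ≤ i → i ≤ D → deg G (b i) = i

/-- A walk changes the side with each step. -/
lemma Half.parity {D : ℕ} {a b : ℕ → V} (h : Half G D a b) : ∀ {x y : V} (p : G.Walk x y),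
    ((∃ i, 1 ≤ i ∧ i ≤ D ∧ x = a i) → (∃ j, 1 ≤ j ∧ j ≤ D ∧ y = a j) → Even p.length) ∧
    ((∃ i, 1 ≤ i ∧ i ≤ D ∧ x = a i) → (∃ j, 1 ≤ j ∧ j ≤ D ∧ y = b j) → Odd p.length) ∧
    ((∃ i, 1 ≤ i ∧ i ≤ D ∧ x = b i) → (∃ j, 1 ≤ j ∧ j ≤ D ∧ y = a j) → Odd p.length) ∧
    ((∃ i, 1 ≤ i ∧ i ≤ D ∧ x = b i) → (∃ j, 1 ≤ j ∧ j ≤ D ∧ y = b j) → Even p.length) := by
  intro x y p
  induction p with
  | nil =>
    refine ⟨fun _ _ => ⟨0, rfl⟩, ?_, ?_, fun _ _ => ⟨0, rfl⟩⟩
    · rintro ⟨i, hi1, hi2, rfl⟩ ⟨j, hj1, hj2, he⟩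
      exact absurd he (h.ab i j hi1 hi2 hj1 hj2)
    · rintro ⟨i, hi1, hi2, rfl⟩ ⟨j, hj1, hj2, he⟩
      exact absurd he.symm (h.ab j i hj1 hj2 hi1 hi2)
  | @cons x z y hxz p ih =>
    obtain ⟨ih1, ih2, ih3, ih4⟩ := ih
    have hz := h.surj z
    rw [Walk.length_cons]
    have fromA : (∃ i, 1 ≤ i ∧ i ≤ D ∧ x = a i) → ∃ i, 1 ≤ i ∧ i ≤ D ∧ z = b i := by
      rintro ⟨i, hi1, hi2, rfl⟩
      rcases hz with ⟨j, hj1, hj2, rfl⟩ | hz
      · exact absurd hxz (h.aa i j hi1 hi2 hj1 hj2)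
      · exact hz
    have fromB : (∃ i, 1 ≤ i ∧ i ≤ D ∧ x = b i) → ∃ i, 1 ≤ i ∧ i ≤ D ∧ z = a i := by
      rintro ⟨i, hi1, hi2, rfl⟩
      rcases hz with hz | ⟨j, hj1, hj2, rfl⟩
      · exact hz
      · exact absurd hxz (h.bb i j hi1 hi2 hj1 hj2)
    refine ⟨?_, ?_, ?_, ?_⟩
    · intro hx hy
      exact (ih3 (fromA hx) hy).add_one
    · intro hx hy
      exact (ih4 (fromA hx) hy).add_one
    · intro hx hy
      exact (ih1 (fromB hx) hy).add_one
    · intro hx hy
      exact (ih2 (fromB hx) hy).add_one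

lemma Half.even_irr {D : ℕ} {a b : ℕ → V} (h : Half G D a b) {k : ℕ} (hk : 1 ≤ k)
    (he : Even k) : PathIrregular G k := by
  intro x y hp hd
  have hne := hp.ne hk
  obtain ⟨p, hp, hl⟩ := hp
  obtain ⟨-, h2, h3, -⟩ := h.parity p
  have hnodd : ¬ Odd p.length := by
    rw [hl, Nat.not_odd_iff_even]
    exact he
  rcases h.surj x with ⟨i, hi1, hi2, rfl⟩ | ⟨i, hi1, hi2, rfl⟩ <;>
  rcases h.surj y with ⟨j, hj1, hj2, rfl⟩ | ⟨j, hj1, hj2, rfl⟩
  · rw [h.da i hi1 hi2, h.da j hj1 hj2] at hd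
    exact hne (by rw [hd])
  · exact hnodd (h2 ⟨i, hi1, hi2, rfl⟩ ⟨j, hj1, hj2, rfl⟩)
  · exact hnodd (h3 ⟨i, hi1, hi2, rfl⟩ ⟨j, hj1, hj2, rfl⟩)
  · rw [h.db i hi1 hi2, h.db j hj1 hj2] at hd
    exact hne (by rw [hd])

/-- The zigzag path. -/
lemma Half.zigzag {D : ℕ} {a b : ℕ → V} (h : Half G D a b) {m : ℕ} (hm1 : 1 ≤ m) (hm : m ≤ D) :
    ∀ s, s < m → ∃ p : G.Walk (a (D - m + 1)) (b (D - s)), p.IsPath ∧ p.length = 2 * s + 1 ∧
      ∀ x ∈ p.support, (∃ t, t ≤ s ∧ x = a (D - m + 1 + t)) ∨ (∃ t, t ≤ s ∧ x = b (D - t)) := by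
  intro s
  induction s with
  | zero =>
    intro _
    have hadj : G.Adj (a (D - m + 1)) (b (D - 0)) :=
      (h.adj _ _ (by omega) (by omega) (by omega) (by omega)).2 (by omega)
    refine ⟨Walk.cons hadj Walk.nil, ?_, rfl, ?_⟩
    · rw [Walk.cons_isPath_iff]
      refine ⟨Walk.IsPath.nil, ?_⟩
      rw [Walk.support_nil, List.mem_singleton]
      exact hadj.ne
    · intro x hx
      rw [Walk.support_cons, Walk.support_nil, List.mem_cons, List.mem_singleton] at hx
      rcases hx with rfl | rfl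
      · exact Or.inl ⟨0, le_rfl, rfl⟩
      · exact Or.inr ⟨0, le_rfl, rfl⟩
  | succ s ih =>
    intro hs
    obtain ⟨p, hp, hl, hsup⟩ := ih (by omega)
    have hadj1 : G.Adj (b (D - s)) (a (D - m + 1 + (s + 1))) :=
      ((h.adj _ _ (by omega) (by omega) (by omega) (by omega)).2 (by omega)).symm
    have hadj2 : G.Adj (a (D - m + 1 + (s + 1))) (b (D - (s + 1))) :=
      (h.adj _ _ (by omega) (by omega) (by omega) (by omega)).2 (by omega)
    have hn1 : a (D - m + 1 + (s + 1)) ∉ p.support := by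
      intro hx
      rcases hsup _ hx with ⟨t, ht, he⟩ | ⟨t, ht, he⟩
      · have := h.ainj _ _ (by omega) (by omega) (by omega) (by omega) he
        omega
      · exact h.ab _ _ (by omega) (by omega) (by omega) (by omega) he
    have hp1 : (p.concat hadj1).IsPath := by
      rw [Walk.concat_isPath_iff]
      exact ⟨hp, hn1⟩
    have hn2 : b (D - (s + 1)) ∉ (p.concat hadj1).support := by
      intro hx
      rw [Walk.support_concat, List.mem_append, List.mem_singleton] at hx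
      rcases hx with hx | hx
      · rcases hsup _ hx with ⟨t, ht, he⟩ | ⟨t, ht, he⟩
        · exact h.ab _ _ (by omega) (by omega) (by omega) (by omega) he.symm
        · have := h.binj _ _ (by omega) (by omega) (by omega) (by omega) he
          omega
      · exact h.ab _ _ (by omega) (by omega) (by omega) (by omega) hx.symm
    refine ⟨(p.concat hadj1).concat hadj2, ?_, ?_, ?_⟩
    · rw [Walk.concat_isPath_iff]
      exact ⟨hp1, hn2⟩
    · rw [Walk.length_concat, Walk.length_concat, hl]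
      omega
    · intro x hx
      rw [Walk.support_concat, List.mem_append, List.mem_singleton] at hx
      rcases hx with hx | rfl
      · rw [Walk.support_concat, List.mem_append, List.mem_singleton] at hx
        rcases hx with hx | rfl
        · rcases hsup _ hx with ⟨t, ht, he⟩ | ⟨t, ht, he⟩
          · exact Or.inl ⟨t, by omega, he⟩
          · exact Or.inr ⟨t, by omega, he⟩
        · exact Or.inl ⟨s + 1, le_rfl, rfl⟩
      · exact Or.inr ⟨s + 1, le_rfl, rfl⟩

lemma Half.not_odd {D : ℕ} {a b : ℕ → V} (h : Half G D a b) {k : ℕ} (ho : Odd k)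
    (hk : k < 2 * D) : ¬ PathIrregular G k := by
  intro hirr
  obtain ⟨m, rfl⟩ := ho
  obtain ⟨p, hp, hl, -⟩ := h.zigzag (m := m + 1) (by omega) (by omega) m (by omega)
  have he : D - m = D - (m + 1) + 1 := by omega
  refine hirr _ _ ⟨p, hp, hl⟩ ?_
  rw [h.da _ (by omega) (by omega), h.db _ (by omega) (by omega)]
  exact he.symm

lemma Half.card [Fintype V] {D : ℕ} {a b : ℕ → V} (h : Half G D a b) :
    Fintype.card V = 2 * D := by
  classical
  have h1 : (Finset.univ : Finset V) = (Finset.Icc 1 D).image a ∪ (Finset.Icc 1 D).image b := by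
    ext x
    simp only [Finset.mem_univ, Finset.mem_union, Finset.mem_image, Finset.mem_Icc, true_iff]
    rcases h.surj x with ⟨i, h1, h2, rfl⟩ | ⟨i, h1, h2, rfl⟩
    · exact Or.inl ⟨i, ⟨h1, h2⟩, rfl⟩
    · exact Or.inr ⟨i, ⟨h1, h2⟩, rfl⟩
  rw [← Finset.card_univ, h1, Finset.card_union_of_disjoint, Finset.card_image_of_injOn,
    Finset.card_image_of_injOn, Nat.card_Icc]
  · omega
  · intro i hi j hj hij
    have hi' := Finset.mem_Icc.1 (Finset.mem_coe.1 hi)
    have hj' := Finset.mem_Icc.1 (Finset.mem_coe.1 hj)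
    exact h.binj i j hi'.1 hi'.2 hj'.1 hj'.2 hij
  · intro i hi j hj hij
    have hi' := Finset.mem_Icc.1 (Finset.mem_coe.1 hi)
    have hj' := Finset.mem_Icc.1 (Finset.mem_coe.1 hj)
    exact h.ainj i j hi'.1 hi'.2 hj'.1 hj'.2 hij
  · rw [Finset.disjoint_left]
    intro x hx hx'
    obtain ⟨i, hi, rfl⟩ := Finset.mem_image.1 hx
    obtain ⟨j, hj, he⟩ := Finset.mem_image.1 hx'
    have hi' := Finset.mem_Icc.1 hi
    have hj' := Finset.mem_Icc.1 hj
    exact h.ab i j hi'.1 hi'.2 hj'.1 hj'.2 he.symm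

lemma Half.irrSet_eq [Fintype V] {D : ℕ} {a b : ℕ → V} (h : Half G D a b) :
    irrSet G = {k | 1 ≤ k ∧ (Even k ∨ Fintype.card V ≤ k)} := by
  ext k
  constructor
  · rintro ⟨h1, h2⟩
    refine ⟨h1, ?_⟩
    by_contra hcon
    push Not at hcon
    rw [Nat.not_even_iff_odd, h.card] at hcon
    exact h.not_odd hcon.1 hcon.2 h2
  · rintro ⟨h1, h2⟩
    refine ⟨h1, ?_⟩
    rcases h2 with h2 | h2
    · exact h.even_irr h1 h2
    · intro x y hp _
      obtain ⟨p, hp, hl⟩ := hp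
      have := hp.length_lt
      omega

/-- The classification, from a property of the paths with four edges through two adjacent
vertices of maximum degree. -/
theorem half_of_H [Fintype V] (hc : G.Connected) (hn : 2 ≤ Fintype.card V)
    (k2 : PathIrregular G 2)
    (hH : ∀ u v : V, (∀ x, deg G x ≤ deg G u) → deg G v = deg G u → G.Adj u v →
      ∀ a b w, G.Adj a u → G.Adj v b → G.Adj b w → [a, u, v, b, w].Nodup →
        deg G a ≠ deg G w) : ∃ D a b, Half G D a b := by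
  classical
  obtain ⟨v0⟩ := hc.nonempty
  obtain ⟨u, _, hmax⟩ := Finset.exists_max_image Finset.univ (deg G) ⟨v0, Finset.mem_univ v0⟩
  replace hmax : ∀ x, deg G x ≤ deg G u := fun x => hmax x (Finset.mem_univ x)
  have hnt : Nontrivial V := Fintype.one_lt_card_iff_nontrivial.1 (by omega)
  have hnb : ∀ v, ∃ x, G.Adj v x := by
    intro v
    obtain ⟨w, hw⟩ := exists_ne v
    obtain ⟨p⟩ := hc.preconnected v w
    cases p with
    | nil => exact absurd rfl hw
    | cons h _ => exact ⟨_, h⟩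
  obtain ⟨x0, hx0⟩ := hnb u
  set D := deg G u with hD
  have hd1 : 1 ≤ D := deg_pos hx0
  obtain ⟨v, huv, hv⟩ := exists_nb k2 hmax hd1 (le_refl _)
  have hmaxv : ∀ x, deg G x ≤ deg G v := fun x => by rw [hv]; exact hmax x
  have hA : ∀ i, ∃ x, 1 ≤ i → i ≤ D → G.Adj u x ∧ deg G x = i := by
    intro i
    by_cases h : 1 ≤ i ∧ i ≤ D
    · obtain ⟨x, hx⟩ := exists_nb k2 hmax h.1 h.2
      exact ⟨x, fun _ _ => hx⟩
    · exact ⟨u, fun h1 h2 => absurd ⟨h1, h2⟩ h⟩
  have hB : ∀ i, ∃ x, 1 ≤ i → i ≤ D → G.Adj v x ∧ deg G x = i := by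
    intro i
    by_cases h : 1 ≤ i ∧ i ≤ D
    · obtain ⟨x, hx⟩ := exists_nb k2 hmaxv h.1 (by rw [hv]; exact h.2)
      exact ⟨x, fun _ _ => hx⟩
    · exact ⟨u, fun h1 h2 => absurd ⟨h1, h2⟩ h⟩
  choose a ha using hA
  choose b hb using hB
  have haD : a D = v := by
    by_contra hne
    exact nb_ne k2 (ha D hd1 le_rfl).1 huv hne (by rw [(ha D hd1 le_rfl).2, hv])
  have hbD : b D = u := by
    by_contra hne
    exact nb_ne k2 (hb D hd1 le_rfl).1 huv.symm hne (by rw [(hb D hd1 le_rfl).2])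
  have ainj : ∀ i j, 1 ≤ i → i ≤ D → 1 ≤ j → j ≤ D → a i = a j → i = j := by
    intro i j h1 h2 h3 h4 he
    rw [← (ha i h1 h2).2, ← (ha j h3 h4).2, he]
  have binj : ∀ i j, 1 ≤ i → i ≤ D → 1 ≤ j → j ≤ D → b i = b j → i = j := by
    intro i j h1 h2 h3 h4 he
    rw [← (hb i h1 h2).2, ← (hb j h3 h4).2, he]
  -- no vertex is adjacent to both
  have nocommon : ∀ x, G.Adj u x → G.Adj v x → False := by
    intro x hux hvx
    exact nb_ne k2 hux.symm hvx.symm huv.ne (by rw [hv])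
  have ab : ∀ i j, 1 ≤ i → i ≤ D → 1 ≤ j → j ≤ D → a i ≠ b j := by
    intro i j h1 h2 h3 h4 he
    exact nocommon (a i) (ha i h1 h2).1 (by rw [he]; exact (hb j h3 h4).1)
  -- all neighbours of u and of v
  have hNu : ∀ x, G.Adj u x → ∃ i, 1 ≤ i ∧ i ≤ D ∧ x = a i := by
    intro x hx
    have h1 : 1 ≤ deg G x := deg_pos hx.symm
    refine ⟨deg G x, h1, hmax x, ?_⟩
    by_contra hne
    exact nb_ne k2 hx (ha _ h1 (hmax x)).1 hne (by rw [(ha _ h1 (hmax x)).2])
  have hNv : ∀ x, G.Adj v x → ∃ i, 1 ≤ i ∧ i ≤ D ∧ x = b i := by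
    intro x hx
    have h1 : 1 ≤ deg G x := deg_pos hx.symm
    refine ⟨deg G x, h1, hmax x, ?_⟩
    by_contra hne
    exact nb_ne k2 hx (hb _ h1 (hmax x)).1 hne (by rw [(hb _ h1 (hmax x)).2])
  -- neighbours of the `b j`
  have hNb : ∀ j, 1 ≤ j → j ≤ D → ∀ w, G.Adj (b j) w → ∃ i, 1 ≤ i ∧ i ≤ D ∧ w = a i := by
    intro j hj1 hj2 w hw
    by_cases hjD : j = D
    · rw [hjD, hbD] at hw
      exact hNu w hw
    by_cases hwv : w = v
    · exact ⟨D, hd1, le_rfl, by rw [hwv, haD]⟩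
    have hbj := hb j hj1 hj2
    have hw1 : 1 ≤ deg G w := deg_pos hw.symm
    refine ⟨deg G w, hw1, hmax w, ?_⟩
    by_contra hne
    have haw := ha _ hw1 (hmax w)
    have hwD : deg G w ≠ D := by
      intro h
      exact nb_ne k2 hw hbj.1.symm hwv (by rw [h, hv])
    have hav : a (deg G w) ≠ v := by
      intro h
      apply hwD
      have h2 := haw.2
      rw [h, hv] at h2
      exact h2.symm
    have hwu : w ≠ u := by
      rintro rfl
      exact hwD rfl
    have hbu : b j ≠ u := by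
      intro h
      apply hjD
      have h2 := hbj.2
      rw [h] at h2
      exact h2.symm
    have e1 := haw.1.ne
    have e2 := huv.ne
    have e3 := hbj.1.ne
    have e4 := hw.ne
    have e5 : a (deg G w) ≠ b j := ab _ _ hw1 (hmax w) hj1 hj2
    refine hH u v hmax hv huv (a (deg G w)) (b j) w haw.1.symm hbj.1 hw ?_ haw.2
    simp only [List.nodup_cons, List.mem_cons, List.not_mem_nil, or_false, not_or,
      List.nodup_nil, and_true, not_false_eq_true]
    refine ⟨⟨Ne.symm e1, hav, e5, fun h => hne h.symm⟩, ⟨e2, Ne.symm hbu, Ne.symm hwu⟩,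
      ⟨e3, Ne.symm hwv⟩, e4⟩
  have hNa : ∀ j, 1 ≤ j → j ≤ D → ∀ w, G.Adj (a j) w → ∃ i, 1 ≤ i ∧ i ≤ D ∧ w = b i := by
    intro j hj1 hj2 w hw
    by_cases hjD : j = D
    · rw [hjD, haD] at hw
      exact hNv w hw
    by_cases hwu : w = u
    · exact ⟨D, hd1, le_rfl, by rw [hwu, hbD]⟩
    have haj := ha j hj1 hj2
    have hw1 : 1 ≤ deg G w := deg_pos hw.symm
    refine ⟨deg G w, hw1, hmax w, ?_⟩
    by_contra hne
    have hbw := hb _ hw1 (hmax w)
    have hwD : deg G w ≠ D := by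
      intro h
      exact nb_ne k2 hw haj.1.symm hwu (by rw [h])
    have hbu : b (deg G w) ≠ u := by
      intro h
      apply hwD
      have h2 := hbw.2
      rw [h] at h2
      exact h2.symm
    have hwv : w ≠ v := by
      rintro rfl
      exact hwD hv
    have hav : a j ≠ v := by
      intro h
      apply hjD
      have h2 := haj.2
      rw [h, hv] at h2
      exact h2.symm
    have e1 := hbw.1.ne
    have e2 := huv.ne
    have e3 := haj.1.ne
    have e4 := hw.ne
    have e5 : a j ≠ b (deg G w) := ab _ _ hj1 hj2 hw1 (hmax w)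
    refine hH v u hmaxv hv.symm huv.symm (b (deg G w)) (a j) w hbw.1.symm haj.1 hw ?_ hbw.2
    simp only [List.nodup_cons, List.mem_cons, List.not_mem_nil, or_false, not_or,
      List.nodup_nil, and_true, not_false_eq_true]
    refine ⟨⟨Ne.symm e1, hbu, Ne.symm e5, fun h => hne h.symm⟩,
      ⟨Ne.symm e2, Ne.symm hav, Ne.symm hwv⟩, ⟨e3, Ne.symm hwu⟩, e4⟩
  have surj : ∀ x, (∃ i, 1 ≤ i ∧ i ≤ D ∧ x = a i) ∨ (∃ i, 1 ≤ i ∧ i ≤ D ∧ x = b i) := by
    intro x
    have key : ∀ (y z : V) (p : G.Walk y z),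
        ((∃ i, 1 ≤ i ∧ i ≤ D ∧ y = a i) ∨ (∃ i, 1 ≤ i ∧ i ≤ D ∧ y = b i)) →
        ((∃ i, 1 ≤ i ∧ i ≤ D ∧ z = a i) ∨ (∃ i, 1 ≤ i ∧ i ≤ D ∧ z = b i)) := by
      intro y z p
      induction p with
      | nil => exact id
      | @cons r s t hrs _ ih =>
        intro hr
        apply ih
        rcases hr with ⟨i, h1, h2, rfl⟩ | ⟨i, h1, h2, rfl⟩
        · exact Or.inr (hNa i h1 h2 s hrs)
        · exact Or.inl (hNb i h1 h2 s hrs)
    obtain ⟨p⟩ := hc.preconnected u x
    exact key u x p (Or.inr ⟨D, hd1, le_rfl, hbD.symm⟩)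
  have aa : ∀ i j, 1 ≤ i → i ≤ D → 1 ≤ j → j ≤ D → ¬ G.Adj (a i) (a j) := by
    intro i j h1 h2 h3 h4 hadj
    obtain ⟨l, h5, h6, he⟩ := hNa i h1 h2 _ hadj
    exact ab j l h3 h4 h5 h6 he
  have bb : ∀ i j, 1 ≤ i → i ≤ D → 1 ≤ j → j ≤ D → ¬ G.Adj (b i) (b j) := by
    intro i j h1 h2 h3 h4 hadj
    obtain ⟨l, h5, h6, he⟩ := hNb i h1 h2 _ hadj
    exact ab l j h5 h6 h3 h4 he.symm
  -- the adjacencies between the two sides
  have hrow : ∀ m, m < D → ∀ j, 1 ≤ j → j ≤ D → (G.Adj (a (D - m)) (b j) ↔ m + 1 ≤ j) := by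
    intro m
    induction m using Nat.strong_induction_on with
    | _ m ih =>
      intro hm
      have hlow : ∀ j, 1 ≤ j → j ≤ m → ¬ G.Adj (a (D - m)) (b j) := by
        intro j hj1 hjm hadj
        set N : Finset V := (Finset.range j).image fun t => a (D - t) with hN
        have hNsub : ((N : Finset V) : Set V) ⊆ G.neighborSet (b j) := by
          intro x hx
          obtain ⟨t, ht, rfl⟩ := Finset.mem_image.1 (Finset.mem_coe.1 hx)
          have ht' := Finset.mem_range.1 ht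
          exact ((ih t (by omega) (by omega) j hj1 (by omega)).2 (by omega)).symm
        have hNcard : N.card = j := by
          rw [hN, Finset.card_image_of_injOn, Finset.card_range]
          intro s hs t ht hst
          have hs' := Finset.mem_range.1 (Finset.mem_coe.1 hs)
          have ht' := Finset.mem_range.1 (Finset.mem_coe.1 ht)
          have := ainj _ _ (by omega) (by omega) (by omega) (by omega) hst
          omega
        have hEq : ((N : Finset V) : Set V) = G.neighborSet (b j) := by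
          refine Set.eq_of_subset_of_ncard_le hNsub ?_ (Set.toFinite _)
          rw [Set.ncard_coe_finset, hNcard]
          exact (hb j hj1 (by omega)).2.le
        have hmem : a (D - m) ∈ ((N : Finset V) : Set V) := by
          rw [hEq]
          exact hadj.symm
        obtain ⟨t, ht, he⟩ := Finset.mem_image.1 (Finset.mem_coe.1 hmem)
        have ht' := Finset.mem_range.1 ht
        have := ainj _ _ (by omega) (by omega) (by omega) (by omega) he
        omega
      have hsub : G.neighborSet (a (D - m)) ⊆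
          (((Finset.Icc (m + 1) D).image b : Finset V) : Set V) := by
        intro x hx
        obtain ⟨i, h1, h2, rfl⟩ := hNa (D - m) (by omega) (by omega) x hx
        rw [Finset.coe_image]
        refine ⟨i, ?_, rfl⟩
        rw [Finset.coe_Icc, Set.mem_Icc]
        refine ⟨?_, h2⟩
        by_contra hlt
        exact hlow i h1 (by omega) hx
      have hEq : G.neighborSet (a (D - m)) =
          (((Finset.Icc (m + 1) D).image b : Finset V) : Set V) := by
        refine Set.eq_of_subset_of_ncard_le hsub ?_ (Set.toFinite _)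
        rw [Set.ncard_coe_finset]
        refine Finset.card_image_le.trans ?_
        rw [Nat.card_Icc]
        have h1 := (ha (D - m) (by omega) (by omega)).2
        unfold deg at h1
        rw [h1]
        omega
      intro j hj1 hj2
      constructor
      · intro hadj
        by_contra hlt
        exact hlow j hj1 (by omega) hadj
      · intro hle
        have : b j ∈ G.neighborSet (a (D - m)) := by
          rw [hEq, Finset.coe_image]
          refine ⟨j, ?_, rfl⟩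
          rw [Finset.coe_Icc, Set.mem_Icc]
          exact ⟨hle, hj2⟩
        exact this
  refine ⟨D, a, b, ainj, binj, ab, surj, ?_, aa, bb, fun i h1 h2 => (ha i h1 h2).2,
    fun i h1 h2 => (hb i h1 h2).2⟩
  intro i j h1 h2 h3 h4
  have h5 := hrow (D - i) (by omega) j h3 h4
  have h6 : D - (D - i) = i := by omega
  rw [h6] at h5
  rw [h5]
  omega

/-- The classification. -/
theorem half_of_irr [Fintype V] (hc : G.Connected) (hn : 2 ≤ Fintype.card V)
    (k2 : PathIrregular G 2) (k4 : PathIrregular G 4) : ∃ D a b, Half G D a b :=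
  half_of_H hc hn k2 fun _ _ _ _ huv _ _ _ hau hvb hbw hnd =>
    k4 _ _ (hp4 hau huv hvb hbw hnd)

end Pool.Agent.KPI
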