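import Pool.Agent.KPI.Two1

/-!
# Half graphs, and the lengths 1, 3, 4, 5 in highly irregular graphs
-/

namespace Pool.Agent.KPI
open SimpleGraph

universe u
variable {V : Type u} {G : SimpleGraph V}

/-- The half graph with `2 D` vertices. -/
def halfG (D : ℕ) : SimpleGraph (Fin D ⊕ Fin D) where
  Adj x y := match x, y with
    | .inl i, .inr j => D ≤ i.val + j.val + 1
    | .inr j, .inl i => D ≤ i.val + j.val + 1
    | .inl _, .inl _ => False
    | .inr _, .inr _ => False
  symm := ⟨by
    rintro (i | i) (j | j) h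
    · exact h
    · exact h
    · exact h
    · exact h⟩
  loopless := ⟨by
    rintro (i | i) h
    · exact h
    · exact h⟩

section halfG
variable {D : ℕ}

lemma halfG_lr (i j : Fin D) : (halfG D).Adj (.inl i) (.inr j) ↔ D ≤ i.val + j.val + 1 := Iff.rfl
lemma halfG_rl (i j : Fin D) : (halfG D).Adj (.inr j) (.inl i) ↔ D ≤ i.val + j.val + 1 := Iff.rfl
lemma halfG_ll (i j : Fin D) : ¬ (halfG D).Adj (.inl i) (.inl j) := fun h => h
lemma halfG_rr (i j : Fin D) : ¬ (halfG D).Adj (.inr i) (.inr j) := fun h => h

lemma half_count (i : Fin D) : ({j : Fin D | D ≤ i.val + j.val + 1} : Set (Fin D)).ncard =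
    i.val + 1 := by
  classical
  have h1 : ({j : Fin D | D ≤ i.val + j.val + 1} : Set (Fin D)) =
      ((Finset.univ.filter fun j : Fin D => D ≤ i.val + j.val + 1 : Finset (Fin D)) :
        Set (Fin D)) := by
    ext j
    simp
  rw [h1, Set.ncard_coe_finset]
  have h2 : (Finset.univ.filter fun j : Fin D => D ≤ i.val + j.val + 1).card =
      (Finset.range (i.val + 1)).card := by
    refine Finset.card_nbij (fun j => D - 1 - j.val) ?_ ?_ ?_
    · intro j hj
      have hj' : D ≤ i.val + j.val + 1 := by simpa using hj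
      simp only [Finset.coe_range, Set.mem_Iio]
      omega
    · intro j hj k hk hjk
      have e1 := j.2
      have e2 := k.2
      have hjk' : D - 1 - j.val = D - 1 - k.val := hjk
      exact Fin.ext (by omega)
    · intro t ht
      have ht' : t < i.val + 1 := by simpa using ht
      have e1 := i.2
      refine ⟨⟨D - 1 - t, by omega⟩, ?_, ?_⟩
      · simp only [Finset.coe_filter, Finset.mem_univ, true_and, Set.mem_setOf_eq]
        omega
      · show D - 1 - (D - 1 - t) = t
        omega
  rw [h2, Finset.card_range]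

lemma deg_halfG_inl (i : Fin D) : deg (halfG D) (.inl i) = i.val + 1 := by
  unfold deg
  have : (halfG D).neighborSet (.inl i) =
      (Sum.inr : Fin D → Fin D ⊕ Fin D) '' {j : Fin D | D ≤ i.val + j.val + 1} := by
    ext x
    rcases x with j | j
    · constructor
      · intro h
        exact (halfG_ll i j h).elim
      · rintro ⟨y, _, hy⟩
        exact absurd hy (by simp)
    · constructor
      · intro h
        exact ⟨j, h, rfl⟩
      · rintro ⟨y, hy, he⟩
        rw [Sum.inr.injEq] at he
        subst he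
        exact hy
  rw [this, Set.ncard_image_of_injective _ Sum.inr_injective, half_count]

lemma deg_halfG_inr (i : Fin D) : deg (halfG D) (.inr i) = i.val + 1 := by
  unfold deg
  have : (halfG D).neighborSet (.inr i) =
      (Sum.inl : Fin D → Fin D ⊕ Fin D) '' {j : Fin D | D ≤ i.val + j.val + 1} := by
    ext x
    rcases x with j | j
    · constructor
      · intro h
        have h' : D ≤ j.val + i.val + 1 := h
        exact ⟨j, by
          show D ≤ i.val + j.val + 1
          omega, rfl⟩
      · rintro ⟨y, hy, he⟩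
        rw [Sum.inl.injEq] at he
        subst he
        have hy' : D ≤ i.val + y.val + 1 := hy
        show D ≤ y.val + i.val + 1
        omega
    · constructor
      · intro h
        exact (halfG_rr i j h).elim
      · rintro ⟨y, _, hy⟩
        exact absurd hy (by simp)
  rw [this, Set.ncard_image_of_injective _ Sum.inl_injective, half_count]

lemma halfG_connected (hD : 1 ≤ D) : (halfG D).Connected := by
  have e : D - 1 < D := by omega
  have h0 : ∀ x, (halfG D).Reachable x (.inl ⟨D - 1, e⟩) := by
    rintro (i | i)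
    · have h1 : (halfG D).Adj (.inl i) (.inr ⟨D - 1, e⟩) := by
        rw [halfG_lr]
        show D ≤ i.val + (D - 1) + 1
        omega
      have h2 : (halfG D).Adj (.inr ⟨D - 1, e⟩) (.inl ⟨D - 1, e⟩) := by
        rw [halfG_rl]
        show D ≤ (D - 1) + (D - 1) + 1
        omega
      exact h1.reachable.trans h2.reachable
    · have h2 : (halfG D).Adj (.inr i) (.inl ⟨D - 1, e⟩) := by
        rw [halfG_rl]
        show D ≤ (D - 1) + i.val + 1
        omega
      exact h2.reachable
  haveI : Nonempty (Fin D ⊕ Fin D) := ⟨.inl ⟨D - 1, e⟩⟩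
  exact SimpleGraph.Connected.mk fun x y => (h0 x).trans (h0 y).symm

theorem half_halfG (hD : 1 ≤ D) : ∃ a b, Half (halfG D) D a b := by
  have e : ∀ i, min (i - 1) (D - 1) < D := by omega
  refine ⟨fun i => .inl ⟨min (i - 1) (D - 1), e i⟩, fun i => .inr ⟨min (i - 1) (D - 1), e i⟩,
    ?_, ?_, ?_, ?_, ?_, ?_, ?_, ?_, ?_⟩
  · intro i j h1 h2 h3 h4 he
    rw [Sum.inl.injEq, Fin.mk.injEq] at he
    omega
  · intro i j h1 h2 h3 h4 he
    rw [Sum.inr.injEq, Fin.mk.injEq] at he
    omega
  · intro i j _ _ _ _ he
    exact absurd he (by simp)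
  · rintro (i | i)
    · have hi := i.2
      refine Or.inl ⟨i.val + 1, by omega, by omega, ?_⟩
      rw [Sum.inl.injEq]
      apply Fin.ext
      show i.val = min (i.val + 1 - 1) (D - 1)
      omega
    · have hi := i.2
      refine Or.inr ⟨i.val + 1, by omega, by omega, ?_⟩
      rw [Sum.inr.injEq]
      apply Fin.ext
      show i.val = min (i.val + 1 - 1) (D - 1)
      omega
  · intro i j h1 h2 h3 h4
    rw [halfG_lr]
    show D ≤ min (i - 1) (D - 1) + min (j - 1) (D - 1) + 1 ↔ _
    omega
  · intro i j _ _ _ _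
    exact halfG_ll _ _
  · intro i j _ _ _ _
    exact halfG_rr _ _
  · intro i h1 h2
    rw [deg_halfG_inl]
    show min (i - 1) (D - 1) + 1 = i
    omega
  · intro i h1 h2
    rw [deg_halfG_inr]
    show min (i - 1) (D - 1) + 1 = i
    omega

theorem realisable_half {n : ℕ} (hn : 2 ≤ n) (he : Even n) :
    Realisable n {k | 1 ≤ k ∧ (Even k ∨ n ≤ k)} := by
  obtain ⟨D, rfl⟩ := he
  have hD : 1 ≤ D := by omega
  obtain ⟨a, b, h⟩ := half_halfG hD
  have hcard : Fintype.card (Fin D ⊕ Fin D) = D + D := by
    rw [Fintype.card_sum, Fintype.card_fin]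
  have h1 := realisable_of (halfG D) (halfG_connected hD) hcard (B := badSet (halfG D)) rfl
  rw [← irrSet_eq, h.irrSet_eq, hcard] at h1
  exact h1

end halfG

section five
variable [Fintype V] (k2 : PathIrregular G 2)

include k2 in
/-- two adjacent vertices of maximum degree at least three and their leaves -/
lemma high_setup (hc : G.Connected) (hn : 5 ≤ Fintype.card V) :
    ∃ u v u1 v1 : V, (∀ x, deg G x ≤ deg G u) ∧ 3 ≤ deg G u ∧ deg G v = deg G u ∧ G.Adj u v ∧
      Leaf G u1 u ∧ Leaf G v1 v := by
  classical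
  obtain ⟨v0⟩ := hc.nonempty
  obtain ⟨u, _, hmax⟩ := Finset.exists_max_image Finset.univ (deg G) ⟨v0, Finset.mem_univ v0⟩
  replace hmax : ∀ x, deg G x ≤ deg G u := fun x => hmax x (Finset.mem_univ x)
  have hnt : Nontrivial V := Fintype.one_lt_card_iff_nontrivial.1 (by omega)
  have hnb : ∀ v, ∃ x, G.Adj v x := by
    intro v
    obtain ⟨w, hw⟩ := exists_ne v
    obtain ⟨p⟩ := hc.preconnected v w
    cases p with
    | nil => exact absurd rfl hw
    | cons h _ => exact ⟨_, h⟩
  obtain ⟨x0, hx0⟩ := hnb u
  have hd1 : 1 ≤ deg G u := deg_pos hx0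
  obtain ⟨v, huv, hv⟩ := exists_nb k2 hmax hd1 (le_refl _)
  have hmaxv : ∀ x, deg G x ≤ deg G v := fun x => by rw [hv]; exact hmax x
  obtain ⟨u1, hu1, du1⟩ := exists_nb k2 hmax (le_refl 1) hd1
  obtain ⟨v1, hv1, dv1⟩ := exists_nb k2 hmaxv (le_refl 1) (by omega)
  have Lu : Leaf G u1 u := ⟨hu1.symm, du1⟩
  have Lv : Leaf G v1 v := ⟨hv1.symm, dv1⟩
  -- a set closed under adjacency is everything
  have closed : ∀ S : Finset V, u ∈ S → (∀ a ∈ S, ∀ b, G.Adj a b → b ∈ S) → 5 ≤ S.card := by
    intro S huS hS
    have : S = Finset.univ := by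
      ext w
      simp only [Finset.mem_univ, iff_true]
      have key : ∀ (x y : V) (p : G.Walk x y), x ∈ S → y ∈ S := by
        intro x y p
        induction p with
        | nil => exact id
        | @cons a b d hab _ ih =>
          intro ha
          exact ih (hS a ha b hab)
      obtain ⟨p⟩ := hc.preconnected u w
      exact key u w p huS
    rw [this, Finset.card_univ]
    exact hn
  refine ⟨u, v, u1, v1, hmax, ?_, hv, huv, Lu, Lv⟩
  by_contra hlt
  by_cases hd : deg G u = 1
  · -- the component is an edge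
    have Lu' : Leaf G u v := ⟨huv, hd⟩
    have Lv' : Leaf G v u := ⟨huv.symm, by omega⟩
    have := closed {u, v} (by simp) (by
      intro a ha b hab
      rw [Finset.mem_insert, Finset.mem_singleton] at ha ⊢
      rcases ha with rfl | rfl
      · exact Or.inr (Lu'.uniq hab)
      · exact Or.inl (Lv'.uniq hab))
    have h2 := Finset.card_le_two (a := u) (b := v)
    omega
  · have hd' : deg G u = 2 := by omega
    have two : ∀ a b c : V, deg G a = 2 → G.Adj a b → G.Adj a c → b ≠ c → ∀ t, G.Adj a t →
        t = b ∨ t = c := by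
      intro a b c hda hab hac hbc t ht
      by_contra hno
      push Not at hno
      have hsub : ((({t, b, c} : Finset V)) : Set V) ⊆ G.neighborSet a := by
        intro s hs
        simp only [Finset.coe_insert, Finset.coe_singleton, Set.mem_insert_iff,
          Set.mem_singleton_iff] at hs
        rcases hs with rfl | rfl | rfl
        · exact ht
        · exact hab
        · exact hac
      have h1 := Set.ncard_le_ncard hsub (Set.toFinite _)
      rw [Set.ncard_coe_finset] at h1
      have h2 : ({t, b, c} : Finset V).card = 3 := by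
        rw [Finset.card_insert_of_notMem, Finset.card_pair hbc]
        rw [Finset.mem_insert, Finset.mem_singleton]
        push Not
        exact hno
      unfold deg at hda
      omega
    have hvu1 : v ≠ u1 := by
      rintro rfl
      omega
    have huv1 : u ≠ v1 := by
      rintro rfl
      omega
    have := closed {u, v, u1, v1} (by simp) (by
      intro a ha b hab
      simp only [Finset.mem_insert, Finset.mem_singleton] at ha ⊢
      rcases ha with rfl | rfl | rfl | rfl
      · rcases two a v u1 hd' huv hu1 hvu1 b hab with h | h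
        · exact Or.inr (Or.inl h)
        · exact Or.inr (Or.inr (Or.inl h))
      · rcases two a u v1 (by omega) huv.symm hv1 huv1 b hab with h | h
        · exact Or.inl h
        · exact Or.inr (Or.inr (Or.inr h))
      · exact Or.inl (Lu.uniq hab)
      · exact Or.inr (Or.inl (Lv.uniq hab)))
    have h2 := Finset.card_le_four (a := u) (b := v) (c := u1) (d := v1)
    omega

include k2 in
/-- the case of maximum degree three -/
lemma five_aux (k5 : PathIrregular G 5) {u v u1 v1 x y b : V}
    (hmax : ∀ x, deg G x ≤ deg G u) (hd : deg G u = 3) (hv : deg G v = deg G u)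
    (huv : G.Adj u v) (hu1 : Leaf G u1 u) (hv1 : Leaf G v1 v) (hx : G.Adj u x)
    (hy : G.Adj v y) (dx : deg G x = 2) (dy : deg G y = 2) (hxy : ¬ G.Adj x y)
    (hb : G.Adj y b) (hbv : b ≠ v) (db : deg G b = 2) : False := by
  have n1 := huv.ne
  have n2 := hx.ne
  have n3 := hy.ne
  have n4 := hb.ne
  have n5 := hu1.1.ne
  have n6 := hv1.1.ne
  obtain ⟨c, hc, hcy⟩ := exists_other (G := G) (x := b) (w := y) (by omega)
  have n7 := hc.ne
  have hyu : y ≠ u := by
    rintro rfl
    omega
  have hbu : b ≠ u := by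
    rintro rfl
    omega
  have hcv : c ≠ v := by
    rintro rfl
    exact nb_ne k2 hc.symm hy (Ne.symm n4) (by rw [db, dy])
  have hcu : c ≠ u := by
    rintro rfl
    have : b = x := by
      by_contra hne
      exact nb_ne k2 hc.symm hx hne (by rw [db, dx])
    rw [this] at hb
    exact hxy hb.symm
  have hyu1 : u1 ≠ y := hu1.ne hb hbu
  have hbu1 : u1 ≠ b := hu1.ne hb.symm hyu
  have hvu1 : u1 ≠ v := hu1.ne hy hyu
  have hcu1 : u1 ≠ c := hu1.ne hc.symm hbu
  have hdc : deg G c ≠ 2 := by
    have := nb_ne k2 hb.symm hc (Ne.symm hcy)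
    rw [dy] at this
    exact Ne.symm this
  have hc1 : 1 ≤ deg G c := deg_pos hc.symm
  have hc3 := hmax c
  by_cases h1 : deg G c = 1
  · exact k5 u1 c (hp5 hu1.1 huv hy hb hc (by simp only [List.nodup_cons, List.mem_cons, List.not_mem_nil, or_false, not_or, List.nodup_nil, and_true, not_false_eq_true]; split_ands <;> first | assumption | exact Ne.symm (by assumption))) (by rw [hu1.2, h1])
  · have hc3' : deg G c = 3 := by omega
    have hmaxc : ∀ x, deg G x ≤ deg G c := fun x => by rw [hc3', ← hd]; exact hmax x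
    obtain ⟨z, hz, hzd⟩ := exists_nb k2 hmaxc (i := 3) (by norm_num) (by omega)
    have n8 := hz.ne
    have hzb : z ≠ b := by
      rintro rfl
      omega
    have hzy : z ≠ y := by
      rintro rfl
      omega
    have hzv : z ≠ v := by
      rintro rfl
      exact nb_ne k2 hz.symm huv.symm hcu (by omega)
    have hzu : z ≠ u := by
      rintro rfl
      exact nb_ne k2 hz.symm huv hcv (by omega)
    exact k5 u z (hp5 huv hy hb hc hz (by simp only [List.nodup_cons, List.mem_cons, List.not_mem_nil, or_false, not_or, List.nodup_nil, and_true, not_false_eq_true]; split_ands <;> first | assumption | exact Ne.symm (by assumption))) (by omega)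

include k2 in
/-- a highly irregular connected graph with at least five vertices is not 5-path irregular -/
theorem not_five (hc : G.Connected) (hn : 5 ≤ Fintype.card V) : ¬ PathIrregular G 5 := by
  classical
  intro k5
  obtain ⟨u, v, u1, v1, hmax, hd3, hv, huv, Lu, Lv⟩ := high_setup k2 hc hn
  have hmaxv : ∀ x, deg G x ≤ deg G v := fun x => by rw [hv]; exact hmax x
  obtain ⟨x, hx, dx⟩ := exists_nb k2 hmax (i := deg G u - 1) (by omega) (by omega)
  obtain ⟨y, hy, dy⟩ := exists_nb k2 hmaxv (i := deg G u - 1) (by omega) (by omega)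
  have n1 := huv.ne
  have n2 := hx.ne
  have n3 := hy.ne
  have n5 := Lu.1.ne
  have n6 := Lv.1.ne
  have nocommon : ∀ z, G.Adj u z → G.Adj v z → False := by
    intro z hz1 hz2
    exact nb_ne k2 hz1.symm hz2.symm n1 hv.symm
  have hxv : x ≠ v := by
    rintro rfl
    omega
  have hyu : y ≠ u := by
    rintro rfl
    omega
  have hxy : x ≠ y := by
    rintro rfl
    exact nocommon _ hx hy
  have hvu1 : u1 ≠ v := Lu.ne hy hyu
  have huv1 : v1 ≠ u := Lv.ne hx hxv
  have huv11 : u1 ≠ v1 := Lu.ne Lv.1 (Ne.symm n1)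
  have hxu1 : u1 ≠ x := by
    rintro rfl
    have := Lu.2
    omega
  have hyu1 : u1 ≠ y := Lu.ne hy.symm (Ne.symm n1)
  have hxv1 : v1 ≠ x := Lv.ne hx.symm n1
  have hyv1 : v1 ≠ y := by
    rintro rfl
    have := Lv.2
    omega
  have hA : ¬ G.Adj x y := by
    intro h
    exact k5 u1 v1 (hp5 Lu.1 hx h hy.symm Lv.1.symm (by simp only [List.nodup_cons, List.mem_cons, List.not_mem_nil, or_false, not_or, List.nodup_nil, and_true, not_false_eq_true]; split_ands <;> first | assumption | exact Ne.symm (by assumption))) (by rw [Lu.2, Lv.2])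
  -- the degrees of the other neighbours are different
  have hB : ∀ c d, G.Adj x c → c ≠ u → G.Adj y d → d ≠ v → deg G c ≠ deg G d := by
    intro c d hxc hcu hyd hdv
    have m1 := hxc.ne
    have m2 := hyd.ne
    have hcd : c ≠ d := by
      rintro rfl
      exact nb_ne k2 hxc.symm hyd.symm hxy (by rw [dx, dy])
    have hcv : c ≠ v := by
      rintro rfl
      exact nocommon x hx hxc.symm
    have hcy : c ≠ y := by
      rintro rfl
      exact hA hxc
    have hdu : d ≠ u := by
      rintro rfl
      exact nocommon y hyd.symm hy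
    have hdx : d ≠ x := by
      rintro rfl
      exact hA hyd.symm
    exact k5 c d (hp5 hxc.symm hx.symm huv hy hyd (by simp only [List.nodup_cons, List.mem_cons, List.not_mem_nil, or_false, not_or, List.nodup_nil, and_true, not_false_eq_true]; split_ands <;> first | assumption | exact Ne.symm (by assumption)))
  -- the count
  set A := Finset.univ.filter (fun z => G.Adj x z) with hAdef
  set B := Finset.univ.filter (fun z => G.Adj y z) with hBdef
  have hAm : ∀ z, z ∈ A ↔ G.Adj x z := by intro z; simp [hAdef]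
  have hBm : ∀ z, z ∈ B ↔ G.Adj y z := by intro z; simp [hBdef]
  have hAc : A.card = deg G x := (deg_eq_card x).symm
  have hBc : B.card = deg G y := (deg_eq_card y).symm
  have huA : u ∈ A := (hAm u).2 hx.symm
  have hvB : v ∈ B := (hBm v).2 hy.symm
  have hiA : Set.InjOn (deg G) A := by
    intro s hs t ht hst
    by_contra hne
    exact nb_ne k2 ((hAm s).1 hs) ((hAm t).1 ht) hne hst
  have hiB : Set.InjOn (deg G) B := by
    intro s hs t ht hst
    by_contra hne
    exact nb_ne k2 ((hBm s).1 hs) ((hBm t).1 ht) hne hst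
  have hlt : ∀ z w, G.Adj z w → (∃ s, G.Adj z s ∧ s ≠ w ∧ deg G s = deg G u) →
      deg G w ≤ deg G u - 1 := by
    rintro z w hzw ⟨s, hzs, hsw, hsd⟩
    have h1 := hmax w
    have h2 := nb_ne k2 hzs hzw hsw
    omega
  have hsubA : (A.erase u).image (deg G) ⊆ Finset.Icc 1 (deg G u - 1) := by
    intro i hi
    obtain ⟨w, hw, rfl⟩ := Finset.mem_image.1 hi
    rw [Finset.mem_erase, hAm] at hw
    rw [Finset.mem_Icc]
    exact ⟨deg_pos hw.2.symm, hlt x w hw.2 ⟨u, hx.symm, Ne.symm hw.1, rfl⟩⟩
  have hsubB : (B.erase v).image (deg G) ⊆ Finset.Icc 1 (deg G u - 1) := by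
    intro i hi
    obtain ⟨w, hw, rfl⟩ := Finset.mem_image.1 hi
    rw [Finset.mem_erase, hBm] at hw
    rw [Finset.mem_Icc]
    exact ⟨deg_pos hw.2.symm, hlt y w hw.2 ⟨v, hy.symm, Ne.symm hw.1, hv⟩⟩
  have hdisj : Disjoint ((A.erase u).image (deg G)) ((B.erase v).image (deg G)) := by
    rw [Finset.disjoint_left]
    intro i hi hi'
    obtain ⟨c, hc', rfl⟩ := Finset.mem_image.1 hi
    obtain ⟨d, hd', he⟩ := Finset.mem_image.1 hi'
    rw [Finset.mem_erase, hAm] at hc'
    rw [Finset.mem_erase, hBm] at hd'
    exact hB c d hc'.2 hc'.1 hd'.2 hd'.1 he.symm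
  have hcA : ((A.erase u).image (deg G)).card = deg G u - 2 := by
    rw [Finset.card_image_of_injOn (hiA.mono (by
      rw [Finset.coe_erase]
      exact Set.diff_subset)), Finset.card_erase_of_mem huA, hAc, dx]
    omega
  have hcB : ((B.erase v).image (deg G)).card = deg G u - 2 := by
    rw [Finset.card_image_of_injOn (hiB.mono (by
      rw [Finset.coe_erase]
      exact Set.diff_subset)), Finset.card_erase_of_mem hvB, hBc, dy]
    omega
  have hcount : ((A.erase u).image (deg G)).card + ((B.erase v).image (deg G)).card ≤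
      deg G u - 1 := by
    rw [← Finset.card_union_of_disjoint hdisj]
    refine (Finset.card_le_card (Finset.union_subset hsubA hsubB)).trans ?_
    rw [Nat.card_Icc]
    omega
  have hd : deg G u = 3 := by omega
  obtain ⟨a, hxa, hau⟩ := exists_other (G := G) (x := x) (w := u) (by omega)
  obtain ⟨b, hyb, hbv⟩ := exists_other (G := G) (x := y) (w := v) (by omega)
  have ha1 := deg_pos hxa.symm
  have hb1 := deg_pos hyb.symm
  have ha2 := hlt x a hxa ⟨u, hx.symm, Ne.symm hau, rfl⟩
  have hb2 := hlt y b hyb ⟨v, hy.symm, Ne.symm hbv, hv⟩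
  have hab := hB a b hxa hau hyb hbv
  by_cases hb : deg G b = 2
  · exact five_aux k2 k5 hmax hd hv huv Lu Lv hx hy (by omega) (by omega) hA hyb hbv hb
  · exact five_aux k2 k5 hmaxv (by omega) hv.symm huv.symm Lv Lu hy hx (by omega) (by omega)
      (fun h => hA h.symm) hxa hau (by omega)

end five

/-- The realisable sets which contain `2`. -/
theorem with_two {n : ℕ} (hn : 2 ≤ n) {S : Set ℕ} (h2 : 2 ∈ S) (h : Realisable n S) :
    (Even n ∧ S = {k | 1 ≤ k ∧ (Even k ∨ n ≤ k)}) ∨ ∀ k ∈ S, k = 2 ∨ 6 ≤ k := by
  obtain ⟨G, hc, hG⟩ := h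
  have hirr : ∀ k, k ∈ S → PathIrregular G k := by
    intro k hk
    rw [← hG] at hk
    exact hk.2
  have k2 := hirr 2 h2
  by_cases k4 : PathIrregular G 4
  · left
    obtain ⟨D, a, b, hH⟩ := half_of_irr hc (by rw [Fintype.card_fin]; omega) k2 k4
    have h1 := hH.card
    rw [Fintype.card_fin] at h1
    refine ⟨⟨D, by omega⟩, ?_⟩
    rw [← hG, hH.irrSet_eq, Fintype.card_fin]
  · right
    have hn5 : 5 ≤ n := by
      by_contra hlt
      apply k4
      intro a b hp
      obtain ⟨p, hp, hl⟩ := hp
      have := hp.length_lt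
      rw [Fintype.card_fin] at this
      omega
    obtain ⟨n1, n3, -⟩ := high k2 hc (by rw [Fintype.card_fin]; omega)
    have n5 := not_five k2 hc (by rw [Fintype.card_fin]; omega)
    intro k hk
    have hk' := hirr k hk
    have hk1 : 1 ≤ k := by
      rw [← hG] at hk
      exact hk.1
    by_contra hcon
    push Not at hcon
    obtain ⟨hk2, hk6⟩ := hcon
    have : k = 1 ∨ k = 3 ∨ k = 4 ∨ k = 5 := by omega
    rcases this with rfl | rfl | rfl | rfl
    · exact n1 hk'
    · exact n3 hk'
    · exact k4 hk'
    · exact n5 hk'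

end Pool.Agent.KPI
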