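import Pool.Agent.KPI.Two2

/-!
# Graphs which are 2-path irregular and k-path irregular: the maximum degree
-/

namespace Pool.Agent.KPI
open SimpleGraph

universe u
variable {V : Type u} {G : SimpleGraph V}

section deg
variable [Fintype V] (k2 : PathIrregular G 2)

/-- the degrees of the neighbours of `x` -/
noncomputable def nd (G : SimpleGraph V) (x : V) : Finset ℕ := by
  classical
  exact (Finset.univ.filter fun y => G.Adj x y).image (deg G)

lemma mem_nd {x : V} {d : ℕ} : d ∈ nd G x ↔ ∃ y, G.Adj x y ∧ deg G y = d := by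
  classical
  unfold nd
  simp

include k2 in
lemma card_nd (x : V) : (nd G x).card = deg G x := by
  classical
  unfold nd
  rw [Finset.card_image_of_injOn, deg_eq_card x]
  intro s hs t ht hst
  have hs' : G.Adj x s := by simpa using hs
  have ht' : G.Adj x t := by simpa using ht
  by_contra hne
  exact nb_ne k2 hs' ht' hne hst

lemma nd_subset {D : ℕ} (hmax : ∀ x, deg G x ≤ D) (x : V) : nd G x ⊆ Finset.Icc 1 D := by
  intro d hd
  obtain ⟨y, hy, rfl⟩ := mem_nd.1 hd
  rw [Finset.mem_Icc]
  exact ⟨deg_pos hy.symm, hmax y⟩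

include k2 in
/-- a vertex misses few degrees among its neighbours -/
lemma card_sdiff_nd {D : ℕ} (hmax : ∀ x, deg G x ≤ D) (x : V) {I : Finset ℕ}
    (hI : I ⊆ Finset.Icc 1 D) : (I \ nd G x).card ≤ D - deg G x := by
  have h1 : (I \ nd G x).card ≤ (Finset.Icc 1 D \ nd G x).card :=
    Finset.card_le_card (Finset.sdiff_subset_sdiff hI (le_refl _))
  have h2 : (Finset.Icc 1 D \ nd G x).card = D - deg G x := by
    rw [Finset.card_sdiff_of_subset (nd_subset hmax x), card_nd k2, Nat.card_Icc]
    omega
  omega

include k2 in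
/-- The extension of a path with ends of the same large degree. -/
lemma ext_pair {D : ℕ} (hmax : ∀ x, deg G x ≤ D) {l : ℕ} {x y : V} (hxy : x ≠ y)
    (hp : HasPath G l x y) (hd : deg G x = deg G y) (hD : 2 * (D - deg G x) + l + 2 ≤ D) :
    ∃ x' y', x' ≠ y' ∧ HasPath G (l + 2) x' y' ∧ deg G x' = deg G y' ∧
      D - deg G x' ≤ 2 * (D - deg G x) + l + 1 := by
  classical
  obtain ⟨p, hp, hl⟩ := hp
  set r := D - deg G x with hr
  set I := Finset.Icc (D - (2 * r + l + 1)) D with hI
  have hIsub : I ⊆ Finset.Icc 1 D := by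
    intro i hi
    rw [hI, Finset.mem_Icc] at hi
    rw [Finset.mem_Icc]
    omega
  have hIcard : I.card = 2 * r + l + 2 := by
    rw [hI, Nat.card_Icc]
    omega
  set P := p.support.toFinset.image (deg G) with hP
  have hPcard : P.card ≤ l + 1 := by
    refine Finset.card_image_le.trans ((List.toFinset_card_le _).trans ?_)
    rw [Walk.length_support, hl]
  have h1 := card_sdiff_nd k2 hmax x hIsub
  have h2 := card_sdiff_nd k2 hmax y hIsub
  rw [← hd] at h2
  have hex : ∃ d ∈ I, d ∈ nd G x ∧ d ∈ nd G y ∧ d ∉ P := by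
    by_contra hcon
    push Not at hcon
    have hsub : I ⊆ (I \ nd G x) ∪ (I \ nd G y) ∪ P := by
      intro d hdI
      rw [Finset.mem_union, Finset.mem_union, Finset.mem_sdiff, Finset.mem_sdiff]
      by_cases hx : d ∈ nd G x
      · by_cases hy : d ∈ nd G y
        · exact Or.inr (hcon d hdI hx hy)
        · exact Or.inl (Or.inr ⟨hdI, hy⟩)
      · exact Or.inl (Or.inl ⟨hdI, hx⟩)
    have h3 := Finset.card_le_card hsub
    have h4 := Finset.card_union_le ((I \ nd G x) ∪ (I \ nd G y)) P
    have h5 := Finset.card_union_le (I \ nd G x) (I \ nd G y)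
    omega
  obtain ⟨d, hdI, hdx, hdy, hdP⟩ := hex
  obtain ⟨x', hx', hxd⟩ := mem_nd.1 hdx
  obtain ⟨y', hy', hyd⟩ := mem_nd.1 hdy
  have hxs : x' ∉ p.support := by
    intro h
    apply hdP
    rw [hP, Finset.mem_image]
    exact ⟨x', List.mem_toFinset.2 h, hxd⟩
  have hys : y' ∉ p.support := by
    intro h
    apply hdP
    rw [hP, Finset.mem_image]
    exact ⟨y', List.mem_toFinset.2 h, hyd⟩
  have hne : x' ≠ y' := by
    rintro rfl
    exact nb_ne k2 hx'.symm hy'.symm hxy hd
  refine ⟨x', y', hne, ?_, by rw [hxd, hyd], ?_⟩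
  · have hq : (p.concat hy').IsPath := by
      rw [Walk.concat_isPath_iff]
      exact ⟨hp, hys⟩
    refine ⟨Walk.cons hx'.symm (p.concat hy'), ?_, ?_⟩
    · rw [Walk.cons_isPath_iff]
      refine ⟨hq, ?_⟩
      rw [Walk.support_concat, List.mem_append, List.mem_singleton]
      rintro (h | h)
      · exact hxs h
      · exact hne h
    · rw [Walk.length_cons, Walk.length_concat, hl]
  · rw [hxd]
    rw [hI, Finset.mem_Icc] at hdI
    omega

include k2 in
lemma ext_many {D : ℕ} (hmax : ∀ x, deg G x ≤ D) : ∀ (j l : ℕ) (x y : V), x ≠ y →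
    HasPath G l x y → deg G x = deg G y → 2 ^ j * ((D - deg G x) + l + 3) ≤ D →
    ∃ x' y', x' ≠ y' ∧ HasPath G (l + 2 * j) x' y' ∧ deg G x' = deg G y' := by
  intro j
  induction j with
  | zero =>
    intro l x y hxy hp hd _
    exact ⟨x, y, hxy, hp, hd⟩
  | succ j ih =>
    intro l x y hxy hp hd hD
    have h2j : 1 ≤ 2 ^ j := Nat.one_le_two_pow
    have h1 : 2 * ((D - deg G x) + l + 3) ≤ D := by
      refine le_trans ?_ hD
      rw [pow_succ]
      nlinarith
    obtain ⟨x', y', hne, hp', hd', hr⟩ := ext_pair k2 hmax hxy hp hd (by omega)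
    obtain ⟨x'', y'', h3, h4, h5⟩ := ih (l + 2) x' y' hne hp' hd' (by
      refine le_trans ?_ hD
      rw [pow_succ, mul_assoc]
      exact Nat.mul_le_mul_left _ (by omega))
    refine ⟨x'', y'', h3, ?_, h5⟩
    have : l + 2 * (j + 1) = l + 2 + 2 * j := by ring
    rw [this]
    exact h4

include k2 in
/-- odd lengths -/
lemma odd_bound {j : ℕ} (hj : 1 ≤ j) {u v : V} (hmax : ∀ x, deg G x ≤ deg G u)
    (hv : deg G v = deg G u) (huv : G.Adj u v) (hD : 2 ^ (2 * j + 1) ≤ deg G u) :
    ¬ PathIrregular G (2 * j + 1) := by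
  intro kk
  obtain ⟨x, y, hne, hp, hd⟩ := ext_many k2 hmax j 1 u v huv.ne (hp1 huv) hv.symm (by
    have h1 : deg G u - deg G u + 1 + 3 = 2 ^ 2 := by omega
    rw [h1, ← pow_add]
    refine le_trans (Nat.pow_le_pow_right (by norm_num) ?_) hD
    omega)
  have h2 : 1 + 2 * j = 2 * j + 1 := by ring
  rw [h2] at hp
  exact kk x y hp hd

include k2 in
/-- a new neighbour of large degree -/
lemma exists_next {D : ℕ} (hmax : ∀ x, deg G x ≤ D) (z : V) (S : Finset V) {t : ℕ}
    (ht : t + 1 ≤ D) (hS : (D - deg G z) + S.card + 1 ≤ t + 1) :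
    ∃ y, G.Adj z y ∧ y ∉ S ∧ D - deg G y ≤ t := by
  classical
  set I := Finset.Icc (D - t) D with hI
  have hIsub : I ⊆ Finset.Icc 1 D := by
    intro i hi
    rw [hI, Finset.mem_Icc] at hi
    rw [Finset.mem_Icc]
    omega
  have hIcard : I.card = t + 1 := by
    rw [hI, Nat.card_Icc]
    omega
  have h1 := card_sdiff_nd k2 hmax z hIsub
  have hex : ∃ d ∈ I, d ∈ nd G z ∧ d ∉ S.image (deg G) := by
    by_contra hcon
    push Not at hcon
    have hsub : I ⊆ (I \ nd G z) ∪ S.image (deg G) := by
      intro d hdI
      rw [Finset.mem_union, Finset.mem_sdiff]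
      by_cases hx : d ∈ nd G z
      · exact Or.inr (hcon d hdI hx)
      · exact Or.inl ⟨hdI, hx⟩
    have h3 := Finset.card_le_card hsub
    have h4 := Finset.card_union_le (I \ nd G z) (S.image (deg G))
    have h5 : (S.image (deg G)).card ≤ S.card := Finset.card_image_le
    omega
  obtain ⟨d, hdI, hdz, hdS⟩ := hex
  obtain ⟨y, hy, hyd⟩ := mem_nd.1 hdz
  refine ⟨y, hy, ?_, ?_⟩
  · intro h
    exact hdS (Finset.mem_image.2 ⟨y, h, hyd⟩)
  · rw [hyd]
    rw [hI, Finset.mem_Icc] at hdI
    omega

lemma pow_aux : ∀ s : ℕ, 4 * s ^ 2 + 8 * s + 7 ≤ 16 * 2 ^ s := by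
  intro s
  by_cases h : s ≤ 1
  · interval_cases s <;> norm_num
  · push Not at h
    induction s, h using Nat.le_induction with
    | base => norm_num
    | succ s hs ih =>
      rw [pow_succ 2 s]
      nlinarith

include k2 in
/-- even lengths: the property of the paths with four edges -/
lemma even_H {s : ℕ} (kk : PathIrregular G (2 * s + 4)) {u v : V}
    (hmax : ∀ x, deg G x ≤ deg G u) (hv : deg G v = deg G u) (huv : G.Adj u v)
    (hD : 2 ^ (2 * s + 4) ≤ deg G u) {a b w : V} (hau : G.Adj a u) (hvb : G.Adj v b)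
    (hbw : G.Adj b w) (hnd : [a, u, v, b, w].Nodup) : deg G a ≠ deg G w := by
  classical
  intro haw
  set D := deg G u with hDdef
  have hmaxv : ∀ x, deg G x ≤ deg G v := fun x => by rw [hv]; exact hmax x
  simp only [List.nodup_cons, List.mem_cons, List.not_mem_nil, or_false, not_or,
    List.nodup_nil, and_true, not_false_eq_true] at hnd
  obtain ⟨⟨m1, m2, m3, m4⟩, ⟨m5, m6, m7⟩, ⟨m8, m9⟩, m10⟩ := hnd
  have hR : 2 ^ s * (4 * s ^ 2 + 8 * s + 7) ≤ D := by
    refine le_trans ?_ hD
    have h1 : 2 ^ (2 * s + 4) = 2 ^ s * (16 * 2 ^ s) := by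
      rw [pow_add, two_mul, pow_add]
      ring
    rw [h1]
    exact Nat.mul_le_mul_left _ (pow_aux s)
  have hRD : 4 * s ^ 2 + 8 * s + 7 ≤ D :=
    le_trans (Nat.le_mul_of_pos_left _ (by positivity)) hR
  -- no path with four edges between vertices of the same large degree
  have e4 : ∀ x y : V, x ≠ y → HasPath G 4 x y → D - deg G x ≤ 4 * s ^ 2 + 8 * s →
      deg G x ≠ deg G y := by
    intro x y hxy hp hr hd
    obtain ⟨x', y', h1, h2, h3⟩ := ext_many k2 hmax s 4 x y hxy hp hd (by
      refine le_trans (Nat.mul_le_mul_left _ ?_) hR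
      omega)
    have h4 : 4 + 2 * s = 2 * s + 4 := by ring
    rw [h4] at h2
    exact kk x' y' h2 h3
  have nocommon : ∀ z, G.Adj u z → G.Adj v z → False := by
    intro z hz1 hz2
    exact nb_ne k2 hz1.symm hz2.symm huv.ne hv.symm
  -- the greedy path
  have key : ∀ i, i ≤ 2 * s → ∃ (z : V) (p : G.Walk u z), p.IsPath ∧ p.length = i ∧
      v ∉ p.support ∧ a ∉ p.support ∧ b ∉ p.support ∧ w ∉ p.support ∧
      D - deg G z ≤ i ^ 2 + 4 * i ∧ (Even i → G.Adj v z) ∧ (Odd i → G.Adj u z) := by
    intro i
    induction i with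
    | zero =>
      intro _
      refine ⟨u, Walk.nil, Walk.IsPath.nil, rfl, ?_, ?_, ?_, ?_, by omega, fun _ => huv.symm,
        fun h => absurd h (by decide)⟩ <;>
      rw [Walk.support_nil, List.mem_singleton]
      · exact Ne.symm m5
      · exact m1
      · exact Ne.symm m6
      · exact Ne.symm m7
    | succ i ih =>
      intro hi
      obtain ⟨z, p, hp, hl, hvp, hap, hbp, hwp, hr, hev, hod⟩ := ih (by omega)
      have hii : i ^ 2 + 4 * i + (i + 4) ≤ (i + 1) ^ 2 + 4 * (i + 1) := by nlinarith
      have hii2 : (i + 1) ^ 2 + 4 * (i + 1) ≤ 4 * s ^ 2 + 8 * s := by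
        have := Nat.mul_le_mul hi hi
        nlinarith
      set S : Finset V := (p.support.toFinset.erase z) ∪ {v, a, b, w} with hS
      have hScard : S.card ≤ i + 4 := by
        have h1 : (p.support.toFinset.erase z).card ≤ i := by
          have h4 : (p.support.toFinset.erase z).card + 1 ≤ i + 1 := by
            rw [Finset.card_erase_add_one (List.mem_toFinset.2 p.end_mem_support)]
            refine (List.toFinset_card_le _).trans ?_
            rw [Walk.length_support, hl]
          omega
        have h2 : ({v, a, b, w} : Finset V).card ≤ 4 := Finset.card_le_four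
        have h3 := Finset.card_union_le (p.support.toFinset.erase z) {v, a, b, w}
        rw [hS]
        omega
      obtain ⟨z', hz', hz'S, hz'r⟩ := exists_next k2 hmax z S
        (t := (D - deg G z) + i + 4) (by omega) (by omega)
      have hnv : z' ≠ v := by
        rintro rfl
        exact hz'S (by rw [hS]; simp)
      have hna : z' ≠ a := by
        rintro rfl
        exact hz'S (by rw [hS]; simp)
      have hnb : z' ≠ b := by
        rintro rfl
        exact hz'S (by rw [hS]; simp)
      have hnw : z' ≠ w := by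
        rintro rfl
        exact hz'S (by rw [hS]; simp)
      have hnp : z' ∉ p.support := by
        intro h
        apply hz'S
        rw [hS, Finset.mem_union, Finset.mem_erase]
        exact Or.inl ⟨hz'.ne', List.mem_toFinset.2 h⟩
      have hnu : z' ≠ u := by
        rintro rfl
        exact hnp p.start_mem_support
      have hzv : z ≠ v := by
        rintro rfl
        exact hvp p.end_mem_support
      have hz'1 : 1 ≤ deg G z' := deg_pos hz'.symm
      have n1 := huv.ne
      have n2 := hz'.ne
      have hsup : ∀ x, x ∉ p.support → x ≠ z' → x ∉ (p.concat hz').support := by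
        intro x h1 h2
        rw [Walk.support_concat, List.mem_append, List.mem_singleton]
        rintro (h | h)
        · exact h1 h
        · exact h2 h
      refine ⟨z', p.concat hz', ?_, ?_, hsup v hvp (Ne.symm hnv), hsup a hap (Ne.symm hna),
        hsup b hbp (Ne.symm hnb), hsup w hwp (Ne.symm hnw), by omega, ?_, ?_⟩
      · rw [Walk.concat_isPath_iff]
        exact ⟨hp, hnp⟩
      · rw [Walk.length_concat, hl]
      · intro he
        have hoi : Odd i := by
          rcases Nat.even_or_odd i with h | h
          · exact absurd he (by rw [Nat.not_even_iff_odd]; exact h.add_one)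
          · exact h
        have hzu := hod hoi
        obtain ⟨b', hb', hb'd⟩ := exists_nb k2 hmaxv hz'1 (hmaxv z')
        by_cases heq : b' = z'
        · rw [← heq]
          exact hb'
        · exfalso
          have q1 : b' ≠ u := by
            rintro rfl
            exact nb_ne k2 hzu.symm hz' (Ne.symm hnu) hb'd
          have q2 : b' ≠ z := by
            rintro rfl
            exact nocommon _ hzu hb'
          have q3 := hb'.ne
          have q4 := hzu.ne
          refine e4 b' z' heq (hp4 hb'.symm huv.symm hzu hz' ?_) ?_ hb'd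
          · simp only [List.nodup_cons, List.mem_cons, List.not_mem_nil, or_false, not_or,
              List.nodup_nil, and_true, not_false_eq_true]
            exact ⟨⟨Ne.symm q3, q1, q2, heq⟩, ⟨Ne.symm n1, Ne.symm hzv, Ne.symm hnv⟩,
              ⟨q4, Ne.symm hnu⟩, n2⟩
          · rw [hb'd]
            omega
      · intro ho
        have hei : Even i := by
          rcases Nat.even_or_odd i with h | h
          · exact h
          · exact absurd ho (by rw [Nat.not_odd_iff_even]; exact h.add_one)
        have hzv' := hev hei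
        by_cases hzu : z = u
        · rw [← hzu]
          exact hz'
        · obtain ⟨a', ha', ha'd⟩ := exists_nb k2 hmax hz'1 (hmax z')
          by_cases heq : a' = z'
          · rw [← heq]
            exact ha'
          · exfalso
            have q1 : a' ≠ v := by
              rintro rfl
              exact nb_ne k2 hzv'.symm hz' (Ne.symm hnv) ha'd
            have q2 : a' ≠ z := by
              rintro rfl
              exact nocommon _ ha' hzv'
            have q3 := ha'.ne
            have q4 := hzv'.ne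
            refine e4 a' z' heq (hp4 ha'.symm huv hzv' hz' ?_) ?_ ha'd
            · simp only [List.nodup_cons, List.mem_cons, List.not_mem_nil, or_false, not_or,
                List.nodup_nil, and_true, not_false_eq_true]
              exact ⟨⟨Ne.symm q3, q1, q2, heq⟩, ⟨n1, Ne.symm hzu, Ne.symm hnu⟩,
                ⟨q4, Ne.symm hnv⟩, n2⟩
            · rw [ha'd]
              omega
  obtain ⟨z, p, hp, hl, hvp, hap, hbp, hwp, -, hev, -⟩ := key (2 * s) le_rfl
  have hvz : G.Adj v z := hev ⟨s, by ring⟩
  have hq1 : (Walk.cons hau p).IsPath := by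
    rw [Walk.cons_isPath_iff]
    exact ⟨hp, hap⟩
  have hq2 : ((Walk.cons hau p).concat hvz.symm).IsPath := by
    rw [Walk.concat_isPath_iff]
    refine ⟨hq1, ?_⟩
    rw [Walk.support_cons, List.mem_cons]
    rintro (h | h)
    · exact m2 h.symm
    · exact hvp h
  have hq3 : (((Walk.cons hau p).concat hvz.symm).concat hvb).IsPath := by
    rw [Walk.concat_isPath_iff]
    refine ⟨hq2, ?_⟩
    rw [Walk.support_concat, List.mem_append, List.mem_singleton, Walk.support_cons,
      List.mem_cons]
    rintro ((h | h) | h)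
    · exact m3 h.symm
    · exact hbp h
    · exact m8 h.symm
  have hq4 : ((((Walk.cons hau p).concat hvz.symm).concat hvb).concat hbw).IsPath := by
    rw [Walk.concat_isPath_iff]
    refine ⟨hq3, ?_⟩
    rw [Walk.support_concat, List.mem_append, List.mem_singleton, Walk.support_concat,
      List.mem_append, List.mem_singleton, Walk.support_cons, List.mem_cons]
    rintro (((h | h) | h) | h)
    · exact m4 h.symm
    · exact hwp h
    · exact m9 h.symm
    · exact m10 h.symm
  refine kk a w ⟨_, hq4, ?_⟩ haw
  rw [Walk.length_concat, Walk.length_concat, Walk.length_concat, Walk.length_cons, hl]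

end deg

end Pool.Agent.KPI
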