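import Pool.Agent.KPI.Tad

namespace Pool.Agent.KPI
open SimpleGraph

section
variable (r : ℕ) (Q : Set ℕ)

open Classical in
/-- the numbers of leaves, except at the last vertex -/
noncomputable def wl0 (j : Fin (2 * r)) : ℕ :=
  if r < j.val ∧ j.val + 1 < 2 * r then (if (j.val - 2) ∈ Q then 1 else 2) else 0

/-- the numbers of leaves -/
noncomputable def wl (k0 : ℕ) (j : Fin (2 * r)) : ℕ :=
  wl0 r Q j + (if j.val + 1 = 2 * r then k0 else 0)

lemma wl_low {k0 : ℕ} (j : Fin (2 * r)) (hr : 3 ≤ r) (hj : j.val ≤ r) : wl r Q k0 j = 0 := by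
  unfold wl wl0
  rw [if_neg (by omega), if_neg (by omega)]

lemma wl_mem {k0 : ℕ} (j : Fin (2 * r)) (hj : r < j.val) (hj2 : j.val + 1 < 2 * r)
    (hQ : (j.val - 2) ∈ Q) : wl r Q k0 j = 1 := by
  unfold wl wl0
  rw [if_pos ⟨hj, hj2⟩, if_pos hQ, if_neg (by omega)]

lemma wl_notmem {k0 : ℕ} (j : Fin (2 * r)) (hj : r < j.val) (hj2 : j.val + 1 < 2 * r)
    (hQ : (j.val - 2) ∉ Q) : wl r Q k0 j = 2 := by
  unfold wl wl0
  rw [if_pos ⟨hj, hj2⟩, if_neg hQ, if_neg (by omega)]

lemma wl_last {k0 : ℕ} (j : Fin (2 * r)) (hj : j.val + 1 = 2 * r) : wl r Q k0 j = k0 := by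
  unfold wl wl0
  rw [if_neg (by omega), if_pos hj]
  omega

lemma wl0_sum (hr : 3 ≤ r) : ∑ j, wl0 r Q j ≤ 2 * (r - 2) := by
  classical
  have h1 : ∀ j : Fin (2 * r), wl0 r Q j ≤ if r < j.val ∧ j.val + 1 < 2 * r then 2 else 0 := by
    intro j
    unfold wl0
    split_ifs <;> omega
  refine (Finset.sum_le_sum (fun j _ => h1 j)).trans ?_
  rw [← Finset.sum_filter, Finset.sum_const, smul_eq_mul, mul_comm]
  apply Nat.mul_le_mul_left
  have h2 := Finset.card_le_card_of_injOn (s := Finset.univ.filter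
    (fun j : Fin (2 * r) => r < j.val ∧ j.val + 1 < 2 * r)) (t := Finset.Ioo r (2 * r - 1))
    (fun j => j.val) (by
      intro j hj
      rw [Finset.mem_coe, Finset.mem_filter] at hj
      rw [Finset.mem_coe, Finset.mem_Ioo]
      change r < j.val ∧ j.val < 2 * r - 1
      omega) (by
      intro a _ b _ h
      exact Fin.ext h)
  rw [Nat.card_Ioo] at h2
  omega

/-- total degree -/
noncomputable def wD (k0 : ℕ) (j : Fin (2 * r)) : ℕ := deg (tad (2 * r)) j + wl r Q k0 j

variable {r Q}

lemma wD_low {k0 : ℕ} (hr : 3 ≤ r) (j : Fin (2 * r)) (hj : j.val ≤ r) (hj2 : j.val ≠ 2) :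
    wD r Q k0 j = 2 := by
  unfold wD
  rw [wl_low r Q j hr hj]
  by_cases h0 : j.val = 0
  · rw [deg_tad0 (by omega) j h0]
  · by_cases h1 : j.val = 1
    · rw [deg_tad1 (by omega) j h1]
    · rw [deg_tad_mid j (by omega) (by omega)]

lemma wD_two {k0 : ℕ} (hr : 3 ≤ r) (j : Fin (2 * r)) (hj : j.val = 2) : wD r Q k0 j = 3 := by
  unfold wD
  rw [wl_low r Q j hr (by omega), deg_tad2 (by omega) j hj]

lemma wD_mem {k0 : ℕ} (hr : 3 ≤ r) (j : Fin (2 * r)) (hj : r < j.val) (hj2 : j.val + 1 < 2 * r)
    (hQ : (j.val - 2) ∈ Q) : wD r Q k0 j = 3 := by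
  unfold wD
  rw [wl_mem r Q j hj hj2 hQ, deg_tad_mid j (by omega) hj2]

lemma wD_notmem {k0 : ℕ} (hr : 3 ≤ r) (j : Fin (2 * r)) (hj : r < j.val)
    (hj2 : j.val + 1 < 2 * r) (hQ : (j.val - 2) ∉ Q) : wD r Q k0 j = 4 := by
  unfold wD
  rw [wl_notmem r Q j hj hj2 hQ, deg_tad_mid j (by omega) hj2]

lemma wD_last {k0 : ℕ} (hr : 3 ≤ r) (j : Fin (2 * r)) (hj : j.val + 1 = 2 * r) :
    wD r Q k0 j = 1 + k0 := by
  unfold wD
  rw [wl_last r Q j hj, deg_tad_last j (by omega) hj]

/-- an ordered pair of vertices of equal degree -/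
lemma clause1 {k0 : ℕ} (hr : 3 ≤ r) (hk0 : 4 ≤ k0) {i j : Fin (2 * r)} (hij : i.val < j.val)
    (hD : wD r Q k0 i = wD r Q k0 j) {k : ℕ} (h : HasPath (tad (2 * r)) k i j) :
    (1 ≤ k ∧ k ≤ r) ∨ k ∈ Q := by
  have hle4 : ∀ a : Fin (2 * r), a.val + 1 < 2 * r → wD r Q k0 a ≤ 4 := by
    intro a ha
    by_cases h1 : a.val ≤ r
    · by_cases h2 : a.val = 2
      · rw [wD_two hr a h2]; omega
      · rw [wD_low hr a h1 h2]; omega
    · by_cases h2 : (a.val - 2) ∈ Q
      · rw [wD_mem hr a (by omega) ha h2]; omega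
      · rw [wD_notmem hr a (by omega) ha h2]
  have hge3 : ∀ a : Fin (2 * r), r < a.val → 3 ≤ wD r Q k0 a := by
    intro a ha
    by_cases h1 : a.val + 1 < 2 * r
    · by_cases h2 : (a.val - 2) ∈ Q
      · rw [wD_mem hr a ha h1 h2]
      · rw [wD_notmem hr a ha h1 h2]; omega
    · rw [wD_last hr a (by have := a.2; omega)]; omega
  by_cases hjl : j.val + 1 = 2 * r
  · exfalso
    rw [wD_last hr j hjl] at hD
    have := hle4 i (by omega)
    omega
  · have hj1 : j.val + 1 < 2 * r := by have := j.2; omega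
    by_cases hjr : j.val ≤ r
    · -- both in the low part
      left
      by_cases hj2 : j.val = 2
      · exfalso
        rw [wD_two hr j hj2, wD_low hr i (by omega) (by omega)] at hD
        omega
      · by_cases hi2 : i.val = 2
        · exfalso
          rw [wD_two hr i hi2, wD_low hr j hjr hj2] at hD
          omega
        · by_cases hj01 : j.val < 2
          · have := zero_one_path (by omega) (by omega) h
            omega
          · by_cases hi01 : i.val < 2
            · have := head_path hi01 (by omega) h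
              omega
            · have := tail_path (by omega) hij h
              omega
    · -- `j` in the comb
      have hjr' : r < j.val := by omega
      have hj3 := hge3 j hjr'
      by_cases hir : i.val ≤ r
      · by_cases hi2 : i.val = 2
        · by_cases hQ : (j.val - 2) ∈ Q
          · right
            have := tail_path (by omega) hij h
            rw [hi2] at this
            rwa [this]
          · exfalso
            rw [wD_two hr i hi2, wD_notmem hr j hjr' hj1 hQ] at hD
            omega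
        · exfalso
          rw [wD_low hr i hir hi2] at hD
          omega
      · left
        have := tail_path (by omega) hij h
        omega

lemma clause2 {k0 : ℕ} (hr : 3 ≤ r) {i j : Fin (2 * r)} (hij : i.val < j.val)
    (hi : 1 ≤ wl r Q k0 i) {k : ℕ} (h : HasPath (tad (2 * r)) k i j) :
    k + 2 ≤ r := by
  have hir : r < i.val := by
    by_contra hlt
    rw [wl_low r Q i hr (by omega)] at hi
    omega
  have := tail_path (by omega) hij h
  have := j.2
  omega

theorem badSet_window {k0 : ℕ} (hr : 3 ≤ r) (hk0 : 4 ≤ k0)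
    (hQ : ∀ q ∈ Q, r < q ∧ q + 4 ≤ 2 * r) :
    badSet (leafy (tad (2 * r)) (wl r Q k0)) = {k | 1 ≤ k ∧ k ≤ r} ∪ Q := by
  ext k
  have h2 : ∀ i, 2 ≤ deg (tad (2 * r)) i + wl r Q k0 i := by
    intro i
    change 2 ≤ wD r Q k0 i
    by_cases h1 : i.val ≤ r
    · by_cases h2 : i.val = 2
      · rw [wD_two hr i h2]; omega
      · rw [wD_low hr i h1 h2]
    · by_cases h3 : i.val + 1 < 2 * r
      · by_cases h4 : (i.val - 2) ∈ Q
        · rw [wD_mem hr i (by omega) h3 h4]; omega
        · rw [wD_notmem hr i (by omega) h3 h4]; omega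
      · rw [wD_last hr i (by have := i.2; omega)]; omega
  rw [badSet_leafy _ _ h2]
  constructor
  · rintro (⟨i, j, hij, hd, hp⟩ | ⟨i, j, hij, hi, hj, t, rfl, hp⟩ | ⟨rfl, _⟩)
    · change wD r Q k0 i = wD r Q k0 j at hd
      rcases lt_or_gt_of_ne (fun h => hij (Fin.ext h) : i.val ≠ j.val) with h | h
      · exact clause1 hr hk0 h hd hp
      · exact clause1 hr hk0 h hd.symm hp.symm
    · left
      rcases lt_or_gt_of_ne (fun h => hij (Fin.ext h) : i.val ≠ j.val) with h | h
      · have := clause2 hr h hi hp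
        exact ⟨by omega, by omega⟩
      · have := clause2 hr h hj hp.symm
        exact ⟨by omega, by omega⟩
    · left
      exact ⟨by omega, by omega⟩
  · rintro (⟨h1, h3⟩ | hk)
    · left
      by_cases hk1 : k = 1
      · subst hk1
        refine ⟨⟨0, by omega⟩, ⟨1, by omega⟩, by simp [Fin.ext_iff], ?_, ?_⟩
        · change wD r Q k0 _ = wD r Q k0 _
          rw [wD_low hr _ (by simp) (by simp), wD_low hr _ (by simp only; omega) (by simp)]
        · have := up (m := 2 * r) ⟨0, by omega⟩ ⟨1, by omega⟩ (by simp)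
          simpa using this
      · by_cases hk2 : k = 2
        · subst hk2
          refine ⟨⟨1, by omega⟩, ⟨3, by omega⟩, by simp [Fin.ext_iff], ?_, ?_⟩
          · change wD r Q k0 _ = wD r Q k0 _
            rw [wD_low hr _ (by simp only; omega) (by simp),
              wD_low hr _ (by simp only; omega) (by simp)]
          · have := up (m := 2 * r) ⟨1, by omega⟩ ⟨3, by omega⟩ (by simp)
            simpa using this
        · refine ⟨⟨0, by omega⟩, ⟨k, by omega⟩, ?_, ?_, ?_⟩
          · simp only [ne_eq, Fin.ext_iff]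
            omega
          · change wD r Q k0 _ = wD r Q k0 _
            rw [wD_low hr _ (by simp) (by simp),
              wD_low hr _ (by simp only; omega) (by simp only; omega)]
          · have := up (m := 2 * r) ⟨0, by omega⟩ ⟨k, by omega⟩ (by simp)
            simpa using this
    · left
      obtain ⟨q1, q2⟩ := hQ k hk
      refine ⟨⟨2, by omega⟩, ⟨k + 2, by omega⟩, ?_, ?_, ?_⟩
      · simp only [ne_eq, Fin.ext_iff]
        omega
      · change wD r Q k0 _ = wD r Q k0 _
        rw [wD_two hr _ (by simp), wD_mem hr _ (by simp only; omega) (by simp only; omega)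
          (by simpa using hk)]
      · have := up (m := 2 * r) ⟨2, by omega⟩ ⟨k + 2, by omega⟩ (by simp)
        simpa using this

theorem window {n : ℕ} (hr : 3 ≤ r) (hn : 4 * r ≤ n) (hQ : ∀ q ∈ Q, r < q ∧ q + 4 ≤ 2 * r) :
    Realisable n ({k | 1 ≤ k} \ ({k | 1 ≤ k ∧ k ≤ r} ∪ Q)) := by
  have hsum := wl0_sum r Q hr
  set C := ∑ j, wl0 r Q j with hC
  have hk0 : 4 ≤ n - 2 * r - C := by omega
  refine realisable_of _ (leafy_connected _ _ (tad_connected (m := 2 * r) (by omega))) ?_
    (badSet_window (k0 := n - 2 * r - C) hr hk0 hQ)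
  rw [card_leafy, Fintype.card_fin]
  have h1 : ∑ i, wl r Q (n - 2 * r - C) i = C + (n - 2 * r - C) := by
    unfold wl
    rw [Finset.sum_add_distrib, ← hC]
    congr 1
    rw [Finset.sum_eq_single (⟨2 * r - 1, by omega⟩ : Fin (2 * r))]
    · rw [if_pos]
      simp only
      omega
    · intro b _ hb
      rw [if_neg]
      intro h
      apply hb
      rw [Fin.ext_iff]
      simp only
      omega
    · intro h
      exact absurd (Finset.mem_univ _) h
  rw [h1]
  omega

end

end Pool.Agent.KPI
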